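import Pool.Agent.Helper83.GR.Gram
import Pool.Agent.Helper31.EC.AmS

/-! Bounded walks see the exact hull, part 10: walks with a fixed word, as iterated conditional copies. -/

namespace Pool.Agent.Helper83.GR

open Finset Filter Topology Matrix Pool.Agent.Helper69.RK Pool.Agent.Helper31.EC Pool.Agent.Helper40.EL Pool.Agent.Helper89.LX

noncomputable section

section
variable {Ω : Type} [Fintype Ω] {μ : Ω → ℝ}

omit [Fintype Ω] in
/-- the law of a path only depends on the first steps -/
theorem pm_congr {J J' : ℕ → Ω → Ω → ℝ} (n : ℕ) (h : ∀ m, m < n → J m = J' m) : ∀ p, pm μ J n p = pm μ J' n p := by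
  induction n with
  | zero => exact fun p => rfl
  | succ n ih =>
    intro p
    show pm μ J n p.1 * (J n (lst n p.1) p.2 / _) = pm μ J' n p.1 * (J' n (lst n p.1) p.2 / _)
    rw [ih (fun m hm => h m (by omega)) p.1, h n (by omega)]

/-- the steps of a word -/
def jw (JA JB : Ω → Ω → ℝ) (w : ℕ → Bool) (n : ℕ) : Ω → Ω → ℝ := if w n then JA else JB

theorem tr_avg (JA JB : Ω → Ω → ℝ) (f : Ω → ℝ) (ω : Ω) :
    tr μ (javg JA JB) f ω = (tr μ JA f ω + tr μ JB f ω) / 2 := by
  unfold tr javg
  rw [← add_div, ← Finset.sum_add_distrib, div_div, mul_comm (μ ω), ← div_div]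
  congr 1
  rw [Finset.sum_div]
  exact Finset.sum_congr rfl fun ω' _ => by ring

/-- some word is at least as good as the average -/
theorem exists_word (JA JB : Ω → Ω → ℝ) (n : ℕ) : ∀ H : Pt Ω n → ℝ, ∃ w : ℕ → Bool,
    ∑ p, pm μ (jw JA JB w) n p * H p ≤ ∑ p, pm μ (fun _ => javg JA JB) n p * H p := by
  induction n with
  | zero => exact fun H => ⟨fun _ => true, le_rfl⟩
  | succ n ih =>
    intro H
    have h1 := sum_pm_succ (μ := μ) (J := fun _ => javg JA JB) n H
    set HA : Pt Ω n → ℝ := fun p => tr μ JA (fun ω => H (p, ω)) (lst n p) with hHA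
    set HB : Pt Ω n → ℝ := fun p => tr μ JB (fun ω => H (p, ω)) (lst n p) with hHB
    have h2 : ∑ p, pm μ (fun _ => javg JA JB) (n + 1) p * H p =
        (∑ p, pm μ (fun _ => javg JA JB) n p * HA p + ∑ p, pm μ (fun _ => javg JA JB) n p * HB p) / 2 := by
      rw [h1, ← Finset.sum_add_distrib, Finset.sum_div]
      apply Finset.sum_congr rfl
      intro p _
      rw [tr_avg]
      ring
    have key : ∀ (b : Bool) (w : ℕ → Bool), ∑ p, pm μ (jw JA JB (fun m => if m < n then w m else b)) (n + 1) p * H p =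
        ∑ p, pm μ (jw JA JB w) n p * tr μ (if b then JA else JB) (fun ω => H (p, ω)) (lst n p) := by
      intro b w
      rw [sum_pm_succ]
      apply Finset.sum_congr rfl
      intro p _
      rw [pm_congr (J := jw JA JB (fun m => if m < n then w m else b)) (J' := jw JA JB w) n (fun m hm => by
        show (if (if m < n then w m else b) = true then JA else JB) = if w m = true then JA else JB
        rw [if_pos hm])]
      have e : jw JA JB (fun m => if m < n then w m else b) n = if b then JA else JB := by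
        show (if (if n < n then w n else b) = true then JA else JB) = if b = true then JA else JB
        rw [if_neg (lt_irrefl n)]
      rw [e]
    rcases le_total (∑ p, pm μ (fun _ => javg JA JB) n p * HA p) (∑ p, pm μ (fun _ => javg JA JB) n p * HB p) with h3 | h3
    · obtain ⟨w, hw⟩ := ih HA
      refine ⟨fun m => if m < n then w m else true, ?_⟩
      rw [key true w, h2]
      have e : ∑ p, pm μ (jw JA JB w) n p * tr μ (if true = true then JA else JB) (fun ω => H (p, ω)) (lst n p) =
          ∑ p, pm μ (jw JA JB w) n p * HA p := rfl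
      rw [e]
      linarith
    · obtain ⟨w, hw⟩ := ih HB
      refine ⟨fun m => if m < n then w m else false, ?_⟩
      rw [key false w, h2]
      have e : ∑ p, pm μ (jw JA JB w) n p * tr μ (if false = true then JA else JB) (fun ω => H (p, ω)) (lst n p) =
          ∑ p, pm μ (jw JA JB w) n p * HB p := rfl
      rw [e]
      linarith

end

/-- infinite word of a finite word -/
def ex (n : ℕ) (w : Fin n → Bool) : ℕ → Bool := fun m => if h : m < n then w ⟨m, h⟩ else false

/-- one word for almost all indices -/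
theorem exists_word_ev (n : ℕ) (P : ℕ → (ℕ → Bool) → Prop) (hc : ∀ k w w', (∀ m, m < n → w m = w' m) → P k w → P k w')
    (h : ∀ᶠ k in UF, ∃ w, P k w) : ∃ w, ∀ᶠ k in UF, P k w := by
  have h1 : ∀ᶠ k in UF, ∃ w : Fin n → Bool, P k (ex n w) := by
    filter_upwards [h] with k hk
    obtain ⟨w, hw⟩ := hk
    refine ⟨fun i => w i, hc k w _ (fun m hm => ?_) hw⟩
    unfold ex
    rw [dif_pos hm]
  by_contra hcon
  have h2 : ∀ w : Fin n → Bool, ∀ᶠ k in UF, ¬ P k (ex n w) :=
    fun w => Ultrafilter.eventually_not.mpr (not_exists.mp hcon (ex n w))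
  have h3 : ∀ᶠ k in UF, ∀ w : Fin n → Bool, ¬ P k (ex n w) := by
    rw [Filter.eventually_all]
    exact h2
  obtain ⟨k, ⟨w, a⟩, b⟩ := (h1.and h3).exists
  exact b w a

/-! ### walks as iterated conditional copies -/

/-- a space with a sequence of projections to `S` -/
structure Ch (S : Sp) where
  T : Sp
  n : ℕ
  pt : Fin (n + 1) → Pj T S

namespace Ch

variable {S : Sp}

/-- the last point -/
def last (C : Ch S) : Pj C.T S := C.pt (Fin.last C.n)

/-- one more step: a copy given the function `V` of the last point -/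
def step (C : Ch S) {α : ℕ → Type} (V : ∀ k, (S.F k).Ω → α k) : Ch S where
  T := (C.last.join V).sp
  n := C.n + 1
  pt := Fin.lastCases (motive := fun _ => Pj (C.last.join V).sp S) (C.last.join V).p2
    (fun i => (C.last.join V).p1.comp (C.pt i))

/-- the walk with the word `w` -/
def walk {α : Bool → ℕ → Type} (V : ∀ b k, (S.F k).Ω → α b k) (w : ℕ → Bool) : ℕ → Ch S
  | 0 => ⟨S, 0, fun _ => Pj.id S⟩
  | m + 1 => (walk V w m).step (V (w m))

variable {α : Bool → ℕ → Type} (V : ∀ b k, (S.F k).Ω → α b k) (w : ℕ → Bool)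

theorem walk_n (m : ℕ) : (walk V w m).n = m := by
  induction m with
  | zero => rfl
  | succ m ih => exact congrArg (· + 1) ih

/-- the points of the walk as a path -/
def pth : ∀ m k, ((walk V w m).T.F k).Ω → Pt (S.F k).Ω m
  | 0 => fun _ x => x
  | m + 1 => fun k x => (pth m k x.1, x.2)

omit w in
omit V in
theorem step_last (C : Ch S) {α : ℕ → Type} (V : ∀ k, (S.F k).Ω → α k) :
    (C.step V).pt (Fin.last (C.n + 1)) = (C.last.join V).p2 :=
  Fin.lastCases_last (motive := fun _ => Pj (C.last.join V).sp S)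

omit w in
omit V in
theorem step_cast (C : Ch S) {α : ℕ → Type} (V : ∀ k, (S.F k).Ω → α k) (i : Fin (C.n + 1)) :
    (C.step V).pt i.castSucc = (C.last.join V).p1.comp (C.pt i) :=
  Fin.lastCases_castSucc (motive := fun _ => Pj (C.last.join V).sp S) i

omit w in
omit V in
/-- sums over the points of a longer walk -/
theorem sum_step (C : Ch S) {α : ℕ → Type} (V : ∀ k, (S.F k).Ω → α k) {β : Type} [AddCommMonoid β]
    (f : Pj (C.step V).T S → β) : ∑ j : Fin ((C.step V).n + 1), f ((C.step V).pt j) =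
      ∑ i : Fin (C.n + 1), f ((C.last.join V).p1.comp (C.pt i)) + f (C.last.join V).p2 := by
  have h1 := Fin.sum_univ_castSucc (n := C.n + 1) (fun j => f ((C.step V).pt j))
  refine h1.trans ?_
  rw [step_last]
  congr 1
  exact Finset.sum_congr rfl fun i _ => by rw [step_cast]

theorem pth_last (m k : ℕ) : ∀ x, lst m (pth V w m k x) = (walk V w m).last.π k x := by
  cases m with
  | zero => exact fun x => rfl
  | succ m =>
    intro x
    have h1 : ((walk V w m).step (V (w m))).last = ((walk V w m).last.join (V (w m))).p2 := step_last _ _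
    show x.2 = ((walk V w m).step (V (w m))).last.π k x
    rw [h1]
    rfl

/-- the Gram matrix in terms of the points -/
theorem gm_pth {ι : Type} (Vm : ∀ k, (S.F k).Ω → Matrix ι ι ℝ) (m k : ℕ) : ∀ x,
    gm (Vm k) m (pth V w m k x) = ∑ j, Vm k (((walk V w m).pt j).π k x) := by
  induction m with
  | zero =>
    intro x
    show Vm k x = ∑ j : Fin 1, Vm k x
    simp
  | succ m ih =>
    intro x
    have h1 := sum_step (walk V w m) (V (w m)) (fun p => Vm k (p.π k x))
    refine Eq.trans ?_ h1.symm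
    show gm (Vm k) m (pth V w m k x.1) + Vm k x.2 = _
    rw [ih x.1]
    rfl

/-- the partitions of the steps -/
def pr (b : Bool) (k : ℕ) : Setoid (S.F k).Ω := Setoid.ker (V b k)

theorem jf_congr {Ω α β : Type} [Fintype Ω] (μ : Ω → ℝ) (f : Ω → α) (g : Ω → β) (h : ∀ ω ω', f ω = f ω' ↔ g ω = g ω') :
    jf μ f = jf μ g := by
  funext ω ω'
  unfold jf amw ms
  show e1_ind (f ω = f ω') * (μ ω * μ ω' / ∑ x, e1_ind (f x = f ω) * μ x) =
    e1_ind (g ω = g ω') * (μ ω * μ ω' / ∑ x, e1_ind (g x = g ω) * μ x)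
  rw [ind_congr (h ω ω'), Finset.sum_congr rfl (fun x _ => by rw [ind_congr (h x ω)])]

/-- expectations in the walk -/
theorem sum_walk (m k : ℕ) : ∀ H : Pt (S.F k).Ω m → ℝ,
    ∑ x, ((walk V w m).T.F k).μ x * H (pth V w m k x) =
      ∑ p, pm (S.F k).μ (jw (jf (S.F k).μ (Quotient.mk (pr V true k ⊓ (S.F k).Z)))
        (jf (S.F k).μ (Quotient.mk (pr V false k ⊓ (S.F k).Z))) w) m p * H p := by
  induction m with
  | zero => exact fun H => rfl
  | succ m ih =>
    intro H
    rw [sum_pm_succ]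
    set g : (S.F k).Ω → α (w m) k × Quotient (S.F k).Z := fun ω => (V (w m) k ω, Quotient.mk (S.F k).Z ω) with hg
    set J : (S.F k).Ω → (S.F k).Ω → ℝ := jw (jf (S.F k).μ (Quotient.mk (pr V true k ⊓ (S.F k).Z)))
        (jf (S.F k).μ (Quotient.mk (pr V false k ⊓ (S.F k).Z))) w m with hJ
    have hJg : J = jf (S.F k).μ g := by
      have key : ∀ b, jf (S.F k).μ (Quotient.mk (pr V b k ⊓ (S.F k).Z)) =
          jf (S.F k).μ (fun ω => (V b k ω, Quotient.mk (S.F k).Z ω)) := by
        intro b
        apply jf_congr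
        intro ω ω'
        rw [Prod.mk.injEq]
        constructor
        · intro h
          have h2 := Quotient.exact h
          exact ⟨h2.1, Quotient.sound h2.2⟩
        · rintro ⟨h1, h2⟩
          have h3 : (pr V b k ⊓ (S.F k).Z) ω ω' := ⟨h1, Quotient.exact h2⟩
          exact Quotient.sound h3
      rw [hJ, hg]
      unfold jw
      cases hb : w m
      · simp only [Bool.false_eq_true, if_false]
        exact key false
      · simp only [if_true]
        exact key true
    have h1 := ih (fun p => tr (S.F k).μ J (fun ω => H (p, ω)) (lst m p))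
    rw [← h1]
    have h2 : ∑ x, ((walk V w (m + 1)).T.F k).μ x * H (pth V w (m + 1) k x) =
        ∑ x : ((walk V w m).T.F k).Ω, ∑ ω : (S.F k).Ω,
          amw ((walk V w m).T.F k).μ (S.F k).μ (fun x => g ((walk V w m).last.π k x)) g (x, ω) *
            H (pth V w m k x, ω) :=
      Fintype.sum_prod_type (fun x : ((walk V w m).T.F k).Ω × (S.F k).Ω =>
        amw ((walk V w m).T.F k).μ (S.F k).μ (fun x => g ((walk V w m).last.π k x)) g x *
            H (pth V w m k x.1, x.2))
    rw [h2]
    apply Finset.sum_congr rfl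
    intro x _
    rw [hJg, pth_last]
    set y := (walk V w m).last.π k x with hy
    by_cases h0 : ((walk V w m).T.F k).μ x = 0
    · rw [h0, zero_mul]
      apply Finset.sum_eq_zero
      intro ω _
      unfold amw
      show e1_ind _ * (((walk V w m).T.F k).μ x * _ / _) * _ = 0
      rw [h0]; ring
    have hμy : (S.F k).μ y ≠ 0 := (walk V w m).last.supp k x h0
    unfold tr
    rw [← mul_div_assoc, Finset.mul_sum, Finset.sum_div]
    apply Finset.sum_congr rfl
    intro ω _
    have hms : ms ((walk V w m).T.F k).μ (fun x => g ((walk V w m).last.π k x)) (g y) = ms (S.F k).μ g (g y) := by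
      rw [ms_push ((walk V w m).last.π k) ((walk V w m).T.F k).μ g, (walk V w m).last.law k]
    unfold jf amw
    show e1_ind (g y = g ω) * (((walk V w m).T.F k).μ x * (S.F k).μ ω /
        ms ((walk V w m).T.F k).μ (fun x => g ((walk V w m).last.π k x)) (g y)) * _ =
      ((walk V w m).T.F k).μ x * (e1_ind (g y = g ω) * ((S.F k).μ y * (S.F k).μ ω / ms (S.F k).μ g (g y)) * _) / (S.F k).μ y
    rw [hms]
    field_simp

end Ch

open Classical in
/-- THEOREM GRAM with a word: the walk consists of conditional copies given `V true` or given `V false` -/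
theorem gram_word (ι : Type) [Fintype ι] [DecidableEq ι] (C e η : ℝ) (hC : 0 ≤ C) (he : 0 < e) (hη : 0 < η) :
    ∃ (N : ℕ) (e₀ : ℝ), 0 < e₀ ∧ ∀ (S : Sp) (Φ : Gau S ι), Φ.C ≤ C → ∀ {α : Bool → ℕ → Type}
      (V : ∀ b k, (S.F k).Ω → α b k) (σ : ℝ) (g₀ Vm : ∀ k, (S.F k).Ω → Matrix ι ι ℝ),
      GD Φ (fun k => Setoid.ker (V true k)) (fun k => Setoid.ker (V false k)) σ e₀ g₀ Vm →
      ∃ w : ℕ → Bool, ∀ᶠ k in UF, ((Ch.walk V w N).T.F k).pb (fun x =>
        ¬ Uni (2 ^ (-e * (S.F k).n)) (g₀ k ((Ch.walk V w N).last.π k x))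
          (∑ j, Vm k (((Ch.walk V w N).pt j).π k x))) ≤ η := by
  obtain ⟨N, e₀, he₀, h⟩ := gram_lazy ι C e η hC he hη
  refine ⟨N, e₀, he₀, fun S Φ hΦ α V σ g₀ Vm hD => ?_⟩
  have h1 := h S Φ hΦ _ _ σ g₀ Vm hD
  have h2 : ∀ᶠ k in UF, ∃ w : ℕ → Bool, ∑ p, pm (S.F k).μ (jw (jf (S.F k).μ (Quotient.mk (Ch.pr V true k ⊓ (S.F k).Z)))
        (jf (S.F k).μ (Quotient.mk (Ch.pr V false k ⊓ (S.F k).Z))) w) N p *
        e1_ind (¬ Uni (2 ^ (-e * (S.F k).n)) (g₀ k (lst N p)) (gm (Vm k) N p)) ≤ η := by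
    filter_upwards [h1] with k hk
    obtain ⟨w, hw⟩ := exists_word (μ := (S.F k).μ) (jf (S.F k).μ (Quotient.mk (Ch.pr V true k ⊓ (S.F k).Z)))
      (jf (S.F k).μ (Quotient.mk (Ch.pr V false k ⊓ (S.F k).Z))) N
      (fun p => e1_ind (¬ Uni (2 ^ (-e * (S.F k).n)) (g₀ k (lst N p)) (gm (Vm k) N p)))
    exact ⟨w, hw.trans hk⟩
  obtain ⟨w, hw⟩ := exists_word_ev N (fun k w => ∑ p, pm (S.F k).μ (jw (jf (S.F k).μ (Quotient.mk (Ch.pr V true k ⊓ (S.F k).Z)))
        (jf (S.F k).μ (Quotient.mk (Ch.pr V false k ⊓ (S.F k).Z))) w) N p *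
        e1_ind (¬ Uni (2 ^ (-e * (S.F k).n)) (g₀ k (lst N p)) (gm (Vm k) N p)) ≤ η) (by
    intro k w w' hww h3
    refine le_trans (le_of_eq ?_) h3
    apply Finset.sum_congr rfl
    intro p _
    rw [pm_congr (J' := jw (jf (S.F k).μ (Quotient.mk (Ch.pr V true k ⊓ (S.F k).Z)))
        (jf (S.F k).μ (Quotient.mk (Ch.pr V false k ⊓ (S.F k).Z))) w) N (fun m hm => by unfold jw; rw [hww m hm])]) h2
  refine ⟨w, ?_⟩
  filter_upwards [hw] with k hk
  have h3 := Ch.sum_walk V w N k
    (fun p => e1_ind (¬ Uni (2 ^ (-e * (S.F k).n)) (g₀ k (lst N p)) (gm (Vm k) N p)))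
  rw [← h3] at hk
  rw [pb_eq_ind]
  refine le_trans (le_of_eq ?_) hk
  apply Finset.sum_congr rfl
  intro x _
  rw [Ch.pth_last, Ch.gm_pth]

end

end Pool.Agent.Helper83.GR
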