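import Pool.Agent.Helper83.GR.FGram
import Pool.Agent.Helper83.GR.Word
import Pool.Agent.Helper40.EL.D2

/-! Bounded walks see the exact hull, in the space over a label: transfer of the data of THEOREM GRAM. -/

namespace Pool.Agent.Helper83.GR

open Finset Filter Topology Matrix Pool.Agent.Helper69.RK Pool.Agent.Helper31.EC Pool.Agent.Helper40.EL Pool.Agent.Helper89.LX
open Pool.Agent.Helper95.LF (PdM)

noncomputable section

variable {ι : Type} [Fintype ι] [DecidableEq ι] {S : Sp} {κ : Type}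

theorem ovr_n1 (l : Lab S) (k : ℕ) : ((l.ovr 1 one_pos).F k).n = (S.F k).n := by
  rw [l.n_over, one_mul]

/-- the gauge in the space over a label -/
def ovG (Φ : Gau S ι) (l : Lab S) : Gau (l.ovr 1 one_pos) ι where
  φ := fun k ω A => Φ.φ k ((l k).p.π ω) A
  add := fun k ω A B => Φ.add k _ A B
  nn := fun k ω A hA => Φ.nn k _ A hA
  C := Φ.C
  C0 := Φ.C0
  cap := by
    filter_upwards [Φ.cap] with k hk ω hω A hA x
    rw [ovr_n1]
    exact hk _ ((l k).p.supp ω hω) A hA x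
  one := by
    obtain ⟨K, hK, h1⟩ := Φ.one
    refine ⟨K, ⟨hK.1, ?_⟩, ?_⟩
    · refine hK.2.congr fun k => ?_
      rw [ovr_n1]
    · filter_upwards [h1] with k hk ω hω
      exact hk _ ((l k).p.supp ω hω)

theorem ovG_cp (Φ : Gau S ι) (l : Lab S) (k : ℕ) : (ovG Φ l).cp k = Φ.cp k := by
  unfold Gau.cp
  rw [ovr_n1]
  rfl

/-- the conditions in the space over a label -/
def upS (l : Lab S) (A : κ → ∀ k, Setoid (S.F k).Ω) (i : κ) (k : ℕ) : Setoid ((l.ovr 1 one_pos).F k).Ω :=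
  Setoid.comap (l k).p.π (A i k)

theorem fc_upS (l : Lab S) (A : κ → ∀ k, Setoid (S.F k).Ω) (i : κ) (k : ℕ) :
    (fc (upS l A i k) : FL ((l.ovr 1 one_pos).F k)) = (l k).up 1 one_pos (fc (A i k)) := rfl

/-- a form over a label as a form of the space -/
def cmpF (l : Lab S) (y : ∀ k, FD ((l.ovr 1 one_pos).F k) ι) (k : ℕ) : FD (S.F k) ι where
  l := (l k).comp 1 one_pos (y k).l
  g := (y k).g
  g' := (y k).g'
  meas := fun ω ω' h h' hV hZ => by
    have a1 : (l k).T.μ ((y k).l.p.π ω) ≠ 0 := (y k).l.p.supp ω h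
    have a2 : (l k).T.μ ((y k).l.p.π ω') ≠ 0 := (y k).l.p.supp ω' h'
    have b1 : (l k).V ((y k).l.p.π ω) ((y k).l.p.π ω') := hV.1
    have b2 : (y k).l.V ω ω' := hV.2
    have b4 : (l k).T.Z ((y k).l.p.π ω) ((y k).l.p.π ω') := ((l k).p.hZ _ _ a1 a2).mpr hZ
    have b5 : (y k).l.T.Z ω ω' := ((y k).l.p.hZ ω ω' h h').mpr ⟨b1, b4⟩
    exact (y k).meas ω ω' h h' b2 b5

theorem cmpF_sc (l : Lab S) (y : ∀ k, FD ((l.ovr 1 one_pos).F k) ι) (k : ℕ) : (cmpF l y k).sc = (y k).sc := rfl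

theorem cmpF_Adf {Φ : Gau S ι} {l : Lab S} {A : κ → ∀ k, Setoid (S.F k).Ω} [Finite κ]
    (hl : ∀ i, Nul S (fun k => (l k).leak (fc (A i k)))) {y : ∀ k, FD ((l.ovr 1 one_pos).F k) ι}
    (hy : Adf (ovG Φ l) (fun i k => fc (upS l A i k)) y) : Adf Φ (fun i k => fc (A i k)) (cmpF l y) := by
  intro η hη
  have h2 : ∀ᶠ k in UF, ∀ i, (l k).leak (fc (A i k)) ≤ η / 2 * (S.F k).n := by
    rw [Filter.eventually_all]
    intro i
    have h3 := (hl i).eventually (gt_mem_nhds (show (0 : ℝ) < η / 2 by linarith))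
    filter_upwards [h3] with k hk
    have hn := (S.F k).pos
    rw [div_lt_iff₀ hn] at hk
    exact hk.le
  filter_upwards [hy (η / 2) (by linarith), h2] with k hk h3
  have hn := (S.F k).pos
  obtain ⟨a1, a2, a3, a4⟩ := hk
  have e0 : ((l.ovr 1 one_pos).F k).n = (S.F k).n := ovr_n1 l k
  refine ⟨fun i => ?_, fun ω hω => ?_, ?_, ?_⟩
  · have h4 := (l k).comp_leak_le 1 one_pos (y k).l (fc (A i k))
    have h5 : (y k).l.leak (fc (upS l A i k)) ≤ η / 2 * ((l.ovr 1 one_pos).F k).n := a1 i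
    rw [e0] at h5
    have h6 : (y k).l.leak ((l k).up 1 one_pos (fc (A i k))) = (y k).l.leak (fc (upS l A i k)) := rfl
    have h7 : (cmpF l y k).l.leak (fc (A i k)) = ((l k).comp 1 one_pos (y k).l).leak (fc (A i k)) := rfl
    have h8 := h3 i
    have h9 : (l k).leak (fc (A i k)) + (y k).l.leak ((l k).up 1 one_pos (fc (A i k))) ≤ η * (S.F k).n := by
      have h10 : (y k).l.leak ((l k).up 1 one_pos (fc (A i k))) ≤ η / 2 * (S.F k).n := h5
      linarith
    exact h4.trans h9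
  · have h4 := a2 ω hω
    rw [ovG_cp] at h4
    exact h4
  · have h4 : (2 : ℝ) ^ (η / 2 * (S.F k).n) ≤ 2 ^ (η * (S.F k).n) :=
      Real.rpow_le_rpow_of_exponent_le (by norm_num) (by nlinarith)
    rw [e0] at a3
    refine le_trans (FSp.pb_mono _ ?_) (a3.trans (by linarith))
    intro ω _ h5 h6
    exact h5 (le_trans h6 h4)
  · have h4 : (2 : ℝ) ^ (η / 2 * (S.F k).n) ≤ 2 ^ (η * (S.F k).n) :=
      Real.rpow_le_rpow_of_exponent_le (by norm_num) (by nlinarith)
    rw [e0] at a4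
    refine le_trans (FSp.pb_mono _ ?_) (a4.trans (by linarith))
    intro ω _ h5 h6
    exact h5 (le_trans h6 h4)

/-- the value is inherited by the space over a label of leak zero -/
theorem valf_ovr {Φ : Gau S ι} {l : Lab S} {A : κ → ∀ k, Setoid (S.F k).Ω} [Finite κ]
    (hl : ∀ i, Nul S (fun k => (l k).leak (fc (A i k)))) {σ : ℝ} (h : Valf Φ (fun i k => fc (A i k)) σ) :
    Valf (ovG Φ l) (fun i k => fc (upS l A i k)) σ := by
  intro y hy
  have h1 := h _ (cmpF_Adf hl hy)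
  have h2 : (fun k => (y k).sc / ((l.ovr 1 one_pos).F k).n) = fun k => (cmpF l y k).sc / (S.F k).n := by
    funext k
    rw [ovr_n1]
    rfl
  rw [h2]
  exact h1

/-- optimal sequences for a family of conditions -/
def Optf (Φ : Gau S ι) (A : κ → Part S) (x : ∀ k, FD (S.F k) ι) : Prop :=
  Adf Φ A x ∧ ∀ y, Adf Φ A y → ul (fun k => (y k).sc / (S.F k).n) ≤ ul (fun k => (x k).sc / (S.F k).n)

theorem optf_bool {Φ : Gau S ι} {A B : Part S} {x : ∀ k, FD (S.F k) ι} :
    Optf Φ (fun b : Bool => if b then A else B) x ↔ Φ.Opt A B x := by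
  unfold Optf Gau.Opt
  rw [adf_bool]
  constructor
  · exact fun h => ⟨h.1, fun y hy => h.2 y (adf_bool.mpr hy)⟩
  · exact fun h => ⟨h.1, fun y hy => h.2 y (adf_bool.mp hy)⟩

/-- the label of a sequence of labels with forms -/
def lbl (x : ∀ k, FD (S.F k) ι) : Lab S := fun k => (x k).l

/-- the forms over the label -/
def fo (x : ∀ k, FD (S.F k) ι) (k : ℕ) : (((lbl x).ovr 1 one_pos).F k).Ω → Matrix ι ι ℝ := (x k).g

/-- the matrices of the gauge over the label -/
def vo (x : ∀ k, FD (S.F k) ι) (V : ∀ k, (S.F k).Ω → Matrix ι ι ℝ) (k : ℕ) :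
    (((lbl x).ovr 1 one_pos).F k).Ω → Matrix ι ι ℝ := fun ω => V k ((x k).l.p.π ω)

/-- the data of THEOREM GRAM in the space over an optimal label -/
theorem gdf_ovr [Finite κ] [Nonempty κ] {Φ : Gau S ι} {A : κ → ∀ k, Setoid (S.F k).Ω} {x : ∀ k, FD (S.F k) ι}
    (hx : Optf Φ (fun i k => fc (A i k)) x) {e₀ : ℝ} (he₀ : 0 < e₀) {V : ∀ k, (S.F k).Ω → Matrix ι ι ℝ}
    (hV : ∀ k ω, IsV (Φ.φ k ω) (V k ω)) :
    GDf (ovG Φ (lbl x)) (upS (lbl x) A) (ul (fun k => (x k).sc / (S.F k).n)) e₀ (fo x) (vo x V) where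
  val := by
    apply valf_ovr
    · intro i
      show Tendsto (fun k => (x k).l.leak (fc (A i k)) / (S.F k).n) UF (𝓝 0)
      rw [Metric.tendsto_nhds]
      intro ε hε
      filter_upwards [hx.1 (ε / 2) (by linarith)] with k hk
      have hn := (S.F k).pos
      rw [Real.dist_eq, sub_zero, abs_of_nonneg (div_nonneg (FLab.leak_nonneg _ _) hn.le), div_lt_iff₀ hn]
      have := hk.1 i
      nlinarith
    · exact hx.2
  base := fun k ω ω' h1 h2 hZ => by
    have h3 : ((x k).l.V ⊓ (x k).l.T.Z) ω ω' := hZ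
    exact ((x k).meas ω ω' h1 h2 h3.1 h3.2).1
  cpd := by
    filter_upwards [hx.1 1 one_pos] with k hk ω hω
    have h1 := (hk.2.1 ω hω).1
    rw [ovG_cp]
    exact h1
  sml := by
    intro η hη
    filter_upwards [hx.1 η hη] with k hk
    rw [ovr_n1]
    exact hk.2.2.1
  scr := by
    have h1 : ul (fun k => (x k).sc / (S.F k).n) - e₀ < ul (fun k => (x k).sc / (S.F k).n) := by linarith
    filter_upwards [eventually_gt_of_lt_ul hx.1.sc_UB h1] with k hk
    have hn := (S.F k).pos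
    rw [lt_div_iff₀ hn] at hk
    rw [ovr_n1]
    exact hk.le
  isV := fun k ω => hV k _

end

end Pool.Agent.Helper83.GR
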