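import Pool.Agent.Helper75.GR.Stmts

/-!
MP_d210aa_gt: the Poincare inequality for the determinantal weights (module DPO).
-/

set_option autoImplicit false

open Finset MeasureTheory Matrix

namespace Pool.Agent.Helper75.GR

open Pool.Agent.Helper44.GF Pool.Agent.Helper44.GN Pool.Agent.Helper44.GH

theorem dpo_psd {ι : Type} {M : ℕ} (s : Finset ι) (e : ι → ℝ) (p : ι → Fin M → ℝ) :
    0 ≤ ∑ x ∈ s, ∑ y ∈ s, e x * e y * (∑ a, p x a * p y a) ^ 2 := by
  have h1 : ∀ x y, e x * e y * (∑ a, p x a * p y a) ^ 2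
      = ∑ a, ∑ b, (e x * (p x a * p x b)) * (e y * (p y a * p y b)) := by
    intro x y
    rw [sq, Finset.sum_mul_sum, Finset.mul_sum]
    refine Finset.sum_congr rfl fun a _ => ?_
    rw [Finset.mul_sum]
    refine Finset.sum_congr rfl fun b _ => ?_
    ring
  have h3 : ∀ a b, (∑ x ∈ s, e x * (p x a * p x b)) ^ 2
      = ∑ x ∈ s, ∑ y ∈ s, (e x * (p x a * p x b)) * (e y * (p y a * p y b)) := by
    intro a b
    rw [sq, Finset.sum_mul_sum]
  have h : ∑ x ∈ s, ∑ y ∈ s, e x * e y * (∑ a, p x a * p y a) ^ 2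
      = ∑ a, ∑ b, (∑ x ∈ s, e x * (p x a * p x b)) ^ 2 := by
    calc ∑ x ∈ s, ∑ y ∈ s, e x * e y * (∑ a, p x a * p y a) ^ 2
        = ∑ x ∈ s, ∑ y ∈ s, ∑ a, ∑ b, (e x * (p x a * p x b)) * (e y * (p y a * p y b)) :=
          Finset.sum_congr rfl fun x _ => Finset.sum_congr rfl fun y _ => h1 x y
      _ = ∑ x ∈ s, ∑ a, ∑ y ∈ s, ∑ b, (e x * (p x a * p x b)) * (e y * (p y a * p y b)) :=
          Finset.sum_congr rfl fun x _ => Finset.sum_comm
      _ = ∑ a, ∑ x ∈ s, ∑ y ∈ s, ∑ b, (e x * (p x a * p x b)) * (e y * (p y a * p y b)) :=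
          Finset.sum_comm
      _ = ∑ a, ∑ x ∈ s, ∑ b, ∑ y ∈ s, (e x * (p x a * p x b)) * (e y * (p y a * p y b)) :=
          Finset.sum_congr rfl fun a _ => Finset.sum_congr rfl fun x _ => Finset.sum_comm
      _ = ∑ a, ∑ b, ∑ x ∈ s, ∑ y ∈ s, (e x * (p x a * p x b)) * (e y * (p y a * p y b)) :=
          Finset.sum_congr rfl fun a _ => Finset.sum_comm
      _ = _ := Finset.sum_congr rfl fun a _ => Finset.sum_congr rfl fun b _ => (h3 a b).symm
  rw [h]
  exact Finset.sum_nonneg fun a _ => Finset.sum_nonneg fun b _ => sq_nonneg _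

theorem dpo_fac {m : ℕ} (A : Matrix (Fin m) (Fin m) ℝ) (hA : A.PosSemidef) :
    ∃ (M : ℕ) (b : Fin M → Fin m → ℝ), ∀ v w : Fin m → ℝ,
      v ⬝ᵥ (A *ᵥ w) = ∑ k, (v ⬝ᵥ b k) * (w ⬝ᵥ b k) := by
  obtain ⟨M, b, hB⟩ := Matrix.posSemidef_iff_eq_sum_vecMulVec.1 hA
  refine ⟨M, b, fun v w => ?_⟩
  rw [hB, Matrix.sum_mulVec, dotProduct_sum]
  refine Finset.sum_congr rfl fun k _ => ?_
  rw [star_trivial, Matrix.vecMulVec_mulVec, dotProduct_comm (b k) w]
  simp [mul_comm]

section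

variable {n m : ℕ} {Y : Type} [Fintype Y] [DecidableEq Y]

theorem dpo_pos (δ : ℝ) (r : Y → ℝ) (hδ : 0 < δ) (hr : ∀ y, 0 < r y)
    (η : Finset (Fin n × Y)) : tau δ r η ∈ Og n := by
  intro i
  have h : 0 ≤ ∑ y, if (i, y) ∈ η then r y else 0 := Finset.sum_nonneg fun y _ => by
    split_ifs
    · exact (hr y).le
    · exact le_rfl
  unfold tau
  linarith

theorem dpo_tau (δ : ℝ) (r : Y → ℝ) (η : Finset (Fin n × Y)) (x : Fin n × Y) (hx : x ∉ η) :
    tau δ r (insert x η) = Function.update (tau δ r η) x.1 (tau δ r η x.1 + r x.2) := by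
  ext i
  by_cases h : i = x.1
  · subst h
    rw [Function.update_self]
    unfold tau
    have h1 : ∀ y, (if (x.1, y) ∈ insert x η then r y else 0)
        = (if (x.1, y) ∈ η then r y else 0) + if y = x.2 then r y else 0 := by
      intro y
      by_cases hy : y = x.2
      · subst hy
        simp [hx]
      · have h2 : (x.1, y) ≠ x := fun h => hy (by rw [← h])
        simp [Finset.mem_insert, h2, hy]
    rw [Finset.sum_congr rfl fun y _ => h1 y, Finset.sum_add_distrib]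
    simp
    ring
  · rw [Function.update_of_ne h]
    unfold tau
    congr 1
    refine Finset.sum_congr rfl fun y _ => ?_
    have h2 : (i, y) ≠ x := fun h' => h (by rw [← h'])
    simp [Finset.mem_insert, h2]

theorem dpo_usum (τ v : Fin n → ℝ) (j : Fin n) (s : ℝ) :
    ∑ i, Function.update τ j (τ j + s) i * v i = ∑ i, τ i * v i + s * v j := by
  have h : ∀ i, Function.update τ j (τ j + s) i * v i
      = τ i * v i + if i = j then s * v i else 0 := by
    intro i
    rw [Function.update_apply]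
    split_ifs with hi
    · subst hi
      ring
    · ring
  rw [Finset.sum_congr rfl fun i _ => h i, Finset.sum_add_distrib]
  congr 1
  rw [Finset.sum_ite_eq' Finset.univ j fun i => s * v i]
  simp

/-- The quadratic form in the birth rates is nonnegative. -/
theorem dpo_quad {ι : Type} [DecidableEq ι] {M : ℕ} (s : Finset ι) (b c D : ι → ℝ)
    (k E : ι → ι → ℝ) (p : ι → Fin M → ℝ) (hb : ∀ x, 0 < b x) (hk : ∀ x y, 0 ≤ k x y)
    (hc : ∀ x, 0 ≤ c x) (hbc : ∀ x, c x * ∑ a, p x a * p x a ≤ b x)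
    (h : ∀ x ∈ s, ∀ y ∈ s, x ≠ y →
      b x * b y * (1 - k x y) = c x * c y * (∑ a, p x a * p y a) ^ 2) :
    0 ≤ ∑ x ∈ s, b x ^ 2 * D x ^ 2 + ∑ x ∈ s, ∑ y ∈ s.erase x, b x * b y *
      ((1 - k x y) * (D x * D y) + k x y * E x y ^ 2) := by
  have h0 := dpo_psd s (fun x => c x * D x) p
  have h1 : ∀ x ∈ s, ∑ y ∈ s, (c x * D x) * (c y * D y) * (∑ a, p x a * p y a) ^ 2
      = (c x * D x) * (c x * D x) * (∑ a, p x a * p x a) ^ 2
        + ∑ y ∈ s.erase x, (c x * D x) * (c y * D y) * (∑ a, p x a * p y a) ^ 2 :=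
    fun x hx => (Finset.add_sum_erase s _ hx).symm
  rw [Finset.sum_congr rfl h1, Finset.sum_add_distrib] at h0
  have h2 : ∑ x ∈ s, (c x * D x) * (c x * D x) * (∑ a, p x a * p x a) ^ 2
      ≤ ∑ x ∈ s, b x ^ 2 * D x ^ 2 := by
    refine Finset.sum_le_sum fun x _ => ?_
    have h3 : 0 ≤ ∑ a, p x a * p x a := Finset.sum_nonneg fun a _ => mul_self_nonneg _
    have h4 : (c x * ∑ a, p x a * p x a) ^ 2 ≤ b x ^ 2 :=
      pow_le_pow_left₀ (mul_nonneg (hc x) h3) (hbc x) 2
    have h5 := mul_le_mul_of_nonneg_right h4 (sq_nonneg (D x))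
    calc (c x * D x) * (c x * D x) * (∑ a, p x a * p x a) ^ 2
        = (c x * ∑ a, p x a * p x a) ^ 2 * D x ^ 2 := by ring
      _ ≤ _ := h5
  have h6 : ∑ x ∈ s, ∑ y ∈ s.erase x, (c x * D x) * (c y * D y) * (∑ a, p x a * p y a) ^ 2
      ≤ ∑ x ∈ s, ∑ y ∈ s.erase x, b x * b y *
        ((1 - k x y) * (D x * D y) + k x y * E x y ^ 2) := by
    refine Finset.sum_le_sum fun x hx => Finset.sum_le_sum fun y hy => ?_
    have h7 := h x hx y (Finset.mem_of_mem_erase hy) (Finset.ne_of_mem_erase hy).symm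
    have h8 : 0 ≤ b x * b y * (k x y * E x y ^ 2) :=
      mul_nonneg (mul_pos (hb x) (hb y)).le (mul_nonneg (hk x y) (sq_nonneg _))
    calc (c x * D x) * (c y * D y) * (∑ a, p x a * p y a) ^ 2
        = (c x * c y * (∑ a, p x a * p y a) ^ 2) * (D x * D y) := by ring
      _ = b x * b y * (1 - k x y) * (D x * D y) := by rw [h7]
      _ ≤ _ := by linarith
  linarith

end

theorem st_DPO (hB : ST_BOCH) (hG : ST_GAP) (hUPD : ST_UPD) : ST_DPO := by
  intro n m Y _ _ δ r z V hδ hr hz hV q F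
  have hτ := fun η : Finset (Fin n × Y) => dpo_pos δ r hδ hr η
  have hu := fun (η : Finset (Fin n × Y)) (x : Fin n × Y) =>
    hUPD n m V V hV (tau δ r η) (hτ η) x.1 (r x.2) (hr x.2).le
  have hh0 : ∀ (η : Finset (Fin n × Y)) (x : Fin n × Y), 0 ≤ hh V (tau δ r η) x.1 :=
    fun η x => (hu η x).2.2.1
  have hpd : ∀ η : Finset (Fin n × Y), (TT V V (tau δ r η)).PosDef := by
    intro η
    unfold TT
    have h := Matrix.PosDef.conjTranspose_mul_mul_same
      (Matrix.PosDef.diagonal (d := tau δ r η) (hτ η)) hV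
    rwa [Matrix.conjTranspose_eq_transpose_of_trivial] at h
  obtain ⟨b, hb⟩ : ∃ b : Finset (Fin n × Y) → Fin n × Y → ℝ, ∀ η x, b η x
      = z x.2 * Real.exp (-(r x.2 * q x.1)) * (1 + r x.2 * hh V (tau δ r η) x.1) :=
    ⟨_, fun η x => rfl⟩
  obtain ⟨c, hc⟩ : ∃ c : Fin n × Y → ℝ, ∀ x, c x
      = z x.2 * Real.exp (-(r x.2 * q x.1)) * r x.2 := ⟨_, fun x => rfl⟩
  have h1p : ∀ (η : Finset (Fin n × Y)) (x : Fin n × Y),
      0 < 1 + r x.2 * hh V (tau δ r η) x.1 := by
    intro η x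
    have := mul_nonneg (hr x.2).le (hh0 η x)
    linarith
  have hbp : ∀ η x, 0 < b η x := by
    intro η x
    rw [hb]
    exact mul_pos (mul_pos (hz _) (Real.exp_pos _)) (h1p η x)
  have hcp : ∀ x, 0 ≤ c x := by
    intro x
    rw [hc]
    exact (mul_pos (mul_pos (hz _) (Real.exp_pos _)) (hr _)).le
  have hW : ∀ η : Finset (Fin n × Y), 0 < wq V δ r z q η := fun η =>
    mul_pos (mul_pos (Finset.prod_pos fun x _ => hz x.2) (Real.exp_pos _)) (hpd η).det_pos
  have hCp : Compat (wq V δ r z q) b := by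
    intro η x hx
    unfold wq zw
    rw [dpo_tau δ r η x hx, Finset.prod_insert hx, dpo_usum, hb, (hu η x).2.2.2.2.1, neg_add,
      Real.exp_add]
    ring
  obtain ⟨k, hk⟩ : ∃ k : Finset (Fin n × Y) → Fin n × Y → Fin n × Y → ℝ, ∀ η x y, k η x y
      = (1 + r x.2 * hh V (tau δ r (insert y η)) x.1) / (1 + r x.2 * hh V (tau δ r η) x.1) :=
    ⟨_, fun η x y => rfl⟩
  have hk0 : ∀ η x y, 0 ≤ k η x y := by
    intro η x y
    rw [hk]
    exact (div_pos (h1p _ x) (h1p η x)).le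
  have hbk : ∀ η x y, x ∉ η → y ∉ η → x ≠ y → b (insert y η) x = b η x * k η x y := by
    intro η x y _ _ _
    rw [hb, hb, hk]
    have := (h1p η x).ne'
    field_simp
  have hBO := hB (Fin n × Y) (wq V δ r z q) b k hCp hbk
  have hlow : ∀ g : Finset (Fin n × Y) → ℝ,
      1 * dir (wq V δ r z q) b g ≤ ∑ η, wq V δ r z q η * gen b g η ^ 2 := by
    intro g
    rw [hBO g, one_mul]
    have h : 0 ≤ ∑ η, wq V δ r z q η * (∑ x ∈ ηᶜ, b η x ^ 2 * dd g η x ^ 2
        + ∑ x ∈ ηᶜ, ∑ y ∈ ηᶜ.erase x, b η x * b η y *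
            ((1 - k η x y) * (dd g η x * dd g η y) + k η x y * dd2 g η x y ^ 2)) := by
      refine Finset.sum_nonneg fun η _ => mul_nonneg (hW η).le ?_
      obtain ⟨M, bb, hbb⟩ := dpo_fac _ (hpd η).inv.posSemidef
      have hhe : ∀ i, hh V (tau δ r η) i = ∑ a, (V i ⬝ᵥ bb a) * (V i ⬝ᵥ bb a) := by
        intro i
        unfold hh uu
        exact hbb _ _
      refine dpo_quad _ (b η) c (dd g η) (k η) (dd2 g η) (fun x a => V x.1 ⬝ᵥ bb a)
        (hbp η) (hk0 η) hcp ?_ ?_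
      · intro x
        rw [← hhe, hb, hc]
        have h2 : 0 < z x.2 * Real.exp (-(r x.2 * q x.1)) := mul_pos (hz _) (Real.exp_pos _)
        nlinarith
      · intro x _ y hy _
        have hy' : y ∉ η := by simpa using hy
        have h3 : V x.1 ⬝ᵥ uu V (tau δ r η) y.1
            = ∑ a, (V x.1 ⬝ᵥ bb a) * (V y.1 ⬝ᵥ bb a) := by
          unfold uu
          exact hbb _ _
        have h4 : hh V (tau δ r (insert y η)) x.1 = hh V (tau δ r η) x.1
            - r y.2 / (1 + r y.2 * hh V (tau δ r η) y.1)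
              * (V x.1 ⬝ᵥ uu V (tau δ r η) y.1) ^ 2 := by
          have h5 := (hu η y).2.2.2.2.2.1
          unfold hh
          rw [dpo_tau δ r η y hy']
          unfold uu
          rw [h5, Matrix.sub_mulVec, Matrix.smul_mulVec, Matrix.vecMulVec_mulVec,
            dotProduct_sub, dotProduct_smul]
          have h6 : uu V (tau δ r η) y.1 ⬝ᵥ V x.1 = V x.1 ⬝ᵥ uu V (tau δ r η) y.1 :=
            dotProduct_comm _ _
          rw [h6, dotProduct_smul]
          simp only [MulOpposite.smul_eq_mul_unop, MulOpposite.unop_op, smul_eq_mul]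
          unfold hh uu
          ring
        rw [← h3, hb, hb, hc, hc, hk, h4]
        have h7 := (h1p η x).ne'
        have h8 := (h1p η y).ne'
        field_simp
        ring
    simp only [mul_add, Finset.sum_add_distrib] at h ⊢
    linarith
  have h := hG (Fin n × Y) (wq V δ r z q) b hW hbp hCp 1 one_pos hlow F
  rw [inv_one, one_mul] at h
  refine h.trans (le_of_eq ?_)
  unfold dir
  congr 1
  refine Finset.sum_congr rfl fun η _ => ?_
  congr 1
  refine Finset.sum_congr rfl fun x _ => ?_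
  rw [hb]

end Pool.Agent.Helper75.GR
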