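import Pool.Agent.Helper75.GR.Stmts

/-!
# The local inequality (MP_d210aa_gt, module LOC)
-/

open Finset MeasureTheory Filter Topology Matrix
open scoped ENNReal ContDiff

namespace Pool.Agent.Helper75.GR

open Pool.Agent.Helper44.GF Pool.Agent.Helper44.GN Pool.Agent.Helper44.GH

theorem loc_og (n : ℕ) : MeasurableSet (Og n) := by
  have h : Og n = ⋂ i : Fin n, (fun y : Fin n → ℝ => y i) ⁻¹' Set.Ioi 0 := by
    ext y
    simp [Og]
  rw [h]
  exact MeasurableSet.iInter fun i => (measurable_pi_apply i) measurableSet_Ioi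

/-- Continuous functions are integrable. -/
theorem loc_int {n : ℕ} (P : Measure (Fin n → ℝ)) [IsProbabilityMeasure P] (a b : ℝ)
    (ha : 0 < a) (hP : ∀ᵐ y ∂P, ∀ i, a ≤ y i ∧ y i ≤ b) (F : (Fin n → ℝ) → ℝ)
    (hF : ContinuousOn F (Og n)) : Integrable F P := by
  have hO : ∀ᵐ y ∂P, y ∈ Og n := hP.mono fun y hy i => ha.trans_le (hy i).1
  have hm : AEStronglyMeasurable F P := by
    have h2 := Measure.restrict_eq_self_of_ae_mem hO
    rw [← h2]
    exact hF.aestronglyMeasurable (loc_og n)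
  have hcomp : IsCompact (Set.Icc (fun _ : Fin n => a) (fun _ => b)) := isCompact_Icc
  have hsub : Set.Icc (fun _ : Fin n => a) (fun _ => b) ⊆ Og n :=
    fun y hy i => ha.trans_le (hy.1 i)
  obtain ⟨C, hC⟩ := hcomp.exists_bound_of_continuousOn (hF.mono hsub)
  refine Integrable.of_bound hm C (hP.mono fun y hy => ?_)
  exact hC y ⟨fun i => (hy i).1, fun i => (hy i).2⟩

theorem st_LOC (hROW : ST_ROW) (hTWO : ST_TWO) (hMAF : ST_MAF) (hCNT : ST_CNT)
    (hVAR : ST_VAR) (hDIR : ST_DIR) (hSGF : ST_SGF) : ST_LOC := by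
  intro n m Y _ _ s ζ δ r z V Z hMD hV hEX hZ
  obtain ⟨P, hPp, hPb, hF, hK, hJ⟩ := hROW n m Y s ζ δ r z V hMD hV
  obtain ⟨hq, _, _, hB, hs⟩ := hCNT n m V Z hV
  obtain ⟨_, hM1, hM2, hM3⟩ := hMAF n m V Z hV
  have hδ := hMD.d0
  -- continuity
  have hT : ContinuousOn (fun y => Matrix.trace (BB V Z y)) (Og n) := by
    simp only [Matrix.trace, Matrix.diag_apply]
    exact continuousOn_finsetSum _ (fun a _ => hB a a)
  have hTT : ContinuousOn (fun y => Matrix.trace (BB V Z y * BB V Z y)) (Og n) := by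
    simp only [Matrix.trace, Matrix.diag_apply, Matrix.mul_apply]
    exact continuousOn_finsetSum _ (fun a _ =>
      continuousOn_finsetSum _ (fun b _ => (hB a b).mul (hB b a)))
  have hMT : MA (fun y => qf V y * Matrix.trace (BB V Z y)) := by
    intro y hy i
    choose c hc using fun a => hM1 a a y hy i
    refine ⟨∑ a, c a, fun s hs => ?_⟩
    simp only [Matrix.trace, Matrix.diag_apply, Finset.mul_sum, Finset.sum_mul]
    rw [← Finset.sum_add_distrib]
    exact Finset.sum_congr rfl fun a _ => hc a s hs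
  -- positivity of the weights
  have hτ : ∀ η : Finset (Fin n × Y), tau δ r η ∈ Og n := by
    intro η i
    have h : 0 ≤ ∑ y, if (i, y) ∈ η then r y else 0 := Finset.sum_nonneg fun y _ => by
      split_ifs
      · exact (hMD.r0 y).le
      · exact le_rfl
    unfold tau
    linarith
  have hW : ∀ η : Finset (Fin n × Y), 0 < W1 V δ r z η := fun η =>
    mul_pos (Finset.prod_pos fun x _ => hMD.z0 x.2) (Real.rpow_pos_of_pos (hq _ (hτ η)) _)
  have hMS : 0 < MS V δ r z := Finset.sum_pos (fun η _ => hW η) ⟨∅, Finset.mem_univ _⟩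
  -- the integrals
  have hI0 : ∀ a b, ∫ y, BB V Z y a b ∂P = 0 := by
    intro a b
    rw [hF (fun y => BB V Z y a b) (hB a b) (hM1 a b)]
    exact hEX a b
  have i1 : Integrable (fun y => Matrix.trace (BB V Z y) ^ 2) P :=
    loc_int P δ (ld δ r z 0) hδ hPb _ (hT.pow 2)
  have i2 : Integrable (fun y => sgm V Z y) P := loc_int P δ (ld δ r z 0) hδ hPb _ hs
  have i3 : Integrable (fun y => Matrix.trace (BB V Z y * BB V Z y)) P :=
    loc_int P δ (ld δ r z 0) hδ hPb _ hTT
  have hI1 : ∫ y, (Matrix.trace (BB V Z y) ^ 2 + sgm V Z y) ∂P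
      = EX V δ r z (fun y => Matrix.trace (BB V Z y) ^ 2 + sgm V Z y) :=
    hF (fun y => Matrix.trace (BB V Z y) ^ 2 + sgm V Z y) ((hT.pow 2).add hs) hM3
  have hI2 : ∫ y, (Matrix.trace (BB V Z y * BB V Z y) - Matrix.trace (BB V Z y) ^ 2) ∂P
      = EX V δ r z
        (fun y => Matrix.trace (BB V Z y * BB V Z y) - Matrix.trace (BB V Z y) ^ 2) :=
    hF (fun y => Matrix.trace (BB V Z y * BB V Z y) - Matrix.trace (BB V Z y) ^ 2)
      (hTT.sub (hT.pow 2)) hM2
  rw [integral_add i1 i2] at hI1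
  rw [integral_sub i3 i1] at hI2
  have hI3 := hK (fun y => Matrix.trace (BB V Z y)) hT hMT
  have hI4 := hDIR n m Y s ζ δ r z V Z hMD hV
  have hI5 := hTWO n m P δ (ld δ r z 0) (49 / 100) V Z hδ (by norm_num) hPb hV hJ hI0
  have hE0 : EX V δ r z (fun y => Matrix.trace (BB V Z y)) = 0 := by
    have h1 : EX V δ r z (fun y => Matrix.trace (BB V Z y))
        = ∑ a, EX V δ r z (fun y => BB V Z y a a) := by
      unfold EX
      rw [← Finset.sum_div, Finset.sum_comm]
      congr 1
      refine Finset.sum_congr rfl (fun η _ => ?_)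
      simp only [Matrix.trace, Matrix.diag_apply, Finset.mul_sum]
    rw [h1]
    exact Finset.sum_eq_zero (fun a _ => hEX a a)
  have hI6 := hVAR n m Y s ζ δ r z V Z hMD hV hE0
  -- the sums
  set S1 : ℝ := ∑ η : Finset (Fin n × Y), W1 V δ r z η
    * Matrix.trace (BB V Z (tau δ r η)) ^ 2 with hS1
  set S2 : ℝ := ∑ η : Finset (Fin n × Y), W1 V δ r z η
    * Matrix.trace (BB V Z (tau δ r η) * BB V Z (tau δ r η)) with hS2
  set S3 : ℝ := ∑ η : Finset (Fin n × Y), W1 V δ r z η * sgm V Z (tau δ r η) with hS3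
  have e1 : EX V δ r z (fun y => Matrix.trace (BB V Z y) ^ 2 + sgm V Z y)
      = (S1 + S3) / MS V δ r z := by
    unfold EX
    congr 1
    rw [hS1, hS3, ← Finset.sum_add_distrib]
    exact Finset.sum_congr rfl (fun η _ => by ring)
  have e2 : EX V δ r z
        (fun y => Matrix.trace (BB V Z y * BB V Z y) - Matrix.trace (BB V Z y) ^ 2)
      = (S2 - S1) / MS V δ r z := by
    unfold EX
    congr 1
    rw [hS1, hS2, ← Finset.sum_sub_distrib]
    exact Finset.sum_congr rfl (fun η _ => by ring)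
  have e3 : M2 V Z δ r z = S1 + S2 - S3 := by
    unfold M2
    rw [hS1, hS2, hS3, ← Finset.sum_add_distrib, ← Finset.sum_sub_distrib]
    exact Finset.sum_congr rfl (fun η _ => by ring)
  have e4 : EX V δ r z (fun y => Matrix.trace (BB V Z y) ^ 2) = S1 / MS V δ r z := rfl
  have e5 : EX V δ r z (fun y => sgm V Z y) = S3 / MS V δ r z := rfl
  -- strict positivity
  have hS3p : 0 < S3 := by
    have hn : ∀ η : Finset (Fin n × Y), 0 ≤ W1 V δ r z η * sgm V Z (tau δ r η) := fun η =>
      mul_nonneg (hW η).le (hSGF n m V Z hV _ (hτ η)).2.2.2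
    refine lt_of_le_of_ne (Finset.sum_nonneg fun η _ => hn η) fun h0 => hZ ?_
    have h1 : ∀ η : Finset (Fin n × Y), sgm V Z (tau δ r η) = 0 := by
      intro η
      have h2 := (Finset.sum_eq_zero_iff_of_nonneg fun η _ => hn η).1 h0.symm η
        (Finset.mem_univ _)
      rcases mul_eq_zero.1 h2 with h | h
      · exact absurd h (hW η).ne'
      · exact h
    have h2 : ∀ (η : Finset (Fin n × Y)) (i : Fin n), rr V Z (tau δ r η) i = 0 := by
      intro η i
      have hpd : (TT V V (tau δ r η)).PosDef := by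
        unfold TT
        have h := Matrix.PosDef.conjTranspose_mul_mul_same
          (Matrix.PosDef.diagonal (d := tau δ r η) (hτ η)) hV
        rwa [Matrix.conjTranspose_eq_transpose_of_trivial] at h
      have hpi := hpd.inv
      have hnn : ∀ w : Fin m → ℝ, 0 ≤ w ⬝ᵥ (TT V V (tau δ r η))⁻¹ *ᵥ w := by
        intro w
        have h := hpi.posSemidef.dotProduct_mulVec_nonneg w
        simpa using h
      have h3 := (hSGF n m V Z hV _ (hτ η)).2.1
      rw [h1 η] at h3
      have h4 := (Finset.sum_eq_zero_iff_of_nonneg fun j _ =>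
        mul_nonneg (hτ η j).le (hnn _)).1 h3.symm i (Finset.mem_univ _)
      rcases mul_eq_zero.1 h4 with h | h
      · exact absurd h (hτ η i).ne'
      · by_contra hne
        have h5 := hpi.dotProduct_mulVec_pos (x := rr V Z (tau δ r η) i) hne
        simp only [star_trivial] at h5
        linarith
    have h3 : ∀ (η : Finset (Fin n × Y)) (i : Fin n) (b : Fin m),
        Z i b = ∑ a, BB V Z (tau δ r η) a b * V i a := by
      intro η i b
      have h := congrFun (h2 η i) b
      have h4 : rr V Z (tau δ r η) i b = Z i b - ∑ a, BB V Z (tau δ r η) a b * V i a := rfl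
      rw [h4, Pi.zero_apply] at h
      linarith
    have h5 : ∀ a b, ∑ η : Finset (Fin n × Y), W1 V δ r z η * BB V Z (tau δ r η) a b = 0 := by
      intro a b
      have h := hEX a b
      unfold EX at h
      rcases div_eq_zero_iff.1 h with h | h
      · exact h
      · exact absurd h hMS.ne'
    ext i b
    have h6 : MS V δ r z * Z i b = 0 := by
      unfold MS
      rw [Finset.sum_mul]
      have h7 : ∀ η : Finset (Fin n × Y), W1 V δ r z η * Z i b
          = ∑ a, (W1 V δ r z η * BB V Z (tau δ r η) a b) * V i a := by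
        intro η
        rw [h3 η i b, Finset.mul_sum]
        exact Finset.sum_congr rfl fun a _ => by ring
      rw [Finset.sum_congr rfl fun η _ => h7 η, Finset.sum_comm]
      refine Finset.sum_eq_zero fun a _ => ?_
      rw [← Finset.sum_mul, h5, zero_mul]
    rcases mul_eq_zero.1 h6 with h | h
    · exact absurd h hMS.ne'
    · simpa using h
  rw [e1] at hI1
  rw [e2] at hI2
  rw [e4] at hI3
  rw [e4, e5] at hI6
  have hI7 := hI3.trans hI4
  rw [e3]
  have m1 : S1 / MS V δ r z * MS V δ r z = S1 := div_mul_cancel₀ _ hMS.ne'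
  have m2 : S2 / MS V δ r z * MS V δ r z = S2 := div_mul_cancel₀ _ hMS.ne'
  have m3 : S3 / MS V δ r z * MS V δ r z = S3 := div_mul_cancel₀ _ hMS.ne'
  have hx3 : 0 < S3 / MS V δ r z := div_pos hS3p hMS
  rw [add_div] at hI1
  rw [sub_div] at hI2
  generalize (∫ y, Matrix.trace (BB V Z y) ^ 2 ∂P) = tP at *
  generalize (∫ y, Matrix.trace (BB V Z y * BB V Z y) ∂P) = TP at *
  generalize (∫ y, sgm V Z y ∂P) = sP at *
  generalize MS V δ r z = M at *
  rw [← m1, ← m2, ← m3]
  rw [← m3] at hI7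
  generalize S1 / M = x1 at *
  generalize S2 / M = x2 at *
  generalize S3 / M = x3 at *
  have hI8 : x1 - tP ≤ 2225 / 10000 * x3 := by
    have h : M * (x1 - tP) ≤ M * (2225 / 10000 * x3) := by linarith
    exact le_of_mul_le_mul_left h hMS
  have hfin : x1 + x2 - x3 < 0 := by linarith
  have h9 : x1 * M + x2 * M - x3 * M = M * (x1 + x2 - x3) := by ring
  rw [h9]
  exact mul_neg_of_pos_of_neg hMS hfin

end Pool.Agent.Helper75.GR
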