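import Pool.Agent.Helper83.GR.DPO

/-!
# The representation of expectations by a probability measure, with the conditional variance
(module PM)
-/

open Finset MeasureTheory Filter Topology Matrix
open scoped ENNReal ContDiff

namespace Pool.Agent.Helper75.GR

open Pool.Agent.Helper44.GF Pool.Agent.Helper44.GN Pool.Agent.Helper44.GH

section PM

variable {n m : ℕ} {Y : Type} [Fintype Y]

theorem pm_ld_cont (δ : ℝ) (r z : Y → ℝ) (hz : ∀ y, 0 < z y) : Continuous (ld δ r z) := by
  unfold ld bz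
  refine continuous_const.add (continuous_finsetSum _ fun y _ => continuous_const.mul ?_)
  refine Continuous.div (by fun_prop) (by fun_prop) fun u => ?_
  have := mul_pos (hz y) (Real.exp_pos (-(u * r y)))
  linarith

theorem pm_nq_cont (V : Matrix (Fin n) (Fin m) ℝ) (i : Fin n) :
    Continuous fun X : Fin 3 → Fin m → ℝ => nq V X i := by
  unfold nq Matrix.mulVec dotProduct
  fun_prop

theorem pm_nq_nonneg (V : Matrix (Fin n) (Fin m) ℝ) (X : Fin 3 → Fin m → ℝ) (i : Fin n) :
    0 ≤ nq V X i := Finset.sum_nonneg fun _ _ => sq_nonneg _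

theorem pm_wd {α : Type*} [MeasurableSpace α] (μ : Measure α) (w : α → ℝ) (hw : Measurable w)
    (h0 : ∀ x, 0 ≤ w x) (g : α → ℝ) :
    ∫ x, g x ∂(μ.withDensity fun x => ENNReal.ofReal (w x)) = ∫ x, w x * g x ∂μ := by
  rw [integral_withDensity_eq_integral_toReal_smul hw.ennreal_ofReal
    (Filter.Eventually.of_forall fun x => ENNReal.ofReal_lt_top)]
  refine integral_congr_ae (Filter.Eventually.of_forall fun x => ?_)
  show (ENNReal.ofReal (w x)).toReal • g x = w x * g x
  rw [ENNReal.toReal_ofReal (h0 x), smul_eq_mul]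

theorem pm_Og (n : ℕ) : MeasurableSet (Og n) := by
  have h : Og n = ⋂ i : Fin n, (fun y : Fin n → ℝ => y i) ⁻¹' Set.Ioi 0 := by
    ext y
    simp [Og]
  rw [h]
  exact MeasurableSet.iInter fun i => (measurable_pi_apply i) measurableSet_Ioi

/-- The density. -/
noncomputable def pmd (h t : ℝ) : ℝ :=
  4 / √Real.pi * h ^ (-(3 / 2) : ℝ) * t ^ 2 * Real.exp (-(t ^ 2 / h))

theorem pmd_nonneg (h t : ℝ) (hh : 0 ≤ h) : 0 ≤ pmd h t := by
  unfold pmd
  have := Real.rpow_nonneg hh (-(3 / 2))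
  positivity

theorem pmd_cont (h : ℝ) : Continuous (pmd h) := by
  unfold pmd
  fun_prop

theorem pmd_int (h : ℝ) (hh : 0 < h) : Integrable (pmd h) := by
  have h1 := integrable_rpow_mul_exp_neg_mul_sq (inv_pos.2 hh) (s := 2) (by norm_num)
  refine (h1.const_mul (4 / √Real.pi * h ^ (-(3 / 2) : ℝ))).congr
    (Filter.Eventually.of_forall fun t => ?_)
  show 4 / √Real.pi * h ^ (-(3 / 2) : ℝ) * (t ^ (2 : ℝ) * Real.exp (-h⁻¹ * t ^ 2)) = pmd h t
  unfold pmd
  have h2 : t ^ (2 : ℝ) = t ^ 2 := by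
    rw [← Real.rpow_natCast]
    norm_num
  have h3 : -h⁻¹ * t ^ 2 = -(t ^ 2 / h) := by
    rw [div_eq_mul_inv]
    ring
  rw [h2, h3]
  ring

theorem pmd_bdd (h : ℝ) (hh : 0 < h) (ψ : ℝ → ℝ) (hψ : Continuous ψ) (C : ℝ)
    (hC : ∀ t, |ψ t| ≤ C) : Integrable (fun t => ψ t * pmd h t) :=
  Integrable.bdd_mul (c := C) (pmd_int h hh) hψ.aestronglyMeasurable
    (Filter.Eventually.of_forall fun t => by
      rw [Real.norm_eq_abs]
      exact hC t)

theorem pm_law (hGI3 : ST_GI3) (hGL3 : ST_GL3)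
    (V : Matrix (Fin n) (Fin m) ℝ) (hV : Function.Injective V.mulVec)
    (y : Fin n → ℝ) (hy : y ∈ Og n) (hq : 0 < qf V y) (i : Fin n) (hi : V i ≠ 0)
    (hh0 : 0 < hh V y i)
    (ψ : ℝ → ℝ) (hψ : Continuous ψ) :
    ∫ X : Fin 3 → Fin m → ℝ, Real.exp (-∑ j, y j * nq V X j) * ψ (√(nq V X i))
      = G0 m ^ 3 * (qf V y) ^ (-(3 / 2) : ℝ)
        * ∫ t in Set.Ioi (0 : ℝ), pmd (hh V y i) t * ψ t := by
  have hG := (hGI3 n m V hV y hy).1
  have hc : 0 ≤ G0 m ^ 3 * (qf V y) ^ (-(3 / 2) : ℝ) :=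
    mul_nonneg (pow_pos hG 3).le (Real.rpow_nonneg hq.le _)
  have hEm : Measurable fun X : Fin 3 → Fin m → ℝ => Real.exp (-∑ j, y j * nq V X j) := by
    have h1 : Continuous fun X : Fin 3 → Fin m → ℝ => Real.exp (-∑ j, y j * nq V X j) :=
      Real.continuous_exp.comp (continuous_finsetSum _ fun j _ =>
        continuous_const.mul (pm_nq_cont V j)).neg
    exact h1.measurable
  have hnm : Measurable fun X : Fin 3 → Fin m → ℝ => √(nq V X i) :=
    (Real.continuous_sqrt.comp (pm_nq_cont V i)).measurable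
  have hμ : Measure.map (fun X : Fin 3 → Fin m → ℝ => √(nq V X i))
      (volume.withDensity fun X => ENNReal.ofReal (Real.exp (-∑ j, y j * nq V X j)))
      = ENNReal.ofReal (G0 m ^ 3 * (qf V y) ^ (-(3 / 2) : ℝ)) •
        (volume.restrict (Set.Ioi (0 : ℝ))).withDensity
          fun t => ENNReal.ofReal (pmd (hh V y i) t) := by
    refine Measure.ext_of_lintegral _ fun f hf => ?_
    have hfn : Measurable fun X : Fin 3 → Fin m → ℝ => f (√(nq V X i)) := hf.comp hnm
    rw [lintegral_map hf hnm, lintegral_withDensity_eq_lintegral_mul _ hEm.ennreal_ofReal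
      hfn, lintegral_smul_measure, lintegral_withDensity_eq_lintegral_mul _
      (pmd_cont _).measurable.ennreal_ofReal hf]
    have h1 := hGL3 n m V hV y hy i hi f hf
    have h2 : ∫⁻ X : Fin 3 → Fin m → ℝ, ((fun X : Fin 3 → Fin m → ℝ =>
        ENNReal.ofReal (Real.exp (-∑ j, y j * nq V X j))) * fun X => f (√(nq V X i))) X
        = ∫⁻ X : Fin 3 → Fin m → ℝ, f (√(nq V X i))
          * ENNReal.ofReal (Real.exp (-∑ j, y j * nq V X j)) :=
      lintegral_congr fun X => mul_comm _ _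
    have h3 : ∫⁻ t in Set.Ioi (0 : ℝ), ((fun t => ENNReal.ofReal (pmd (hh V y i) t)) * f) t
        = ∫⁻ t in Set.Ioi (0 : ℝ), f t * ENNReal.ofReal (4 / √Real.pi
          * (hh V y i) ^ (-(3 / 2) : ℝ) * t ^ 2 * Real.exp (-(t ^ 2 / hh V y i))) :=
      lintegral_congr fun t => mul_comm _ _
    rw [smul_eq_mul, h3, ← h1]
    exact h2
  have h1 : ∫ t, ψ t ∂(Measure.map (fun X : Fin 3 → Fin m → ℝ => √(nq V X i))
      (volume.withDensity fun X => ENNReal.ofReal (Real.exp (-∑ j, y j * nq V X j))))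
      = ∫ t, ψ t ∂(ENNReal.ofReal (G0 m ^ 3 * (qf V y) ^ (-(3 / 2) : ℝ)) •
        (volume.restrict (Set.Ioi (0 : ℝ))).withDensity
          fun t => ENNReal.ofReal (pmd (hh V y i) t)) := by
    rw [hμ]
  rw [integral_map hnm.aemeasurable hψ.aestronglyMeasurable, integral_smul_measure,
    pm_wd _ _ hEm (fun X => (Real.exp_pos _).le), pm_wd _ _ (pmd_cont _).measurable
    (fun t => pmd_nonneg _ _ hh0.le), ENNReal.toReal_ofReal hc, smul_eq_mul] at h1
  exact h1

end PM

theorem st_PM (hPE : ST_PE) (hSLV : ST_SLV) (hCNT : ST_CNT) (hMAF : ST_MAF) (hUPD : ST_UPD)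
    (hGI3 : ST_GI3) (hGL3 : ST_GL3) (hDPO : ST_DPO) : ST_PM := by
  intro n m Y _ _ s ζ δ r z V hM hV
  have hδ := hM.d0
  have hr := hM.r0
  have hz := hM.z0
  have hτ : ∀ η : Finset (Fin n × Y), tau δ r η ∈ Og n := by
    intro η i
    have h : 0 ≤ ∑ y, if (i, y) ∈ η then r y else 0 := Finset.sum_nonneg fun y _ => by
      split_ifs
      · exact (hr y).le
      · exact le_rfl
    unfold tau
    linarith
  have hqp := (hCNT n m V V hV).1
  have hG : 0 < G0 m := (hGI3 n m V hV _ (hτ ∅)).1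
  have hMq := (hMAF n m V V hV).1
  set K : ℝ := (∏ y, (1 + z y)) ^ n with hKdef
  have hK : 0 < K := pow_pos (Finset.prod_pos fun y _ => by linarith [hz y]) n
  have hldc := pm_ld_cont δ r z hz
  obtain ⟨R, hRdef⟩ : ∃ R : (Fin 3 → Fin m → ℝ) → Fin n → ℝ,
      ∀ X i, R X i = ld δ r z (nq V X i) := ⟨_, fun X i => rfl⟩
  have hRc : Continuous R := by
    refine continuous_pi fun i => ?_
    simp only [hRdef]
    exact hldc.comp (pm_nq_cont V i)
  have hRb : ∀ X i, δ ≤ R X i ∧ R X i ≤ ld δ r z 0 := by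
    intro X i
    have h := hSLV Y s ζ δ r z hM (nq V X i) (pm_nq_nonneg V X i)
    rw [hRdef]
    exact ⟨h.2.2.1, h.2.2.2.1⟩
  have hRO : ∀ X, R X ∈ Og n := fun X i => hδ.trans_le (hRb X i).1
  obtain ⟨E, hE⟩ : ∃ E : Finset (Fin n × Y) → (Fin 3 → Fin m → ℝ) → ℝ,
      ∀ η X, E η X = Real.exp (-∑ i, tau δ r η i * nq V X i) := ⟨_, fun η X => rfl⟩
  have hEc : ∀ η, Continuous (E η) := by
    intro η
    have h : E η = fun X => Real.exp (-∑ i, tau δ r η i * nq V X i) := funext fun X => hE η X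
    rw [h]
    exact Real.continuous_exp.comp (continuous_finsetSum _ fun j _ =>
        continuous_const.mul (pm_nq_cont V j)).neg
  have hEi : ∀ η, Integrable (E η) ∧ ∫ X, E η X
      = G0 m ^ 3 * (qf V (tau δ r η)) ^ (-(3 / 2) : ℝ) := by
    intro η
    have h := hGI3 n m V hV _ (hτ η)
    have h1 : E η = fun X => Real.exp (-∑ i, tau δ r η i * nq V X i) := funext fun X => hE η X
    rw [h1]
    exact ⟨h.2.2.2.1, h.2.2.2.2⟩
  obtain ⟨W, hW⟩ : ∃ W : (Fin 3 → Fin m → ℝ) → ℝ,
      ∀ X, W X = K⁻¹ * ∑ η, zw z η * E η X * qf V (tau δ r η) := ⟨_, fun X => rfl⟩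
  have hWc : Continuous W := by
    have h : W = fun X => K⁻¹ * ∑ η, zw z η * E η X * qf V (tau δ r η) := funext hW
    rw [h]
    exact continuous_const.mul (continuous_finsetSum _ fun η _ =>
      (continuous_const.mul (hEc η)).mul continuous_const)
  have hPEE : ∀ G : (Fin n → ℝ) → ℝ, MA G → ∀ X, K⁻¹ * ∑ η, zw z η * E η X * G (tau δ r η)
      = Real.exp (-∑ i, lam δ r z (nq V X i)) * G (R X) := by
    intro G hGM X
    have h := hPE n Y δ r z hδ hr hz G hGM (nq V X)
    have h1 : R X = fun i => ld δ r z (nq V X i) := funext fun i => hRdef X i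
    have h2 : ∑ η, zw z η * E η X * G (tau δ r η)
        = K * Real.exp (-∑ i, lam δ r z (nq V X i)) * G (R X) := by
      rw [h1, hKdef, ← h]
      exact Finset.sum_congr rfl fun η _ => by rw [hE]
    rw [h2]
    field_simp
  have hWe : ∀ X, W X = Real.exp (-∑ i, lam δ r z (nq V X i)) * qf V (R X) := by
    intro X
    rw [hW]
    exact hPEE (fun y => qf V y) hMq X
  have hWpos : ∀ X, 0 < W X := by
    intro X
    rw [hWe]
    exact mul_pos (Real.exp_pos _) (hqp _ (hRO X))
  have hWF : ∀ F : (Fin n → ℝ) → ℝ, MA (fun y => qf V y * F y) → ∀ X, W X * F (R X)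
      = K⁻¹ * ∑ η, zw z η * E η X * (qf V (tau δ r η) * F (tau δ r η)) := by
    intro F hF X
    rw [hPEE (fun y => qf V y * F y) hF X, hWe]
    ring
  have hint : ∀ c : Finset (Fin n × Y) → ℝ,
      Integrable (fun X => K⁻¹ * ∑ η, zw z η * E η X * c η) ∧
      ∫ X, K⁻¹ * ∑ η, zw z η * E η X * c η
        = K⁻¹ * ∑ η, zw z η * (G0 m ^ 3 * (qf V (tau δ r η)) ^ (-(3 / 2) : ℝ)) * c η := by
    intro c
    have h1 : ∀ η : Finset (Fin n × Y), Integrable (fun X => zw z η * E η X * c η) :=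
      fun η => ((hEi η).1.const_mul _).mul_const _
    refine ⟨(integrable_finsetSum _ fun η _ => h1 η).const_mul _, ?_⟩
    rw [integral_const_mul, integral_finsetSum _ fun η _ => h1 η]
    congr 1
    refine Finset.sum_congr rfl fun η _ => ?_
    rw [integral_mul_const, integral_const_mul, (hEi η).2]
  have hpw : ∀ η : Finset (Fin n × Y), (qf V (tau δ r η)) ^ (-(3 / 2) : ℝ) * qf V (tau δ r η)
      = (qf V (tau δ r η)) ^ (-(1 / 2) : ℝ) := by
    intro η
    have h1 := Real.rpow_add (hqp _ (hτ η)) (-(3 / 2)) 1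
    rw [Real.rpow_one] at h1
    rw [← h1]
    norm_num
  have hMS : 0 < MS V δ r z := by
    refine Finset.sum_pos (fun η _ => ?_) Finset.univ_nonempty
    exact mul_pos (Finset.prod_pos fun x _ => hz x.2) (Real.rpow_pos_of_pos (hqp _ (hτ η)) _)
  have hWi : Integrable W := by
    have h := (hint fun η => qf V (tau δ r η)).1
    have h1 : W = fun X => K⁻¹ * ∑ η, zw z η * E η X * qf V (tau δ r η) := funext hW
    rw [h1]
    exact h
  have hWI : ∫ X, W X = K⁻¹ * G0 m ^ 3 * MS V δ r z := by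
    have h := (hint fun η => qf V (tau δ r η)).2
    have h1 : W = fun X => K⁻¹ * ∑ η, zw z η * E η X * qf V (tau δ r η) := funext hW
    rw [h1, h, mul_assoc]
    congr 1
    unfold MS
    rw [Finset.mul_sum]
    refine Finset.sum_congr rfl fun η _ => ?_
    unfold W1
    rw [← hpw η]
    ring
  set W0 : ℝ := K⁻¹ * G0 m ^ 3 * MS V δ r z with hW0
  have hW0p : 0 < W0 := mul_pos (mul_pos (inv_pos.2 hK) (pow_pos hG 3)) hMS
  have hwm : Measurable fun X => W0⁻¹ * W X := (continuous_const.mul hWc).measurable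
  have hwn : ∀ X, 0 ≤ W0⁻¹ * W X := fun X => mul_nonneg (inv_pos.2 hW0p).le (hWpos X).le
  obtain ⟨ν, hν⟩ : ∃ ν : Measure (Fin 3 → Fin m → ℝ),
      ν = volume.withDensity fun X => ENNReal.ofReal (W0⁻¹ * W X) := ⟨_, rfl⟩
  have hνp : IsProbabilityMeasure ν := by
    refine ⟨?_⟩
    rw [hν, withDensity_apply _ MeasurableSet.univ, Measure.restrict_univ,
      ← ofReal_integral_eq_lintegral_ofReal (hWi.const_mul _)
        (Filter.Eventually.of_forall hwn), integral_const_mul, hWI,
      inv_mul_cancel₀ hW0p.ne', ENNReal.ofReal_one]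
  have hRm : AEMeasurable R ν := hRc.measurable.aemeasurable
  have hPO : ∀ᵐ y ∂(Measure.map R ν), y ∈ Og n :=
    (ae_map_iff hRm (pm_Og n)).2 (Filter.Eventually.of_forall hRO)
  have hFm : ∀ F : (Fin n → ℝ) → ℝ, ContinuousOn F (Og n) →
      AEStronglyMeasurable F (Measure.map R ν) := by
    intro F hF
    have h2 := Measure.restrict_eq_self_of_ae_mem hPO
    rw [← h2]
    exact hF.aestronglyMeasurable (pm_Og n)
  have hFI : ∀ F : (Fin n → ℝ) → ℝ, ContinuousOn F (Og n) →
      ∫ y, F y ∂(Measure.map R ν) = W0⁻¹ * ∫ X, W X * F (R X) := by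
    intro F hF
    rw [integral_map hRm (hFm F hF), hν, pm_wd _ _ hwm hwn, ← integral_const_mul]
    exact integral_congr_ae (Filter.Eventually.of_forall fun X => mul_assoc _ _ _)
  refine ⟨Measure.map R ν, Measure.isProbabilityMeasure_map hRm, ?_, ?_, ?_, ?_, ?_⟩
  · have h1 : {y : Fin n → ℝ | ∀ i, δ ≤ y i ∧ y i ≤ ld δ r z 0}
        = Set.Icc (fun _ => δ) (fun _ => ld δ r z 0) := by
      ext y
      simp [Set.mem_Icc, Pi.le_def, forall_and]
    refine (ae_map_iff hRm ?_).2 (Filter.Eventually.of_forall hRb)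
    rw [h1]
    exact measurableSet_Icc
  · intro F hFc hFM
    rw [hFI F hFc]
    simp only [hWF F hFM]
    rw [(hint fun η => qf V (tau δ r η) * F (tau δ r η)).2]
    unfold EX
    rw [hW0]
    have h1 : ∑ η, zw z η * (G0 m ^ 3 * (qf V (tau δ r η)) ^ (-(3 / 2) : ℝ))
          * (qf V (tau δ r η) * F (tau δ r η))
        = G0 m ^ 3 * ∑ η, W1 V δ r z η * F (tau δ r η) := by
      rw [Finset.mul_sum]
      refine Finset.sum_congr rfl fun η _ => ?_
      unfold W1
      rw [← hpw η]
      ring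
    rw [h1]
    field_simp
  · intro i hi φ hφ
    have hhp : ∀ η, 0 < hh V (tau δ r η) i := by
      intro η
      obtain ⟨-, -, h1, h2, -⟩ := hUPD n m V V hV _ (hτ η) i 0 le_rfl
      exact lt_of_le_of_ne h1 fun h => hi (h2 h.symm)
    have hψc : Continuous fun t : ℝ => φ (ld δ r z (t ^ 2)) := by
      refine hφ.comp_continuous (hldc.comp (continuous_pow 2)) fun t => ?_
      have h := hSLV Y s ζ δ r z hM (t ^ 2) (sq_nonneg t)
      exact hδ.trans_le h.2.2.1
    obtain ⟨C, hC⟩ := (isCompact_Icc (a := δ) (b := ld δ r z 0)).exists_bound_of_continuousOn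
      (hφ.mono fun t ht => hδ.trans_le ht.1)
    have hψb : ∀ t : ℝ, |φ (ld δ r z (t ^ 2))| ≤ C := by
      intro t
      have h := hSLV Y s ζ δ r z hM (t ^ 2) (sq_nonneg t)
      have h1 := hC _ ⟨h.2.2.1, h.2.2.2.1⟩
      rwa [Real.norm_eq_abs] at h1
    have hφc : ContinuousOn (fun y : Fin n → ℝ => φ (y i)) (Og n) :=
      hφ.comp (continuous_apply i).continuousOn fun y hy => hy i
    rw [hFI _ hφc]
    have hsq : ∀ X, φ (R X i) = φ (ld δ r z (√(nq V X i) ^ 2)) := by
      intro X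
      rw [Real.sq_sqrt (pm_nq_nonneg V X i), hRdef]
    have hexp : ∀ X, W X * φ (R X i) = K⁻¹ * ∑ η, zw z η * qf V (tau δ r η)
        * (Real.exp (-∑ i, tau δ r η i * nq V X i)
          * φ (ld δ r z (√(nq V X i) ^ 2))) := by
      intro X
      rw [hsq, hW, mul_assoc, Finset.sum_mul]
      congr 1
      refine Finset.sum_congr rfl fun η _ => ?_
      rw [hE]
      ring
    have hlaw := fun η : Finset (Fin n × Y) => pm_law hGI3 hGL3 V hV (tau δ r η) (hτ η)
      (hqp _ (hτ η)) i hi (hhp η) (fun t => φ (ld δ r z (t ^ 2))) hψc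
    have hIη : ∀ η : Finset (Fin n × Y), Integrable (fun X : Fin 3 → Fin m → ℝ =>
        Real.exp (-∑ i, tau δ r η i * nq V X i) * φ (ld δ r z (√(nq V X i) ^ 2))) := by
      intro η
      have h1 := (hGI3 n m V hV _ (hτ η)).2.2.2.1
      refine Integrable.mul_bdd (c := C) h1 ?_ (Filter.Eventually.of_forall fun X => ?_)
      · exact (hψc.comp (Real.continuous_sqrt.comp (pm_nq_cont V i))).aestronglyMeasurable
      · rw [Real.norm_eq_abs]
        exact hψb _
    have hp3 : ∀ t : ℝ, φ (ld δ r z (t ^ 2)) * p3 V δ r z i t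
        = (MS V δ r z)⁻¹ * ∑ η, W1 V δ r z η
          * (pmd (hh V (tau δ r η) i) t * φ (ld δ r z (t ^ 2))) := by
      intro t
      have h1 : p3 V δ r z i t
          = (MS V δ r z)⁻¹ * ∑ η, W1 V δ r z η * pmd (hh V (tau δ r η) i) t := by
        unfold p3 EX pmd
        rw [div_eq_inv_mul]
      rw [h1, mul_left_comm, Finset.mul_sum]
      congr 1
      refine Finset.sum_congr rfl fun η _ => ?_
      ring
    simp only [hexp, hp3]
    rw [integral_const_mul, integral_const_mul, integral_finsetSum _ fun η _ =>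
      (hIη η).const_mul _, integral_finsetSum]
    · have h2 : ∀ η : Finset (Fin n × Y), ∫ X : Fin 3 → Fin m → ℝ,
          zw z η * qf V (tau δ r η) * (Real.exp (-∑ i, tau δ r η i * nq V X i)
            * φ (ld δ r z (√(nq V X i) ^ 2)))
          = G0 m ^ 3 * ∫ t in Set.Ioi (0 : ℝ), W1 V δ r z η
            * (pmd (hh V (tau δ r η) i) t * φ (ld δ r z (t ^ 2))) := by
        intro η
        rw [integral_const_mul, hlaw η, integral_const_mul]
        unfold W1
        rw [← hpw η]
        ring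
      rw [Finset.sum_congr rfl fun η _ => h2 η, ← Finset.mul_sum, hW0]
      field_simp
    · intro η _
      refine Integrable.const_mul ?_ _
      have h3 := (pmd_bdd _ (hhp η) _ hψc C hψb).integrableOn (s := Set.Ioi (0 : ℝ))
      refine h3.congr (Filter.Eventually.of_forall fun t => mul_comm _ _)
  · intro i hi
    have h0 : ∀ X, nq V X i = 0 := by
      intro X
      unfold nq
      refine Finset.sum_eq_zero fun k _ => ?_
      have : V.mulVec (X k) i = 0 := by
        show V i ⬝ᵥ X k = 0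
        rw [hi, zero_dotProduct]
      rw [this]
      norm_num
    refine (ae_map_iff hRm ?_).2 (Filter.Eventually.of_forall fun X => ?_)
    · exact measurableSet_eq_fun (measurable_pi_apply i) measurable_const
    · rw [hRdef, h0]
  · intro F hFc hFM
    -- the pointwise inequality
    have hFR : Continuous fun X => F (R X) := hFc.comp_continuous hRc hRO
    obtain ⟨C, hC⟩ : ∃ C : ℝ, ∀ X, ‖F (R X) ^ 2‖ ≤ C := by
      have hcomp : IsCompact (Set.Icc (fun _ : Fin n => δ) (fun _ => ld δ r z 0)) :=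
        isCompact_Icc
      have hsub : Set.Icc (fun _ : Fin n => δ) (fun _ => ld δ r z 0) ⊆ Og n :=
        fun y hy i => hδ.trans_le (hy.1 i)
      obtain ⟨C, hC⟩ := hcomp.exists_bound_of_continuousOn ((hFc.mono hsub).pow 2)
      exact ⟨C, fun X => hC (R X) ⟨fun i => (hRb X i).1, fun i => (hRb X i).2⟩⟩
    have hWFi : Integrable fun X => W X * F (R X) ^ 2 :=
      hWi.mul_bdd (c := C) (hFR.pow 2).aestronglyMeasurable (Filter.Eventually.of_forall hC)
    have hwq : ∀ η X, wq V δ r z (nq V X) η = zw z η * E η X * qf V (tau δ r η) := by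
      intro η X
      rw [hE]
      rfl
    have hs0 : ∀ X, ∑ η, wq V δ r z (nq V X) η = K * W X := by
      intro X
      rw [hW]
      simp only [hwq]
      field_simp
    have hs1 : ∀ X, ∑ η, wq V δ r z (nq V X) η * F (tau δ r η) = K * (W X * F (R X)) := by
      intro X
      rw [hWF F hFM]
      simp only [hwq]
      rw [← mul_assoc, mul_inv_cancel₀ hK.ne', one_mul]
      exact Finset.sum_congr rfl fun η _ => by ring
    have hpt : ∀ X, ∑ η, zw z η * E η X * (qf V (tau δ r η) * F (tau δ r η) ^ 2)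
        - K * (W X * F (R X) ^ 2)
        ≤ ∑ η, ∑ x ∈ ηᶜ, zw z η * qf V (tau δ r η) * (z x.2
            * (1 + r x.2 * hh V (tau δ r η) x.1) * dd (fun η => F (tau δ r η)) η x ^ 2)
            * (E η X * Real.exp (-(r x.2 * nq V X x.1))) := by
      intro X
      have h := hDPO n m Y δ r z V hδ hr hz hV (nq V X) (fun η => F (tau δ r η))
      rw [hs0, hs1] at h
      have hKW : 0 < K * W X := mul_pos hK (hWpos X)
      have h1 : ∑ η, wq V δ r z (nq V X) η * F (tau δ r η) ^ 2
          = ∑ η, zw z η * E η X * (qf V (tau δ r η) * F (tau δ r η) ^ 2) := by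
        refine Finset.sum_congr rfl fun η _ => ?_
        rw [hwq]
        ring
      have h2 : ∑ η, wq V δ r z (nq V X) η * ∑ x ∈ ηᶜ, z x.2
            * Real.exp (-(r x.2 * nq V X x.1)) * (1 + r x.2 * hh V (tau δ r η) x.1)
            * dd (fun η => F (tau δ r η)) η x ^ 2
          = ∑ η, ∑ x ∈ ηᶜ, zw z η * qf V (tau δ r η) * (z x.2
            * (1 + r x.2 * hh V (tau δ r η) x.1) * dd (fun η => F (tau δ r η)) η x ^ 2)
            * (E η X * Real.exp (-(r x.2 * nq V X x.1))) := by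
        refine Finset.sum_congr rfl fun η _ => ?_
        rw [hwq, Finset.mul_sum]
        refine Finset.sum_congr rfl fun x _ => ?_
        ring
      rw [h1, h2] at h
      refine le_of_mul_le_mul_left ?_ hKW
      calc K * W X * (∑ η, zw z η * E η X * (qf V (tau δ r η) * F (tau δ r η) ^ 2)
          - K * (W X * F (R X) ^ 2))
          = K * W X * ∑ η, zw z η * E η X * (qf V (tau δ r η) * F (tau δ r η) ^ 2)
            - (K * (W X * F (R X))) ^ 2 := by ring
        _ ≤ _ := h
    -- integration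
    have hup := fun (η : Finset (Fin n × Y)) (x : Fin n × Y) =>
      hUPD n m V V hV (tau δ r η) (hτ η) x.1 (r x.2) (hr x.2).le
    have hEx : ∀ (η : Finset (Fin n × Y)) (x : Fin n × Y) (X : Fin 3 → Fin m → ℝ),
        E η X * Real.exp (-(r x.2 * nq V X x.1)) = Real.exp (-∑ i,
          Function.update (tau δ r η) x.1 (tau δ r η x.1 + r x.2) i * nq V X i) := by
      intro η x X
      rw [hE, dpo_usum, neg_add, Real.exp_add]
    have hEI : ∀ (η : Finset (Fin n × Y)) (x : Fin n × Y),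
        Integrable (fun X : Fin 3 → Fin m → ℝ => E η X * Real.exp (-(r x.2 * nq V X x.1))) ∧
        ∫ X : Fin 3 → Fin m → ℝ, E η X * Real.exp (-(r x.2 * nq V X x.1))
          = G0 m ^ 3 * ((qf V (tau δ r η)) ^ (-(3 / 2) : ℝ)
            * (1 + r x.2 * hh V (tau δ r η) x.1) ^ (-(3 / 2) : ℝ)) := by
      intro η x
      have h := hGI3 n m V hV _ (hup η x).1
      simp only [hEx]
      refine ⟨h.2.2.2.1, ?_⟩
      rw [h.2.2.2.2, (hup η x).2.2.2.2.1, Real.mul_rpow (hqp _ (hτ η)).le]
      have := mul_nonneg (hr x.2).le (hup η x).2.2.1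
      linarith
    have hI1 := hint fun η => qf V (tau δ r η) * F (tau δ r η) ^ 2
    have hJ : ∀ η : Finset (Fin n × Y), Integrable (fun X : Fin 3 → Fin m → ℝ =>
        ∑ x ∈ ηᶜ, zw z η * qf V (tau δ r η) * (z x.2
            * (1 + r x.2 * hh V (tau δ r η) x.1) * dd (fun η => F (tau δ r η)) η x ^ 2)
            * (E η X * Real.exp (-(r x.2 * nq V X x.1)))) := fun η =>
      integrable_finsetSum _ fun x _ => (hEI η x).1.const_mul _
    have hK1 : Integrable fun X => ∑ η, zw z η * E η X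
        * (qf V (tau δ r η) * F (tau δ r η) ^ 2) := by
      have h := hI1.1.const_mul K
      refine h.congr (Filter.Eventually.of_forall fun X => ?_)
      show K * (K⁻¹ * ∑ η, zw z η * E η X * (qf V (tau δ r η) * F (tau δ r η) ^ 2)) = _
      rw [← mul_assoc, mul_inv_cancel₀ hK.ne', one_mul]
    have hmain := integral_mono (hK1.sub (hWFi.const_mul K))
      (integrable_finsetSum _ fun η _ => hJ η) hpt
    have hL : ∫ X, (∑ η, zw z η * E η X * (qf V (tau δ r η) * F (tau δ r η) ^ 2)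
        - K * (W X * F (R X) ^ 2))
        = G0 m ^ 3 * (∑ η, W1 V δ r z η * F (tau δ r η) ^ 2)
          - K * ∫ X, W X * F (R X) ^ 2 := by
      rw [integral_sub hK1 (hWFi.const_mul K), integral_const_mul K]
      congr 1
      have h := hI1.2
      rw [integral_const_mul] at h
      have h1 := mul_left_cancel₀ (inv_ne_zero hK.ne') h
      rw [h1, Finset.mul_sum]
      refine Finset.sum_congr rfl fun η _ => ?_
      unfold W1
      rw [← hpw η]
      ring
    have hRr : ∫ X : Fin 3 → Fin m → ℝ, ∑ η, ∑ x ∈ ηᶜ, zw z η * qf V (tau δ r η) * (z x.2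
            * (1 + r x.2 * hh V (tau δ r η) x.1) * dd (fun η => F (tau δ r η)) η x ^ 2)
            * (E η X * Real.exp (-(r x.2 * nq V X x.1)))
        = G0 m ^ 3 * ∑ η : Finset (Fin n × Y), W1 V δ r z η * ∑ x ∈ ηᶜ,
              z x.2 * (1 + r x.2 * hh V (tau δ r η) x.1) ^ (-(1 / 2) : ℝ)
                * dd (fun η => F (tau δ r η)) η x ^ 2 := by
      rw [integral_finsetSum _ fun η _ => hJ η, Finset.mul_sum]
      refine Finset.sum_congr rfl fun η _ => ?_
      rw [integral_finsetSum _ fun x _ => (hEI η x).1.const_mul _, Finset.mul_sum,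
        Finset.mul_sum]
      refine Finset.sum_congr rfl fun x _ => ?_
      rw [integral_const_mul, (hEI η x).2]
      have h1 : 0 < 1 + r x.2 * hh V (tau δ r η) x.1 := by
        have := mul_nonneg (hr x.2).le (hup η x).2.2.1
        linarith
      have h2 : (1 + r x.2 * hh V (tau δ r η) x.1)
          * (1 + r x.2 * hh V (tau δ r η) x.1) ^ (-(3 / 2) : ℝ)
          = (1 + r x.2 * hh V (tau δ r η) x.1) ^ (-(1 / 2) : ℝ) := by
        have h3 := Real.rpow_add h1 1 (-(3 / 2))
        rw [Real.rpow_one] at h3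
        rw [← h3]
        norm_num
      unfold W1
      rw [← hpw η, ← h2]
      ring
    have hP2 := hFI (fun y => F y ^ 2) (hFc.pow 2)
    have hmain' : G0 m ^ 3 * (∑ η, W1 V δ r z η * F (tau δ r η) ^ 2)
          - K * ∫ X, W X * F (R X) ^ 2
        ≤ G0 m ^ 3 * ∑ η : Finset (Fin n × Y), W1 V δ r z η * ∑ x ∈ ηᶜ,
              z x.2 * (1 + r x.2 * hh V (tau δ r η) x.1) ^ (-(1 / 2) : ℝ)
                * dd (fun η => F (tau δ r η)) η x ^ 2 := by
      rw [← hL, ← hRr]
      exact hmain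
    refine le_of_mul_le_mul_left (le_trans (le_of_eq ?_) hmain') (pow_pos hG 3)
    rw [hP2, hW0]
    unfold EX
    have h1 := hMS.ne'
    have h2 := hK.ne'
    have h3 := hG.ne'
    field_simp

end Pool.Agent.Helper75.GR
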