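import Pool.Agent.Helper83.GR.Fin

/-! Bounded walks see the exact hull, part 5: LEMMA BS. The number of steps, the penalty and the threshold depend
only on the dimension of the forms, the cap and the error, not on the space. -/

namespace Pool.Agent.Helper83.GR

open Finset Filter Topology Matrix Pool.Agent.Helper69.RK Pool.Agent.Helper31.EC Pool.Agent.Helper40.EL Pool.Agent.Helper89.LX
open Pool.Agent.Helper95.LF (PdM NearM round_mat)

noncomputable section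

variable {ι : Type} [Fintype ι] [DecidableEq ι]

/-- the error of the finite lemma, divided by the depth; `u` is the inverse of the depth -/
def err (M Cr c ε : ℝ) (N : ℕ) (lam : ℝ) (u : ℝ) : ℝ :=
  u + M * ((2 * Cr + 2) * ε + (N + 3) * u + (2 * Cr + 1) * ε) +
    (M * (c + N * u)) * (8 * ((M * (c + N * u)) / N + u) / ε + (M * (c + N * u) + u) / lam)

theorem err_tendsto (M Cr c ε : ℝ) (N : ℕ) (lam : ℝ) :
    Tendsto (err M Cr c ε N lam) (𝓝 0) (𝓝 (M * (4 * Cr + 3) * ε + M * c * (8 * (M * c / N) / ε + M * c / lam))) := by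
  have h1 : Continuous (err M Cr c ε N lam) := by
    unfold err
    fun_prop
  have h2 := h1.tendsto 0
  have h3 : err M Cr c ε N lam 0 = M * (4 * Cr + 3) * ε + M * c * (8 * (M * c / N) / ε + M * c / lam) := by
    unfold err
    ring
  rwa [h3] at h2

theorem exists_par (M Cr c e : ℝ) (hM : 0 ≤ M) (hCr : 0 ≤ Cr) (hc : 0 ≤ c) (he : 0 < e) :
    ∃ (ε : ℝ) (N : ℕ) (lam : ℝ), 0 < ε ∧ 1 ≤ N ∧ 0 < lam ∧
      M * (4 * Cr + 3) * ε + M * c * (8 * (M * c / N) / ε + M * c / lam) < 7 * e / 8 := by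
  have h1 : 0 < M * (4 * Cr + 3) + 1 := by positivity
  set ε : ℝ := e / 4 / (M * (4 * Cr + 3) + 1) with hε
  have hε0 : 0 < ε := by positivity
  have h2 : M * (4 * Cr + 3) * ε ≤ e / 4 := by
    rw [hε, mul_div_assoc', div_le_iff₀ h1]
    nlinarith [mul_nonneg hM (show (0 : ℝ) ≤ 4 * Cr + 3 by linarith)]
  have hMc : 0 ≤ M * c := mul_nonneg hM hc
  obtain ⟨N, hN⟩ := exists_nat_ge (8 * (M * c) * (M * c) / ε / (e / 4) + 1)
  have hN1 : (1 : ℝ) ≤ N := by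
    have : 0 ≤ 8 * (M * c) * (M * c) / ε / (e / 4) := by positivity
    linarith
  have hN0 : (0 : ℝ) < N := by linarith
  set lam : ℝ := (M * c) * (M * c) / (e / 4) + 1 with hlam
  have hlam0 : 0 < lam := by positivity
  refine ⟨ε, N, lam, hε0, by exact_mod_cast hN1, hlam0, ?_⟩
  have h3 : M * c * (8 * (M * c / N) / ε) ≤ e / 4 := by
    have e1 : M * c * (8 * (M * c / N) / ε) = (8 * (M * c) * (M * c) / ε) / N := by ring
    rw [e1, div_le_iff₀ hN0]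
    have e2 : 8 * (M * c) * (M * c) / ε = (8 * (M * c) * (M * c) / ε / (e / 4)) * (e / 4) := by
      rw [div_mul_cancel₀ _ (by positivity)]
    rw [e2]
    have e3 : (8 * (M * c) * (M * c) / ε / (e / 4)) ≤ N := by linarith
    have := mul_le_mul_of_nonneg_right e3 (show (0 : ℝ) ≤ e / 4 by positivity)
    linarith
  have h4 : M * c * (M * c / lam) ≤ e / 4 := by
    have e1 : M * c * (M * c / lam) = (M * c) * (M * c) / lam := by ring
    rw [e1, div_le_iff₀ hlam0, hlam]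
    have e2 : e / 4 * ((M * c) * (M * c) / (e / 4) + 1) = (M * c) * (M * c) + e / 4 := by
      rw [mul_add, mul_div_cancel₀ _ (by positivity), mul_one]
    rw [e2]
    linarith
  rw [mul_add]
  linarith

/-- all admissible sequences have score at most `σ` -/
def Val {S : Sp} (Φ : Gau S ι) (A B : Part S) (σ : ℝ) : Prop :=
  ∀ y, Φ.Ad A B y → ul (fun k => (y k).sc / (S.F k).n) ≤ σ

theorem gp_of {S : Sp} (Φ : Gau S ι) (k : ℕ) (ω : (S.F k).Ω) : Gp (Φ.φ k ω) := ⟨Φ.add k ω, Φ.nn k ω⟩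

open Classical in
/-- LEMMA BS -/
theorem lemma_BS (ι : Type) [Fintype ι] [DecidableEq ι] (c e : ℝ) (hc : 0 ≤ c) (he : 0 < e) :
    ∃ (K : ℕ) (lam ep : ℝ), 0 < lam ∧ 0 < ep ∧ ∀ (S : Sp) (Φ : Gau S ι) (A B : ∀ k, Setoid (S.F k).Ω) (σ : ℝ),
      Val Φ (fun k => fc (A k)) (fun k => fc (B k)) σ →
      ∀ᶠ k in UF, Js (S.F k).μ (lz (S.F k) (A k) (B k)) (Φ.φ k) (2 ^ (c * (S.F k).n)) K (lam * (S.F k).n)
        (2 ^ (ep * (S.F k).n)) ≤ (σ + e) * (S.F k).n := by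
  obtain ⟨Cr, N₀, hCr1, hRd⟩ := round_mat ι
  have hCr : 0 ≤ Cr := by linarith
  set M : ℝ := (Fintype.card ι : ℝ) with hM
  have hM0 : 0 ≤ M := Nat.cast_nonneg _
  obtain ⟨ε, N, lam, hε, hN, hlam, hpar⟩ := exists_par M Cr c e hM0 hCr hc he
  refine ⟨N, lam * 2 ^ N, ε, by positivity, hε, fun S Φ A B σ hσ => ?_⟩
  have hN0 : (0 : ℝ) < N := by
    have : 0 < N := hN
    exact_mod_cast this
  obtain ⟨K₁, hK₁, hone⟩ := Φ.one
  -- the conditions on the index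
  have hcond : ∀ᶠ k in UF, 1 ≤ (S.F k).n ∧ 1 ≤ (2 * (ε * (S.F k).n)) * Real.log 2 ∧
      (∀ ω, (S.F k).μ ω ≠ 0 → ∀ A, PdM A → ∀ x, qf A x ≤ 2 ^ (Φ.C * (S.F k).n) * Φ.φ k ω A * (x ⬝ᵥ x)) ∧
      (∀ ω, (S.F k).μ ω ≠ 0 → Φ.φ k ω 1 ≤ K₁ k) ∧ K₁ k ≤ 2 ^ (ε * (S.F k).n) := by
    have h1 : ∀ᶠ k in UF, 1 ≤ (S.F k).n := S.lim.eventually (eventually_ge_atTop 1)
    have h2 : ∀ᶠ k in UF, 1 / (2 * ε * Real.log 2) ≤ (S.F k).n := S.lim.eventually (eventually_ge_atTop _)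
    filter_upwards [h1, h2, Φ.cap, hone, hK₁.eventually_le hε] with k a b d f g
    refine ⟨a, ?_, d, f, by linarith⟩
    have hl : 0 < Real.log 2 := Real.log_pos (by norm_num)
    rw [div_le_iff₀ (by positivity)] at b
    linarith
  have hfin : ∀ k, ∃ y : FD (S.F k) ι, (1 ≤ (S.F k).n ∧ 1 ≤ (2 * (ε * (S.F k).n)) * Real.log 2 ∧
      (∀ ω, (S.F k).μ ω ≠ 0 → ∀ A, PdM A → ∀ x, qf A x ≤ 2 ^ (Φ.C * (S.F k).n) * Φ.φ k ω A * (x ⬝ᵥ x)) ∧
      (∀ ω, (S.F k).μ ω ≠ 0 → Φ.φ k ω 1 ≤ K₁ k) ∧ K₁ k ≤ 2 ^ (ε * (S.F k).n)) →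
      (y.l.leak (fc (A k)) ≤ Real.logb 2 ((N₀ + 1 : ℕ) : ℝ) ∧ y.l.leak (fc (B k)) ≤ 1 ∧
      (∀ ω, y.l.T.μ ω ≠ 0 → Cpd (Φ.cp k) (y.g ω) ∧ Cpd (Φ.cp k) (y.g' ω)) ∧
      (∀ ω, y.l.T.μ ω ≠ 0 → Φ.φ k (y.l.p.π ω) (y.g ω) ≤ K₁ k + 1 ∧ Φ.φ k (y.l.p.π ω) (y.g' ω) ≤ K₁ k + 1) ∧
      Js (S.F k).μ (lz (S.F k) (A k) (B k)) (Φ.φ k) (2 ^ (c * (S.F k).n)) N (lam * 2 ^ N * (S.F k).n)
        (2 ^ (ε * (S.F k).n)) ≤ y.sc + (S.F k).n * err M Cr c ε N lam ((S.F k).n)⁻¹) := by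
    intro k
    by_cases hk : (1 ≤ (S.F k).n ∧ 1 ≤ (2 * (ε * (S.F k).n)) * Real.log 2 ∧
      (∀ ω, (S.F k).μ ω ≠ 0 → ∀ A, PdM A → ∀ x, qf A x ≤ 2 ^ (Φ.C * (S.F k).n) * Φ.φ k ω A * (x ⬝ᵥ x)) ∧
      (∀ ω, (S.F k).μ ω ≠ 0 → Φ.φ k ω 1 ≤ K₁ k) ∧ K₁ k ≤ 2 ^ (ε * (S.F k).n))
    swap
    · exact ⟨trivFD _, fun h => absurd h hk⟩
    obtain ⟨hn, hL, hcap, hone', hK⟩ := hk
    have hn0 := (S.F k).pos
    set n : ℝ := (S.F k).n with hnd
    set t : ℝ := ε * n with ht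
    have ht0 : 0 < t := by positivity
    obtain ⟨Rd, hr1, hr2⟩ := hRd _ hL
    have hR1 : ∀ M : Matrix ι ι ℝ, PdM M → PdM (Rd M) ∧ Nr (Cr * (2 * t)) M (Rd M) := by
      intro M hM
      obtain ⟨a, b⟩ := hr1 M hM
      refine ⟨a, ?_⟩
      rw [nr_iff, mul_assoc]
      exact b
    have hR2 : ∀ M : Matrix ι ι ℝ, PdM M → ∃ S : Finset (Matrix ι ι ℝ), S.card ≤ N₀ ∧
        ∀ M', PdM M' → Nr (2 * t) M M' → Rd M' ∈ S := by
      intro M hM
      obtain ⟨S, a, b⟩ := hr2 M hM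
      exact ⟨S, a, fun M' h1 h2 => b M' h1 (nr_iff.mp h2)⟩
    set Q : ℝ := (2 ^ (Cr * (2 * t)) + 1) * ((2 ^ t + 1) * (2 ^ t * 2 ^ N)) with hQ
    have hQ0 : 0 ≤ Q := by positivity
    set q : ℕ := ⌈Q⌉₊ + 1 with hq
    have hq0 : q ≠ 0 := by rw [hq]; omega
    have hqQ : Q ≤ q := by
      rw [hq]
      push_cast
      have := Nat.le_ceil Q
      linarith
    have hqQ' : (q : ℝ) ≤ Q + 2 := by
      rw [hq]
      push_cast
      have := Nat.ceil_lt_add_one hQ0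
      linarith
    -- the logarithm of `q`
    have hlq : Real.logb 2 q ≤ (2 * Cr + 2) * t + (N + 3) := by
      set X : ℝ := (2 * Cr + 2) * t + (N + 2) with hX
      have a1 : (2 : ℝ) ^ (Cr * (2 * t)) + 1 ≤ 2 ^ (Cr * (2 * t) + 1) := by
        rw [Real.rpow_add_one (by norm_num)]
        have : (1 : ℝ) ≤ 2 ^ (Cr * (2 * t)) := Real.one_le_rpow (by norm_num) (by positivity)
        linarith
      have a2 : (2 : ℝ) ^ t + 1 ≤ 2 ^ (t + 1) := by
        rw [Real.rpow_add_one (by norm_num)]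
        have : (1 : ℝ) ≤ 2 ^ t := Real.one_le_rpow (by norm_num) ht0.le
        linarith
      have a3 : Q ≤ 2 ^ X := by
        have e1 : (2 : ℝ) ^ X = 2 ^ (Cr * (2 * t) + 1) * (2 ^ (t + 1) * (2 ^ t * 2 ^ N)) := by
          rw [← Real.rpow_natCast 2 N, ← Real.rpow_add (by norm_num), ← Real.rpow_add (by norm_num),
            ← Real.rpow_add (by norm_num)]
          congr 1
          rw [hX]; ring
        rw [e1, hQ]
        exact mul_le_mul a1 (mul_le_mul_of_nonneg_right a2 (by positivity)) (by positivity) (by positivity)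
      have a4 : (q : ℝ) ≤ 2 ^ (X + 1) := by
        rw [Real.rpow_add_one (by norm_num)]
        have : (2 : ℝ) ≤ 2 ^ X := by
          calc (2 : ℝ) = 2 ^ (1 : ℝ) := (Real.rpow_one 2).symm
            _ ≤ 2 ^ X := by
                apply Real.rpow_le_rpow_of_exponent_le (by norm_num)
                have : 0 ≤ (2 * Cr + 2) * t := by positivity
                rw [hX]; linarith
        linarith
      have hqpos : (0 : ℝ) < q := by
        have : 0 < q := Nat.pos_of_ne_zero hq0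
        exact_mod_cast this
      have a5 := Real.logb_le_logb_of_le (b := 2) (by norm_num) hqpos a4
      rw [Real.logb_rpow (by norm_num) (by norm_num)] at a5
      rw [hX] at a5
      linarith
    set R : ℝ := Fintype.card ι * Real.logb 2 (2 ^ (c * n) * 2 ^ N) with hR
    have hR' : R = M * (c * n + N) := by
      rw [hR, Real.logb_mul (by positivity) (by positivity), Real.logb_rpow (by norm_num) (by norm_num), Real.logb_pow,
        Real.logb_self_eq_one (by norm_num), mul_one]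
    obtain ⟨y, y1, y2, y3, y4, y5⟩ := bs_fin (S.F k) (A k) (B k) (Φ.φ k) (gp_of Φ k) Φ.C0 hn hcap hone' ht0 hCr Rd N₀
      hR1 hR2 N hN (c := 2 ^ (c * n)) (θ := 2 ^ t) (Λ := lam * n)
      (Real.one_le_rpow (by norm_num) (by positivity)) hK (by positivity) (by positivity) q hq0 hqQ hR
    refine ⟨y, fun _ => ⟨y1, y2, y3, y4, ?_⟩⟩
    have e1 : lam * 2 ^ N * n = lam * n * 2 ^ N := by ring
    rw [e1]
    refine y5.trans ?_
    have e2 : n * err M Cr c ε N lam n⁻¹ = 1 + M * (((2 * Cr + 2) * t + (N + 3)) + (2 * Cr + 1) * t) +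
        R * (8 * (R / N + 1) / t + (R + 1) / (lam * n)) := by
      unfold err
      rw [hR', ht]
      field_simp
    rw [e2]
    have e3 := mul_le_mul_of_nonneg_left hlq hM0
    linarith
  choose y hy using hfin
  -- the sequence is admissible
  have hyA : Φ.Ad (fun k => fc (A k)) (fun k => fc (B k)) y := by
    intro η hη
    have h3 : S.Sub (fun k => K₁ k + 1) := hK₁.add (S.Sub_const zero_le_one)
    have h4 : ∀ᶠ k in UF, Real.logb 2 ((N₀ + 1 : ℕ) : ℝ) / η ≤ (S.F k).n := S.lim.eventually (eventually_ge_atTop _)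
    have h5 : ∀ᶠ k in UF, 1 / η ≤ (S.F k).n := S.lim.eventually (eventually_ge_atTop _)
    filter_upwards [hcond, h3.eventually_le hη, h4, h5] with k a b d f
    obtain ⟨y1, y2, y3, y4, _⟩ := hy k a
    rw [div_le_iff₀ hη] at d f
    have hp : ∀ E : (y k).l.T.Ω → Prop, (∀ ω, (y k).l.T.μ ω ≠ 0 → ¬ E ω) → (y k).l.T.pb E ≤ η := by
      intro E hE
      have h6 : (y k).l.T.pb E ≤ (y k).l.T.pb (fun _ => False) := FSp.pb_mono _ hE
      have h7 : (y k).l.T.pb (fun _ => False) = 0 := by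
        unfold FSp.pb mass
        exact Finset.sum_eq_zero fun ω _ => res_neg _ _ _ not_false
      linarith
    have b' : K₁ k + 1 ≤ 2 ^ (η * (S.F k).n) := by linarith
    refine ⟨?_, ?_, y3, hp _ fun ω hω h => h ((y4 ω hω).1.trans b'), hp _ fun ω hω h => h ((y4 ω hω).2.trans b')⟩
    · linarith
    · linarith
  have h6 := hσ y hyA
  have h7 := eventually_lt_of_ul_lt (Φ.sc_UB hyA) (show ul (fun k => (y k).sc / (S.F k).n) < σ + e / 8 by linarith)
  have h8 : Tendsto (fun k => ((S.F k).n)⁻¹) UF (𝓝 0) := tendsto_inv_atTop_zero.comp S.lim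
  have h9 := ((err_tendsto M Cr c ε N lam).comp h8).eventually (gt_mem_nhds hpar)
  filter_upwards [hcond, h7, h9] with k a b d
  obtain ⟨_, _, _, _, y5⟩ := hy k a
  have hn0 := (S.F k).pos
  rw [div_lt_iff₀ hn0] at b
  have d' := mul_lt_mul_of_pos_left d hn0
  refine y5.trans ?_
  have d'' : (S.F k).n * err M Cr c ε N lam ((S.F k).n)⁻¹ < (S.F k).n * (7 * e / 8) := d'
  linarith

end

end Pool.Agent.Helper83.GR
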