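import Pool.Agent.Helper83.GR.FFin
import Pool.Agent.Helper83.GR.BS

/-! Bounded walks see the exact hull, for a finite family of conditions: LEMMA BS. -/

namespace Pool.Agent.Helper83.GR

open Finset Filter Topology Matrix Pool.Agent.Helper69.RK Pool.Agent.Helper31.EC Pool.Agent.Helper40.EL Pool.Agent.Helper89.LX
open Pool.Agent.Helper95.LF (PdM NearM round_mat)

noncomputable section

variable {ι : Type} [Fintype ι] [DecidableEq ι]

section
variable {S : Sp} {κ : Type}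

/-- admissible up to `η` at the index `k`, for a family of conditions -/
def Admf (Φ : Gau S ι) (A : κ → Part S) (η : ℝ) (k : ℕ) (x : FD (S.F k) ι) : Prop :=
  (∀ i, x.l.leak (A i k) ≤ η * (S.F k).n) ∧
  (∀ ω, x.l.T.μ ω ≠ 0 → Cpd (Φ.cp k) (x.g ω) ∧ Cpd (Φ.cp k) (x.g' ω)) ∧
  x.l.T.pb (fun ω => ¬ Φ.φ k (x.l.p.π ω) (x.g ω) ≤ 2 ^ (η * (S.F k).n)) ≤ η ∧
  x.l.T.pb (fun ω => ¬ Φ.φ k (x.l.p.π ω) (x.g' ω) ≤ 2 ^ (η * (S.F k).n)) ≤ η

/-- admissible sequences for a family of conditions -/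
def Adf (Φ : Gau S ι) (A : κ → Part S) (x : ∀ k, FD (S.F k) ι) : Prop :=
  ∀ η : ℝ, 0 < η → ∀ᶠ k in UF, Admf Φ A η k (x k)

/-- all admissible sequences have score at most `σ` -/
def Valf (Φ : Gau S ι) (A : κ → Part S) (σ : ℝ) : Prop :=
  ∀ y, Adf Φ A y → ul (fun k => (y k).sc / (S.F k).n) ≤ σ

theorem Adf.two {Φ : Gau S ι} {A : κ → Part S} {x : ∀ k, FD (S.F k) ι} (h : Adf Φ A x) (i j : κ) :
    Φ.Ad (A i) (A j) x := by
  intro η hη
  filter_upwards [h η hη] with k hk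
  exact ⟨hk.1 i, hk.1 j, hk.2⟩

theorem adf_bool {Φ : Gau S ι} {A B : Part S} {x : ∀ k, FD (S.F k) ι} :
    Adf Φ (fun b : Bool => if b then A else B) x ↔ Φ.Ad A B x := by
  constructor
  · intro h
    exact h.two true false
  · intro h η hη
    filter_upwards [h η hη] with k hk
    refine ⟨fun b => ?_, hk.2.2⟩
    cases b
    · exact hk.2.1
    · exact hk.1

theorem Adf.sc_UB [Nonempty κ] {Φ : Gau S ι} {A : κ → Part S} {x : ∀ k, FD (S.F k) ι} (h : Adf Φ A x) :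
    UB (fun k => (x k).sc / (S.F k).n) := by
  obtain ⟨a⟩ := (inferInstance : Nonempty κ)
  exact Φ.sc_UB (h.two a a)

end

open Classical in
/-- LEMMA BS for a finite family of conditions -/
theorem lemma_BSf (ι : Type) [Fintype ι] [DecidableEq ι] (κ : Type) [Fintype κ] [Nonempty κ] (c e : ℝ) (hc : 0 ≤ c)
    (he : 0 < e) :
    ∃ (K : ℕ) (lam ep : ℝ), 0 < lam ∧ 0 < ep ∧ ∀ (S : Sp) (Φ : Gau S ι) (A : κ → ∀ k, Setoid (S.F k).Ω) (σ : ℝ),
      Valf Φ (fun i k => fc (A i k)) σ →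
      ∀ᶠ k in UF, Js (S.F k).μ (lzf (S.F k) (fun i => A i k)) (Φ.φ k) (2 ^ (c * (S.F k).n)) K (lam * (S.F k).n)
        (2 ^ (ep * (S.F k).n)) ≤ (σ + e) * (S.F k).n := by
  obtain ⟨Cr, N₀, hCr1, hRd⟩ := round_mat ι
  have hCr : 0 ≤ Cr := by linarith
  set M : ℝ := (Fintype.card ι : ℝ) with hM
  have hM0 : 0 ≤ M := Nat.cast_nonneg _
  set m : ℝ := 2 * (Fintype.card κ : ℝ) ^ 2 with hm
  have hm0 : 0 < m := by
    have := card_pos' κ
    positivity
  -- parameters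
  obtain ⟨ε, N, lam, hε, hN, hlam, hpar⟩ : ∃ (ε : ℝ) (N : ℕ) (lam : ℝ), 0 < ε ∧ 1 ≤ N ∧ 0 < lam ∧
      M * (4 * Cr + 3) * ε + M * c * (m * (M * c / N) / ε + M * c / lam) < 7 * e / 8 := by
    obtain ⟨ε, N₁, lam, a1, a2, a3, a4⟩ := exists_par M Cr c e hM0 hCr hc he
    have hN1 : (0 : ℝ) < N₁ := by
      have : 0 < N₁ := a2
      exact_mod_cast this
    obtain ⟨N₂, hN₂⟩ := exists_nat_ge (m / 8)
    refine ⟨ε, N₁ * (N₂ + 1), lam, a1, Nat.mul_pos a2 (Nat.succ_pos _), a3, lt_of_le_of_lt ?_ a4⟩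
    have hMc : 0 ≤ M * c := mul_nonneg hM0 hc
    have e1 : m * (M * c / ((N₁ * (N₂ + 1) : ℕ) : ℝ)) ≤ 8 * (M * c / N₁) := by
      push_cast
      have e2 : m * (M * c / (N₁ * (N₂ + 1))) = (m / (N₂ + 1)) * (M * c / N₁) := by
        field_simp
      rw [e2]
      apply mul_le_mul_of_nonneg_right _ (by positivity)
      rw [div_le_iff₀ (by positivity)]
      linarith
    have e3 := div_le_div_of_nonneg_right e1 a1.le
    have e4 := mul_le_mul_of_nonneg_left (add_le_add_left e3 (M * c / lam)) hMc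
    linarith
  refine ⟨N, lam * 2 ^ N, ε, by positivity, hε, fun S Φ A σ hσ => ?_⟩
  have hN0 : (0 : ℝ) < N := by
    have : 0 < N := hN
    exact_mod_cast this
  obtain ⟨K₁, hK₁, hone⟩ := Φ.one
  -- the error
  set er : ℝ → ℝ := fun u => u + M * ((2 * Cr + 2) * ε + (N + 3) * u + (2 * Cr + 1) * ε) +
    (M * (c + N * u)) * (m * ((M * (c + N * u)) / N + u) / ε + (M * (c + N * u) + u) / lam) with her
  have her' : Tendsto er (𝓝 0) (𝓝 (M * (4 * Cr + 3) * ε + M * c * (m * (M * c / N) / ε + M * c / lam))) := by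
    have h1 : Continuous er := by
      rw [her]
      fun_prop
    have h2 := h1.tendsto 0
    have h3 : er 0 = M * (4 * Cr + 3) * ε + M * c * (m * (M * c / N) / ε + M * c / lam) := by
      rw [her]
      beta_reduce
      ring
    rwa [h3] at h2
  -- the conditions on the index
  have hcond : ∀ᶠ k in UF, 1 ≤ (S.F k).n ∧ 1 ≤ (2 * (ε * (S.F k).n)) * Real.log 2 ∧
      (∀ ω, (S.F k).μ ω ≠ 0 → ∀ A, PdM A → ∀ x, qf A x ≤ 2 ^ (Φ.C * (S.F k).n) * Φ.φ k ω A * (x ⬝ᵥ x)) ∧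
      (∀ ω, (S.F k).μ ω ≠ 0 → Φ.φ k ω 1 ≤ K₁ k) ∧ K₁ k ≤ 2 ^ (ε * (S.F k).n) := by
    have h1 : ∀ᶠ k in UF, 1 ≤ (S.F k).n := S.lim.eventually (eventually_ge_atTop 1)
    have h2 : ∀ᶠ k in UF, 1 / (2 * ε * Real.log 2) ≤ (S.F k).n := S.lim.eventually (eventually_ge_atTop _)
    filter_upwards [h1, h2, Φ.cap, hone, hK₁.eventually_le hε] with k a b d f g
    refine ⟨a, ?_, d, f, by linarith⟩
    have hl : 0 < Real.log 2 := Real.log_pos (by norm_num)
    rw [div_le_iff₀ (by positivity)] at b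
    linarith
  have hfin : ∀ k, ∃ y : FD (S.F k) ι, (1 ≤ (S.F k).n ∧ 1 ≤ (2 * (ε * (S.F k).n)) * Real.log 2 ∧
      (∀ ω, (S.F k).μ ω ≠ 0 → ∀ A, PdM A → ∀ x, qf A x ≤ 2 ^ (Φ.C * (S.F k).n) * Φ.φ k ω A * (x ⬝ᵥ x)) ∧
      (∀ ω, (S.F k).μ ω ≠ 0 → Φ.φ k ω 1 ≤ K₁ k) ∧ K₁ k ≤ 2 ^ (ε * (S.F k).n)) →
      ((∀ i, y.l.leak (fc (A i k)) ≤ Real.logb 2 ((N₀ + 1 : ℕ) : ℝ)) ∧
      (∀ ω, y.l.T.μ ω ≠ 0 → Cpd (Φ.cp k) (y.g ω) ∧ Cpd (Φ.cp k) (y.g' ω)) ∧
      (∀ ω, y.l.T.μ ω ≠ 0 → Φ.φ k (y.l.p.π ω) (y.g ω) ≤ K₁ k + 1 ∧ Φ.φ k (y.l.p.π ω) (y.g' ω) ≤ K₁ k + 1) ∧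
      Js (S.F k).μ (lzf (S.F k) (fun i => A i k)) (Φ.φ k) (2 ^ (c * (S.F k).n)) N (lam * 2 ^ N * (S.F k).n)
        (2 ^ (ε * (S.F k).n)) ≤ y.sc + (S.F k).n * er ((S.F k).n)⁻¹) := by
    intro k
    by_cases hk : (1 ≤ (S.F k).n ∧ 1 ≤ (2 * (ε * (S.F k).n)) * Real.log 2 ∧
      (∀ ω, (S.F k).μ ω ≠ 0 → ∀ A, PdM A → ∀ x, qf A x ≤ 2 ^ (Φ.C * (S.F k).n) * Φ.φ k ω A * (x ⬝ᵥ x)) ∧
      (∀ ω, (S.F k).μ ω ≠ 0 → Φ.φ k ω 1 ≤ K₁ k) ∧ K₁ k ≤ 2 ^ (ε * (S.F k).n))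
    swap
    · exact ⟨trivFD _, fun h => absurd h hk⟩
    obtain ⟨hn, hL, hcap, hone', hK⟩ := hk
    have hn0 := (S.F k).pos
    set n : ℝ := (S.F k).n with hnd
    set t : ℝ := ε * n with ht
    have ht0 : 0 < t := by positivity
    obtain ⟨Rd, hr1, hr2⟩ := hRd _ hL
    have hR1 : ∀ M : Matrix ι ι ℝ, PdM M → PdM (Rd M) ∧ Nr (Cr * (2 * t)) M (Rd M) := by
      intro M hM
      obtain ⟨a, b⟩ := hr1 M hM
      refine ⟨a, ?_⟩
      rw [nr_iff, mul_assoc]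
      exact b
    have hR2 : ∀ M : Matrix ι ι ℝ, PdM M → ∃ S : Finset (Matrix ι ι ℝ), S.card ≤ N₀ ∧
        ∀ M', PdM M' → Nr (2 * t) M M' → Rd M' ∈ S := by
      intro M hM
      obtain ⟨S, a, b⟩ := hr2 M hM
      exact ⟨S, a, fun M' h1 h2 => b M' h1 (nr_iff.mp h2)⟩
    set Q : ℝ := (2 ^ (Cr * (2 * t)) + 1) * ((2 ^ t + 1) * (2 ^ t * 2 ^ N)) with hQ
    have hQ0 : 0 ≤ Q := by positivity
    set q : ℕ := ⌈Q⌉₊ + 1 with hq
    have hq0 : q ≠ 0 := by rw [hq]; omega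
    have hqQ : Q ≤ q := by
      rw [hq]
      push_cast
      have := Nat.le_ceil Q
      linarith
    have hqQ' : (q : ℝ) ≤ Q + 2 := by
      rw [hq]
      push_cast
      have := Nat.ceil_lt_add_one hQ0
      linarith
    -- the logarithm of `q`
    have hlq : Real.logb 2 q ≤ (2 * Cr + 2) * t + (N + 3) := by
      set X : ℝ := (2 * Cr + 2) * t + (N + 2) with hX
      have a1 : (2 : ℝ) ^ (Cr * (2 * t)) + 1 ≤ 2 ^ (Cr * (2 * t) + 1) := by
        rw [Real.rpow_add_one (by norm_num)]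
        have : (1 : ℝ) ≤ 2 ^ (Cr * (2 * t)) := Real.one_le_rpow (by norm_num) (by positivity)
        linarith
      have a2 : (2 : ℝ) ^ t + 1 ≤ 2 ^ (t + 1) := by
        rw [Real.rpow_add_one (by norm_num)]
        have : (1 : ℝ) ≤ 2 ^ t := Real.one_le_rpow (by norm_num) ht0.le
        linarith
      have a3 : Q ≤ 2 ^ X := by
        have e1 : (2 : ℝ) ^ X = 2 ^ (Cr * (2 * t) + 1) * (2 ^ (t + 1) * (2 ^ t * 2 ^ N)) := by
          rw [← Real.rpow_natCast 2 N, ← Real.rpow_add (by norm_num), ← Real.rpow_add (by norm_num),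
            ← Real.rpow_add (by norm_num)]
          congr 1
          rw [hX]; ring
        rw [e1, hQ]
        exact mul_le_mul a1 (mul_le_mul_of_nonneg_right a2 (by positivity)) (by positivity) (by positivity)
      have a4 : (q : ℝ) ≤ 2 ^ (X + 1) := by
        rw [Real.rpow_add_one (by norm_num)]
        have : (2 : ℝ) ≤ 2 ^ X := by
          calc (2 : ℝ) = 2 ^ (1 : ℝ) := (Real.rpow_one 2).symm
            _ ≤ 2 ^ X := by
                apply Real.rpow_le_rpow_of_exponent_le (by norm_num)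
                have : 0 ≤ (2 * Cr + 2) * t := by positivity
                rw [hX]; linarith
        linarith
      have hqpos : (0 : ℝ) < q := by
        have : 0 < q := Nat.pos_of_ne_zero hq0
        exact_mod_cast this
      have a5 := Real.logb_le_logb_of_le (b := 2) (by norm_num) hqpos a4
      rw [Real.logb_rpow (by norm_num) (by norm_num)] at a5
      rw [hX] at a5
      linarith
    set R : ℝ := Fintype.card ι * Real.logb 2 (2 ^ (c * n) * 2 ^ N) with hR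
    have hR' : R = M * (c * n + N) := by
      rw [hR, Real.logb_mul (by positivity) (by positivity), Real.logb_rpow (by norm_num) (by norm_num), Real.logb_pow,
        Real.logb_self_eq_one (by norm_num), mul_one]
    obtain ⟨y, y1, y3, y4, y5⟩ := bs_finf (S.F k) (fun i => A i k) (Φ.φ k) (gp_of Φ k) Φ.C0 hn hcap hone' ht0 hCr Rd N₀
      hR1 hR2 N hN (c := 2 ^ (c * n)) (θ := 2 ^ t) (Λ := lam * n)
      (Real.one_le_rpow (by norm_num) (by positivity)) hK (by positivity) (by positivity) q hq0 hqQ hR hm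
    refine ⟨y, fun _ => ⟨y1, y3, y4, ?_⟩⟩
    have e1 : lam * 2 ^ N * n = lam * n * 2 ^ N := by ring
    rw [e1]
    refine y5.trans ?_
    have e2 : n * er n⁻¹ = 1 + M * (((2 * Cr + 2) * t + (N + 3)) + (2 * Cr + 1) * t) +
        R * (m * (R / N + 1) / t + (R + 1) / (lam * n)) := by
      rw [her, hR', ht]
      beta_reduce
      field_simp
    rw [e2]
    have e3 := mul_le_mul_of_nonneg_left hlq hM0
    linarith
  choose y hy using hfin
  -- the sequence is admissible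
  have hyA : Adf Φ (fun i k => fc (A i k)) y := by
    intro η hη
    have h3 : S.Sub (fun k => K₁ k + 1) := hK₁.add (S.Sub_const zero_le_one)
    have h4 : ∀ᶠ k in UF, Real.logb 2 ((N₀ + 1 : ℕ) : ℝ) / η ≤ (S.F k).n := S.lim.eventually (eventually_ge_atTop _)
    filter_upwards [hcond, h3.eventually_le hη, h4] with k a b d
    obtain ⟨y1, y3, y4, _⟩ := hy k a
    rw [div_le_iff₀ hη] at d
    have hp : ∀ E : (y k).l.T.Ω → Prop, (∀ ω, (y k).l.T.μ ω ≠ 0 → ¬ E ω) → (y k).l.T.pb E ≤ η := by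
      intro E hE
      have h6 : (y k).l.T.pb E ≤ (y k).l.T.pb (fun _ => False) := FSp.pb_mono _ hE
      have h7 : (y k).l.T.pb (fun _ => False) = 0 := by
        unfold FSp.pb mass
        exact Finset.sum_eq_zero fun ω _ => res_neg _ _ _ not_false
      linarith
    have b' : K₁ k + 1 ≤ 2 ^ (η * (S.F k).n) := by linarith
    refine ⟨fun i => ?_, y3, hp _ fun ω hω h => h ((y4 ω hω).1.trans b'), hp _ fun ω hω h => h ((y4 ω hω).2.trans b')⟩
    have := y1 i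
    linarith
  have h6 := hσ y hyA
  have h7 := eventually_lt_of_ul_lt hyA.sc_UB (show ul (fun k => (y k).sc / (S.F k).n) < σ + e / 8 by linarith)
  have h8 : Tendsto (fun k => ((S.F k).n)⁻¹) UF (𝓝 0) := tendsto_inv_atTop_zero.comp S.lim
  have h9 := (her'.comp h8).eventually (gt_mem_nhds hpar)
  filter_upwards [hcond, h7, h9] with k a b d
  obtain ⟨_, _, _, y5⟩ := hy k a
  have hn0 := (S.F k).pos
  rw [div_lt_iff₀ hn0] at b
  have d' := mul_lt_mul_of_pos_left d hn0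
  refine y5.trans ?_
  have d'' : (S.F k).n * er ((S.F k).n)⁻¹ < (S.F k).n * (7 * e / 8) := d'
  linarith

end

end Pool.Agent.Helper83.GR
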