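import Pool.Agent.Helper83.GR.Fin

/-! Bounded walks see the exact hull, for a finite family of conditions: finite form of LEMMA BS. -/

namespace Pool.Agent.Helper83.GR

open Finset Matrix Pool.Agent.Helper69.RK Pool.Agent.Helper31.EC Pool.Agent.Helper40.EL Pool.Agent.Helper89.LX
open Pool.Agent.Helper95.LF (PdM NearM)

noncomputable section

section
variable {Ω κ : Type} [Fintype Ω] [Fintype κ] [Nonempty κ] {μ : Ω → ℝ}

theorem card_pos' (κ : Type) [Fintype κ] [Nonempty κ] : (0 : ℝ) < Fintype.card κ := by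
  exact_mod_cast Fintype.card_pos

/-- average of a family of steps -/
def favg (J : κ → Ω → Ω → ℝ) (ω ω' : Ω) : ℝ := (∑ i, J i ω ω') / Fintype.card κ

theorem SJ.favg {J : κ → Ω → Ω → ℝ} (h : ∀ i, SJ μ (J i)) : SJ μ (favg J) := by
  have hc := card_pos' κ
  refine ⟨fun ω ω' => ?_, fun ω ω' => ?_, fun ω => ?_⟩
  · exact div_nonneg (Finset.sum_nonneg fun i _ => (h i).nn ω ω') hc.le
  · unfold GR.favg
    rw [Finset.sum_congr rfl (fun i _ => (h i).sym ω ω')]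
  · unfold GR.favg
    rw [← Finset.sum_div, Finset.sum_comm, Finset.sum_congr rfl (fun i _ => (h i).row ω), Finset.sum_const,
      Finset.card_univ, nsmul_eq_mul, mul_comm, mul_div_assoc, div_self hc.ne', mul_one]

omit [Fintype Ω] in
theorem le_favg {J : κ → Ω → Ω → ℝ} (h : ∀ i ω ω', 0 ≤ J i ω ω') (i : κ) (ω ω' : Ω) :
    J i ω ω' ≤ Fintype.card κ * favg J ω ω' := by
  unfold favg
  rw [mul_comm, div_mul_cancel₀ _ (card_pos' κ).ne']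
  exact Finset.single_le_sum (f := fun i => J i ω ω') (fun i _ => h i ω ω') (Finset.mem_univ i)

end

/-- the lazy step of a family: a copy given `A i`, `i` random -/
def lzf {κ : Type} [Fintype κ] (F : FSp) (A : κ → Setoid F.Ω) : F.Ω → F.Ω → ℝ :=
  favg (fun i => jf F.μ (Quotient.mk (A i ⊓ F.Z)))

theorem sj_lzf {κ : Type} [Fintype κ] [Nonempty κ] (F : FSp) (A : κ → Setoid F.Ω) : SJ F.μ (lzf F A) :=
  SJ.favg fun i => sj_jf F.nn _

variable {ι : Type} [Fintype ι] [DecidableEq ι]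

theorem bs_finf {κ : Type} [Fintype κ] [Nonempty κ] (F : FSp) (A : κ → Setoid F.Ω) (φ : F.Ω → Matrix ι ι ℝ → ℝ)
    (hφ : ∀ ω, Gp (φ ω)) {C K₁ : ℝ} (hC : 0 ≤ C)
    (hn : 1 ≤ F.n) (hcap : ∀ ω, F.μ ω ≠ 0 → ∀ A, PdM A → ∀ x, qf A x ≤ 2 ^ (C * F.n) * φ ω A * (x ⬝ᵥ x))
    (hone : ∀ ω, F.μ ω ≠ 0 → φ ω 1 ≤ K₁) {t Cr : ℝ} (ht : 0 < t) (hCr : 0 ≤ Cr) (Rd : Matrix ι ι ℝ → Matrix ι ι ℝ)
    (N₀ : ℕ) (hR1 : ∀ M : Matrix ι ι ℝ, PdM M → PdM (Rd M) ∧ Nr (Cr * (2 * t)) M (Rd M))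
    (hR2 : ∀ M : Matrix ι ι ℝ, PdM M → ∃ S : Finset (Matrix ι ι ℝ), S.card ≤ N₀ ∧ ∀ M', PdM M' → Nr (2 * t) M M' → Rd M' ∈ S)
    (N : ℕ) (hN : 1 ≤ N) {c θ Λ : ℝ} (hc : 1 ≤ c) (hθ : K₁ ≤ θ) (hθ0 : 0 ≤ θ) (hΛ : 0 < Λ) (q : ℕ) (hq : q ≠ 0)
    (hqQ : (2 ^ (Cr * (2 * t)) + 1) * ((2 ^ t + 1) * (θ * 2 ^ N)) ≤ q) {R m : ℝ}
    (hR : R = Fintype.card ι * Real.logb 2 (c * 2 ^ N)) (hm2 : m = 2 * Fintype.card κ ^ 2) :
    ∃ y : FD F ι, (∀ i, y.l.leak (fc (A i)) ≤ Real.logb 2 ((N₀ + 1 : ℕ) : ℝ)) ∧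
      (∀ ω, y.l.T.μ ω ≠ 0 → Cpd (2 ^ ((C + 1) * F.n)) (y.g ω) ∧ Cpd (2 ^ ((C + 1) * F.n)) (y.g' ω)) ∧
      (∀ ω, y.l.T.μ ω ≠ 0 → φ (y.l.p.π ω) (y.g ω) ≤ K₁ + 1 ∧ φ (y.l.p.π ω) (y.g' ω) ≤ K₁ + 1) ∧
      Js F.μ (lzf F A) φ c N (Λ * 2 ^ N) θ ≤ y.sc + 1 + Fintype.card ι * (Real.logb 2 q + (2 * Cr + 1) * t) +
        R * (m * (R / N + 1) / t + (R + 1) / Λ) := by
  classical
  have hJ := sj_lzf F A
  have hm := FSp.sum_one F
  have hκ := card_pos' κ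
  have hcard : (0 : ℝ) ≤ Fintype.card ι := Nat.cast_nonneg _
  have hN0 : (0 : ℝ) < N := by
    have : 0 < N := hN
    exact_mod_cast this
  have h2N : (1 : ℝ) ≤ 2 ^ N := one_le_pow₀ (by norm_num)
  have hcN : 1 ≤ c * 2 ^ N := by nlinarith
  have hR0 : 0 ≤ R := by
    rw [hR]
    exact mul_nonneg hcard (Real.logb_nonneg (by norm_num) hcN)
  set f : ℕ → ℝ := fun i => Js F.μ (lzf F A) φ (c * 2 ^ (N - i)) i (Λ * 2 ^ i) (θ * 2 ^ (N - i)) with hf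
  have hf0 : f 0 ≤ R := by
    rw [hf, hR]
    beta_reduce
    rw [Nat.sub_zero]
    exact Js_le hJ hm hcN 0 (by positivity) _
  have hfN : 0 ≤ f N := by
    rw [hf]
    beta_reduce
    rw [Nat.sub_self, pow_zero, mul_one, mul_one]
    exact Js_nonneg hJ hc N (by positivity) (fun ω hω => (hone ω hω).trans hθ)
  -- pigeonhole
  obtain ⟨i, hi, hfi⟩ : ∃ i, i < N ∧ f i - f (i + 1) ≤ R / N := by
    by_contra hcon
    push Not at hcon
    have h1 : ∑ i ∈ Finset.range N, (R / N) < ∑ i ∈ Finset.range N, (f i - f (i + 1)) :=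
      Finset.sum_lt_sum_of_nonempty ⟨0, Finset.mem_range.mpr hN⟩ fun i hi => hcon i (Finset.mem_range.mp hi)
    rw [Finset.sum_range_sub', Finset.sum_const, Finset.card_range, nsmul_eq_mul, mul_div_cancel₀ _ hN0.ne'] at h1
    linarith
  obtain ⟨j, rfl⟩ : ∃ j, N = i + 1 + j := ⟨N - (i + 1), by omega⟩
  have e1 : i + 1 + j - i = j + 1 := by omega
  have e2 : i + 1 + j - (i + 1) = j := by omega
  have hf1 : f i = Js F.μ (lzf F A) φ (2 * (c * 2 ^ j)) i (Λ * 2 ^ i) (2 * (θ * 2 ^ j)) := by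
    rw [hf]
    beta_reduce
    rw [e1, pow_succ, show c * (2 ^ j * 2) = 2 * (c * 2 ^ j) by ring, show θ * (2 ^ j * 2) = 2 * (θ * 2 ^ j) by ring]
  have hf2 : f (i + 1) = Js F.μ (lzf F A) φ (c * 2 ^ j) (i + 1) (2 * (Λ * 2 ^ i)) (θ * 2 ^ j) := by
    rw [hf]
    beta_reduce
    rw [e2, pow_succ, show Λ * (2 ^ i * 2) = 2 * (Λ * 2 ^ i) by ring]
  have h2j : (1 : ℝ) ≤ 2 ^ j := one_le_pow₀ (by norm_num)
  have h2i : (1 : ℝ) ≤ 2 ^ i := one_le_pow₀ (by norm_num)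
  have hcj : 1 ≤ c * 2 ^ j := by nlinarith
  have h2jN : (2 : ℝ) ^ j ≤ 2 ^ (i + 1 + j) := pow_le_pow_right₀ (by norm_num) (by omega)
  have hlc : Fintype.card ι * Real.logb 2 (c * 2 ^ j) ≤ R := by
    rw [hR]
    apply mul_le_mul_of_nonneg_left _ hcard
    apply Real.logb_le_logb_of_le (by norm_num) (by linarith)
    exact mul_le_mul_of_nonneg_left h2jN (by linarith)
  -- nearly optimal forms
  have hG : ∀ ω, ∃ M : Matrix ι ι ℝ, Cpd (c * 2 ^ j) M ∧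
      js F.μ (lzf F A) φ (c * 2 ^ j) (i + 1) (2 * (Λ * 2 ^ i)) (θ * 2 ^ j) ω - 1 ≤
        jj F.μ (lzf F A) φ (i + 1) (2 * (Λ * 2 ^ i)) (θ * 2 ^ j) ω M :=
    fun ω => js_near hcj _ _ _ ω one_pos
  choose G hG1 hG2 using hG
  have hstep := step_ineq hJ (fun ω => (hφ ω).add) hcj i (Λ := Λ * 2 ^ i) (by positivity) (θ * 2 ^ j) 1 hm G hG1 hG2
  rw [← hf1, ← hf2] at hstep
  set D : ℝ := R / (i + 1 + j : ℕ) + 1 with hD
  have hDle : ∑ ω, ∑ ω', lzf F A ω ω' * (Real.logb 2 (G ω + G ω').det - Real.logb 2 (G ω').det) ≤ D := by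
    rw [hD]; linarith
  have hnear := near_mass hJ ht G hG1 hDle
  have hA4 : ∀ a : κ, ∑ ω, ∑ ω', jf F.μ (Quotient.mk (A a ⊓ F.Z)) ω ω' * e1_ind (¬ Nr t (G ω) (G ω')) ≤
      Fintype.card κ * (2 * D / t) := by
    intro a
    have h1 : ∑ ω, ∑ ω', jf F.μ (Quotient.mk (A a ⊓ F.Z)) ω ω' * e1_ind (¬ Nr t (G ω) (G ω')) ≤
        Fintype.card κ * ∑ ω, ∑ ω', lzf F A ω ω' * e1_ind (¬ Nr t (G ω) (G ω')) := by
      rw [Finset.mul_sum]
      apply Finset.sum_le_sum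
      intro ω _
      rw [Finset.mul_sum]
      apply Finset.sum_le_sum
      intro ω' _
      rw [← mul_assoc]
      apply mul_le_mul_of_nonneg_right _ (ind_nonneg _)
      exact le_favg (J := fun i => jf F.μ (Quotient.mk (A i ⊓ F.Z))) (fun i => (sj_jf F.nn _).nn) a ω ω'
    exact h1.trans (mul_le_mul_of_nonneg_left hnear hκ.le)
  have hag := fun a => agree_fail F.nn hm _ G (hA4 a)
  choose hA hAf hAG hAD using hag
  have hAm : ∀ a ω ω', (A a ⊓ F.Z) ω ω' → hA a ω = hA a ω' := fun a ω ω' h => hAf a ω ω' (Quotient.sound h)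
  have hAc : ∀ a ω, Cpd (c * 2 ^ j) (hA a ω) := by
    intro a ω
    obtain ⟨ω', e⟩ := hAG a ω
    rw [e]
    exact hG1 ω'
  -- the good event
  set E : F.Ω → Prop := fun ω => (∀ a, Nr t (G ω) (hA a ω)) ∧ φ ω (G ω) ≤ θ * 2 ^ j with hE
  have hfail : ∑ ω, F.μ ω * e1_ind (¬ φ ω (G ω) ≤ θ * 2 ^ j) ≤ (R + 1) / Λ := by
    have h1 : f (i + 1) - 1 ≤ ∑ ω, F.μ ω * jj F.μ (lzf F A) φ (i + 1) (2 * (Λ * 2 ^ i)) (θ * 2 ^ j) ω (G ω) := by
      have h2 : ∑ ω, F.μ ω * (js F.μ (lzf F A) φ (c * 2 ^ j) (i + 1) (2 * (Λ * 2 ^ i)) (θ * 2 ^ j) ω - 1) ≤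
          ∑ ω, F.μ ω * jj F.μ (lzf F A) φ (i + 1) (2 * (Λ * 2 ^ i)) (θ * 2 ^ j) ω (G ω) :=
        Finset.sum_le_sum fun ω _ => mul_le_mul_of_nonneg_left (hG2 ω) (F.nn ω)
      refine le_trans (le_of_eq ?_) h2
      rw [hf2]
      unfold Js
      simp_rw [mul_sub, mul_one]
      rw [Finset.sum_sub_distrib, hm]
    have h3 : 0 ≤ f (i + 1) := by
      rw [hf2]
      apply Js_nonneg hJ hcj _ (by positivity)
      intro ω hω
      have := hone ω hω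
      nlinarith
    have h4 : ∑ ω, F.μ ω * jj F.μ (lzf F A) φ (i + 1) (2 * (Λ * 2 ^ i)) (θ * 2 ^ j) ω (G ω) ≤
        ∑ ω, F.μ ω * (R - Λ * e1_ind (¬ φ ω (G ω) ≤ θ * 2 ^ j)) := by
      apply Finset.sum_le_sum
      intro ω _
      apply mul_le_mul_of_nonneg_left _ (F.nn ω)
      unfold jj
      have a1 := logdet_le hcj (hG1 ω)
      have a2 : wk F.μ (lzf F A) (okf φ (G ω) (θ * 2 ^ j)) (i + 1) ω ≤ okf φ (G ω) (θ * 2 ^ j) ω :=
        wk_anti_le hJ (okf_nonneg φ _ _) (okf_le_one φ _ _) (Nat.zero_le (i + 1)) ω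
      have a3 : e1_ind (¬ φ ω (G ω) ≤ θ * 2 ^ j) ≤ 1 - wk F.μ (lzf F A) (okf φ (G ω) (θ * 2 ^ j)) (i + 1) ω := by
        rw [ind_not]
        unfold okf at a2
        unfold okf
        linarith
      have a4 : Λ ≤ 2 * (Λ * 2 ^ i) := by nlinarith
      have a5 : Λ * e1_ind (¬ φ ω (G ω) ≤ θ * 2 ^ j) ≤ 2 * (Λ * 2 ^ i) *
          (1 - wk F.μ (lzf F A) (okf φ (G ω) (θ * 2 ^ j)) (i + 1) ω) :=
        mul_le_mul a4 a3 (ind_nonneg _) (by positivity)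
      linarith
    have h5 : ∑ ω, F.μ ω * (R - Λ * e1_ind (¬ φ ω (G ω) ≤ θ * 2 ^ j)) =
        R - Λ * ∑ ω, F.μ ω * e1_ind (¬ φ ω (G ω) ≤ θ * 2 ^ j) := by
      rw [Finset.mul_sum]
      simp_rw [mul_sub]
      rw [Finset.sum_sub_distrib, ← Finset.sum_mul, hm, one_mul]
      congr 1
      exact Finset.sum_congr rfl fun ω _ => by ring
    rw [le_div_iff₀ hΛ]
    linarith
  have hpE : F.pb (fun ω => ¬ E ω) ≤ m * D / t + (R + 1) / Λ := by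
    rw [pb_eq_ind]
    have h1 : ∑ ω, F.μ ω * e1_ind (¬ E ω) ≤ ∑ a : κ, ∑ ω, F.μ ω * e1_ind (¬ Nr t (G ω) (hA a ω)) +
        ∑ ω, F.μ ω * e1_ind (¬ φ ω (G ω) ≤ θ * 2 ^ j) := by
      rw [Finset.sum_comm, ← Finset.sum_add_distrib]
      apply Finset.sum_le_sum
      intro ω _
      rw [← Finset.mul_sum, ← mul_add]
      apply mul_le_mul_of_nonneg_left _ (F.nn ω)
      have b3 := ind_nonneg (¬ φ ω (G ω) ≤ θ * 2 ^ j)
      have b4 := ind_le_one (¬ E ω)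
      have b5 : 0 ≤ ∑ a : κ, e1_ind (¬ Nr t (G ω) (hA a ω)) := Finset.sum_nonneg fun a _ => ind_nonneg _
      by_cases c1 : ∀ a, Nr t (G ω) (hA a ω)
      · by_cases c3 : φ ω (G ω) ≤ θ * 2 ^ j
        · rw [e1_ind_neg (not_not.mpr (show E ω from ⟨c1, c3⟩))]
          linarith
        · rw [e1_ind_pos c3]
          linarith
      · obtain ⟨a, ha⟩ := not_forall.mp c1
        have b6 : e1_ind (¬ Nr t (G ω) (hA a ω)) ≤ ∑ a : κ, e1_ind (¬ Nr t (G ω) (hA a ω)) :=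
          Finset.single_le_sum (f := fun a => e1_ind (¬ Nr t (G ω) (hA a ω))) (fun a _ => ind_nonneg _)
            (Finset.mem_univ a)
        rw [e1_ind_pos ha] at b6
        linarith
    have h2 : ∑ a : κ, ∑ ω, F.μ ω * e1_ind (¬ Nr t (G ω) (hA a ω)) ≤ m * D / t := by
      have h3 : ∑ a : κ, ∑ ω, F.μ ω * e1_ind (¬ Nr t (G ω) (hA a ω)) ≤ ∑ _a : κ, Fintype.card κ * (2 * D / t) :=
        Finset.sum_le_sum fun a _ => hAD a
      rw [Finset.sum_const, Finset.card_univ, nsmul_eq_mul] at h3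
      rw [hm2]
      refine h3.trans (le_of_eq ?_)
      ring
    linarith
  -- the label
  obtain ⟨a₀⟩ := (inferInstance : Nonempty κ)
  have hqQ' : (2 ^ (Cr * (2 * t)) + 1) * ((2 ^ t + 1) * (θ * 2 ^ j)) ≤ q := by
    refine le_trans ?_ hqQ
    apply mul_le_mul_of_nonneg_left _ (by positivity)
    apply mul_le_mul_of_nonneg_left _ (by positivity)
    exact mul_le_mul_of_nonneg_left h2jN hθ0
  obtain ⟨m1, m2, m3⟩ := bsl_main F E Rd (hA a₀) G φ hφ hC hn hcap hone ht.le hCr hcj hR1 hG1 (hAc a₀)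
    (fun ω h => h.1 a₀) (fun ω h => h.2) q hq hqQ'
  refine ⟨bsl F E Rd (hA a₀) q, fun a => ?_, fun ω hω => ⟨m1 ω hω, m1 ω hω⟩, fun ω hω => ⟨m2 ω hω, m2 ω hω⟩, ?_⟩
  · apply bsl_leakA F E Rd (hA a) (hA a₀) q (A a) (hAm a) t N₀ hR2
    · intro ω h
      have := (h.1 a).symm.trans (h.1 a₀)
      rwa [← two_mul] at this
    · exact fun ω => (hAc a ω).pdM
    · exact fun ω => (hAc a₀ ω).pdM
  · have h1 : Js F.μ (lzf F A) φ c (i + 1 + j) (Λ * 2 ^ (i + 1 + j)) θ ≤ f (i + 1) := by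
      rw [hf2]
      apply Js_mono hJ hc (le_mul_of_one_le_right (by linarith) h2j) (by omega) (by positivity)
      · have : (2 : ℝ) ^ (i + 1) ≤ 2 ^ (i + 1 + j) := pow_le_pow_right₀ (by norm_num) (by omega)
        have := mul_le_mul_of_nonneg_left this hΛ.le
        rw [pow_succ] at this
        linarith
      · exact le_mul_of_one_le_right hθ0 h2j
    have h2 : f (i + 1) ≤ ∑ ω, F.μ ω * Real.logb 2 (G ω).det + 1 := by
      rw [hf2]
      unfold Js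
      calc ∑ ω, F.μ ω * js F.μ (lzf F A) φ (c * 2 ^ j) (i + 1) (2 * (Λ * 2 ^ i)) (θ * 2 ^ j) ω ≤
            ∑ ω, F.μ ω * (Real.logb 2 (G ω).det + 1) := by
            apply Finset.sum_le_sum
            intro ω _
            apply mul_le_mul_of_nonneg_left _ (F.nn ω)
            have a1 := hG2 ω
            unfold jj at a1
            have a2 := (wk_bd hJ (okf_nonneg φ (G ω) (θ * 2 ^ j)) (okf_le_one φ _ _) (i + 1) ω).2
            have a3 : 0 ≤ 2 * (Λ * 2 ^ i) * (1 - wk F.μ (lzf F A) (okf φ (G ω) (θ * 2 ^ j)) (i + 1) ω) :=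
              mul_nonneg (by positivity) (by linarith)
            linarith
        _ = _ := by
            simp_rw [mul_add, mul_one]
            rw [Finset.sum_add_distrib, hm]
    have h3 : Fintype.card ι * Real.logb 2 (c * 2 ^ j) * F.pb (fun ω => ¬ E ω) ≤
        R * (m * D / t + (R + 1) / Λ) :=
      mul_le_mul hlc hpE (F.pb_nonneg _) hR0
    linarith

end

end Pool.Agent.Helper83.GR
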