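import Pool.Agent.Helper83.GR.GFin
import Pool.Agent.Helper83.GR.Gram
import Pool.Agent.Helper83.GR.FBS

/-! Bounded walks see the exact hull, for a finite family of conditions: THEOREM GRAM for the lazy walk. The number of
steps depends only on the dimension of the forms, the number of conditions, the cap and the errors. -/

namespace Pool.Agent.Helper83.GR

open Finset Filter Topology Matrix Pool.Agent.Helper69.RK Pool.Agent.Helper31.EC Pool.Agent.Helper40.EL Pool.Agent.Helper89.LX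
open Pool.Agent.Helper95.LF (PdM)

noncomputable section

variable {ι : Type} [Fintype ι] [DecidableEq ι]

/-- probability of an event of the lazy walk of a family -/
def lpbf {κ : Type} [Fintype κ] (F : FSp) (A : κ → Setoid F.Ω) (n : ℕ) (E : Pt F.Ω n → Prop) : ℝ :=
  ∑ p, pm F.μ (fun _ => lzf F A) n p * e1_ind (E p)

/-- the data of THEOREM GRAM: a bounding form in the base whose score is at least `σ - e₀` -/
structure GDf {S : Sp} {κ : Type} (Φ : Gau S ι) (A : κ → ∀ k, Setoid (S.F k).Ω) (σ e₀ : ℝ)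
    (g₀ V : ∀ k, (S.F k).Ω → Matrix ι ι ℝ) : Prop where
  val : Valf Φ (fun i k => fc (A i k)) σ
  base : ∀ k ω ω', (S.F k).μ ω ≠ 0 → (S.F k).μ ω' ≠ 0 → (S.F k).Z ω ω' → g₀ k ω = g₀ k ω'
  cpd : ∀ᶠ k in UF, ∀ ω, (S.F k).μ ω ≠ 0 → Cpd (Φ.cp k) (g₀ k ω)
  sml : ∀ η : ℝ, 0 < η → ∀ᶠ k in UF, (S.F k).pb (fun ω => ¬ Φ.φ k ω (g₀ k ω) ≤ 2 ^ (η * (S.F k).n)) ≤ η
  scr : ∀ᶠ k in UF, (σ - e₀) * (S.F k).n ≤ ∑ ω, (S.F k).μ ω * Real.logb 2 (g₀ k ω).det
  isV : ∀ k ω, IsV (Φ.φ k ω) (V k ω)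

open Classical in
/-- THEOREM GRAM, lazy walk, family of conditions -/
theorem gram_lazyf (ι : Type) [Fintype ι] [DecidableEq ι] (κ : Type) [Fintype κ] [Nonempty κ] (C e η : ℝ) (hC : 0 ≤ C)
    (he : 0 < e) (hη : 0 < η) :
    ∃ (N : ℕ) (e₀ : ℝ), 0 < e₀ ∧ ∀ (S : Sp) (Φ : Gau S ι), Φ.C ≤ C → ∀ (A : κ → ∀ k, Setoid (S.F k).Ω) (σ : ℝ)
      (g₀ V : ∀ k, (S.F k).Ω → Matrix ι ι ℝ), GDf Φ A σ e₀ g₀ V →
      ∀ᶠ k in UF, lpbf (S.F k) (fun i => A i k) N (fun p =>
        ¬ Uni (2 ^ (-e * (S.F k).n)) (g₀ k (lst N p)) (gm (V k) N p)) ≤ η := by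
  set a : ℝ := e / 2 with ha
  have ha0 : 0 < a := by rw [ha]; linarith
  have hea : e = 2 * a := by rw [ha]; ring
  have he1 : 0 < a * η / 8 := by positivity
  obtain ⟨K, lam, ep, hlam, hep, hBS⟩ := lemma_BSf ι κ (C + a + 2) (a * η / 8) (by linarith) he1
  set M : ℝ := (Fintype.card ι : ℝ) with hM
  have hM0 : 0 ≤ M := Nat.cast_nonneg _
  -- the number of blocks
  obtain ⟨L, hL⟩ := exists_nat_ge (lam / a * (2 / a) * (M * (ep + 1 + e)) / (η / 4) + 1)
  have hL1 : (1 : ℝ) ≤ L := by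
    have : 0 ≤ lam / a * (2 / a) * (M * (ep + 1 + e)) / (η / 4) := by positivity
    linarith
  have hL0 : (0 : ℝ) < L := by linarith
  set N : ℕ := K * L with hN
  have hN0 : (0 : ℝ) ≤ (N : ℝ) := Nat.cast_nonneg N
  refine ⟨N, a * η / 8, he1, fun S Φ hΦC A σ g₀ V hD => ?_⟩
  obtain ⟨K₁, hK₁, hone⟩ := Φ.one
  -- the coefficient of the exceptional probability
  set X : ℝ := lam / a * ((N + 1) + 2 / (a * L) * ((N + 1) * (M * (C + ep + 3 + e)))) with hX
  have hX0 : 0 ≤ X := by positivity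
  set η' : ℝ := min (ep / 2) (η / 4 / (X + 1)) with hη'
  have hη'0 : 0 < η' := lt_min (by linarith) (by positivity)
  have hη'1 : η' ≤ ep / 2 := min_le_left _ _
  have hη'2 : X * η' ≤ η / 4 := by
    have h1 : η' ≤ η / 4 / (X + 1) := min_le_right _ _
    have h2 : X * η' ≤ X * (η / 4 / (X + 1)) := mul_le_mul_of_nonneg_left h1 hX0
    refine h2.trans ?_
    rw [mul_div_assoc', div_le_iff₀ (by linarith)]
    nlinarith only [hη]
  have hn1 : ∀ᶠ k in UF, 1 ≤ (S.F k).n := S.lim.eventually (eventually_ge_atTop 1)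
  have hn2 : ∀ᶠ k in UF, 4 / a ≤ (S.F k).n := S.lim.eventually (eventually_ge_atTop _)
  have hn3 : ∀ᶠ k in UF, 2 / ep ≤ (S.F k).n := S.lim.eventually (eventually_ge_atTop _)
  have hn4 : ∀ᶠ k in UF, ((N : ℝ) + 2) ≤ 2 ^ (S.F k).n := S.eventually_le_two_pow _
  have hK1' := hK₁.eventually_le one_pos
  filter_upwards [hBS S Φ A σ hD.val, hD.cpd, hD.sml η' hη'0, hD.scr, hone, hK1', hn1, hn2, hn3, hn4] with
    k kBS kcpd ksml kscr kone kK n1 n2 n3 n4
  have hn := (S.F k).pos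
  set n : ℝ := (S.F k).n with hnd
  set F : FSp := S.F k with hF
  rw [div_le_iff₀ ha0] at n2
  rw [div_le_iff₀ hep] at n3
  -- the walk data
  set g : F.Ω → Matrix ι ι ℝ := fun ω => if F.μ ω ≠ 0 then g₀ k ω else 1 with hg
  have hgs : ∀ ω, F.μ ω ≠ 0 → g ω = g₀ k ω := fun ω h => if_pos h
  have hcp1 : Φ.cp k ≤ 2 ^ ((C + 1) * n) := by
    unfold Gau.cp
    apply Real.rpow_le_rpow_of_exponent_le (by norm_num)
    exact mul_le_mul_of_nonneg_right (by linarith) hn.le
  have hc01 : (1 : ℝ) ≤ 2 ^ ((C + 1) * n) := Real.one_le_rpow (by norm_num) (by positivity)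
  have w : WD F.μ (lzf F (fun i => A i k)) (Φ.φ k) g (V k) (2 ^ ((C + 1) * n)) := by
    refine ⟨sj_lzf F _, FSp.sum_one F, gp_of Φ k, fun ω => ?_, hc01, fun ω ω' hJ => ?_, hD.isV k⟩
    · rw [hg]
      beta_reduce
      split_ifs with h
      · have h1 := kcpd ω h
        exact ⟨h1.1, h1.2.1, fun x => (h1.2.2 x).trans (mul_le_mul_of_nonneg_right hcp1 (dot_self_nonneg x))⟩
      · exact Cpd_one hc01
    · obtain ⟨s1, s2⟩ := (sj_lzf F (fun i => A i k)).supp hJ
      rw [hgs ω s1, hgs ω' s2]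
      apply hD.base k ω ω' s1 s2
      have h1 : ∃ i, jf F.μ (Quotient.mk (A i k ⊓ F.Z)) ω ω' ≠ 0 := by
        by_contra hcon
        push Not at hcon
        apply hJ
        unfold lzf favg
        rw [Finset.sum_eq_zero (fun i _ => hcon i), zero_div]
      obtain ⟨i, h1⟩ := h1
      exact (Quotient.exact (amw_supp _ _ _ _ (ω, ω') h1).1).2
  -- parameters
  set b : ℝ := 2 ^ (a * n) with hb
  set β : ℝ := 2 ^ (-a * n) with hβ
  set τ : ℝ := 2 ^ (-e * n) with hτ
  set θ : ℝ := 2 ^ (ep * n) with hθ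
  set s₁ : ℝ := 2 ^ ((C + ep + 2) * n) with hs₁
  have han : 4 ≤ a * n := by linarith
  have hepn : 2 ≤ ep * n := by linarith
  have hb1 : 1 ≤ b := Real.one_le_rpow (by norm_num) (by linarith)
  have hτ0 : 0 < τ := by positivity
  have lb : Real.logb 2 b = a * n := by rw [hb, Real.logb_rpow (by norm_num) (by norm_num)]
  have lβ : Real.logb 2 β = -a * n := by rw [hβ, Real.logb_rpow (by norm_num) (by norm_num)]
  have lτ : Real.logb 2 τ = -e * n := by rw [hτ, Real.logb_rpow (by norm_num) (by norm_num)]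
  have hgain : Real.logb 2 β - Real.logb 2 τ - 2 = a * n - 2 := by rw [lβ, lτ, hea]; ring
  have hτβ : 2 * τ ≤ β := by
    have e1 : β = 2 ^ (a * n) * τ := by
      rw [hβ, hτ, ← Real.rpow_add (by norm_num), hea]
      congr 1; ring
    have e2 : (2 : ℝ) ≤ 2 ^ (a * n) := by
      calc (2 : ℝ) = 2 ^ (1 : ℝ) := (Real.rpow_one 2).symm
        _ ≤ 2 ^ (a * n) := Real.rpow_le_rpow_of_exponent_le (by norm_num) (by linarith)
    rw [e1]
    exact mul_le_mul_of_nonneg_right e2 hτ0.le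
  have hθ2 : (2 : ℝ) ≤ θ := by
    calc (2 : ℝ) = 2 ^ (1 : ℝ) := (Real.rpow_one 2).symm
      _ ≤ θ := Real.rpow_le_rpow_of_exponent_le (by norm_num) (by linarith)
  have hbβ : b * β ≤ θ / 2 := by
    have e1 : b * β = 1 := by
      rw [hb, hβ, ← Real.rpow_add (by norm_num)]
      rw [show a * n + -a * n = 0 by ring, Real.rpow_zero]
    rw [e1]; linarith
  have hθs : θ ≤ s₁ := by
    apply Real.rpow_le_rpow_of_exponent_le (by norm_num)
    have : 0 ≤ (C + 2) * n := by positivity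
    nlinarith only [this]
  have hs1 : ∀ ω, F.μ ω ≠ 0 → Φ.φ k ω (g ω) ≤ s₁ := by
    intro ω hω
    have h1 := (w.gp ω).mono' (w.cpd ω).1 (Cpd_one (ι := ι) (le_refl (1 : ℝ))).psd (c := 2 ^ ((C + 1) * n)) (by positivity)
      (fun x => by
        have h2 := (w.cpd ω).2.2 x
        have h3 : qf (1 : Matrix ι ι ℝ) x = x ⬝ᵥ x := by unfold qf; rw [Matrix.one_mulVec]
        rw [h3]
        exact h2)
    have h2 := kone ω hω
    have h3 : K₁ k ≤ 2 ^ (1 * n) := by linarith
    have h4 : (2 : ℝ) ^ ((C + 1) * n) * 2 ^ (1 * n) ≤ s₁ := by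
      rw [← Real.rpow_add (by norm_num)]
      apply Real.rpow_le_rpow_of_exponent_le (by norm_num)
      have : 0 ≤ ep * n := by positivity
      nlinarith only [this]
    have h5 := mul_le_mul_of_nonneg_left (h2.trans h3) (show (0 : ℝ) ≤ 2 ^ ((C + 1) * n) by positivity)
    linarith
  have hfin := w.gram_fin hτ0 hτβ (by rw [hgain]; linarith) hb1 (by positivity) hbβ (Λ := lam * n) (by positivity)
    (show θ / 2 ≤ s₁ by linarith [hθ2]) hs1 K L
  rw [hgain, lb, lτ, ← hN, ← hM] at hfin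
  -- the supremum
  have hJs : Js F.μ (lzf F (fun i => A i k)) (Φ.φ k) ((1 + b) * 2 ^ ((C + 1) * n)) K (lam * n) θ ≤ (σ + a * η / 8) * n := by
    refine le_trans ?_ kBS
    apply Js_mono (sj_lzf F _) _ _ le_rfl (by positivity) le_rfl le_rfl
    · exact one_le_mul_of_one_le_of_one_le (by linarith only [hb1]) hc01
    · have e1 : (2 : ℝ) ^ ((C + a + 2) * n) = 2 ^ (a * n) * 2 ^ n * 2 ^ ((C + 1) * n) := by
        rw [← Real.rpow_add (by norm_num), ← Real.rpow_add (by norm_num)]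
        congr 1; ring
      rw [e1]
      apply mul_le_mul_of_nonneg_right _ (by positivity)
      have e2 : (2 : ℝ) ≤ 2 ^ n := by
        calc (2 : ℝ) = 2 ^ (1 : ℝ) := (Real.rpow_one 2).symm
          _ ≤ 2 ^ n := Real.rpow_le_rpow_of_exponent_le (by norm_num) n1
      have e3 : (1 : ℝ) ≤ 2 ^ (a * n) := hb1
      have e4 : (1 : ℝ) + b ≤ 2 ^ (a * n) * 2 := by rw [hb]; linarith
      refine e4.trans ?_
      exact mul_le_mul_of_nonneg_left e2 (by positivity)
  -- the score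
  have hsc : (σ - a * η / 8) * n ≤ ∑ ω, F.μ ω * Real.logb 2 (g ω).det := by
    refine kscr.trans (le_of_eq ?_)
    apply Finset.sum_congr rfl
    intro ω _
    by_cases h0 : F.μ ω = 0
    · rw [h0, zero_mul, zero_mul]
    · rw [hgs ω h0]
  -- the exceptional probability
  set p₀ : ℝ := w.p0 (θ / 2) with hp₀
  have hp₀0 : 0 ≤ p₀ := w.p0_nonneg _
  have hp₀1 : p₀ ≤ η' := by
    refine le_trans ?_ ksml
    rw [pb_eq_ind]
    unfold WD.p0 at hp₀
    rw [hp₀]
    apply Finset.sum_le_sum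
    intro ω _
    by_cases h0 : F.μ ω = 0
    · rw [h0, zero_mul, zero_mul]
    apply mul_le_mul_of_nonneg_left _ (F.nn ω)
    apply ind_mono
    intro h1 h2
    apply h1
    rw [hgs ω h0]
    refine h2.trans ?_
    have e1 : (2 : ℝ) ^ (η' * n) * 2 ≤ θ := by
      rw [← Real.rpow_add_one (by norm_num)]
      apply Real.rpow_le_rpow_of_exponent_le (by norm_num)
      nlinarith only [mul_le_mul_of_nonneg_right hη'1 hn.le, hepn]
    linarith
  -- the logarithms
  have hτ1 : τ ≤ 1 := by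
    rw [hτ]
    apply Real.rpow_le_one_of_one_le_of_nonpos (by norm_num)
    nlinarith only [mul_pos he hn]
  have l1 : Real.logb 2 (((N : ℝ) + 1) * (θ / 2) + τ) - -e * n ≤ (ep + 1 + e) * n := by
    have e1 : ((N : ℝ) + 1) * (θ / 2) + τ ≤ 2 ^ ((ep + 1) * n) := by
      have e2 : (2 : ℝ) ^ ((ep + 1) * n) = θ * 2 ^ n := by
        rw [hθ, ← Real.rpow_add (by norm_num)]
        congr 1; ring
      rw [e2]
      have e3 := mul_le_mul_of_nonneg_left n4 (show 0 ≤ θ by positivity)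
      nlinarith only [e3, mul_nonneg hN0 (show (0 : ℝ) ≤ θ by positivity), hθ2, hτ1]
    have e2 := Real.logb_le_logb_of_le (b := 2) (by norm_num) (by positivity) e1
    rw [Real.logb_rpow (by norm_num) (by norm_num)] at e2
    linarith
  have l2 : Real.logb 2 (((N : ℝ) + 1) * s₁ + τ) - -e * n ≤ (C + ep + 3 + e) * n := by
    have hs11 : 1 ≤ s₁ := Real.one_le_rpow (by norm_num) (by positivity)
    have e1 : ((N : ℝ) + 1) * s₁ + τ ≤ 2 ^ ((C + ep + 3) * n) := by
      have e2 : (2 : ℝ) ^ ((C + ep + 3) * n) = s₁ * 2 ^ n := by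
        rw [hs₁, ← Real.rpow_add (by norm_num)]
        congr 1; ring
      rw [e2]
      have e3 := mul_le_mul_of_nonneg_left n4 (show 0 ≤ s₁ by positivity)
      nlinarith only [e3, hτ1, hs11]
    have e2 := Real.logb_le_logb_of_le (b := 2) (by norm_num) (by positivity) e1
    rw [Real.logb_rpow (by norm_num) (by norm_num)] at e2
    linarith
  -- the estimate
  have hB : (M * (Real.logb 2 (((N : ℝ) + 1) * (θ / 2) + τ) - -e * n) +
      ((N : ℝ) + 1) * p₀ * (M * (Real.logb 2 (((N : ℝ) + 1) * s₁ + τ) - -e * n))) / (a * n - 2) ≤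
      2 / a * (M * (ep + 1 + e) + (N + 1) * p₀ * (M * (C + ep + 3 + e))) := by
    rw [div_le_iff₀ (by linarith)]
    have e1 : M * (Real.logb 2 (((N : ℝ) + 1) * (θ / 2) + τ) - -e * n) ≤ M * (ep + 1 + e) * n := by
      have := mul_le_mul_of_nonneg_left l1 hM0
      linarith
    have e2 : ((N : ℝ) + 1) * p₀ * (M * (Real.logb 2 (((N : ℝ) + 1) * s₁ + τ) - -e * n)) ≤
        (N + 1) * p₀ * (M * (C + ep + 3 + e)) * n := by
      have e3 := mul_le_mul_of_nonneg_left l2 hM0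
      have e4 := mul_le_mul_of_nonneg_left e3 (show 0 ≤ ((N : ℝ) + 1) * p₀ by positivity)
      linarith
    have e3 : n ≤ 2 / a * (a * n - 2) := by
      have e4 : 2 / a * (a * n - 2) = 2 * n - 4 / a := by field_simp; ring
      rw [e4]
      have e5 : 4 / a ≤ n := by rw [div_le_iff₀ ha0]; linarith
      linarith
    have e4 : 0 ≤ M * (ep + 1 + e) + (N + 1) * p₀ * (M * (C + ep + 3 + e)) := by positivity
    have e5 := mul_le_mul_of_nonneg_left e3 e4
    linarith
  have hPb : w.Pb τ N ≤ η := by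
    have hPb0 := w.Pb_nonneg τ N
    have e1 := mul_le_mul_of_nonneg_left hB (show 0 ≤ lam * n by positivity)
    have e2 : L * (a * n * w.Pb τ N) ≤ L * (a * η / 4 * n) + lam * n * (L * ((N + 1) * p₀) +
        2 / a * (M * (ep + 1 + e) + (N + 1) * p₀ * (M * (C + ep + 3 + e)))) := by
      have e3 := mul_le_mul_of_nonneg_left hJs hL0.le
      have e4 := mul_le_mul_of_nonneg_left hsc hL0.le
      linarith
    have e3 : w.Pb τ N ≤ η / 4 + lam / a * (2 / a) * (M * (ep + 1 + e)) / L + X * p₀ := by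
      have e4 : L * (a * n) * (η / 4 + lam / a * (2 / a) * (M * (ep + 1 + e)) / L + X * p₀) =
          L * (a * η / 4 * n) + lam * n * (L * ((N + 1) * p₀) +
          2 / a * (M * (ep + 1 + e) + (N + 1) * p₀ * (M * (C + ep + 3 + e)))) := by
        rw [hX]
        field_simp
        ring
      have e5 : L * (a * n) * w.Pb τ N ≤ L * (a * n) *
          (η / 4 + lam / a * (2 / a) * (M * (ep + 1 + e)) / L + X * p₀) := by
        rw [e4]
        linarith
      exact le_of_mul_le_mul_left e5 (by positivity)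
    have e4 : lam / a * (2 / a) * (M * (ep + 1 + e)) / L ≤ η / 4 := by
      rw [div_le_iff₀ hL0]
      have e5 : lam / a * (2 / a) * (M * (ep + 1 + e)) / (η / 4) ≤ L := by linarith
      rw [div_le_iff₀ (by positivity)] at e5
      linarith
    have e5 : X * p₀ ≤ η / 4 := (mul_le_mul_of_nonneg_left hp₀1 hX0).trans hη'2
    linarith
  refine le_trans ?_ hPb
  unfold lpbf WD.Pb
  apply Finset.sum_le_sum
  intro p _
  by_cases h0 : pm F.μ (fun _ => lzf F (fun i => A i k)) N p = 0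
  · rw [h0, zero_mul, zero_mul]
  apply mul_le_mul_of_nonneg_left _ (pm_nonneg (fun _ => w.sj) N p)
  apply ind_mono
  intro h1
  by_contra h2
  apply h1
  have h3 := pm_supp (fun _ => w.sj) N p h0
  rw [← hgs _ h3]
  apply uni_of (w.cpd _).pdM (w.gmp N p)
  intro x hx
  by_contra h4
  push Not at h4
  exact h2 ⟨x, hx, h4⟩

end

end Pool.Agent.Helper83.GR
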