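import Pool.Agent.Helper83.GR.Lab

/-! Bounded walks see the exact hull, part 4: the finite form of LEMMA BS. -/

namespace Pool.Agent.Helper83.GR

open Finset Matrix Pool.Agent.Helper69.RK Pool.Agent.Helper31.EC Pool.Agent.Helper40.EL Pool.Agent.Helper89.LX
open Pool.Agent.Helper95.LF (PdM NearM)

noncomputable section

/-- the lazy step: a copy given `A` or a copy given `B`, with probability `1/2` each -/
def lz (F : FSp) (A B : Setoid F.Ω) : F.Ω → F.Ω → ℝ :=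
  javg (jf F.μ (Quotient.mk (A ⊓ F.Z))) (jf F.μ (Quotient.mk (B ⊓ F.Z)))

theorem sj_lz (F : FSp) (A B : Setoid F.Ω) : SJ F.μ (lz F A B) := (sj_jf F.nn _).avg (sj_jf F.nn _)

theorem FSp.sum_one (F : FSp) : ∑ ω, F.μ ω = 1 := F.ms

variable {ι : Type} [Fintype ι] [DecidableEq ι]

theorem pb_eq_ind (F : FSp) (E : F.Ω → Prop) : F.pb E = ∑ ω, F.μ ω * e1_ind (E ω) := by
  unfold FSp.pb mass
  apply Finset.sum_congr rfl
  intro ω _
  by_cases h : E ω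
  · rw [res_pos _ _ _ h, e1_ind_pos h, mul_one]
  · rw [res_neg _ _ _ h, e1_ind_neg h, mul_zero]

theorem bs_fin (F : FSp) (A B : Setoid F.Ω) (φ : F.Ω → Matrix ι ι ℝ → ℝ) (hφ : ∀ ω, Gp (φ ω)) {C K₁ : ℝ} (hC : 0 ≤ C)
    (hn : 1 ≤ F.n) (hcap : ∀ ω, F.μ ω ≠ 0 → ∀ A, PdM A → ∀ x, qf A x ≤ 2 ^ (C * F.n) * φ ω A * (x ⬝ᵥ x))
    (hone : ∀ ω, F.μ ω ≠ 0 → φ ω 1 ≤ K₁) {t Cr : ℝ} (ht : 0 < t) (hCr : 0 ≤ Cr) (Rd : Matrix ι ι ℝ → Matrix ι ι ℝ)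
    (N₀ : ℕ) (hR1 : ∀ M : Matrix ι ι ℝ, PdM M → PdM (Rd M) ∧ Nr (Cr * (2 * t)) M (Rd M))
    (hR2 : ∀ M : Matrix ι ι ℝ, PdM M → ∃ S : Finset (Matrix ι ι ℝ), S.card ≤ N₀ ∧ ∀ M', PdM M' → Nr (2 * t) M M' → Rd M' ∈ S)
    (N : ℕ) (hN : 1 ≤ N) {c θ Λ : ℝ} (hc : 1 ≤ c) (hθ : K₁ ≤ θ) (hθ0 : 0 ≤ θ) (hΛ : 0 < Λ) (q : ℕ) (hq : q ≠ 0)
    (hqQ : (2 ^ (Cr * (2 * t)) + 1) * ((2 ^ t + 1) * (θ * 2 ^ N)) ≤ q) {R : ℝ}
    (hR : R = Fintype.card ι * Real.logb 2 (c * 2 ^ N)) :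
    ∃ y : FD F ι, y.l.leak (fc A) ≤ Real.logb 2 ((N₀ + 1 : ℕ) : ℝ) ∧ y.l.leak (fc B) ≤ 1 ∧
      (∀ ω, y.l.T.μ ω ≠ 0 → Cpd (2 ^ ((C + 1) * F.n)) (y.g ω) ∧ Cpd (2 ^ ((C + 1) * F.n)) (y.g' ω)) ∧
      (∀ ω, y.l.T.μ ω ≠ 0 → φ (y.l.p.π ω) (y.g ω) ≤ K₁ + 1 ∧ φ (y.l.p.π ω) (y.g' ω) ≤ K₁ + 1) ∧
      Js F.μ (lz F A B) φ c N (Λ * 2 ^ N) θ ≤ y.sc + 1 + Fintype.card ι * (Real.logb 2 q + (2 * Cr + 1) * t) +
        R * (8 * (R / N + 1) / t + (R + 1) / Λ) := by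
  classical
  have hJ := sj_lz F A B
  have hm := FSp.sum_one F
  have hcard : (0 : ℝ) ≤ Fintype.card ι := Nat.cast_nonneg _
  have hN0 : (0 : ℝ) < N := by
    have : 0 < N := hN
    exact_mod_cast this
  have h2N : (1 : ℝ) ≤ 2 ^ N := one_le_pow₀ (by norm_num)
  have hcN : 1 ≤ c * 2 ^ N := by nlinarith
  have hR0 : 0 ≤ R := by
    rw [hR]
    exact mul_nonneg hcard (Real.logb_nonneg (by norm_num) hcN)
  set f : ℕ → ℝ := fun i => Js F.μ (lz F A B) φ (c * 2 ^ (N - i)) i (Λ * 2 ^ i) (θ * 2 ^ (N - i)) with hf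
  have hf0 : f 0 ≤ R := by
    rw [hf, hR]
    beta_reduce
    rw [Nat.sub_zero]
    exact Js_le hJ hm hcN 0 (by positivity) _
  have hfN : 0 ≤ f N := by
    rw [hf]
    beta_reduce
    rw [Nat.sub_self, pow_zero, mul_one, mul_one]
    exact Js_nonneg hJ hc N (by positivity) (fun ω hω => (hone ω hω).trans hθ)
  -- pigeonhole
  obtain ⟨i, hi, hfi⟩ : ∃ i, i < N ∧ f i - f (i + 1) ≤ R / N := by
    by_contra hcon
    push Not at hcon
    have h1 : ∑ i ∈ Finset.range N, (R / N) < ∑ i ∈ Finset.range N, (f i - f (i + 1)) :=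
      Finset.sum_lt_sum_of_nonempty ⟨0, Finset.mem_range.mpr hN⟩ fun i hi => hcon i (Finset.mem_range.mp hi)
    rw [Finset.sum_range_sub', Finset.sum_const, Finset.card_range, nsmul_eq_mul, mul_div_cancel₀ _ hN0.ne'] at h1
    linarith
  obtain ⟨j, rfl⟩ : ∃ j, N = i + 1 + j := ⟨N - (i + 1), by omega⟩
  have e1 : i + 1 + j - i = j + 1 := by omega
  have e2 : i + 1 + j - (i + 1) = j := by omega
  have hf1 : f i = Js F.μ (lz F A B) φ (2 * (c * 2 ^ j)) i (Λ * 2 ^ i) (2 * (θ * 2 ^ j)) := by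
    rw [hf]
    beta_reduce
    rw [e1, pow_succ, show c * (2 ^ j * 2) = 2 * (c * 2 ^ j) by ring, show θ * (2 ^ j * 2) = 2 * (θ * 2 ^ j) by ring]
  have hf2 : f (i + 1) = Js F.μ (lz F A B) φ (c * 2 ^ j) (i + 1) (2 * (Λ * 2 ^ i)) (θ * 2 ^ j) := by
    rw [hf]
    beta_reduce
    rw [e2, pow_succ, show Λ * (2 ^ i * 2) = 2 * (Λ * 2 ^ i) by ring]
  have h2j : (1 : ℝ) ≤ 2 ^ j := one_le_pow₀ (by norm_num)
  have h2i : (1 : ℝ) ≤ 2 ^ i := one_le_pow₀ (by norm_num)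
  have hcj : 1 ≤ c * 2 ^ j := by nlinarith
  have h2jN : (2 : ℝ) ^ j ≤ 2 ^ (i + 1 + j) := pow_le_pow_right₀ (by norm_num) (by omega)
  have hlc : Fintype.card ι * Real.logb 2 (c * 2 ^ j) ≤ R := by
    rw [hR]
    apply mul_le_mul_of_nonneg_left _ hcard
    apply Real.logb_le_logb_of_le (by norm_num) (by linarith)
    exact mul_le_mul_of_nonneg_left h2jN (by linarith)
  -- nearly optimal forms
  have hG : ∀ ω, ∃ M : Matrix ι ι ℝ, Cpd (c * 2 ^ j) M ∧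
      js F.μ (lz F A B) φ (c * 2 ^ j) (i + 1) (2 * (Λ * 2 ^ i)) (θ * 2 ^ j) ω - 1 ≤
        jj F.μ (lz F A B) φ (i + 1) (2 * (Λ * 2 ^ i)) (θ * 2 ^ j) ω M :=
    fun ω => js_near hcj _ _ _ ω one_pos
  choose G hG1 hG2 using hG
  have hstep := step_ineq hJ (fun ω => (hφ ω).add) hcj i (Λ := Λ * 2 ^ i) (by positivity) (θ * 2 ^ j) 1 hm G hG1 hG2
  rw [← hf1, ← hf2] at hstep
  set D : ℝ := R / (i + 1 + j : ℕ) + 1 with hD
  have hDle : ∑ ω, ∑ ω', lz F A B ω ω' * (Real.logb 2 (G ω + G ω').det - Real.logb 2 (G ω').det) ≤ D := by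
    rw [hD]; linarith
  have hnear := near_mass hJ ht G hG1 hDle
  have hA4 : ∑ ω, ∑ ω', jf F.μ (Quotient.mk (A ⊓ F.Z)) ω ω' * e1_ind (¬ Nr t (G ω) (G ω')) ≤ 4 * D / t := by
    have h1 : ∑ ω, ∑ ω', jf F.μ (Quotient.mk (A ⊓ F.Z)) ω ω' * e1_ind (¬ Nr t (G ω) (G ω')) ≤
        2 * ∑ ω, ∑ ω', lz F A B ω ω' * e1_ind (¬ Nr t (G ω) (G ω')) := by
      rw [Finset.mul_sum]
      apply Finset.sum_le_sum
      intro ω _
      rw [Finset.mul_sum]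
      apply Finset.sum_le_sum
      intro ω' _
      rw [← mul_assoc]
      apply mul_le_mul_of_nonneg_right _ (ind_nonneg _)
      unfold lz javg
      have := (sj_jf F.nn (Quotient.mk (B ⊓ F.Z))).nn ω ω'
      linarith
    have h2 : 4 * D / t = 2 * (2 * D / t) := by ring
    rw [h2]
    linarith
  have hB4 : ∑ ω, ∑ ω', jf F.μ (Quotient.mk (B ⊓ F.Z)) ω ω' * e1_ind (¬ Nr t (G ω) (G ω')) ≤ 4 * D / t := by
    have h1 : ∑ ω, ∑ ω', jf F.μ (Quotient.mk (B ⊓ F.Z)) ω ω' * e1_ind (¬ Nr t (G ω) (G ω')) ≤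
        2 * ∑ ω, ∑ ω', lz F A B ω ω' * e1_ind (¬ Nr t (G ω) (G ω')) := by
      rw [Finset.mul_sum]
      apply Finset.sum_le_sum
      intro ω _
      rw [Finset.mul_sum]
      apply Finset.sum_le_sum
      intro ω' _
      rw [← mul_assoc]
      apply mul_le_mul_of_nonneg_right _ (ind_nonneg _)
      unfold lz javg
      have := (sj_jf F.nn (Quotient.mk (A ⊓ F.Z))).nn ω ω'
      linarith
    have h2 : 4 * D / t = 2 * (2 * D / t) := by ring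
    rw [h2]
    linarith
  obtain ⟨hA, hAf, hAG, hAD⟩ := agree_fail F.nn hm _ G hA4
  obtain ⟨hB, hBf, hBG, hBD⟩ := agree_fail F.nn hm _ G hB4
  have hAm : ∀ ω ω', (A ⊓ F.Z) ω ω' → hA ω = hA ω' := fun ω ω' h => hAf ω ω' (Quotient.sound h)
  have hBm : ∀ ω ω', (B ⊓ F.Z) ω ω' → hB ω = hB ω' := fun ω ω' h => hBf ω ω' (Quotient.sound h)
  have hAc : ∀ ω, Cpd (c * 2 ^ j) (hA ω) := by
    intro ω
    obtain ⟨ω', e⟩ := hAG ω
    rw [e]
    exact hG1 ω'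
  have hBc : ∀ ω, Cpd (c * 2 ^ j) (hB ω) := by
    intro ω
    obtain ⟨ω', e⟩ := hBG ω
    rw [e]
    exact hG1 ω'
  -- the good event
  set E : F.Ω → Prop := fun ω => Nr t (G ω) (hB ω) ∧ Nr t (G ω) (hA ω) ∧ φ ω (G ω) ≤ θ * 2 ^ j with hE
  have hfail : ∑ ω, F.μ ω * e1_ind (¬ φ ω (G ω) ≤ θ * 2 ^ j) ≤ (R + 1) / Λ := by
    have h1 : f (i + 1) - 1 ≤ ∑ ω, F.μ ω * jj F.μ (lz F A B) φ (i + 1) (2 * (Λ * 2 ^ i)) (θ * 2 ^ j) ω (G ω) := by
      have h2 : ∑ ω, F.μ ω * (js F.μ (lz F A B) φ (c * 2 ^ j) (i + 1) (2 * (Λ * 2 ^ i)) (θ * 2 ^ j) ω - 1) ≤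
          ∑ ω, F.μ ω * jj F.μ (lz F A B) φ (i + 1) (2 * (Λ * 2 ^ i)) (θ * 2 ^ j) ω (G ω) :=
        Finset.sum_le_sum fun ω _ => mul_le_mul_of_nonneg_left (hG2 ω) (F.nn ω)
      refine le_trans (le_of_eq ?_) h2
      rw [hf2]
      unfold Js
      simp_rw [mul_sub, mul_one]
      rw [Finset.sum_sub_distrib, hm]
    have h3 : 0 ≤ f (i + 1) := by
      rw [hf2]
      apply Js_nonneg hJ hcj _ (by positivity)
      intro ω hω
      have := hone ω hω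
      nlinarith
    have h4 : ∑ ω, F.μ ω * jj F.μ (lz F A B) φ (i + 1) (2 * (Λ * 2 ^ i)) (θ * 2 ^ j) ω (G ω) ≤
        ∑ ω, F.μ ω * (R - Λ * e1_ind (¬ φ ω (G ω) ≤ θ * 2 ^ j)) := by
      apply Finset.sum_le_sum
      intro ω _
      apply mul_le_mul_of_nonneg_left _ (F.nn ω)
      unfold jj
      have a1 := logdet_le hcj (hG1 ω)
      have a2 : wk F.μ (lz F A B) (okf φ (G ω) (θ * 2 ^ j)) (i + 1) ω ≤ okf φ (G ω) (θ * 2 ^ j) ω :=
        wk_anti_le hJ (okf_nonneg φ _ _) (okf_le_one φ _ _) (Nat.zero_le (i + 1)) ω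
      have a3 : e1_ind (¬ φ ω (G ω) ≤ θ * 2 ^ j) ≤ 1 - wk F.μ (lz F A B) (okf φ (G ω) (θ * 2 ^ j)) (i + 1) ω := by
        rw [ind_not]
        unfold okf at a2
        unfold okf
        linarith
      have a4 : Λ ≤ 2 * (Λ * 2 ^ i) := by nlinarith
      have a5 : Λ * e1_ind (¬ φ ω (G ω) ≤ θ * 2 ^ j) ≤ 2 * (Λ * 2 ^ i) *
          (1 - wk F.μ (lz F A B) (okf φ (G ω) (θ * 2 ^ j)) (i + 1) ω) :=
        mul_le_mul a4 a3 (ind_nonneg _) (by positivity)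
      linarith
    have h5 : ∑ ω, F.μ ω * (R - Λ * e1_ind (¬ φ ω (G ω) ≤ θ * 2 ^ j)) =
        R - Λ * ∑ ω, F.μ ω * e1_ind (¬ φ ω (G ω) ≤ θ * 2 ^ j) := by
      rw [Finset.mul_sum]
      simp_rw [mul_sub]
      rw [Finset.sum_sub_distrib, ← Finset.sum_mul, hm, one_mul]
      congr 1
      exact Finset.sum_congr rfl fun ω _ => by ring
    rw [le_div_iff₀ hΛ]
    linarith
  have hpE : F.pb (fun ω => ¬ E ω) ≤ 8 * D / t + (R + 1) / Λ := by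
    rw [pb_eq_ind]
    have h1 : ∑ ω, F.μ ω * e1_ind (¬ E ω) ≤ ∑ ω, F.μ ω * e1_ind (¬ Nr t (G ω) (hB ω)) +
        ∑ ω, F.μ ω * e1_ind (¬ Nr t (G ω) (hA ω)) + ∑ ω, F.μ ω * e1_ind (¬ φ ω (G ω) ≤ θ * 2 ^ j) := by
      rw [← Finset.sum_add_distrib, ← Finset.sum_add_distrib]
      apply Finset.sum_le_sum
      intro ω _
      rw [← mul_add, ← mul_add]
      apply mul_le_mul_of_nonneg_left _ (F.nn ω)
      have b1 := ind_nonneg (¬ Nr t (G ω) (hB ω))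
      have b2 := ind_nonneg (¬ Nr t (G ω) (hA ω))
      have b3 := ind_nonneg (¬ φ ω (G ω) ≤ θ * 2 ^ j)
      have b4 := ind_le_one (¬ E ω)
      by_cases c1 : Nr t (G ω) (hB ω)
      · by_cases c2 : Nr t (G ω) (hA ω)
        · by_cases c3 : φ ω (G ω) ≤ θ * 2 ^ j
          · rw [e1_ind_neg (not_not.mpr (show E ω from ⟨c1, c2, c3⟩))]
            linarith
          · rw [e1_ind_pos c3]
            linarith
        · rw [e1_ind_pos c2]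
          linarith
      · rw [e1_ind_pos c1]
        linarith
    have h2 : 8 * D / t = 4 * D / t + 4 * D / t := by ring
    linarith
  -- the label
  have hqQ' : (2 ^ (Cr * (2 * t)) + 1) * ((2 ^ t + 1) * (θ * 2 ^ j)) ≤ q := by
    refine le_trans ?_ hqQ
    apply mul_le_mul_of_nonneg_left _ (by positivity)
    apply mul_le_mul_of_nonneg_left _ (by positivity)
    exact mul_le_mul_of_nonneg_left h2jN hθ0
  obtain ⟨m1, m2, m3⟩ := bsl_main F E Rd hB G φ hφ hC hn hcap hone ht.le hCr hcj hR1 hG1 hBc (fun ω h => h.1)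
    (fun ω h => h.2.2) q hq hqQ'
  refine ⟨bsl F E Rd hB q, ?_, ?_, fun ω hω => ⟨m1 ω hω, m1 ω hω⟩, fun ω hω => ⟨m2 ω hω, m2 ω hω⟩, ?_⟩
  · apply bsl_leakA F E Rd hA hB q A hAm t N₀ hR2
    · intro ω h
      have := h.2.1.symm.trans h.1
      rwa [← two_mul] at this
    · exact fun ω => (hAc ω).pdM
    · exact fun ω => (hBc ω).pdM
  · exact bsl_leakB F E Rd hB q B hBm
  · have h1 : Js F.μ (lz F A B) φ c (i + 1 + j) (Λ * 2 ^ (i + 1 + j)) θ ≤ f (i + 1) := by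
      rw [hf2]
      apply Js_mono hJ hc (le_mul_of_one_le_right (by linarith) h2j) (by omega) (by positivity)
      · have : (2 : ℝ) ^ (i + 1) ≤ 2 ^ (i + 1 + j) := pow_le_pow_right₀ (by norm_num) (by omega)
        have := mul_le_mul_of_nonneg_left this hΛ.le
        rw [pow_succ] at this
        linarith
      · exact le_mul_of_one_le_right hθ0 h2j
    have h2 : f (i + 1) ≤ ∑ ω, F.μ ω * Real.logb 2 (G ω).det + 1 := by
      rw [hf2]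
      unfold Js
      calc ∑ ω, F.μ ω * js F.μ (lz F A B) φ (c * 2 ^ j) (i + 1) (2 * (Λ * 2 ^ i)) (θ * 2 ^ j) ω ≤
            ∑ ω, F.μ ω * (Real.logb 2 (G ω).det + 1) := by
            apply Finset.sum_le_sum
            intro ω _
            apply mul_le_mul_of_nonneg_left _ (F.nn ω)
            have a1 := hG2 ω
            unfold jj at a1
            have a2 := (wk_bd hJ (okf_nonneg φ (G ω) (θ * 2 ^ j)) (okf_le_one φ _ _) (i + 1) ω).2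
            have a3 : 0 ≤ 2 * (Λ * 2 ^ i) * (1 - wk F.μ (lz F A B) (okf φ (G ω) (θ * 2 ^ j)) (i + 1) ω) :=
              mul_nonneg (by positivity) (by linarith)
            linarith
        _ = _ := by
            simp_rw [mul_add, mul_one]
            rw [Finset.sum_add_distrib, hm]
    have h3 : Fintype.card ι * Real.logb 2 (c * 2 ^ j) * F.pb (fun ω => ¬ E ω) ≤
        R * (8 * D / t + (R + 1) / Λ) :=
      mul_le_mul hlc hpE (F.pb_nonneg _) hR0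
    linarith

end

end Pool.Agent.Helper83.GR
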