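import Pool.Agent.Helper83.GR.Path

/-! Bounded walks see the exact hull, part 7: rank one forms, Gram matrices of paths. -/

namespace Pool.Agent.Helper83.GR

open Finset Filter Topology Matrix Pool.Agent.Helper69.RK Pool.Agent.Helper31.EC Pool.Agent.Helper40.EL Pool.Agent.Helper89.LX
open Pool.Agent.Helper95.LF (PdM)

noncomputable section

variable {ι : Type} [Fintype ι] [DecidableEq ι]

omit [DecidableEq ι] in
theorem qf_smul (c : ℝ) (A : Matrix ι ι ℝ) (x : ι → ℝ) : qf (c • A) x = c * qf A x := by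
  unfold qf
  rw [Matrix.smul_mulVec, dotProduct_smul, smul_eq_mul]

omit [DecidableEq ι] in
theorem qf_vec_smul (c : ℝ) (A : Matrix ι ι ℝ) (x : ι → ℝ) : qf A (c • x) = c ^ 2 * qf A x := by
  unfold qf
  rw [Matrix.mulVec_smul, dotProduct_smul, smul_dotProduct, smul_eq_mul, smul_eq_mul]
  ring

/-- rank one forms -/
def r1 (x : ι → ℝ) : Matrix ι ι ℝ := Matrix.vecMulVec x x

omit [DecidableEq ι] in
theorem qf_r1 (x y : ι → ℝ) : qf (r1 x) y = (x ⬝ᵥ y) ^ 2 := by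
  unfold qf r1
  rw [Matrix.vecMulVec_mulVec, dotProduct_smul, dotProduct_comm y x]
  simp only [MulOpposite.smul_eq_mul_unop, MulOpposite.unop_op]
  ring

omit [Fintype ι] [DecidableEq ι] in
theorem r1_symm (x : ι → ℝ) : (r1 x).IsSymm := by
  unfold r1
  exact Matrix.transpose_vecMulVec x x

omit [DecidableEq ι] in
theorem r1_psd (x : ι → ℝ) : Psd (r1 x) := ⟨r1_symm x, fun y => by rw [qf_r1]; exact sq_nonneg _⟩

omit [DecidableEq ι] in
theorem symm_dot {g : Matrix ι ι ℝ} (hg : g.IsSymm) (x y : ι → ℝ) : (g *ᵥ x) ⬝ᵥ y = x ⬝ᵥ (g *ᵥ y) := by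
  rw [Matrix.dotProduct_mulVec, ← Matrix.mulVec_transpose, hg.eq]

omit [DecidableEq ι] in
/-- Cauchy-Schwarz for forms -/
theorem qf_cs {g : Matrix ι ι ℝ} (hg : Psd g) (x y : ι → ℝ) : ((g *ᵥ x) ⬝ᵥ y) ^ 2 ≤ qf g x * qf g y := by
  have h1 : ∀ t : ℝ, 0 ≤ qf g y * (t * t) + 2 * ((g *ᵥ x) ⬝ᵥ y) * t + qf g x := by
    intro t
    have h2 := hg.2 (x + t • y)
    have h3 : qf g (x + t • y) = qf g y * (t * t) + 2 * ((g *ᵥ x) ⬝ᵥ y) * t + qf g x := by
      unfold qf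
      rw [Matrix.mulVec_add, Matrix.mulVec_smul, dotProduct_add, add_dotProduct, add_dotProduct, dotProduct_smul,
        smul_dotProduct, smul_dotProduct, dotProduct_smul]
      have e1 : x ⬝ᵥ (g *ᵥ y) = (g *ᵥ x) ⬝ᵥ y := (symm_dot hg.1 x y).symm
      have e2 : y ⬝ᵥ (g *ᵥ x) = (g *ᵥ x) ⬝ᵥ y := dotProduct_comm _ _
      rw [e1, e2]
      simp only [smul_eq_mul]
      ring
    rw [h3] at h2
    exact h2
  have h4 := discrim_le_zero h1
  unfold discrim at h4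
  nlinarith

/-- the form `g V g` -/
def cj (g V : Matrix ι ι ℝ) : Matrix ι ι ℝ := g * V * g

omit [DecidableEq ι] in
theorem qf_cj {g : Matrix ι ι ℝ} (hg : g.IsSymm) (V : Matrix ι ι ℝ) (x : ι → ℝ) : qf (cj g V) x = qf V (g *ᵥ x) := by
  unfold qf cj
  rw [← Matrix.mulVec_mulVec, ← Matrix.mulVec_mulVec, symm_dot hg]

omit [DecidableEq ι] in
theorem cj_symm {g V : Matrix ι ι ℝ} (hg : g.IsSymm) (hV : V.IsSymm) : (cj g V).IsSymm := by
  unfold cj Matrix.IsSymm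
  rw [Matrix.transpose_mul, Matrix.transpose_mul, hg.eq, hV.eq, Matrix.mul_assoc]

omit [DecidableEq ι] in
theorem cj_psd {g V : Matrix ι ι ℝ} (hg : g.IsSymm) (hV : Psd V) : Psd (cj g V) :=
  ⟨cj_symm hg hV.1, fun x => by rw [qf_cj hg]; exact hV.2 _⟩

omit [DecidableEq ι] in
theorem cj_add (g V W : Matrix ι ι ℝ) : cj g (V + W) = cj g V + cj g W := by
  unfold cj
  rw [Matrix.mul_add, Matrix.add_mul]

omit [DecidableEq ι] in
/-- sharp monotonicity of gauges -/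
theorem Gp.mono' {φ : Matrix ι ι ℝ → ℝ} (hφ : Gp φ) {A B : Matrix ι ι ℝ} (hA : A.IsSymm) (hB : Psd B) {c : ℝ} (hc : 0 ≤ c)
    (h : ∀ x, qf A x ≤ c * qf B x) : φ A ≤ c * φ B := by
  have hB0 := hφ.nn B hB
  apply le_of_forall_pos_le_add
  intro δ hδ
  obtain ⟨q, hq⟩ := exists_nat_gt (φ B / δ)
  have hq0 : (0 : ℝ) < q := lt_of_le_of_lt (div_nonneg hB0 hδ.le) hq
  have h1 := hφ.mono (A := q • A) (hA.smul q) hB (c := q * c) (by positivity) (by
    intro x
    have e1 : (q • A : Matrix ι ι ℝ) = (q : ℝ) • A := (Nat.cast_smul_eq_nsmul ℝ q A).symm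
    rw [e1, qf_smul, mul_assoc]
    exact mul_le_mul_of_nonneg_left (h x) hq0.le)
  rw [hφ.nsmul] at h1
  rw [div_lt_iff₀ hδ] at hq
  have h2 : (q : ℝ) * φ A ≤ q * (c * φ B + δ) := by nlinarith
  exact le_of_mul_le_mul_left h2 hq0

/-- the matrix of a gauge at a point -/
def IsV (φ : Matrix ι ι ℝ → ℝ) (V : Matrix ι ι ℝ) : Prop := V.IsSymm ∧ ∀ x, φ (r1 x) = qf V x

omit [DecidableEq ι] in
theorem IsV.psd {φ : Matrix ι ι ℝ → ℝ} (hφ : Gp φ) {V : Matrix ι ι ℝ} (h : IsV φ V) : Psd V :=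
  ⟨h.1, fun x => by rw [← h.2]; exact hφ.nn _ (r1_psd x)⟩

omit [DecidableEq ι] in
/-- the form `V` is below the inverse of a bounding form -/
theorem IsV.le {φ : Matrix ι ι ℝ → ℝ} (hφ : Gp φ) {V : Matrix ι ι ℝ} (h : IsV φ V) {g : Matrix ι ι ℝ} (hg : Psd g)
    (x : ι → ℝ) : qf V (g *ᵥ x) ≤ qf g x * φ g := by
  rw [← h.2]
  apply hφ.mono' (r1_symm _) hg (hg.2 x)
  intro y
  rw [qf_r1]
  exact qf_cs hg x y

/-! ### Gram matrices of paths -/

section
variable {Ω : Type} (V : Ω → Matrix ι ι ℝ)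

/-- the Gram matrix of a path -/
def gm : ∀ n, Pt Ω n → Matrix ι ι ℝ
  | 0 => V
  | n + 1 => fun p => gm n p.1 + V p.2

variable {V}

omit [DecidableEq ι] in
theorem gm_psd (n : ℕ) : ∀ p : Pt Ω n, (∀ ω, ptm ω n p → Psd (V ω)) → Psd (gm V n p) := by
  induction n with
  | zero => exact fun p h => h p rfl
  | succ n ih => exact fun p h => (ih p.1 fun ω hω => h ω (Or.inl hω)).add (h p.2 (Or.inr rfl))

omit [DecidableEq ι] in
theorem gm_point (n : ℕ) (x : ι → ℝ) : ∀ p : Pt Ω n, (∀ ω, ptm ω n p → Psd (V ω)) → ∀ ω, ptm ω n p →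
    qf (V ω) x ≤ qf (gm V n p) x := by
  induction n with
  | zero =>
    rintro p _ ω rfl
    exact le_rfl
  | succ n ih =>
    intro p h ω hω
    show _ ≤ qf (gm V n p.1 + V p.2) x
    rw [qf_add]
    rcases hω with hω | rfl
    · have h1 := ih p.1 (fun ω hω => h ω (Or.inl hω)) ω hω
      have h2 := (h p.2 (Or.inr rfl)).2 x
      linarith
    · have h1 := (gm_psd n p.1 (fun ω hω => h ω (Or.inl hω))).2 x
      linarith

omit [DecidableEq ι] in
theorem gm_le (n : ℕ) (x : ι → ℝ) (s : ℝ) : ∀ p : Pt Ω n, (∀ ω, ptm ω n p → qf (V ω) x ≤ s) →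
    qf (gm V n p) x ≤ (n + 1) * s := by
  induction n with
  | zero =>
    intro p h
    rw [Nat.cast_zero, zero_add, one_mul]
    exact h p rfl
  | succ n ih =>
    intro p h
    show qf (gm V n p.1 + V p.2) x ≤ _
    rw [qf_add]
    have h1 := ih p.1 (fun ω hω => h ω (Or.inl hω))
    have h2 := h p.2 (Or.inr rfl)
    push_cast
    linarith

omit [DecidableEq ι] in
/-- the Gram matrix grows along the path -/
theorem gm_pre (m K : ℕ) : ∀ q : Pt Ω (m + K), (∀ ω, ptm ω (m + K) q → Psd (V ω)) →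
    ∃ D : Matrix ι ι ℝ, Psd D ∧ gm V (m + K) q = gm V m (pre m K q) + D := by
  induction K with
  | zero =>
    intro q _
    refine ⟨0, ⟨Matrix.isSymm_zero, fun x => ?_⟩, (add_zero _).symm⟩
    unfold qf
    simp
  | succ K ih =>
    intro q h
    obtain ⟨D, hD, e⟩ := ih q.1 (fun ω hω => h ω (Or.inl hω))
    refine ⟨D + V q.2, hD.add (h q.2 (Or.inr rfl)), ?_⟩
    show gm V (m + K) q.1 + V q.2 = gm V m (pre m K q.1) + (D + V q.2)
    rw [e, add_assoc]

end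

/-! ### the potential -/

/-- the form `g (Gram) g + τ g` -/
def pf (g G : Matrix ι ι ℝ) (τ : ℝ) : Matrix ι ι ℝ := cj g G + τ • g

omit [DecidableEq ι] in
theorem qf_pf {g : Matrix ι ι ℝ} (hg : g.IsSymm) (G : Matrix ι ι ℝ) (τ : ℝ) (x : ι → ℝ) :
    qf (pf g G τ) x = qf G (g *ᵥ x) + τ * qf g x := by
  unfold pf
  rw [qf_add, qf_cj hg, qf_smul]

omit [DecidableEq ι] in
theorem pf_pd {g G : Matrix ι ι ℝ} (hg : PdM g) (hG : Psd G) {τ : ℝ} (hτ : 0 < τ) : PdM (pf g G τ) := by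
  unfold pf
  rw [add_comm]
  exact (hg.smul hτ).add (cj_psd hg.1 hG).1 (cj_psd hg.1 hG).2

/-- lower bound of the potential -/
theorem pf_lower {g G : Matrix ι ι ℝ} (hg : PdM g) (hG : Psd G) {τ : ℝ} (hτ : 0 < τ) :
    Real.logb 2 g.det + Fintype.card ι * Real.logb 2 τ ≤ Real.logb 2 (pf g G τ).det := by
  have h1 := det_gain_zero (hg.smul hτ) (cj_psd hg.1 hG)
  have h2 := Real.logb_le_logb_of_le (b := 2) (by norm_num) (hg.smul hτ).det_pos h1
  rw [Matrix.det_smul, Real.logb_mul (by positivity) hg.det_pos.ne', Real.logb_pow] at h2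
  unfold pf
  rw [add_comm (cj g G)]
  linarith

/-- upper bound of the potential -/
theorem pf_upper {g G : Matrix ι ι ℝ} (hg : PdM g) (hG : Psd G) {τ s : ℝ} (hτ : 0 < τ) (hs : 0 ≤ s)
    (h : ∀ x, qf G (g *ᵥ x) ≤ s * qf g x) :
    Real.logb 2 (pf g G τ).det ≤ Real.logb 2 g.det + Fintype.card ι * Real.logb 2 (s + τ) := by
  have h1 := Pool.Agent.Helper95.LF.det_le_pow hg (pf_pd hg hG hτ) (K := s + τ) (by linarith) (by
    intro x
    have e1 := qf_pf hg.1 G τ x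
    unfold qf at e1 h
    rw [e1]
    have := h x
    linarith)
  have h2 := Real.logb_le_logb_of_le (b := 2) (by norm_num) (pf_pd hg hG hτ).det_pos h1
  rw [Real.logb_mul (by positivity) hg.det_pos.ne', Real.logb_pow] at h2
  linarith

/-- monotonicity of the potential -/
theorem pf_mono {g G D : Matrix ι ι ℝ} (hg : PdM g) (hG : Psd G) (hD : Psd D) {τ : ℝ} (hτ : 0 < τ) :
    Real.logb 2 (pf g G τ).det ≤ Real.logb 2 (pf g (G + D) τ).det := by
  have h1 := det_gain_zero (pf_pd hg hG hτ) (cj_psd hg.1 hD)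
  have h2 := Real.logb_le_logb_of_le (b := 2) (by norm_num) (pf_pd hg hG hτ).det_pos h1
  have e1 : pf g G τ + cj g D = pf g (G + D) τ := by
    unfold pf
    rw [cj_add]
    abel
  rwa [e1] at h2

/-- gain of the potential -/
theorem pf_gain {g G D : Matrix ι ι ℝ} (hg : PdM g) (hG : Psd G) (hD : Psd D) {τ β : ℝ} (hτ : 0 < τ) (hβ : 2 * τ ≤ β)
    (x : ι → ℝ) (hx : qf g x = 1) (h1 : qf G (g *ᵥ x) ≤ τ) (h2 : β ≤ qf (G + D) (g *ᵥ x)) :
    Real.logb 2 β - Real.logb 2 τ - 2 ≤ Real.logb 2 (pf g (G + D) τ).det - Real.logb 2 (pf g G τ).det := by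
  have hx0 : x ≠ 0 := by
    intro h0
    rw [h0] at hx
    unfold qf at hx
    simp at hx
  have hβ0 : 0 < β := by linarith
  have h3 := det_gain' (pf_pd hg hG hτ) (cj_psd hg.1 hD) (β / (4 * τ)) x hx0 (by
    rw [qf_pf hg.1, qf_cj hg.1, hx]
    rw [qf_add] at h2
    have e1 : β / (4 * τ) * (qf G (g *ᵥ x) + τ * 1) ≤ β / (4 * τ) * (2 * τ) := by
      apply mul_le_mul_of_nonneg_left _ (by positivity)
      linarith
    have e2 : β / (4 * τ) * (2 * τ) = β / 2 := by field_simp; ring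
    linarith)
  have e1 : pf g G τ + cj g D = pf g (G + D) τ := by
    unfold pf
    rw [cj_add]
    abel
  rw [e1] at h3
  have hp := (pf_pd hg hG hτ).det_pos
  have h4 : β / (4 * τ) * (pf g G τ).det ≤ (pf g (G + D) τ).det := by
    refine le_trans ?_ h3
    apply mul_le_mul_of_nonneg_right _ hp.le
    linarith
  have h5 := Real.logb_le_logb_of_le (b := 2) (by norm_num) (by positivity) h4
  rw [Real.logb_mul (by positivity) hp.ne', Real.logb_div hβ0.ne' (by positivity), Real.logb_mul (by norm_num) hτ.ne'] at h5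
  have h6 : Real.logb 2 4 = 2 := by
    rw [show (4 : ℝ) = 2 ^ (2 : ℕ) by norm_num, Real.logb_pow, Real.logb_self_eq_one (by norm_num)]
    norm_num
  rw [h6] at h5
  linarith

/-! ### the kernel -/

/-- the bounding form with an additional direction -/
def kf (g : Matrix ι ι ℝ) (b : ℝ) (x : ι → ℝ) : Matrix ι ι ℝ := g + b • r1 (g *ᵥ x)

omit [DecidableEq ι] in
theorem kf_cpd {g : Matrix ι ι ℝ} {c : ℝ} (hg : Cpd c g) {b : ℝ} (hb : 0 ≤ b) {x : ι → ℝ} (hx : qf g x = 1) :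
    Cpd ((1 + b) * c) (kf g b x) := by
  refine ⟨hg.1.add ((r1_symm _).smul b), fun y => ?_, fun y => ?_⟩
  · unfold kf
    rw [qf_add, qf_smul, qf_r1]
    have := hg.2.1 y
    have := mul_nonneg hb (sq_nonneg ((g *ᵥ x) ⬝ᵥ y))
    linarith
  · unfold kf
    rw [qf_add, qf_smul, qf_r1]
    have h1 := hg.2.2 y
    have h2 := qf_cs hg.psd x y
    rw [hx, one_mul] at h2
    have h3 := mul_le_mul_of_nonneg_left (h2.trans h1) hb
    linarith

theorem kf_gain {g : Matrix ι ι ℝ} (hg : PdM g) {b : ℝ} (hb : 0 < b) {x : ι → ℝ} (hx : qf g x = 1) :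
    Real.logb 2 g.det + Real.logb 2 b ≤ Real.logb 2 (kf g b x).det := by
  have hx0 : x ≠ 0 := by
    intro h0
    rw [h0] at hx
    unfold qf at hx
    simp at hx
  have h1 := det_gain' hg (B := b • r1 (g *ᵥ x)) ⟨(r1_symm _).smul b, fun y => by
    rw [qf_smul, qf_r1]
    exact mul_nonneg hb.le (sq_nonneg _)⟩ b x hx0 (by
    rw [qf_smul, qf_r1, dotProduct_comm (g *ᵥ x) x]
    have e1 : x ⬝ᵥ (g *ᵥ x) = 1 := hx
    rw [e1, hx]
    norm_num)
  have h2 : b * g.det ≤ (kf g b x).det := by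
    refine le_trans ?_ h1
    apply mul_le_mul_of_nonneg_right _ hg.det_pos.le
    linarith
  have h3 := Real.logb_le_logb_of_le (b := 2) (by norm_num) (mul_pos hb hg.det_pos) h2
  rw [Real.logb_mul hb.ne' hg.det_pos.ne'] at h3
  linarith

omit [DecidableEq ι] in
theorem kf_small {φ : Matrix ι ι ℝ → ℝ} (hφ : Gp φ) {V : Matrix ι ι ℝ} (hV : IsV φ V) {g : Matrix ι ι ℝ} {b β θ : ℝ}
    (hb : 0 ≤ b) (hbβ : b * β ≤ θ / 2) (x : ι → ℝ) (h1 : φ g ≤ θ / 2) (h2 : qf V (g *ᵥ x) ≤ β) : φ (kf g b x) ≤ θ := by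
  unfold kf
  rw [hφ.add]
  have h3 := hφ.mono' (A := b • r1 (g *ᵥ x)) (B := r1 (g *ᵥ x)) ((r1_symm _).smul b) (r1_psd _) hb (fun y => by
    rw [qf_smul])
  rw [hV.2] at h3
  have h4 := mul_le_mul_of_nonneg_left h2 hb
  linarith

end

end Pool.Agent.Helper83.GR
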