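import Pool.Agent.Helper83.GR.Forms

/-! Bounded walks see the exact hull, part 8: the finite form of THEOREM GRAM. -/

namespace Pool.Agent.Helper83.GR

open Finset Filter Topology Matrix Pool.Agent.Helper69.RK Pool.Agent.Helper31.EC Pool.Agent.Helper40.EL Pool.Agent.Helper89.LX
open Pool.Agent.Helper95.LF (PdM)

noncomputable section

variable {ι : Type} [Fintype ι] [DecidableEq ι]

section
variable {Ω : Type} (g₀ V : Ω → Matrix ι ι ℝ)

/-- the Gram matrix of the path is small in a direction -/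
def bad (τ : ℝ) (n : ℕ) (p : Pt Ω n) : Prop :=
  ∃ x, qf (g₀ (lst n p)) x = 1 ∧ qf (gm V n p) (g₀ (lst n p) *ᵥ x) ≤ τ

open Classical in
/-- such a direction -/
def bx (τ : ℝ) (n : ℕ) (p : Pt Ω n) : ι → ℝ := if h : bad g₀ V τ n p then h.choose else 0

variable {g₀ V}

omit [DecidableEq ι] in
theorem bx_spec {τ : ℝ} {n : ℕ} {p : Pt Ω n} (h : bad g₀ V τ n p) :
    qf (g₀ (lst n p)) (bx g₀ V τ n p) = 1 ∧ qf (gm V n p) (g₀ (lst n p) *ᵥ bx g₀ V τ n p) ≤ τ := by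
  unfold bx
  rw [dif_pos h]
  exact h.choose_spec

variable (g₀ V)

open Classical in
/-- the kernel -/
def gk (τ b : ℝ) (n : ℕ) (p : Pt Ω n) : Matrix ι ι ℝ :=
  if bad g₀ V τ n p then kf (g₀ (lst n p)) b (bx g₀ V τ n p) else g₀ (lst n p)

/-- the potential -/
def pot (τ : ℝ) (n : ℕ) (p : Pt Ω n) : ℝ := Real.logb 2 (pf (g₀ (lst n p)) (gm V n p) τ).det

/-- a success of the block -/
def succ (τ β : ℝ) (m K : ℕ) (q : Pt Ω (m + K)) : Prop :=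
  bad g₀ V τ m (pre m K q) ∧ β ≤ qf (gm V (m + K) q) (g₀ (lst m (pre m K q)) *ᵥ bx g₀ V τ m (pre m K q))

end

/-- the data of a walk with a bounding form in the base -/
structure WD {Ω : Type} [Fintype Ω] (μ : Ω → ℝ) (J : Ω → Ω → ℝ) (φ : Ω → Matrix ι ι ℝ → ℝ) (g₀ V : Ω → Matrix ι ι ℝ)
    (c₀ : ℝ) : Prop where
  sj : SJ μ J
  one : ∑ ω, μ ω = 1
  gp : ∀ ω, Gp (φ ω)
  cpd : ∀ ω, Cpd c₀ (g₀ ω)
  hc : 1 ≤ c₀
  base : ∀ ω ω', J ω ω' ≠ 0 → g₀ ω = g₀ ω'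
  isV : ∀ ω, IsV (φ ω) (V ω)

namespace WD

variable {Ω : Type} [Fintype Ω] {μ : Ω → ℝ} {J : Ω → Ω → ℝ} {φ : Ω → Matrix ι ι ℝ → ℝ} {g₀ V : Ω → Matrix ι ι ℝ}
  {c₀ : ℝ} (w : WD μ J φ g₀ V c₀)
include w

theorem psdV (ω : Ω) : Psd (V ω) := (w.isV ω).psd (w.gp ω)

theorem same {n : ℕ} {p : Pt Ω n} (hp : pm μ (fun _ => J) n p ≠ 0) {ω : Ω} (hω : ptm ω n p) : g₀ ω = g₀ (lst n p) :=
  pm_const (μ := μ) (J := fun _ => J) g₀ (fun _ => w.base) n p hp ω hω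

theorem same_pre {m K : ℕ} {q : Pt Ω (m + K)} (hq : pm μ (fun _ => J) (m + K) q ≠ 0) :
    g₀ (lst m (pre m K q)) = g₀ (lst (m + K) q) :=
  w.same hq (ptm_pre m K _ q (ptm_lst m _))

theorem gmp (n : ℕ) (p : Pt Ω n) : Psd (gm V n p) := gm_psd n p fun ω _ => w.psdV ω

/-- the exceptional points -/
def p0 (_ : WD μ J φ g₀ V c₀) (s : ℝ) : ℝ := ∑ ω, μ ω * e1_ind (¬ φ ω (g₀ ω) ≤ s)

/-- the probability of bad paths -/
def Pb (_ : WD μ J φ g₀ V c₀) (τ : ℝ) (n : ℕ) : ℝ := ∑ p, pm μ (fun _ => J) n p * e1_ind (bad g₀ V τ n p)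

/-- the expected potential -/
def Ep (_ : WD μ J φ g₀ V c₀) (τ : ℝ) (n : ℕ) : ℝ := ∑ p, pm μ (fun _ => J) n p * pot g₀ V τ n p

theorem p0_nonneg (s : ℝ) : 0 ≤ w.p0 s := Finset.sum_nonneg fun ω _ => mul_nonneg (w.sj.mu_nonneg ω) (ind_nonneg _)

theorem gk_cpd {τ b : ℝ} (hb : 0 ≤ b) (n : ℕ) (p : Pt Ω n) : Cpd ((1 + b) * c₀) (gk g₀ V τ b n p) := by
  unfold gk
  split_ifs with h
  · exact kf_cpd (w.cpd _) hb (bx_spec h).1
  · have h1 := w.cpd (lst n p)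
    refine ⟨h1.1, h1.2.1, fun x => (h1.2.2 x).trans ?_⟩
    apply mul_le_mul_of_nonneg_right _ (dot_self_nonneg x)
    have := w.hc
    nlinarith

theorem gk_gain {τ b : ℝ} (hb : 0 < b) (n : ℕ) (p : Pt Ω n) :
    Real.logb 2 (g₀ (lst n p)).det + Real.logb 2 b * e1_ind (bad g₀ V τ n p) ≤ Real.logb 2 (gk g₀ V τ b n p).det := by
  unfold gk
  split_ifs with h
  · rw [e1_ind_pos h, mul_one]
    exact kf_gain (w.cpd _).pdM hb (bx_spec h).1
  · rw [e1_ind_neg h, mul_zero, add_zero]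

/-- failure of the kernel is an exceptional point or a success -/
theorem fail_le {τ b β θ : ℝ} (hb : 0 < b) (hθ : 0 ≤ θ) (hbβ : b * β ≤ θ / 2) (m K : ℕ) (q : Pt Ω (m + K))
    (hq : pm μ (fun _ => J) (m + K) q ≠ 0) :
    1 - sc m (fun p => okf φ (gk g₀ V τ b m p) θ) K q ≤
      e1_ind (∃ ω, ptm ω (m + K) q ∧ ¬ φ ω (g₀ ω) ≤ θ / 2) + e1_ind (succ g₀ V τ β m K q) := by
  have hsc := sc_nonneg m (fun p => okf φ (gk g₀ V τ b m p) θ) (fun p ω => okf_nonneg φ _ θ ω) K q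
  have i1 := ind_nonneg (∃ ω, ptm ω (m + K) q ∧ ¬ φ ω (g₀ ω) ≤ θ / 2)
  have i2 := ind_nonneg (succ g₀ V τ β m K q)
  by_cases h1 : ∃ ω, ptm ω (m + K) q ∧ ¬ φ ω (g₀ ω) ≤ θ / 2
  · rw [e1_ind_pos h1]
    linarith
  by_cases h2 : succ g₀ V τ β m K q
  · rw [e1_ind_pos h2]
    linarith
  rw [e1_ind_neg h1, e1_ind_neg h2]
  push Not at h1
  have h3 : sc m (fun p => okf φ (gk g₀ V τ b m p) θ) K q = 1 := by
    apply sc_fail
    intro ω hω
    apply e1_ind_pos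
    have e1 : g₀ ω = g₀ (lst m (pre m K q)) := by rw [w.same_pre hq]; exact w.same hq hω
    have e2 := h1 ω hω
    rw [e1] at e2
    unfold gk
    split_ifs with h4
    · apply kf_small (w.gp ω) (w.isV ω) hb.le hbβ _ e2
      have h5 : ¬ β ≤ qf (gm V (m + K) q) (g₀ (lst m (pre m K q)) *ᵥ bx g₀ V τ m (pre m K q)) :=
        fun h6 => h2 ⟨h4, h6⟩
      push Not at h5
      have h6 := gm_point (V := V) (m + K) (g₀ (lst m (pre m K q)) *ᵥ bx g₀ V τ m (pre m K q)) q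
        (fun ω _ => w.psdV ω) ω hω
      linarith
    · linarith
  rw [h3]
  linarith

/-- the inequality of a block -/
theorem block_ineq {τ b β θ Λ : ℝ} (hb : 0 < b) (hθ : 0 ≤ θ) (hbβ : b * β ≤ θ / 2) (hΛ : 0 ≤ Λ) (m K : ℕ) :
    ∑ ω, μ ω * Real.logb 2 (g₀ ω).det + Real.logb 2 b * w.Pb τ m ≤ Js μ J φ ((1 + b) * c₀) K Λ θ +
      Λ * (((m + K : ℕ) + 1) * w.p0 (θ / 2) + ∑ q, pm μ (fun _ => J) (m + K) q * e1_ind (succ g₀ V τ β m K q)) := by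
  have hs : ∀ n : ℕ, SJ μ ((fun _ => J) n) := fun _ => w.sj
  have hc' : 1 ≤ (1 + b) * c₀ := by
    have := w.hc
    nlinarith
  have h1 : ∑ p, pm μ (fun _ => J) m p * jj μ J φ K Λ θ (lst m p) (gk g₀ V τ b m p) ≤ Js μ J φ ((1 + b) * c₀) K Λ θ := by
    have h2 : ∑ p, pm μ (fun _ => J) m p * jj μ J φ K Λ θ (lst m p) (gk g₀ V τ b m p) ≤
        ∑ p, pm μ (fun _ => J) m p * js μ J φ ((1 + b) * c₀) K Λ θ (lst m p) :=
      Finset.sum_le_sum fun p _ => mul_le_mul_of_nonneg_left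
        (jj_le_js w.sj hc' K hΛ θ _ (w.gk_cpd hb.le m p)) (pm_nonneg hs m p)
    refine h2.trans (le_of_eq ?_)
    exact sum_pm_lst hs m _
  have h3 : ∑ p, pm μ (fun _ => J) m p * (Real.logb 2 (g₀ (lst m p)).det + Real.logb 2 b * e1_ind (bad g₀ V τ m p)) =
      ∑ ω, μ ω * Real.logb 2 (g₀ ω).det + Real.logb 2 b * w.Pb τ m := by
    unfold WD.Pb
    rw [← sum_pm_lst hs m (fun ω => Real.logb 2 (g₀ ω).det), Finset.mul_sum, ← Finset.sum_add_distrib]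
    exact Finset.sum_congr rfl fun p _ => by ring
  have h4 : ∑ p, pm μ (fun _ => J) m p * (1 - wk μ J (okf φ (gk g₀ V τ b m p) θ) K (lst m p)) =
      ∑ q, pm μ (fun _ => J) (m + K) q * (1 - sc m (fun p => okf φ (gk g₀ V τ b m p) θ) K q) := by
    simp_rw [mul_sub, mul_one]
    rw [Finset.sum_sub_distrib, Finset.sum_sub_distrib, sum_pm hs w.one m, sum_pm hs w.one (m + K)]
    rw [block (μ := μ) (J := J) m (fun p => okf φ (gk g₀ V τ b m p) θ) K]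
  have h5 : ∑ q, pm μ (fun _ => J) (m + K) q * (1 - sc m (fun p => okf φ (gk g₀ V τ b m p) θ) K q) ≤
      ((m + K : ℕ) + 1) * w.p0 (θ / 2) + ∑ q, pm μ (fun _ => J) (m + K) q * e1_ind (succ g₀ V τ β m K q) := by
    have h6 := sum_pm_ex hs (fun ω => ¬ φ ω (g₀ ω) ≤ θ / 2) (m + K)
    have h7 : ∑ q, pm μ (fun _ => J) (m + K) q * (1 - sc m (fun p => okf φ (gk g₀ V τ b m p) θ) K q) ≤
        ∑ q, pm μ (fun _ => J) (m + K) q * e1_ind (∃ ω, ptm ω (m + K) q ∧ ¬ φ ω (g₀ ω) ≤ θ / 2) +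
        ∑ q, pm μ (fun _ => J) (m + K) q * e1_ind (succ g₀ V τ β m K q) := by
      rw [← Finset.sum_add_distrib]
      apply Finset.sum_le_sum
      intro q _
      rw [← mul_add]
      by_cases h0 : pm μ (fun _ => J) (m + K) q = 0
      · rw [h0, zero_mul, zero_mul]
      · exact mul_le_mul_of_nonneg_left (w.fail_le hb hθ hbβ m K q h0) (pm_nonneg hs _ q)
    unfold WD.p0
    linarith
  have h6 : ∑ p, pm μ (fun _ => J) m p * jj μ J φ K Λ θ (lst m p) (gk g₀ V τ b m p) =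
      ∑ p, pm μ (fun _ => J) m p * Real.logb 2 (gk g₀ V τ b m p).det -
      Λ * ∑ p, pm μ (fun _ => J) m p * (1 - wk μ J (okf φ (gk g₀ V τ b m p) θ) K (lst m p)) := by
    rw [Finset.mul_sum, ← Finset.sum_sub_distrib]
    apply Finset.sum_congr rfl
    intro p _
    unfold jj
    ring
  have h7 : ∑ p, pm μ (fun _ => J) m p * (Real.logb 2 (g₀ (lst m p)).det + Real.logb 2 b * e1_ind (bad g₀ V τ m p)) ≤
      ∑ p, pm μ (fun _ => J) m p * Real.logb 2 (gk g₀ V τ b m p).det :=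
    Finset.sum_le_sum fun p _ => mul_le_mul_of_nonneg_left (w.gk_gain hb m p) (pm_nonneg hs m p)
  have h8 := mul_le_mul_of_nonneg_left h5 hΛ
  rw [h4] at h6
  linarith

/-- successes are paid by the potential -/
theorem succ_le {τ β : ℝ} (hτ : 0 < τ) (hβ : 2 * τ ≤ β) (m K : ℕ) :
    (Real.logb 2 β - Real.logb 2 τ - 2) * ∑ q, pm μ (fun _ => J) (m + K) q * e1_ind (succ g₀ V τ β m K q) ≤
      w.Ep τ (m + K) - w.Ep τ m := by
  have hs : ∀ n : ℕ, SJ μ ((fun _ => J) n) := fun _ => w.sj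
  unfold WD.Ep
  rw [← sum_pm_pre hs m K (pot g₀ V τ m), ← Finset.sum_sub_distrib, Finset.mul_sum]
  apply Finset.sum_le_sum
  intro q _
  rw [← mul_sub]
  by_cases h0 : pm μ (fun _ => J) (m + K) q = 0
  · rw [h0]; simp
  have e0 : (Real.logb 2 β - Real.logb 2 τ - 2) * (pm μ (fun _ => J) (m + K) q * e1_ind (succ g₀ V τ β m K q)) =
      pm μ (fun _ => J) (m + K) q * ((Real.logb 2 β - Real.logb 2 τ - 2) * e1_ind (succ g₀ V τ β m K q)) := by ring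
  rw [e0]
  apply mul_le_mul_of_nonneg_left _ (pm_nonneg hs _ q)
  obtain ⟨D, hD, e⟩ := gm_pre (V := V) m K q (fun ω _ => w.psdV ω)
  have e1 := w.same_pre h0
  unfold pot
  rw [e, ← e1]
  have hgp := (w.cpd (lst m (pre m K q))).pdM
  by_cases h1 : succ g₀ V τ β m K q
  · rw [e1_ind_pos h1, mul_one]
    obtain ⟨h2, h3⟩ := h1
    obtain ⟨h4, h5⟩ := bx_spec h2
    rw [e] at h3
    exact pf_gain hgp (w.gmp m _) hD hτ hβ _ h4 h5 h3
  · rw [e1_ind_neg h1, mul_zero]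
    have := pf_mono hgp (w.gmp m (pre m K q)) hD hτ
    linarith

/-- bounds of the potential -/
theorem Ep_le {τ s s₁ : ℝ} (hτ : 0 < τ) (hs0 : 0 ≤ s) (hs1 : s ≤ s₁) (h1 : ∀ ω, μ ω ≠ 0 → φ ω (g₀ ω) ≤ s₁) (n : ℕ) :
    w.Ep τ n ≤ ∑ ω, μ ω * Real.logb 2 (g₀ ω).det + Fintype.card ι * Real.logb 2 ((n + 1) * s + τ) +
      (n + 1) * w.p0 s * (Fintype.card ι * (Real.logb 2 ((n + 1) * s₁ + τ) - Real.logb 2 τ)) := by
  have hs : ∀ n : ℕ, SJ μ ((fun _ => J) n) := fun _ => w.sj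
  have hcard : (0 : ℝ) ≤ Fintype.card ι := Nat.cast_nonneg _
  have hn : (0 : ℝ) ≤ n := Nat.cast_nonneg n
  have hl1 : Real.logb 2 τ ≤ Real.logb 2 ((n + 1) * s + τ) :=
    Real.logb_le_logb_of_le (by norm_num) hτ (by nlinarith)
  have hl2 : Real.logb 2 τ ≤ Real.logb 2 ((n + 1) * s₁ + τ) :=
    Real.logb_le_logb_of_le (by norm_num) hτ (by nlinarith [hs0.trans hs1])
  have h2 : ∀ p : Pt Ω n, pm μ (fun _ => J) n p ≠ 0 → pot g₀ V τ n p ≤ Real.logb 2 (g₀ (lst n p)).det +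
      Fintype.card ι * Real.logb 2 ((n + 1) * s + τ) +
      e1_ind (∃ ω, ptm ω n p ∧ ¬ φ ω (g₀ ω) ≤ s) * (Fintype.card ι * (Real.logb 2 ((n + 1) * s₁ + τ) - Real.logb 2 τ)) := by
    intro p hp
    have hgp := (w.cpd (lst n p)).pdM
    have hb : ∀ s' : ℝ, 0 ≤ s' → (∀ ω, ptm ω n p → φ ω (g₀ ω) ≤ s') →
        pot g₀ V τ n p ≤ Real.logb 2 (g₀ (lst n p)).det + Fintype.card ι * Real.logb 2 ((n + 1) * s' + τ) := by
      intro s' hs' h3
      apply pf_upper hgp (w.gmp n p) hτ (by positivity)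
      intro x
      have h4 := gm_le (V := V) n (g₀ (lst n p) *ᵥ x) (s' * qf (g₀ (lst n p)) x) p (by
        intro ω hω
        have h5 := (w.isV ω).le (w.gp ω) (w.cpd (lst n p)).psd x
        have h6 := h3 ω hω
        rw [w.same hp hω] at h6
        have h7 := mul_le_mul_of_nonneg_left h6 ((w.cpd (lst n p)).psd.2 x)
        linarith)
      linarith
    by_cases hex : ∃ ω, ptm ω n p ∧ ¬ φ ω (g₀ ω) ≤ s
    · rw [e1_ind_pos hex, one_mul]
      have h3 := hb s₁ (hs0.trans hs1) (fun ω hω => h1 ω (pm_supp_pt hs n p hp ω hω))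
      have h4 := mul_le_mul_of_nonneg_left hl1 hcard
      rw [mul_sub]
      linarith
    · rw [e1_ind_neg hex, zero_mul, add_zero]
      push Not at hex
      exact hb s hs0 hex
  have h3 : w.Ep τ n ≤ ∑ p, pm μ (fun _ => J) n p * (Real.logb 2 (g₀ (lst n p)).det +
      Fintype.card ι * Real.logb 2 ((n + 1) * s + τ) +
      e1_ind (∃ ω, ptm ω n p ∧ ¬ φ ω (g₀ ω) ≤ s) * (Fintype.card ι * (Real.logb 2 ((n + 1) * s₁ + τ) - Real.logb 2 τ))) := by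
    unfold WD.Ep
    apply Finset.sum_le_sum
    intro p _
    by_cases h0 : pm μ (fun _ => J) n p = 0
    · rw [h0, zero_mul, zero_mul]
    · exact mul_le_mul_of_nonneg_left (h2 p h0) (pm_nonneg hs n p)
  have h4 : ∑ p, pm μ (fun _ => J) n p * (Real.logb 2 (g₀ (lst n p)).det +
      Fintype.card ι * Real.logb 2 ((n + 1) * s + τ) +
      e1_ind (∃ ω, ptm ω n p ∧ ¬ φ ω (g₀ ω) ≤ s) * (Fintype.card ι * (Real.logb 2 ((n + 1) * s₁ + τ) - Real.logb 2 τ))) =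
      ∑ ω, μ ω * Real.logb 2 (g₀ ω).det + Fintype.card ι * Real.logb 2 ((n + 1) * s + τ) +
      (∑ p, pm μ (fun _ => J) n p * e1_ind (∃ ω, ptm ω n p ∧ ¬ φ ω (g₀ ω) ≤ s)) *
        (Fintype.card ι * (Real.logb 2 ((n + 1) * s₁ + τ) - Real.logb 2 τ)) := by
    simp_rw [mul_add]
    rw [Finset.sum_add_distrib, Finset.sum_add_distrib, sum_pm_lst hs n (fun ω => Real.logb 2 (g₀ ω).det), ← Finset.sum_mul,
      sum_pm hs w.one n, one_mul, Finset.sum_mul]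
    simp_rw [mul_assoc]
  have h5 := sum_pm_ex hs (fun ω => ¬ φ ω (g₀ ω) ≤ s) n
  have h6 : 0 ≤ (Fintype.card ι : ℝ) * (Real.logb 2 ((n + 1) * s₁ + τ) - Real.logb 2 τ) :=
    mul_nonneg hcard (by linarith)
  have h7 := mul_le_mul_of_nonneg_right h5 h6
  unfold WD.p0
  linarith

theorem le_Ep {τ : ℝ} (hτ : 0 < τ) (n : ℕ) :
    ∑ ω, μ ω * Real.logb 2 (g₀ ω).det + Fintype.card ι * Real.logb 2 τ ≤ w.Ep τ n := by
  have hs : ∀ n : ℕ, SJ μ ((fun _ => J) n) := fun _ => w.sj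
  have h1 : ∑ p, pm μ (fun _ => J) n p * (Real.logb 2 (g₀ (lst n p)).det + Fintype.card ι * Real.logb 2 τ) ≤ w.Ep τ n := by
    unfold WD.Ep
    apply Finset.sum_le_sum
    intro p _
    exact mul_le_mul_of_nonneg_left (pf_lower (w.cpd _).pdM (w.gmp n p) hτ) (pm_nonneg hs n p)
  refine le_trans (le_of_eq ?_) h1
  simp_rw [mul_add]
  rw [Finset.sum_add_distrib, sum_pm_lst hs n (fun ω => Real.logb 2 (g₀ ω).det), ← Finset.sum_mul, sum_pm hs w.one n,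
    one_mul]

/-- bad paths become rarer -/
theorem Pb_anti (τ : ℝ) (m K : ℕ) : w.Pb τ (m + K) ≤ w.Pb τ m := by
  have hs : ∀ n : ℕ, SJ μ ((fun _ => J) n) := fun _ => w.sj
  unfold WD.Pb
  rw [← sum_pm_pre hs m K (fun p => e1_ind (bad g₀ V τ m p))]
  apply Finset.sum_le_sum
  intro q _
  by_cases h0 : pm μ (fun _ => J) (m + K) q = 0
  · rw [h0, zero_mul, zero_mul]
  apply mul_le_mul_of_nonneg_left _ (pm_nonneg hs _ q)
  apply ind_mono
  rintro ⟨x, h1, h2⟩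
  obtain ⟨D, hD, e⟩ := gm_pre (V := V) m K q (fun ω _ => w.psdV ω)
  have e1 := w.same_pre h0
  refine ⟨x, ?_, ?_⟩
  · rw [e1]
    exact h1
  · rw [e1]
    rw [e, qf_add] at h2
    have := hD.2 (g₀ (lst (m + K) q) *ᵥ x)
    linarith

theorem Pb_nonneg (τ : ℝ) (n : ℕ) : 0 ≤ w.Pb τ n :=
  Finset.sum_nonneg fun p _ => mul_nonneg (pm_nonneg (fun _ => w.sj) n p) (ind_nonneg _)

/-- THEOREM GRAM, finite form -/
theorem gram_fin {τ b β θ Λ s₁ : ℝ} (hτ : 0 < τ) (hβ : 2 * τ ≤ β) (hgain : 0 < Real.logb 2 β - Real.logb 2 τ - 2)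
    (hb : 1 ≤ b) (hθ : 0 ≤ θ) (hbβ : b * β ≤ θ / 2) (hΛ : 0 ≤ Λ) (hs1 : θ / 2 ≤ s₁)
    (h1 : ∀ ω, μ ω ≠ 0 → φ ω (g₀ ω) ≤ s₁) (K L : ℕ) :
    L * (∑ ω, μ ω * Real.logb 2 (g₀ ω).det + Real.logb 2 b * w.Pb τ (K * L)) ≤ L * Js μ J φ ((1 + b) * c₀) K Λ θ +
      Λ * (L * (((K * L : ℕ) + 1) * w.p0 (θ / 2)) +
        (Fintype.card ι * (Real.logb 2 (((K * L : ℕ) + 1) * (θ / 2) + τ) - Real.logb 2 τ) +
          ((K * L : ℕ) + 1) * w.p0 (θ / 2) *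
            (Fintype.card ι * (Real.logb 2 (((K * L : ℕ) + 1) * s₁ + τ) - Real.logb 2 τ))) /
          (Real.logb 2 β - Real.logb 2 τ - 2)) := by
  have hb0 : 0 < b := by linarith
  have hlb : 0 ≤ Real.logb 2 b := Real.logb_nonneg (by norm_num) hb
  have hp0 := w.p0_nonneg (θ / 2)
  set W : ℕ → ℝ := fun j => ∑ q, pm μ (fun _ => J) (K * j + K) q * e1_ind (succ g₀ V τ β (K * j) K q) with hW
  have h2 : ∀ j ∈ Finset.range L, ∑ ω, μ ω * Real.logb 2 (g₀ ω).det + Real.logb 2 b * w.Pb τ (K * L) ≤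
      Js μ J φ ((1 + b) * c₀) K Λ θ + Λ * ((((K * L : ℕ) : ℝ) + 1) * w.p0 (θ / 2) + W j) := by
    intro j hj
    rw [Finset.mem_range] at hj
    have a1 := w.block_ineq (τ := τ) (β := β) hb0 hθ hbβ hΛ (K * j) K
    have a2 : w.Pb τ (K * L) ≤ w.Pb τ (K * j) := by
      have e1 : K * L = K * j + K * (L - j) := by rw [← Nat.mul_add]; congr 1; omega
      rw [e1]
      exact w.Pb_anti τ _ _
    have a3 := mul_le_mul_of_nonneg_left a2 hlb
    have a4 : ((K * j + K : ℕ) : ℝ) ≤ ((K * L : ℕ) : ℝ) := by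
      have : K * j + K ≤ K * L := by
        have e1 : K * j + K = K * (j + 1) := rfl
        rw [e1]
        exact Nat.mul_le_mul_left K hj
      exact_mod_cast this
    have a5 : (((K * j + K : ℕ) : ℝ) + 1) * w.p0 (θ / 2) ≤ (((K * L : ℕ) : ℝ) + 1) * w.p0 (θ / 2) :=
      mul_le_mul_of_nonneg_right (by linarith) hp0
    have a6 : Λ * ((((K * j + K : ℕ) : ℝ) + 1) * w.p0 (θ / 2) + W j) ≤
        Λ * ((((K * L : ℕ) : ℝ) + 1) * w.p0 (θ / 2) + W j) := mul_le_mul_of_nonneg_left (by linarith) hΛ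
    have a7 : ∑ ω, μ ω * Real.logb 2 (g₀ ω).det + Real.logb 2 b * w.Pb τ (K * j) ≤ Js μ J φ ((1 + b) * c₀) K Λ θ +
      Λ * ((((K * j + K : ℕ) : ℝ) + 1) * w.p0 (θ / 2) + W j) := a1
    linarith
  have h3 : ∑ j ∈ Finset.range L, W j ≤ (w.Ep τ (K * L) - w.Ep τ (K * 0)) / (Real.logb 2 β - Real.logb 2 τ - 2) := by
    rw [le_div_iff₀ hgain, mul_comm, Finset.mul_sum]
    have h4 : ∀ j ∈ Finset.range L, (Real.logb 2 β - Real.logb 2 τ - 2) * W j ≤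
        w.Ep τ (K * (j + 1)) - w.Ep τ (K * j) := fun j _ => w.succ_le hτ hβ (K * j) K
    refine (Finset.sum_le_sum h4).trans (le_of_eq ?_)
    exact Finset.sum_range_sub (fun j => w.Ep τ (K * j)) L
  have h4 := Finset.sum_le_sum h2
  rw [Finset.sum_const, Finset.card_range, nsmul_eq_mul] at h4
  have h5 : ∑ j ∈ Finset.range L, (Js μ J φ ((1 + b) * c₀) K Λ θ + Λ * ((((K * L : ℕ) : ℝ) + 1) * w.p0 (θ / 2) + W j)) =
      L * Js μ J φ ((1 + b) * c₀) K Λ θ + Λ * (L * ((((K * L : ℕ) : ℝ) + 1) * w.p0 (θ / 2)) + ∑ j ∈ Finset.range L, W j) := by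
    rw [Finset.sum_add_distrib, Finset.sum_const, Finset.card_range, nsmul_eq_mul, ← Finset.mul_sum,
      Finset.sum_add_distrib, Finset.sum_const, Finset.card_range, nsmul_eq_mul]
  rw [h5] at h4
  have h6 := w.Ep_le (s := θ / 2) hτ (by linarith) hs1 h1 (K * L)
  have h7 := w.le_Ep hτ (K * 0)
  have h8 : (w.Ep τ (K * L) - w.Ep τ (K * 0)) / (Real.logb 2 β - Real.logb 2 τ - 2) ≤
      (Fintype.card ι * (Real.logb 2 ((((K * L : ℕ) : ℝ) + 1) * (θ / 2) + τ) - Real.logb 2 τ) +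
          (((K * L : ℕ) : ℝ) + 1) * w.p0 (θ / 2) *
            (Fintype.card ι * (Real.logb 2 ((((K * L : ℕ) : ℝ) + 1) * s₁ + τ) - Real.logb 2 τ))) /
          (Real.logb 2 β - Real.logb 2 τ - 2) := by
    apply div_le_div_of_nonneg_right _ hgain.le
    linarith
  have h9 := mul_le_mul_of_nonneg_left (h3.trans h8) hΛ
  linarith

end WD

end

end Pool.Agent.Helper83.GR
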