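import Pool.Agent.Helper83.GR.Step
import Pool.Agent.Helper89.LX.Agr

/-! Bounded walks see the exact hull, part 2: steps given a partition, forms which agree along steps. -/

namespace Pool.Agent.Helper83.GR

open Finset Matrix Pool.Agent.Helper69.RK Pool.Agent.Helper31.EC Pool.Agent.Helper89.LX
open Pool.Agent.Helper95.LF (PdM NearM)

noncomputable section

/-- two copies given `f` -/
def jf {Ω α : Type} [Fintype Ω] (μ : Ω → ℝ) (f : Ω → α) (ω ω' : Ω) : ℝ := amw μ μ f f (ω, ω')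

section
variable {Ω α : Type} [Fintype Ω] {μ : Ω → ℝ} {J : Ω → Ω → ℝ}

theorem sj_jf (h0 : ∀ ω, 0 ≤ μ ω) (f : Ω → α) : SJ μ (jf μ f) := by
  refine ⟨fun ω ω' => amw_nonneg _ _ _ _ h0 h0 _, fun ω ω' => ?_, fun ω => ?_⟩
  · unfold jf amw
    by_cases h : f ω = f ω'
    · show e1_ind (f ω = f ω') * (μ ω * μ ω' / ms μ f (f ω)) = e1_ind (f ω' = f ω) * (μ ω' * μ ω / ms μ f (f ω'))
      rw [e1_ind_pos h, e1_ind_pos h.symm, h]; ring
    · show e1_ind (f ω = f ω') * (μ ω * μ ω' / ms μ f (f ω)) = e1_ind (f ω' = f ω) * (μ ω' * μ ω / ms μ f (f ω'))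
      rw [e1_ind_neg h, e1_ind_neg (fun hc => h hc.symm)]; ring
  · unfold jf amw
    by_cases h1 : μ ω = 0
    · rw [h1]
      apply Finset.sum_eq_zero
      intro ω' _
      show e1_ind (f ω = f ω') * (μ ω * μ ω' / ms μ f (f ω)) = 0
      rw [h1]; ring
    · have e1 : ∀ ω', e1_ind (f ω = f ω') * (μ ω * μ ω' / ms μ f (f ω)) =
          μ ω / ms μ f (f ω) * (e1_ind (f ω' = f ω) * μ ω') := by
        intro ω'
        rw [ind_congr (show (f ω = f ω') ↔ f ω' = f ω from ⟨fun h => h.symm, fun h => h.symm⟩)]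
        ring
      show ∑ ω', e1_ind (f ω = f ω') * (μ ω * μ ω' / ms μ f (f ω)) = μ ω
      rw [Finset.sum_congr rfl (fun ω' _ => e1 ω'), ← Finset.mul_sum]
      have e2 : ∑ ω', e1_ind (f ω' = f ω) * μ ω' = ms μ f (f ω) := rfl
      rw [e2, div_mul_cancel₀ _ (ms_pos μ f h0 ω h1).ne']

/-- average of two steps -/
def javg (J J' : Ω → Ω → ℝ) (ω ω' : Ω) : ℝ := (J ω ω' + J' ω ω') / 2

theorem SJ.avg {J' : Ω → Ω → ℝ} (h : SJ μ J) (h' : SJ μ J') : SJ μ (javg J J') := by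
  refine ⟨fun ω ω' => ?_, fun ω ω' => ?_, fun ω => ?_⟩
  · unfold javg
    have := h.nn ω ω'
    have := h'.nn ω ω'
    linarith
  · unfold javg
    rw [h.sym, h'.sym]
  · unfold javg
    rw [← Finset.sum_div, Finset.sum_add_distrib, h.row, h'.row]; ring

variable {ι : Type} [Fintype ι] [DecidableEq ι]

/-- forms which agree up to a factor `2 ^ t` -/
def Nr (t : ℝ) (A B : Matrix ι ι ℝ) : Prop :=
  (∀ x, qf A x ≤ 2 ^ t * qf B x) ∧ ∀ x, qf B x ≤ 2 ^ t * qf A x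

omit [DecidableEq ι] in
theorem Nr.symm {t : ℝ} {A B : Matrix ι ι ℝ} (h : Nr t A B) : Nr t B A := ⟨h.2, h.1⟩

omit [DecidableEq ι] in
theorem Nr.trans {s t : ℝ} {A B C : Matrix ι ι ℝ} (h : Nr s A B) (h' : Nr t B C) : Nr (s + t) A C := by
  constructor
  · intro x
    refine (h.1 x).trans ?_
    rw [Real.rpow_add (by norm_num), mul_assoc]
    exact mul_le_mul_of_nonneg_left (h'.1 x) (by positivity)
  · intro x
    refine (h'.2 x).trans ?_
    rw [add_comm s t, Real.rpow_add (by norm_num), mul_assoc]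
    exact mul_le_mul_of_nonneg_left (h.2 x) (by positivity)

theorem exp_two (t : ℝ) : Real.exp (t * Real.log 2) = 2 ^ t := by
  rw [Real.rpow_def_of_pos (by norm_num), mul_comm]

omit [DecidableEq ι] in
theorem nr_iff {t : ℝ} {A B : Matrix ι ι ℝ} : Nr t A B ↔ NearM (t * Real.log 2) A B := by
  unfold Nr NearM
  rw [exp_two]
  rfl

/-- gain of the sum of two forms -/
theorem gain_of {c : ℝ} {A B : Matrix ι ι ℝ} (hA : Cpd c A) (hB : Cpd c B) (t : ℝ) :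
    t * e1_ind (¬ ∀ x, qf A x ≤ 2 ^ t * qf B x) ≤ Real.logb 2 (A + B).det - Real.logb 2 B.det := by
  have hdet : 0 < B.det := zero_lt_one.trans_le hB.one_le
  by_cases h : ∀ x, qf A x ≤ 2 ^ t * qf B x
  · rw [e1_ind_neg (not_not.mpr h), mul_zero, add_comm A B]
    have h1 := det_gain_zero hB.pdM hA.psd
    have h2 := Real.logb_le_logb_of_le (b := 2) (by norm_num) hdet h1
    linarith
  · rw [e1_ind_pos h, mul_one]
    obtain ⟨y, hy⟩ := not_forall.mp h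
    push Not at hy
    have hy0 : y ≠ 0 := by
      intro h0
      subst h0
      unfold qf at hy
      simp at hy
    have h2 := det_gain' hB.pdM hA.psd (2 ^ t) y hy0 hy.le
    have h3 : (2 : ℝ) ^ t * B.det ≤ (A + B).det := by
      rw [add_comm A B]
      refine le_trans ?_ h2
      apply mul_le_mul_of_nonneg_right _ hdet.le
      linarith
    have h4 := Real.logb_le_logb_of_le (b := 2) (by norm_num) (by positivity) h3
    rw [Real.logb_mul (by positivity) hdet.ne', Real.logb_rpow (by norm_num) (by norm_num)] at h4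
    linarith

theorem not_nr_le {t : ℝ} (A B : Matrix ι ι ℝ) :
    e1_ind (¬ Nr t A B) ≤ e1_ind (¬ ∀ x, qf A x ≤ 2 ^ t * qf B x) + e1_ind (¬ ∀ x, qf B x ≤ 2 ^ t * qf A x) := by
  by_cases h1 : ∀ x, qf A x ≤ 2 ^ t * qf B x
  · by_cases h2 : ∀ x, qf B x ≤ 2 ^ t * qf A x
    · rw [e1_ind_neg (not_not.mpr ⟨h1, h2⟩)]
      exact add_nonneg (ind_nonneg _) (ind_nonneg _)
    · rw [e1_ind_pos h2]
      have := ind_le_one (¬ Nr t A B)
      have := ind_nonneg (¬ ∀ x, qf A x ≤ 2 ^ t * qf B x)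
      linarith
  · rw [e1_ind_pos h1]
    have := ind_le_one (¬ Nr t A B)
    have := ind_nonneg (¬ ∀ x, qf B x ≤ 2 ^ t * qf A x)
    linarith

/-- forms agree along a step with large probability -/
theorem near_mass (h : SJ μ J) {c t D : ℝ} (ht : 0 < t) (G : Ω → Matrix ι ι ℝ) (hG : ∀ ω, Cpd c (G ω))
    (hD : ∑ ω, ∑ ω', J ω ω' * (Real.logb 2 (G ω + G ω').det - Real.logb 2 (G ω').det) ≤ D) :
    ∑ ω, ∑ ω', J ω ω' * e1_ind (¬ Nr t (G ω) (G ω')) ≤ 2 * D / t := by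
  have h1 : t * ∑ ω, ∑ ω', J ω ω' * e1_ind (¬ ∀ x, qf (G ω) x ≤ 2 ^ t * qf (G ω') x) ≤ D := by
    refine le_trans ?_ hD
    rw [Finset.mul_sum]
    apply Finset.sum_le_sum
    intro ω _
    rw [Finset.mul_sum]
    apply Finset.sum_le_sum
    intro ω' _
    have := mul_le_mul_of_nonneg_left (gain_of (hG ω) (hG ω') t) (h.nn ω ω')
    linarith
  have h2 : ∑ ω, ∑ ω', J ω ω' * e1_ind (¬ ∀ x, qf (G ω') x ≤ 2 ^ t * qf (G ω) x) =
      ∑ ω, ∑ ω', J ω ω' * e1_ind (¬ ∀ x, qf (G ω) x ≤ 2 ^ t * qf (G ω') x) := by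
    rw [Finset.sum_comm]
    apply Finset.sum_congr rfl
    intro ω _
    apply Finset.sum_congr rfl
    intro ω' _
    rw [h.sym ω' ω]
  have h3 : ∑ ω, ∑ ω', J ω ω' * e1_ind (¬ Nr t (G ω) (G ω')) ≤
      ∑ ω, ∑ ω', J ω ω' * e1_ind (¬ ∀ x, qf (G ω) x ≤ 2 ^ t * qf (G ω') x) +
      ∑ ω, ∑ ω', J ω ω' * e1_ind (¬ ∀ x, qf (G ω') x ≤ 2 ^ t * qf (G ω) x) := by
    rw [← Finset.sum_add_distrib]
    apply Finset.sum_le_sum
    intro ω _
    rw [← Finset.sum_add_distrib]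
    apply Finset.sum_le_sum
    intro ω' _
    rw [← mul_add]
    exact mul_le_mul_of_nonneg_left (not_nr_le _ _) (h.nn ω ω')
  rw [le_div_iff₀ ht]
  rw [h2] at h3
  have h4 := mul_le_mul_of_nonneg_left h3 ht.le
  linarith

theorem ind_not (p : Prop) : e1_ind (¬ p) = 1 - e1_ind p := by
  by_cases hp : p
  · rw [e1_ind_neg (not_not.mpr hp), e1_ind_pos hp]; ring
  · rw [e1_ind_pos hp, e1_ind_neg hp]; ring

/-- a form which agrees along steps given `f` is a function of `f` -/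
theorem agree_fail (h0 : ∀ ω, 0 ≤ μ ω) (hm : ∑ ω, μ ω = 1) (f : Ω → α) {t : ℝ} (G : Ω → Matrix ι ι ℝ) {D : ℝ}
    (hD : ∑ ω, ∑ ω', jf μ f ω ω' * e1_ind (¬ Nr t (G ω) (G ω')) ≤ D) :
    ∃ h : Ω → Matrix ι ι ℝ, (∀ ω ω', f ω = f ω' → h ω = h ω') ∧ (∀ ω, ∃ ω', h ω = G ω') ∧
      ∑ ω, μ ω * e1_ind (¬ Nr t (G ω) (h ω)) ≤ D := by
  obtain ⟨h, h1, h2, _, h4⟩ := agree μ h0 f G (Nr t)
  refine ⟨h, h1, fun ω => ?_, ?_⟩
  · obtain ⟨ω', _, e⟩ := h2 ω
    exact ⟨ω', e⟩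
  · have e1 : ∑ ω, μ ω * e1_ind (¬ Nr t (G ω) (h ω)) = 1 - ∑ ω, μ ω * e1_ind (Nr t (G ω) (h ω)) := by
      rw [← hm, ← Finset.sum_sub_distrib]
      apply Finset.sum_congr rfl
      intro ω _
      rw [ind_not]; ring
    have e2 : ∑ ω, ∑ ω', jf μ f ω ω' * e1_ind (¬ Nr t (G ω) (G ω')) =
        1 - ∑ w : Ω × Ω, amw μ μ f f w * e1_ind (Nr t (G w.1) (G w.2)) := by
      rw [Fintype.sum_prod_type, ← hm, ← Finset.sum_sub_distrib]
      apply Finset.sum_congr rfl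
      intro ω _
      rw [← (sj_jf h0 f).row ω, ← Finset.sum_sub_distrib]
      apply Finset.sum_congr rfl
      intro ω' _
      rw [ind_not]
      unfold jf
      ring
    rw [e2] at hD
    rw [e1]
    linarith

end

end

end Pool.Agent.Helper83.GR
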