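import Pool.Agent.Helper83.GR.Jst

/-! Bounded walks see the exact hull, part 3: a form which agrees along the steps gives a label with bounded
leaks. -/

namespace Pool.Agent.Helper83.GR

open Finset Matrix Pool.Agent.Helper69.RK Pool.Agent.Helper31.EC Pool.Agent.Helper40.EL Pool.Agent.Helper89.LX
open Pool.Agent.Helper95.LF (PdM NearM)

noncomputable section

/-- a label of the space itself -/
def idl (F : FSp) (V : Setoid F.Ω) : FLab F where
  T := F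
  p := (FLab.triv F).p
  hn := rfl
  V := V

theorem idl_leak (F : FSp) (V B : Setoid F.Ω) : (idl F V).leak (fc B) ≤ F.e V (B ⊓ F.Z) := by
  have h1 : (idl F V).leak (fc B) ≤ h (fc V) (fc B) := I_le_h_left _ _ _
  rw [h_fc] at h1
  exact h1

/-- leaks are bounded by the logarithm of the number of values -/
theorem idl_leak_le (F : FSp) {α : Type} (f : F.Ω → α) (B : Setoid F.Ω) (N : ℕ)
    (h : ∀ ω, F.μ ω ≠ 0 → ∃ S : Finset α, S.card ≤ N ∧ ∀ ω', F.μ ω' ≠ 0 → (B ⊓ F.Z) ω' ω → f ω' ∈ S) :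
    (idl F (Setoid.ker f)).leak (fc B) ≤ Real.logb 2 N := by
  classical
  refine (idl_leak F _ B).trans ?_
  have h1 : F.e (Setoid.ker f) (B ⊓ F.Z) = CH F.μ f (Quotient.mk (B ⊓ F.Z)) := by
    apply F.e_congr
    · intro ω ω' _ _
      exact Iff.rfl
    · intro ω ω' _ _
      exact Quotient.eq.symm
  rw [h1]
  have h2 := st_E3.1 F.Ω _ _ F.μ f (Quotient.mk (B ⊓ F.Z)) (fun _ => (N : ℝ)) F.nn (by
    intro ω hω
    obtain ⟨S, hS, hS'⟩ := h ω hω
    refine le_trans ?_ (Nat.cast_le.mpr hS)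
    norm_cast
    apply Finset.card_le_card
    intro a ha
    rw [Finset.mem_image] at ha
    obtain ⟨ω', h3, rfl⟩ := ha
    rw [Finset.mem_filter] at h3
    exact hS' ω' h3.2.1 (Quotient.exact h3.2.2))
  refine h2.trans (le_of_eq ?_)
  have h3 : ∑ ω, F.μ ω = 1 := F.ms
  rw [← Finset.sum_mul, h3, one_mul]

section
variable {ι : Type} [Fintype ι] [DecidableEq ι]

/-- a gauge at a point -/
structure Gp (φ : Matrix ι ι ℝ → ℝ) : Prop where
  add : ∀ A B, φ (A + B) = φ A + φ B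
  nn : ∀ A, Psd A → 0 ≤ φ A

namespace Gp

variable {φ : Matrix ι ι ℝ → ℝ} (hφ : Gp φ)
include hφ

omit [DecidableEq ι] in
theorem nsmul (q : ℕ) (A : Matrix ι ι ℝ) : φ (q • A) = q * φ A := by
  induction q with
  | zero =>
    have h1 := hφ.add 0 0
    rw [add_zero] at h1
    rw [zero_smul, Nat.cast_zero, zero_mul]
    linarith
  | succ q ih =>
    rw [succ_nsmul, hφ.add, ih]
    push_cast
    ring

omit [DecidableEq ι] in
theorem div (q : ℕ) (hq : q ≠ 0) (A : Matrix ι ι ℝ) : φ ((q : ℝ)⁻¹ • A) = φ A / q := by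
  have h1 := hφ.nsmul q ((q : ℝ)⁻¹ • A)
  have h2 : q • ((q : ℝ)⁻¹ • A) = A := by
    rw [← Nat.cast_smul_eq_nsmul ℝ, smul_smul, mul_inv_cancel₀ (Nat.cast_ne_zero.mpr hq), one_smul]
  rw [h2] at h1
  rw [h1, mul_comm, mul_div_assoc, div_self (Nat.cast_ne_zero.mpr hq), mul_one]

omit [DecidableEq ι] in
theorem mono {A B : Matrix ι ι ℝ} (hA : A.IsSymm) (hB : Psd B) {c : ℝ} (hc : 0 ≤ c)
    (h : ∀ x, qf A x ≤ c * qf B x) : φ A ≤ (c + 1) * φ B := by
  set q : ℕ := ⌈c⌉₊ with hq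
  have hq1 : c ≤ q := Nat.le_ceil c
  have hq2 : (q : ℝ) < c + 1 := Nat.ceil_lt_add_one hc
  have h1 : Psd ((q : ℝ) • B - A) := by
    refine ⟨(hB.1.smul _).sub hA, fun x => ?_⟩
    have e1 : qf ((q : ℝ) • B - A) x = q * qf B x - qf A x := by
      unfold qf
      rw [Matrix.sub_mulVec, dotProduct_sub, Matrix.smul_mulVec, dotProduct_smul, smul_eq_mul]
    rw [e1]
    have := h x
    have := mul_le_mul_of_nonneg_right hq1 (hB.2 x)
    linarith
  have h2 := hφ.nn _ h1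
  have h3 := hφ.add ((q : ℝ) • B - A) A
  rw [sub_add_cancel, Nat.cast_smul_eq_nsmul, hφ.nsmul] at h3
  have h4 := mul_le_mul_of_nonneg_right hq2.le (hφ.nn B hB)
  have h5 : (q : ℝ) • B = q • B := Nat.cast_smul_eq_nsmul ℝ q B
  rw [h5] at h2
  linarith

end Gp

/-- a relation of forms gives a relation of determinants -/
theorem logdet_of_le {A B : Matrix ι ι ℝ} (hA : PdM A) (hB : PdM B) {t : ℝ} (h : ∀ x, qf A x ≤ 2 ^ t * qf B x) :
    Real.logb 2 A.det ≤ Fintype.card ι * t + Real.logb 2 B.det := by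
  have h1 := Pool.Agent.Helper95.LF.det_le_pow hB hA (K := (2 : ℝ) ^ t) (by positivity) h
  have h2 := Real.logb_le_logb_of_le (b := 2) (by norm_num) hA.det_pos h1
  rw [Real.logb_mul (by positivity) hB.det_pos.ne', ← Real.rpow_mul_natCast (by norm_num), Real.logb_rpow (by norm_num)
    (by norm_num)] at h2
  linarith

theorem logdet_smul {A : Matrix ι ι ℝ} (hA : PdM A) {q : ℝ} (hq : 0 < q) :
    Real.logb 2 (q⁻¹ • A).det = Real.logb 2 A.det - Fintype.card ι * Real.logb 2 q := by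
  rw [Matrix.det_smul, Real.logb_mul (by positivity) hA.det_pos.ne', Real.logb_pow, Real.logb_inv]
  ring

/-- the form on the label -/
def gv (q : ℕ) (o : Option (Matrix ι ι ℝ)) : Matrix ι ι ℝ := o.elim 1 (fun R => 1 + (q : ℝ)⁻¹ • R)

open Classical in
/-- the values of the label -/
def lv {Ω : Type} (E : Ω → Prop) (Rd : Matrix ι ι ℝ → Matrix ι ι ℝ) (hB : Ω → Matrix ι ι ℝ) (ω : Ω) :
    Option (Matrix ι ι ℝ) := if E ω then some (Rd (hB ω)) else none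

/-- the label with its form -/
def bsl (F : FSp) (E : F.Ω → Prop) (Rd : Matrix ι ι ℝ → Matrix ι ι ℝ) (hB : F.Ω → Matrix ι ι ℝ) (q : ℕ) : FD F ι where
  l := idl F (Setoid.ker (lv E Rd hB))
  g := fun ω => gv q (lv E Rd hB ω)
  g' := fun ω => gv q (lv E Rd hB ω)
  meas := fun ω ω' _ _ hV _ => by
    have h1 : lv E Rd hB ω = lv E Rd hB ω' := hV
    exact ⟨congrArg (gv q) h1, congrArg (gv q) h1⟩

theorem bsl_sc (F : FSp) (E : F.Ω → Prop) (Rd : Matrix ι ι ℝ → Matrix ι ι ℝ) (hB : F.Ω → Matrix ι ι ℝ) (q : ℕ) :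
    (bsl F E Rd hB q).sc = ∑ ω, F.μ ω * Real.logb 2 (gv q (lv E Rd hB ω)).det := rfl

open Classical in
/-- leak at `B` -/
theorem bsl_leakB (F : FSp) (E : F.Ω → Prop) (Rd : Matrix ι ι ℝ → Matrix ι ι ℝ) (hB : F.Ω → Matrix ι ι ℝ) (q : ℕ)
    (B : Setoid F.Ω) (hBm : ∀ ω ω', (B ⊓ F.Z) ω ω' → hB ω = hB ω') :
    (bsl F E Rd hB q).l.leak (fc B) ≤ 1 := by
  have h1 := idl_leak_le F (lv E Rd hB) B 2 (by
    intro ω _
    refine ⟨{none, some (Rd (hB ω))}, Finset.card_le_two, fun ω' _ h => ?_⟩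
    unfold lv
    split_ifs
    · rw [hBm ω' ω h]
      simp
    · simp)
  have h2 : Real.logb 2 ((2 : ℕ) : ℝ) = 1 := by
    rw [Nat.cast_ofNat]
    exact Real.logb_self_eq_one (by norm_num)
  rw [h2] at h1
  exact h1

open Classical in
/-- leak at `A` -/
theorem bsl_leakA (F : FSp) (E : F.Ω → Prop) (Rd : Matrix ι ι ℝ → Matrix ι ι ℝ) (hA hB : F.Ω → Matrix ι ι ℝ) (q : ℕ)
    (A : Setoid F.Ω) (hAm : ∀ ω ω', (A ⊓ F.Z) ω ω' → hA ω = hA ω') (t : ℝ) (N₀ : ℕ)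
    (hR2 : ∀ M : Matrix ι ι ℝ, PdM M → ∃ S : Finset (Matrix ι ι ℝ), S.card ≤ N₀ ∧ ∀ M', PdM M' → Nr (2 * t) M M' → Rd M' ∈ S)
    (hE : ∀ ω, E ω → Nr (2 * t) (hA ω) (hB ω)) (hpA : ∀ ω, PdM (hA ω)) (hpB : ∀ ω, PdM (hB ω)) :
    (bsl F E Rd hB q).l.leak (fc A) ≤ Real.logb 2 ((N₀ + 1 : ℕ) : ℝ) := by
  apply idl_leak_le
  intro ω _
  obtain ⟨S, hS, hS'⟩ := hR2 (hA ω) (hpA ω)
  refine ⟨insert none (S.image some), ?_, fun ω' _ h => ?_⟩
  · refine (Finset.card_insert_le _ _).trans ?_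
    exact Nat.add_le_add_right (Finset.card_image_le.trans hS) 1
  · unfold lv
    split_ifs with h1
    · apply Finset.mem_insert_of_mem
      apply Finset.mem_image_of_mem
      apply hS' _ (hpB ω')
      rw [← hAm ω' ω h]
      exact hE ω' h1
    · exact Finset.mem_insert_self _ _

open Classical in
/-- the form is admissible and its score is large -/
theorem bsl_main (F : FSp) (E : F.Ω → Prop) (Rd : Matrix ι ι ℝ → Matrix ι ι ℝ) (hB : F.Ω → Matrix ι ι ℝ)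
    (G : F.Ω → Matrix ι ι ℝ) (φ : F.Ω → Matrix ι ι ℝ → ℝ) (hφ : ∀ ω, Gp (φ ω)) {C K₁ : ℝ} (hC : 0 ≤ C)
    (hn : 1 ≤ F.n) (hcap : ∀ ω, F.μ ω ≠ 0 → ∀ A, PdM A → ∀ x, qf A x ≤ 2 ^ (C * F.n) * φ ω A * (x ⬝ᵥ x))
    (hone : ∀ ω, F.μ ω ≠ 0 → φ ω 1 ≤ K₁) {t Cr θ c : ℝ} (ht : 0 ≤ t) (hCr : 0 ≤ Cr) (hc : 1 ≤ c)
    (hR1 : ∀ M : Matrix ι ι ℝ, PdM M → PdM (Rd M) ∧ Nr (Cr * (2 * t)) M (Rd M))
    (hG : ∀ ω, Cpd c (G ω)) (hGB : ∀ ω, Cpd c (hB ω)) (hE1 : ∀ ω, E ω → Nr t (G ω) (hB ω))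
    (hE2 : ∀ ω, E ω → φ ω (G ω) ≤ θ) (q : ℕ) (hq : q ≠ 0)
    (hqQ : (2 ^ (Cr * (2 * t)) + 1) * ((2 ^ t + 1) * θ) ≤ q) :
    (∀ ω, F.μ ω ≠ 0 → Cpd (2 ^ ((C + 1) * F.n)) (gv q (lv E Rd hB ω))) ∧
    (∀ ω, F.μ ω ≠ 0 → φ ω (gv q (lv E Rd hB ω)) ≤ K₁ + 1) ∧
    ∑ ω, F.μ ω * Real.logb 2 (G ω).det ≤ (bsl F E Rd hB q).sc +
      Fintype.card ι * (Real.logb 2 q + (2 * Cr + 1) * t) +
      Fintype.card ι * Real.logb 2 c * F.pb (fun ω => ¬ E ω) := by
  have hq0 : (0 : ℝ) < q := by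
    have : 0 < q := Nat.pos_of_ne_zero hq
    exact_mod_cast this
  -- the rounded form is small after division by `q`
  have h1 : ∀ ω, E ω → φ ω ((q : ℝ)⁻¹ • Rd (hB ω)) ≤ 1 := by
    intro ω hω
    have pB := (hGB ω).pdM
    obtain ⟨pR, nR⟩ := hR1 _ pB
    rw [(hφ ω).div q hq, div_le_one hq0]
    refine le_trans ?_ hqQ
    have e1 := (hφ ω).mono pR.1 (hGB ω).psd (by positivity) nR.2
    have e2 := (hφ ω).mono pB.1 (hG ω).psd (by positivity) (hE1 ω hω).2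
    have e3 := hE2 ω hω
    refine e1.trans ?_
    apply mul_le_mul_of_nonneg_left _ (by positivity)
    refine e2.trans ?_
    exact mul_le_mul_of_nonneg_left e3 (by positivity)
  have h2 : (1 : ℝ) ≤ 2 ^ (C * F.n) := Real.one_le_rpow (by norm_num) (mul_nonneg hC (by linarith))
  have h3 : (2 : ℝ) ^ (C * F.n) + 1 ≤ 2 ^ ((C + 1) * F.n) := by
    have e1 : (2 : ℝ) ^ (C * F.n) * 2 ≤ 2 ^ ((C + 1) * F.n) := by
      rw [← Real.rpow_add_one (by norm_num)]
      apply Real.rpow_le_rpow_of_exponent_le (by norm_num)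
      linarith
    linarith
  have h4 : (1 : ℝ) ≤ 2 ^ ((C + 1) * F.n) := by linarith
  refine ⟨fun ω hω => ?_, fun ω hω => ?_, ?_⟩
  · unfold lv
    split_ifs with hE
    · obtain ⟨pR, nR⟩ := hR1 _ (hGB ω).pdM
      have pq : PdM ((q : ℝ)⁻¹ • Rd (hB ω)) := pR.smul (by positivity)
      show Cpd _ (1 + (q : ℝ)⁻¹ • Rd (hB ω))
      refine ⟨Matrix.isSymm_one.add pq.1, fun x => ?_, fun x => ?_⟩
      · rw [qf_add]
        have := pq.nonneg x
        unfold qf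
        rw [Matrix.one_mulVec]
        linarith
      · rw [qf_add]
        have e1 := hcap ω hω _ pq x
        have e2 := mul_le_mul_of_nonneg_left (h1 ω hE) (by positivity : (0 : ℝ) ≤ 2 ^ (C * F.n))
        have e3 := mul_le_mul_of_nonneg_right e2 (dot_self_nonneg x)
        have e4 := mul_le_mul_of_nonneg_right h3 (dot_self_nonneg x)
        have e5 : qf (1 : Matrix ι ι ℝ) x = x ⬝ᵥ x := by unfold qf; rw [Matrix.one_mulVec]
        rw [e5]
        linarith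
    · exact Cpd_one h4
  · unfold lv
    split_ifs with hE
    · show φ ω (1 + (q : ℝ)⁻¹ • Rd (hB ω)) ≤ _
      rw [(hφ ω).add]
      have := h1 ω hE
      have := hone ω hω
      linarith
    · have := hone ω hω
      show φ ω 1 ≤ _
      linarith
  · have e0 : ∑ ω, F.μ ω = 1 := F.ms
    have e1 : Fintype.card ι * (Real.logb 2 q + (2 * Cr + 1) * t) =
        ∑ ω, F.μ ω * (Fintype.card ι * (Real.logb 2 q + (2 * Cr + 1) * t)) := by
      rw [← Finset.sum_mul, e0, one_mul]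
    have e2 : Fintype.card ι * Real.logb 2 c * F.pb (fun ω => ¬ E ω) =
        ∑ ω, Fintype.card ι * Real.logb 2 c * res F.μ (fun ω => ¬ E ω) ω := by
      unfold FSp.pb mass
      rw [Finset.mul_sum]
    rw [e1, e2, bsl_sc, ← Finset.sum_add_distrib, ← Finset.sum_add_distrib]
    apply Finset.sum_le_sum
    intro ω _
    have hμ := F.nn ω
    have hq1 : (1 : ℝ) ≤ q := by
      have : 1 ≤ q := Nat.one_le_iff_ne_zero.mpr hq
      exact_mod_cast this
    have hlq : 0 ≤ Real.logb 2 q := Real.logb_nonneg (by norm_num) hq1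
    have hcard : (0 : ℝ) ≤ Fintype.card ι := Nat.cast_nonneg _
    have hlc : 0 ≤ Real.logb 2 c := Real.logb_nonneg (by norm_num) hc
    by_cases hE : E ω
    · have e3 : res F.μ (fun ω => ¬ E ω) ω = 0 := res_neg _ _ _ (not_not.mpr hE)
      rw [e3, mul_zero, add_zero, ← mul_add]
      apply mul_le_mul_of_nonneg_left _ hμ
      have pB := (hGB ω).pdM
      obtain ⟨pR, nR⟩ := hR1 _ pB
      have pq : PdM ((q : ℝ)⁻¹ • Rd (hB ω)) := pR.smul (by positivity)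
      have a1 := logdet_of_le (hG ω).pdM pB (hE1 ω hE).1
      have a2 := logdet_of_le pB pR nR.1
      have a3 := logdet_smul pR hq0
      have a4 : lv E Rd hB ω = some (Rd (hB ω)) := by unfold lv; rw [if_pos hE]
      have a5 : gv q (lv E Rd hB ω) = (q : ℝ)⁻¹ • Rd (hB ω) + 1 := by rw [a4, add_comm]; rfl
      have a6 := det_gain_zero pq (Cpd_one (ι := ι) (le_refl (1 : ℝ))).psd
      have a7 := Real.logb_le_logb_of_le (b := 2) (by norm_num) pq.det_pos a6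
      rw [a5]
      nlinarith
    · have e3 : res F.μ (fun ω => ¬ E ω) ω = F.μ ω := res_pos _ _ _ hE
      have a4 : lv E Rd hB ω = none := by unfold lv; rw [if_neg hE]
      have a5 : gv q (lv E Rd hB ω) = (1 : Matrix ι ι ℝ) := by rw [a4]; rfl
      rw [e3, a5, Matrix.det_one, Real.logb_one, mul_zero, zero_add]
      have a1 := mul_le_mul_of_nonneg_left (logdet_le hc (hG ω)) hμ
      have a2 : 0 ≤ F.μ ω * (Fintype.card ι * (Real.logb 2 q + (2 * Cr + 1) * t)) := by positivity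
      linarith

end

end

end Pool.Agent.Helper83.GR
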