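import Pool.Agent.Helper83.GR.Fin

/-! Bounded walks see the exact hull, part 6: path spaces. -/

namespace Pool.Agent.Helper83.GR

open Finset Matrix Pool.Agent.Helper69.RK Pool.Agent.Helper31.EC Pool.Agent.Helper40.EL Pool.Agent.Helper89.LX

noncomputable section

/-- paths with `n` steps -/
def Pt (Ω : Type) : ℕ → Type
  | 0 => Ω
  | n + 1 => Pt Ω n × Ω

instance ptFin (Ω : Type) [Fintype Ω] : ∀ n, Fintype (Pt Ω n)
  | 0 => inferInstanceAs (Fintype Ω)
  | n + 1 => @instFintypeProd _ _ (ptFin Ω n) _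

/-- the last point -/
def lst {Ω : Type} : ∀ n, Pt Ω n → Ω
  | 0 => fun p => p
  | _ + 1 => fun p => p.2

/-- `ω` is a point of the path -/
def ptm {Ω : Type} (ω : Ω) : ∀ n, Pt Ω n → Prop
  | 0 => fun p => p = ω
  | n + 1 => fun p => ptm ω n p.1 ∨ p.2 = ω

/-- the path without the last `K` steps -/
def pre {Ω : Type} (m : ℕ) : ∀ K, Pt Ω (m + K) → Pt Ω m
  | 0 => fun p => p
  | K + 1 => fun p => pre m K p.1

section
variable {Ω : Type} [Fintype Ω] (μ : Ω → ℝ) (J : ℕ → Ω → Ω → ℝ)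

/-- the law of the path -/
def pm : ∀ n, Pt Ω n → ℝ
  | 0 => μ
  | n + 1 => fun p => pm n p.1 * (J n (lst n p.1) p.2 / μ (lst n p.1))

variable {μ J}

theorem pm_nonneg (h : ∀ n, SJ μ (J n)) (n : ℕ) : ∀ p, 0 ≤ pm μ J n p := by
  induction n with
  | zero => exact (h 0).mu_nonneg
  | succ n ih => exact fun p => mul_nonneg (ih p.1) (div_nonneg ((h n).nn _ _) ((h n).mu_nonneg _))

/-- sums over paths -/
theorem sum_pm_succ (n : ℕ) (H : Pt Ω (n + 1) → ℝ) :
    ∑ p, pm μ J (n + 1) p * H p = ∑ p : Pt Ω n, pm μ J n p * tr μ (J n) (fun ω => H (p, ω)) (lst n p) := by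
  have h1 : ∑ p, pm μ J (n + 1) p * H p = ∑ p : Pt Ω n, ∑ ω : Ω, pm μ J (n + 1) (p, ω) * H (p, ω) :=
    Fintype.sum_prod_type (fun p : Pt Ω n × Ω => pm μ J (n + 1) p * H p)
  rw [h1]
  apply Finset.sum_congr rfl
  intro p _
  unfold tr
  rw [← mul_div_assoc, Finset.mul_sum, Finset.sum_div]
  apply Finset.sum_congr rfl
  intro ω _
  show pm μ J n p * (J n (lst n p) ω / μ (lst n p)) * H (p, ω) = _
  ring

/-- the last point has the law `μ` -/
theorem sum_pm_lst (h : ∀ n, SJ μ (J n)) (n : ℕ) : ∀ f : Ω → ℝ, ∑ p, pm μ J n p * f (lst n p) = ∑ ω, μ ω * f ω := by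
  induction n with
  | zero => exact fun f => rfl
  | succ n ih =>
    intro f
    rw [sum_pm_succ n (fun p => f (lst (n + 1) p))]
    have h1 : ∑ p : Pt Ω n, pm μ J n p * tr μ (J n) (fun ω => f (lst (n + 1) (p, ω))) (lst n p) =
        ∑ ω, μ ω * tr μ (J n) f ω := ih (tr μ (J n) f)
    rw [h1]
    have h2 : ∑ ω, μ ω * tr μ (J n) f ω = ∑ ω, ∑ ω', J n ω ω' * f ω' := Finset.sum_congr rfl fun ω _ => (h n).mu_tr f ω
    rw [h2, Finset.sum_comm]
    apply Finset.sum_congr rfl
    intro ω' _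
    rw [← Finset.sum_mul, (h n).col]

theorem sum_pm (h : ∀ n, SJ μ (J n)) (hm : ∑ ω, μ ω = 1) (n : ℕ) : ∑ p, pm μ J n p = 1 := by
  have h1 := sum_pm_lst h n (fun _ => 1)
  simp only [mul_one] at h1
  rw [h1, hm]

/-- the first part of a path -/
theorem sum_pm_pre (h : ∀ n, SJ μ (J n)) (m K : ℕ) : ∀ H : Pt Ω m → ℝ,
    ∑ q : Pt Ω (m + K), pm μ J (m + K) q * H (pre m K q) = ∑ p, pm μ J m p * H p := by
  induction K with
  | zero => exact fun H => rfl
  | succ K ih =>
    intro H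
    have h1 := sum_pm_succ (μ := μ) (J := J) (m + K) (fun q => H (pre m (K + 1) q))
    refine h1.trans ?_
    rw [← ih H]
    apply Finset.sum_congr rfl
    intro q _
    by_cases h0 : μ (lst (m + K) q) = 0
    · have h2 : pm μ J (m + K) q = 0 := by
        have h3 := sum_pm_lst h (m + K) (fun ω => e1_ind (μ ω = 0))
        have h4 : ∑ ω, μ ω * e1_ind (μ ω = 0) = 0 := by
          apply Finset.sum_eq_zero
          intro ω _
          by_cases h5 : μ ω = 0
          · rw [h5, zero_mul]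
          · rw [e1_ind_neg h5, mul_zero]
        rw [h4, Finset.sum_eq_zero_iff_of_nonneg (fun q _ => mul_nonneg (pm_nonneg h _ q) (ind_nonneg _))] at h3
        have h5 := h3 q (Finset.mem_univ _)
        rw [e1_ind_pos h0, mul_one] at h5
        exact h5
      rw [h2, zero_mul, zero_mul]
    · have h2 : tr μ (J (m + K)) (fun ω => H (pre m (K + 1) (q, ω))) (lst (m + K) q) = H (pre m K q) :=
        (h (m + K)).tr_const (H (pre m K q)) h0
      rw [h2]

theorem pm_supp (h : ∀ n, SJ μ (J n)) (n : ℕ) : ∀ p : Pt Ω n, pm μ J n p ≠ 0 → μ (lst n p) ≠ 0 := by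
  induction n with
  | zero => exact fun p hp => hp
  | succ n ih =>
    intro p hp h0
    apply hp
    show pm μ J n p.1 * (J n (lst n p.1) p.2 / μ (lst n p.1)) = 0
    have h1 : J n (lst n p.1) p.2 = 0 := by
      rw [(h n).sym]
      exact (h n).zero h0 _
    rw [h1, zero_div, mul_zero]

/-- points of a path of positive probability -/
theorem pm_supp_pt (h : ∀ n, SJ μ (J n)) (n : ℕ) : ∀ p : Pt Ω n, pm μ J n p ≠ 0 → ∀ ω, ptm ω n p → μ ω ≠ 0 := by
  induction n with
  | zero =>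
    rintro p hp ω rfl
    exact hp
  | succ n ih =>
    intro p hp ω hω
    rcases hω with hω | rfl
    · exact ih p.1 (fun h0 => hp (by
        show pm μ J n p.1 * _ = 0
        rw [h0, zero_mul])) ω hω
    · exact pm_supp h (n + 1) p hp

/-- a function which is constant along steps is constant along paths -/
theorem pm_const {β : Type} (g : Ω → β) (hg : ∀ n ω ω', J n ω ω' ≠ 0 → g ω = g ω') (n : ℕ) :
    ∀ p : Pt Ω n, pm μ J n p ≠ 0 → ∀ ω, ptm ω n p → g ω = g (lst n p) := by
  induction n with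
  | zero =>
    rintro p _ ω rfl
    rfl
  | succ n ih =>
    intro p hp ω hω
    have h1 : pm μ J n p.1 ≠ 0 := fun h0 => hp (by
      show pm μ J n p.1 * _ = 0
      rw [h0, zero_mul])
    have h2 : J n (lst n p.1) p.2 ≠ 0 := fun h0 => hp (by
      show pm μ J n p.1 * (J n (lst n p.1) p.2 / _) = 0
      rw [h0, zero_div, mul_zero])
    rcases hω with hω | rfl
    · rw [ih p.1 h1 ω hω]
      exact hg n _ _ h2
    · rfl

omit [Fintype Ω] in
theorem ptm_lst (n : ℕ) : ∀ p : Pt Ω n, ptm (lst n p) n p := by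
  induction n with
  | zero => exact fun p => rfl
  | succ n _ => exact fun p => Or.inr rfl

omit [Fintype Ω] in
theorem ptm_pre (m K : ℕ) (ω : Ω) : ∀ q : Pt Ω (m + K), ptm ω m (pre m K q) → ptm ω (m + K) q := by
  induction K with
  | zero => exact fun q h => h
  | succ K ih => exact fun q h => Or.inl (ih q.1 h)

omit [Fintype Ω] in
theorem pm_pre (m K : ℕ) : ∀ q : Pt Ω (m + K), pm μ J (m + K) q ≠ 0 → pm μ J m (pre m K q) ≠ 0 := by
  induction K with
  | zero => exact fun q h => h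
  | succ K ih =>
    intro q hq
    apply ih q.1
    intro h0
    apply hq
    show pm μ J (m + K) q.1 * _ = 0
    rw [h0, zero_mul]

/-- probability that some point of the path is exceptional -/
theorem sum_pm_ex (h : ∀ n, SJ μ (J n)) (P : Ω → Prop) (n : ℕ) :
    ∑ p, pm μ J n p * e1_ind (∃ ω, ptm ω n p ∧ P ω) ≤ (n + 1) * ∑ ω, μ ω * e1_ind (P ω) := by
  induction n with
  | zero =>
    rw [Nat.cast_zero, zero_add, one_mul]
    apply Finset.sum_le_sum
    intro p _
    apply mul_le_mul_of_nonneg_left _ ((h 0).mu_nonneg p)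
    apply ind_mono
    rintro ⟨ω, h1, h2⟩
    have h1' : p = ω := h1
    rwa [h1']
  | succ n ih =>
    have h1 : ∑ p, pm μ J (n + 1) p * e1_ind (∃ ω, ptm ω (n + 1) p ∧ P ω) ≤
        ∑ p : Pt Ω (n + 1), pm μ J (n + 1) p * e1_ind (∃ ω, ptm ω n (pre n 1 p) ∧ P ω) +
        ∑ p : Pt Ω (n + 1), pm μ J (n + 1) p * e1_ind (P (lst (n + 1) p)) := by
      rw [← Finset.sum_add_distrib]
      apply Finset.sum_le_sum
      intro p _
      rw [← mul_add]
      apply mul_le_mul_of_nonneg_left _ (pm_nonneg h _ p)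
      have a1 := ind_nonneg (∃ ω, ptm ω n (pre n 1 p) ∧ P ω)
      have a2 := ind_nonneg (P (lst (n + 1) p))
      by_cases hc : ∃ ω, ptm ω (n + 1) p ∧ P ω
      · rw [e1_ind_pos hc]
        obtain ⟨ω, h2, h3⟩ := hc
        rcases h2 with h2 | h2
        · rw [e1_ind_pos (show ∃ ω, ptm ω n (pre n 1 p) ∧ P ω from ⟨ω, h2, h3⟩)]
          linarith
        · have h4 : P (lst (n + 1) p) := by
            show P p.2
            rw [h2]
            exact h3
          rw [e1_ind_pos h4]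
          linarith
      · rw [e1_ind_neg hc]
        linarith
    have h2 := sum_pm_pre h n 1 (fun p => e1_ind (∃ ω, ptm ω n p ∧ P ω))
    have h3 := sum_pm_lst h (n + 1) (fun ω => e1_ind (P ω))
    have h2' : ∑ p : Pt Ω (n + 1), pm μ J (n + 1) p * e1_ind (∃ ω, ptm ω n (pre n 1 p) ∧ P ω) =
      ∑ p, pm μ J n p * e1_ind (∃ ω, ptm ω n p ∧ P ω) := h2
    rw [h2', h3] at h1
    push_cast
    linarith

end

section
variable {Ω : Type} [Fintype Ω] {μ : Ω → ℝ} {J : Ω → Ω → ℝ}

/-- the transition with success -/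
def tok (μ : Ω → ℝ) (J : Ω → Ω → ℝ) (ok f : Ω → ℝ) : Ω → ℝ := tr μ J (fun ω => ok ω * f ω)

theorem wk_eq (ok : Ω → ℝ) (K : ℕ) : ∀ ω, wk μ J ok K ω = ok ω * ((tok μ J ok)^[K] (fun _ => 1)) ω := by
  induction K with
  | zero =>
    intro ω
    show ok ω = ok ω * 1
    rw [mul_one]
  | succ K ih =>
    intro ω
    rw [wk_succ, Function.iterate_succ_apply']
    congr 1
    unfold tok
    apply congrFun
    apply congrArg
    funext ω'
    exact ih ω'

/-- success of the last `K` steps and of the point before them -/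
def sc (m : ℕ) (okp : Pt Ω m → Ω → ℝ) : ∀ K, Pt Ω (m + K) → ℝ
  | 0 => fun p => okp p (lst m p)
  | K + 1 => fun q => sc m okp K q.1 * okp (pre m K q.1) q.2

theorem block_aux (m : ℕ) (okp : Pt Ω m → Ω → ℝ) (K : ℕ) : ∀ u : Pt Ω m → Ω → ℝ,
    ∑ q : Pt Ω (m + K), pm μ (fun _ => J) (m + K) q * (sc m okp K q * u (pre m K q) (lst (m + K) q)) =
      ∑ p : Pt Ω m, pm μ (fun _ => J) m p * (okp p (lst m p) * ((tok μ J (okp p))^[K] (u p)) (lst m p)) := by
  induction K with
  | zero => exact fun u => rfl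
  | succ K ih =>
    intro u
    have h1 := sum_pm_succ (μ := μ) (J := fun _ => J) (m + K)
      (fun q => sc m okp (K + 1) q * u (pre m (K + 1) q) (lst (m + (K + 1)) q))
    refine h1.trans ?_
    have h2 := ih (fun p => tok μ J (okp p) (u p))
    have h3 : ∀ p, (tok μ J (okp p))^[K] (tok μ J (okp p) (u p)) = (tok μ J (okp p))^[K + 1] (u p) := by
      intro p
      rw [Function.iterate_succ_apply]
    simp only [h3] at h2
    rw [← h2]
    apply Finset.sum_congr rfl
    intro q _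
    congr 1
    unfold tok tr
    rw [← mul_div_assoc, Finset.mul_sum]
    congr 1
    apply Finset.sum_congr rfl
    intro ω _
    show J (lst (m + K) q) ω * (sc m okp K q * okp (pre m K q) ω * u (pre m K q) ω) = _
    ring

/-- THE BLOCK IDENTITY: the probability of success of the path is the expectation of `wk` at the last point -/
theorem block (m : ℕ) (okp : Pt Ω m → Ω → ℝ) (K : ℕ) :
    ∑ q : Pt Ω (m + K), pm μ (fun _ => J) (m + K) q * sc m okp K q =
      ∑ p : Pt Ω m, pm μ (fun _ => J) m p * wk μ J (okp p) K (lst m p) := by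
  have h1 := block_aux (μ := μ) (J := J) m okp K (fun _ _ => 1)
  simp only [mul_one] at h1
  rw [h1]
  apply Finset.sum_congr rfl
  intro p _
  rw [wk_eq]

/-- failure comes from a point -/
theorem sc_fail (m : ℕ) (okp : Pt Ω m → Ω → ℝ) (K : ℕ) : ∀ q : Pt Ω (m + K),
    (∀ ω, ptm ω (m + K) q → okp (pre m K q) ω = 1) → sc m okp K q = 1 := by
  induction K with
  | zero => exact fun q h => h _ (ptm_lst m q)
  | succ K ih =>
    intro q h
    show sc m okp K q.1 * okp (pre m K q.1) q.2 = 1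
    rw [ih q.1 (fun ω hω => h ω (Or.inl hω)), one_mul]
    exact h q.2 (Or.inr rfl)

omit [Fintype Ω] in
theorem sc_nonneg (m : ℕ) (okp : Pt Ω m → Ω → ℝ) (h0 : ∀ p ω, 0 ≤ okp p ω) (K : ℕ) : ∀ q, 0 ≤ sc m okp K q := by
  induction K with
  | zero => exact fun q => h0 _ _
  | succ K ih => exact fun q => mul_nonneg (ih q.1) (h0 _ _)

end

end

end Pool.Agent.Helper83.GR
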