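import Pool.Agent.Helper83.GR.Tree

/-! Bounded walks see the exact hull: independent walks from one point, finite form. -/

namespace Pool.Agent.Helper83.GR

open Finset Filter Topology Matrix Pool.Agent.Helper69.RK Pool.Agent.Helper31.EC Pool.Agent.Helper40.EL Pool.Agent.Helper89.LX
open Pool.Agent.Helper95.LF (PdM)

noncomputable section

variable {ι : Type} [Fintype ι] [DecidableEq ι]

/-- the parents in a star of walks of length `N` -/
def spar (N m : ℕ) : ℕ := if m % N = 0 then 0 else m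

theorem spar_blk {N : ℕ} (a : ℕ) : Blk (spar N) (N * a) N := by
  intro j hj
  unfold spar
  by_cases h0 : j = 0
  · subst h0
    rw [add_zero, Nat.mul_mod_right, if_pos rfl]
  · have h1 : (N * a + j) % N = j := by
      rw [Nat.mul_add_mod, Nat.mod_eq_of_lt hj]
    rw [h1, if_neg h0]

section
variable {Ω : Type} (g₀ V : Ω → Matrix ι ι ℝ) (N : ℕ)

/-- the Gram matrix of the ends of the walks -/
def sg : ∀ a, Pt Ω (N * a) → Matrix ι ι ℝ
  | 0 => fun _ => 0
  | a + 1 => fun q => sg a (pre (N * a) N q) + V (lst N (blk (N * a) N q))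

omit [Fintype ι] [DecidableEq ι] in
theorem blk_lst_eq (hN : 1 ≤ N) (m : ℕ) (q : Pt Ω (m + N)) : lst N (blk m N q) = gpt (m + N) (m + N) q := by
  obtain ⟨K, rfl⟩ : ∃ K, N = K + 1 := ⟨N - 1, by omega⟩
  exact (gpt_self (m + (K + 1)) q).symm

omit [Fintype ι] [DecidableEq ι] in
/-- the Gram matrix as a sum over the ends -/
theorem sg_eq (hN : 1 ≤ N) (a : ℕ) : ∀ p : Pt Ω (N * a),
    sg V N a p = ∑ i ∈ Finset.range a, V (gpt (N * a) (N * (i + 1)) p) := by
  induction a with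
  | zero =>
    intro p
    rw [Finset.range_zero, Finset.sum_empty]
    rfl
  | succ a ih =>
    intro q
    show sg V N a (pre (N * a) N q) + V (lst N (blk (N * a) N q)) = _
    rw [ih, Finset.sum_range_succ, blk_lst_eq N hN]
    congr 1
    apply Finset.sum_congr rfl
    intro i hi
    rw [Finset.mem_range] at hi
    have h1 : N * (i + 1) ≤ N * a := Nat.mul_le_mul_left N hi
    rw [← gpt_pre (N * a) N (N * (i + 1)) h1 q]
    rfl

/-- the ends are small in a direction -/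
def sbad (τ : ℝ) (a : ℕ) (p : Pt Ω (N * a)) : Prop :=
  ∃ x, qf (g₀ (gpt (N * a) 0 p)) x = 1 ∧ qf (sg V N a p) (g₀ (gpt (N * a) 0 p) *ᵥ x) ≤ τ

open Classical in
/-- such a direction -/
def sbx (τ : ℝ) (a : ℕ) (p : Pt Ω (N * a)) : ι → ℝ := if h : sbad g₀ V N τ a p then h.choose else 0

variable {g₀ V N}

omit [DecidableEq ι] in
theorem sbx_spec {τ : ℝ} {a : ℕ} {p : Pt Ω (N * a)} (h : sbad g₀ V N τ a p) :
    qf (g₀ (gpt (N * a) 0 p)) (sbx g₀ V N τ a p) = 1 ∧
      qf (sg V N a p) (g₀ (gpt (N * a) 0 p) *ᵥ sbx g₀ V N τ a p) ≤ τ := by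
  unfold sbx
  rw [dif_pos h]
  exact h.choose_spec

omit [DecidableEq ι] in
theorem sg_psd (hV : ∀ ω, Psd (V ω)) (a : ℕ) : ∀ p : Pt Ω (N * a), Psd (sg V N a p) := by
  induction a with
  | zero =>
    intro p
    refine ⟨Matrix.isSymm_zero, fun x => ?_⟩
    show 0 ≤ qf (0 : Matrix ι ι ℝ) x
    unfold qf
    simp
  | succ a ih => exact fun q => (ih _).add (hV _)

end

namespace WD

variable {Ω : Type} [Fintype Ω] {μ : Ω → ℝ} {J : Ω → Ω → ℝ} {φ : Ω → Matrix ι ι ℝ → ℝ} {g₀ V : Ω → Matrix ι ι ℝ}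
  {c₀ : ℝ} (w : WD μ J φ g₀ V c₀) {N : ℕ}
include w

/-- the probability of bad stars -/
def Sb (_ : WD μ J φ g₀ V c₀) (N : ℕ) (τ : ℝ) (a : ℕ) : ℝ :=
  ∑ p, tm (spar N) μ (fun _ => J) (N * a) p * e1_ind (sbad g₀ V N τ a p)

/-- the potential of the star -/
def spot (_ : WD μ J φ g₀ V c₀) (N : ℕ) (τ : ℝ) (a : ℕ) (p : Pt Ω (N * a)) : ℝ :=
  Real.logb 2 (pf (g₀ (gpt (N * a) 0 p)) (sg V N a p) τ).det

/-- the expected potential of the star -/
def Esp (N : ℕ) (τ : ℝ) (a : ℕ) : ℝ :=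
  ∑ p, tm (spar N) μ (fun _ => J) (N * a) p * w.spot N τ a p

omit [DecidableEq ι] in
theorem tsame {par : ℕ → ℕ} {n : ℕ} {p : Pt Ω n} (hp : tm par μ (fun _ => J) n p ≠ 0) (i : ℕ) :
    g₀ (gpt n i p) = g₀ (gpt n 0 p) := tm_const g₀ (fun _ => w.base) n p hp i

omit [DecidableEq ι] in
theorem Sb_nonneg (τ : ℝ) (a : ℕ) : 0 ≤ w.Sb N τ a :=
  Finset.sum_nonneg fun p _ => mul_nonneg (tm_nonneg (fun _ => w.sj) _ p) (ind_nonneg _)

/-- one more walk -/
theorem star_step (hN : 1 ≤ N) {J₀ : Ω → Ω → ℝ} (h₀ : SJ μ J₀) {q : ℝ} (hq0 : 0 < q) (hq1 : q ≤ 1)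
    (hle : ∀ ω ω', q * J₀ ω ω' ≤ J ω ω') (hinv : ∀ ω ω', J₀ ω ω' ≠ 0 → V ω = V ω') {τ β τ₀ D : ℝ} (hτ : 0 < τ)
    (hβ : 2 * τ ≤ β) (hβτ : (N + 1) * β ≤ τ₀) (hD : w.Pb τ₀ N ≤ D) (hgain : 0 ≤ Real.logb 2 β - Real.logb 2 τ - 2)
    (a : ℕ) :
    (Real.logb 2 β - Real.logb 2 τ - 2) * (q ^ N * (w.Sb N τ a - D)) ≤ w.Esp N τ (a + 1) - w.Esp N τ a := by
  classical
  have hs : ∀ n : ℕ, SJ μ ((fun _ => J) n) := fun _ => w.sj
  have hblk : Blk (spar N) (N * a) N := spar_blk a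
  set L : ℝ := Real.logb 2 β - Real.logb 2 τ - 2 with hL
  -- the root, the direction, the large points
  set rt : Pt Ω (N * a) → Ω := fun p => gpt (N * a) 0 p with hrt
  set xx : Pt Ω (N * a) → ι → ℝ := fun p => g₀ (rt p) *ᵥ sbx g₀ V N τ a p with hxx
  set b : Pt Ω (N * a) → Ω → ℝ := fun p ω => e1_ind (β ≤ qf (V ω) (xx p)) with hb
  set S1 : Pt Ω (N * a) → ℝ := fun p => e1_ind (sbad g₀ V N τ a p) with hS1
  have hb01 : ∀ p ω, b p ω = 0 ∨ b p ω = 1 := by
    intro p ω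
    by_cases h : β ≤ qf (V ω) (xx p)
    · exact Or.inr (e1_ind_pos h)
    · exact Or.inl (e1_ind_neg h)
  -- all points of the block small: the block is bad
  have h1 : ∑ p : Pt Ω (N * a), tm (spar N) μ (fun _ => J) (N * a) p * (S1 p * wk μ J (fun ω => 1 - b p ω) N (rt p)) ≤
      D := by
    refine le_trans (le_of_eq (block_root (par := spar N) (μ := μ) (J := J) (N * a) N (fun p ω => 1 - b p ω) S1
      hblk).symm) ?_
    refine le_trans ?_ hD
    unfold WD.Pb
    rw [← sum_blk (par := spar N) w.sj (N * a) N hblk]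
    apply Finset.sum_le_sum
    intro q' _
    by_cases h0 : tm (spar N) μ (fun _ => J) (N * a + N) q' = 0
    · rw [h0, zero_mul, zero_mul]
    apply mul_le_mul_of_nonneg_left _ (tm_nonneg hs _ q')
    have hbd := scb_bd (N * a) (fun p ω => 1 - b p ω) (fun p ω => by
        rcases hb01 p ω with e | e
        · rw [e]; norm_num
        · rw [e]; norm_num) (fun p ω => by
        rcases hb01 p ω with e | e
        · rw [e]; norm_num
        · rw [e]; norm_num) N q'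
    by_cases h2 : sbad g₀ V N τ a (pre (N * a) N q')
    · by_cases h3 : scb (N * a) (fun p ω => 1 - b p ω) N q' = 0
      · rw [h3, zero_mul]
        exact ind_nonneg _
      · have h4 := scb_pos (N * a) (fun p ω => 1 - b p ω) N q' h3
        have h5 : bad g₀ V τ₀ N (blk (N * a) N q') := by
          obtain ⟨s1, s2⟩ := sbx_spec h2
          have e1 : g₀ (lst N (blk (N * a) N q')) = g₀ (rt (pre (N * a) N q')) := by
            rw [blk_lst_eq N hN, w.tsame h0, hrt]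
            beta_reduce
            rw [gpt_pre (N * a) N 0 (Nat.zero_le _)]
          refine ⟨sbx g₀ V N τ a (pre (N * a) N q'), ?_, ?_⟩
          · rw [e1]; exact s1
          · rw [e1]
            refine le_trans (gm_le (V := V) N _ β _ ?_) hβτ
            intro ω hω
            have h6 := h4 ω hω
            by_contra h7
            push Not at h7
            apply h6
            have h8 : b (pre (N * a) N q') ω = 1 := e1_ind_pos h7.le
            show 1 - b (pre (N * a) N q') ω = 0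
            rw [h8]; ring
        rw [e1_ind_pos h5]
        have h9 : S1 (pre (N * a) N q') = 1 := e1_ind_pos h2
        rw [h9, mul_one]
        exact hbd.2
    · have h3 : S1 (pre (N * a) N q') = 0 := e1_ind_neg h2
      rw [h3, mul_zero]
      exact ind_nonneg _
  -- the end is large with positive probability
  have h2 : q ^ N * (w.Sb N τ a - D) ≤ ∑ p : Pt Ω (N * a), tm (spar N) μ (fun _ => J) (N * a) p *
      (S1 p * ((tr μ J)^[N] (b p)) (rt p)) := by
    have h3 : ∑ p : Pt Ω (N * a), tm (spar N) μ (fun _ => J) (N * a) p * (S1 p * (q ^ N *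
        (1 - wk μ J (fun ω => 1 - b p ω) N (rt p)))) ≤
        ∑ p : Pt Ω (N * a), tm (spar N) μ (fun _ => J) (N * a) p * (S1 p * ((tr μ J)^[N] (b p)) (rt p)) := by
      apply Finset.sum_le_sum
      intro p _
      by_cases h0 : tm (spar N) μ (fun _ => J) (N * a) p = 0
      · rw [h0, zero_mul, zero_mul]
      apply mul_le_mul_of_nonneg_left _ (tm_nonneg hs _ p)
      apply mul_le_mul_of_nonneg_left _ (ind_nonneg _)
      apply end_ge w.sj h₀ hq0.le hq1 hle (b p) (hb01 p) _ N _ (tm_supp hs _ p h0 0)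
      intro ω ω' hJ
      show e1_ind (β ≤ qf (V ω) (xx p)) = e1_ind (β ≤ qf (V ω') (xx p))
      rw [hinv ω ω' hJ]
    refine le_trans ?_ h3
    have h4 : ∑ p : Pt Ω (N * a), tm (spar N) μ (fun _ => J) (N * a) p * (S1 p * (q ^ N *
        (1 - wk μ J (fun ω => 1 - b p ω) N (rt p)))) = q ^ N * (w.Sb N τ a -
        ∑ p : Pt Ω (N * a), tm (spar N) μ (fun _ => J) (N * a) p * (S1 p * wk μ J (fun ω => 1 - b p ω) N (rt p))) := by
      unfold WD.Sb
      rw [← Finset.sum_sub_distrib, Finset.mul_sum]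
      apply Finset.sum_congr rfl
      intro p _
      show _ = q ^ N * (tm (spar N) μ (fun _ => J) (N * a) p * S1 p - _)
      ring
    rw [h4]
    apply mul_le_mul_of_nonneg_left _ (pow_nonneg hq0.le N)
    linarith
  -- the gain
  have h3 := block_end (par := spar N) (μ := μ) (J := J) (N * a) N hblk (fun p ω => S1 p * b p ω)
  have h4 : ∀ (n : ℕ) (c : ℝ) (f : Ω → ℝ), (tr μ J)^[n] (fun ω => c * f ω) = fun ω => c * ((tr μ J)^[n] f) ω := by
    intro n
    induction n with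
    | zero => exact fun c f => rfl
    | succ n ih =>
      intro c f
      funext ω
      rw [Function.iterate_succ_apply', Function.iterate_succ_apply', ih c f]
      exact tr_smul c _ ω
  have h5 : ∑ p : Pt Ω (N * a), tm (spar N) μ (fun _ => J) (N * a) p * (S1 p * ((tr μ J)^[N] (b p)) (rt p)) =
      ∑ q' : Pt Ω (N * a + N), tm (spar N) μ (fun _ => J) (N * a + N) q' *
        (S1 (pre (N * a) N q') * b (pre (N * a) N q') (lst N (blk (N * a) N q'))) := by
    rw [h3]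
    apply Finset.sum_congr rfl
    intro p _
    rw [h4 N (S1 p) (b p)]
  rw [h5] at h2
  have h6 := mul_le_mul_of_nonneg_left h2 hgain
  refine h6.trans ?_
  unfold WD.Esp
  rw [← sum_tm_pre hs (N * a) N (w.spot N τ a)]
  have h7 : ∑ p, tm (spar N) μ (fun _ => J) (N * (a + 1)) p * w.spot N τ (a + 1) p =
      ∑ q' : Pt Ω (N * a + N), tm (spar N) μ (fun _ => J) (N * a + N) q' * w.spot N τ (a + 1) q' := rfl
  rw [h7, ← Finset.sum_sub_distrib, Finset.mul_sum]
  apply Finset.sum_le_sum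
  intro q' _
  rw [← mul_sub, mul_left_comm]
  by_cases h0 : tm (spar N) μ (fun _ => J) (N * a + N) q' = 0
  · rw [h0, zero_mul, zero_mul]
  apply mul_le_mul_of_nonneg_left _ (tm_nonneg hs _ q')
  have hgp := (w.cpd (rt (pre (N * a) N q'))).pdM
  have hG : Psd (sg V N a (pre (N * a) N q')) := sg_psd w.psdV a _
  have hDp : Psd (V (lst N (blk (N * a) N q'))) := w.psdV _
  have e1 : w.spot N τ (a + 1) q' = Real.logb 2 (pf (g₀ (rt (pre (N * a) N q'))) (sg V N a (pre (N * a) N q') +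
      V (lst N (blk (N * a) N q'))) τ).det := by
    have e2 : gpt (N * (a + 1)) 0 q' = gpt (N * a) 0 (pre (N * a) N q') := gpt_pre (N * a) N 0 (Nat.zero_le _) q'
    show Real.logb 2 (pf (g₀ (gpt (N * (a + 1)) 0 q')) (sg V N (a + 1) q') τ).det = _
    rw [e2]
    rfl
  have e3 : w.spot N τ a (pre (N * a) N q') =
      Real.logb 2 (pf (g₀ (rt (pre (N * a) N q'))) (sg V N a (pre (N * a) N q')) τ).det := rfl
  rw [e1, e3]
  by_cases h8 : sbad g₀ V N τ a (pre (N * a) N q')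
  · by_cases h9 : β ≤ qf (V (lst N (blk (N * a) N q'))) (xx (pre (N * a) N q'))
    · have e4 : S1 (pre (N * a) N q') = 1 := e1_ind_pos h8
      have e5 : b (pre (N * a) N q') (lst N (blk (N * a) N q')) = 1 := e1_ind_pos h9
      rw [e4, e5, one_mul, mul_one]
      obtain ⟨s1, s2⟩ := sbx_spec h8
      apply pf_gain hgp hG hDp hτ hβ _ s1 s2
      rw [qf_add]
      have := hG.2 (xx (pre (N * a) N q'))
      linarith
    · have e5 : b (pre (N * a) N q') (lst N (blk (N * a) N q')) = 0 := e1_ind_neg h9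
      rw [e5, mul_zero, mul_zero]
      have := pf_mono hgp hG hDp hτ
      linarith
  · have e4 : S1 (pre (N * a) N q') = 0 := e1_ind_neg h8
    rw [e4, zero_mul, mul_zero]
    have := pf_mono hgp hG hDp hτ
    linarith

/-- bad stars become rarer -/
theorem Sb_anti (τ : ℝ) (a : ℕ) : w.Sb N τ (a + 1) ≤ w.Sb N τ a := by
  have hs : ∀ n : ℕ, SJ μ ((fun _ => J) n) := fun _ => w.sj
  unfold WD.Sb
  rw [← sum_tm_pre hs (N * a) N (fun p => e1_ind (sbad g₀ V N τ a p))]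
  have h7 : ∑ p, tm (spar N) μ (fun _ => J) (N * (a + 1)) p * e1_ind (sbad g₀ V N τ (a + 1) p) =
      ∑ q' : Pt Ω (N * a + N), tm (spar N) μ (fun _ => J) (N * a + N) q' * e1_ind (sbad g₀ V N τ (a + 1) q') := rfl
  rw [h7]
  apply Finset.sum_le_sum
  intro q' _
  apply mul_le_mul_of_nonneg_left _ (tm_nonneg hs _ q')
  apply ind_mono
  rintro ⟨x, h1, h2⟩
  have e2 : gpt (N * (a + 1)) 0 q' = gpt (N * a) 0 (pre (N * a) N q') := gpt_pre (N * a) N 0 (Nat.zero_le _) q'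
  rw [e2] at h1 h2
  refine ⟨x, h1, ?_⟩
  have h3 : qf (sg V N (a + 1) q') (g₀ (gpt (N * a) 0 (pre (N * a) N q')) *ᵥ x) =
      qf (sg V N a (pre (N * a) N q')) (g₀ (gpt (N * a) 0 (pre (N * a) N q')) *ᵥ x) +
      qf (V (lst N (blk (N * a) N q'))) (g₀ (gpt (N * a) 0 (pre (N * a) N q')) *ᵥ x) := qf_add _ _ _
  rw [h3] at h2
  have := (w.psdV (lst N (blk (N * a) N q'))).2 (g₀ (gpt (N * a) 0 (pre (N * a) N q')) *ᵥ x)
  linarith

theorem Sb_anti_le (τ : ℝ) {a a' : ℕ} (h : a ≤ a') : w.Sb N τ a' ≤ w.Sb N τ a := by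
  induction a', h using Nat.le_induction with
  | base => exact le_rfl
  | succ a' _ ih => exact (w.Sb_anti τ a').trans ih

/-- upper bound of the potential -/
theorem Esp_le {τ s s₁ : ℝ} (hτ : 0 < τ) (hs0 : 0 ≤ s) (hs1 : s ≤ s₁) (h1 : ∀ ω, μ ω ≠ 0 → φ ω (g₀ ω) ≤ s₁)
    (hN : 1 ≤ N) (a : ℕ) :
    w.Esp N τ a ≤ ∑ ω, μ ω * Real.logb 2 (g₀ ω).det + Fintype.card ι * Real.logb 2 (a * s + τ) +
      ((N * a : ℕ) + 1) * w.p0 s * (Fintype.card ι * (Real.logb 2 (a * s₁ + τ) - Real.logb 2 τ)) := by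
  classical
  have hs : ∀ n : ℕ, SJ μ ((fun _ => J) n) := fun _ => w.sj
  have hcard : (0 : ℝ) ≤ Fintype.card ι := Nat.cast_nonneg _
  have ha : (0 : ℝ) ≤ a := Nat.cast_nonneg a
  have hl1 : Real.logb 2 τ ≤ Real.logb 2 (a * s + τ) := Real.logb_le_logb_of_le (by norm_num) hτ (by nlinarith)
  have hl2 : Real.logb 2 τ ≤ Real.logb 2 (a * s₁ + τ) :=
    Real.logb_le_logb_of_le (by norm_num) hτ (by nlinarith [hs0.trans hs1])
  have h2 : ∀ p : Pt Ω (N * a), tm (spar N) μ (fun _ => J) (N * a) p ≠ 0 → w.spot N τ a p ≤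
      Real.logb 2 (g₀ (gpt (N * a) 0 p)).det + Fintype.card ι * Real.logb 2 (a * s + τ) +
      e1_ind (∃ i, i ≤ N * a ∧ ¬ φ (gpt (N * a) i p) (g₀ (gpt (N * a) i p)) ≤ s) *
        (Fintype.card ι * (Real.logb 2 (a * s₁ + τ) - Real.logb 2 τ)) := by
    intro p hp
    have hgp := (w.cpd (gpt (N * a) 0 p)).pdM
    have hG : Psd (sg V N a p) := sg_psd w.psdV a p
    have hb : ∀ s' : ℝ, 0 ≤ s' → (∀ i, i ≤ N * a → φ (gpt (N * a) i p) (g₀ (gpt (N * a) i p)) ≤ s') →
        w.spot N τ a p ≤ Real.logb 2 (g₀ (gpt (N * a) 0 p)).det + Fintype.card ι * Real.logb 2 (a * s' + τ) := by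
      intro s' hs' h3
      apply pf_upper hgp hG hτ (by positivity)
      intro x
      rw [sg_eq V N hN]
      have h4 : ∀ (T : Finset ℕ), (∀ i ∈ T, i < a) →
          qf (∑ i ∈ T, V (gpt (N * a) (N * (i + 1)) p)) (g₀ (gpt (N * a) 0 p) *ᵥ x) ≤
            T.card * (s' * qf (g₀ (gpt (N * a) 0 p)) x) := by
        intro T
        induction T using Finset.induction_on with
        | empty =>
          intro _
          rw [Finset.sum_empty, Finset.card_empty, Nat.cast_zero, zero_mul]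
          unfold qf
          simp
        | insert i T hi ih =>
          intro hT
          rw [Finset.sum_insert hi, Finset.card_insert_of_notMem hi, qf_add]
          have h5 := ih (fun j hj => hT j (Finset.mem_insert_of_mem hj))
          have h6 : N * (i + 1) ≤ N * a := Nat.mul_le_mul_left N (hT i (Finset.mem_insert_self i T))
          have h7 := (w.isV (gpt (N * a) (N * (i + 1)) p)).le (w.gp _) (w.cpd (gpt (N * a) 0 p)).psd x
          have h8 := h3 (N * (i + 1)) h6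
          rw [w.tsame hp] at h8
          have h9 := mul_le_mul_of_nonneg_left h8 ((w.cpd (gpt (N * a) 0 p)).psd.2 x)
          push_cast
          linarith
      have h5 := h4 (Finset.range a) (fun i hi => Finset.mem_range.mp hi)
      rw [Finset.card_range] at h5
      linarith
    by_cases hex : ∃ i, i ≤ N * a ∧ ¬ φ (gpt (N * a) i p) (g₀ (gpt (N * a) i p)) ≤ s
    · rw [e1_ind_pos hex, one_mul]
      have h3 := hb s₁ (hs0.trans hs1) (fun i _ => h1 _ (tm_supp hs _ p hp i))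
      have h4 := mul_le_mul_of_nonneg_left hl1 hcard
      rw [mul_sub]
      linarith
    · rw [e1_ind_neg hex, zero_mul, add_zero]
      push Not at hex
      exact hb s hs0 hex
  have h3 : w.Esp N τ a ≤ ∑ p, tm (spar N) μ (fun _ => J) (N * a) p * (Real.logb 2 (g₀ (gpt (N * a) 0 p)).det +
      Fintype.card ι * Real.logb 2 (a * s + τ) +
      e1_ind (∃ i, i ≤ N * a ∧ ¬ φ (gpt (N * a) i p) (g₀ (gpt (N * a) i p)) ≤ s) *
        (Fintype.card ι * (Real.logb 2 (a * s₁ + τ) - Real.logb 2 τ))) := by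
    unfold WD.Esp
    apply Finset.sum_le_sum
    intro p _
    by_cases h0 : tm (spar N) μ (fun _ => J) (N * a) p = 0
    · rw [h0, zero_mul, zero_mul]
    · exact mul_le_mul_of_nonneg_left (h2 p h0) (tm_nonneg hs _ p)
  have h4 : ∑ p, tm (spar N) μ (fun _ => J) (N * a) p * (Real.logb 2 (g₀ (gpt (N * a) 0 p)).det +
      Fintype.card ι * Real.logb 2 (a * s + τ) +
      e1_ind (∃ i, i ≤ N * a ∧ ¬ φ (gpt (N * a) i p) (g₀ (gpt (N * a) i p)) ≤ s) *
        (Fintype.card ι * (Real.logb 2 (a * s₁ + τ) - Real.logb 2 τ))) =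
      ∑ ω, μ ω * Real.logb 2 (g₀ ω).det + Fintype.card ι * Real.logb 2 (a * s + τ) +
      (∑ p, tm (spar N) μ (fun _ => J) (N * a) p *
        e1_ind (∃ i, i ≤ N * a ∧ ¬ φ (gpt (N * a) i p) (g₀ (gpt (N * a) i p)) ≤ s)) *
        (Fintype.card ι * (Real.logb 2 (a * s₁ + τ) - Real.logb 2 τ)) := by
    simp_rw [mul_add]
    rw [Finset.sum_add_distrib, Finset.sum_add_distrib,
      sum_tm_gpt hs (N * a) 0 (fun ω => Real.logb 2 (g₀ ω).det), ← Finset.sum_mul, sum_tm hs w.one, one_mul, Finset.sum_mul]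
    simp_rw [mul_assoc]
  have h5 := sum_tm_ex (par := spar N) hs (fun ω => ¬ φ ω (g₀ ω) ≤ s) (N * a)
  have h6 : 0 ≤ (Fintype.card ι : ℝ) * (Real.logb 2 (a * s₁ + τ) - Real.logb 2 τ) := mul_nonneg hcard (by linarith)
  have h7 := mul_le_mul_of_nonneg_right h5 h6
  unfold WD.p0
  linarith

/-- the potential at the start -/
theorem Esp_zero {τ : ℝ} (hτ : 0 < τ) :
    ∑ ω, μ ω * Real.logb 2 (g₀ ω).det + Fintype.card ι * Real.logb 2 τ ≤ w.Esp N τ 0 := by
  have hs : ∀ n : ℕ, SJ μ ((fun _ => J) n) := fun _ => w.sj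
  have h1 : ∑ p, tm (spar N) μ (fun _ => J) (N * 0) p * (Real.logb 2 (g₀ (gpt (N * 0) 0 p)).det +
      Fintype.card ι * Real.logb 2 τ) ≤ w.Esp N τ 0 := by
    unfold WD.Esp
    apply Finset.sum_le_sum
    intro p _
    exact mul_le_mul_of_nonneg_left (pf_lower (w.cpd _).pdM (sg_psd w.psdV 0 p) hτ) (tm_nonneg hs _ p)
  refine le_trans (le_of_eq ?_) h1
  simp_rw [mul_add]
  rw [Finset.sum_add_distrib, sum_tm_gpt hs (N * 0) 0 (fun ω => Real.logb 2 (g₀ ω).det), ← Finset.sum_mul,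
    sum_tm hs w.one, one_mul]

/-- STAR, finite form -/
theorem star_fin (hN : 1 ≤ N) {J₀ : Ω → Ω → ℝ} (h₀ : SJ μ J₀) {q : ℝ} (hq0 : 0 < q) (hq1 : q ≤ 1)
    (hle : ∀ ω ω', q * J₀ ω ω' ≤ J ω ω') (hinv : ∀ ω ω', J₀ ω ω' ≠ 0 → V ω = V ω') {τ β τ₀ D s s₁ : ℝ} (hτ : 0 < τ)
    (hβ : 2 * τ ≤ β) (hβτ : (N + 1) * β ≤ τ₀) (hD : w.Pb τ₀ N ≤ D) (hgain : 0 < Real.logb 2 β - Real.logb 2 τ - 2)
    (hs0 : 0 ≤ s) (hs1 : s ≤ s₁) (h1 : ∀ ω, μ ω ≠ 0 → φ ω (g₀ ω) ≤ s₁) (a : ℕ) :
    a * ((Real.logb 2 β - Real.logb 2 τ - 2) * (q ^ N * (w.Sb N τ a - D))) ≤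
      Fintype.card ι * (Real.logb 2 (a * s + τ) - Real.logb 2 τ) +
      ((N * a : ℕ) + 1) * w.p0 s * (Fintype.card ι * (Real.logb 2 (a * s₁ + τ) - Real.logb 2 τ)) := by
  set L : ℝ := Real.logb 2 β - Real.logb 2 τ - 2 with hL
  have h2 : ∀ i ∈ Finset.range a, L * (q ^ N * (w.Sb N τ a - D)) ≤ w.Esp N τ (i + 1) - w.Esp N τ i := by
    intro i hi
    rw [Finset.mem_range] at hi
    refine le_trans ?_ (w.star_step hN h₀ hq0 hq1 hle hinv hτ hβ hβτ hD hgain.le i)
    apply mul_le_mul_of_nonneg_left _ hgain.le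
    apply mul_le_mul_of_nonneg_left _ (pow_nonneg hq0.le N)
    have := w.Sb_anti_le (N := N) τ hi.le
    linarith
  have h3 := Finset.sum_le_sum h2
  rw [Finset.sum_const, Finset.card_range, nsmul_eq_mul, Finset.sum_range_sub (fun i => w.Esp N τ i)] at h3
  have h4 := w.Esp_le (N := N) hτ hs0 hs1 h1 hN a
  have h5 := w.Esp_zero (N := N) hτ
  rw [mul_sub]
  linarith

end WD

end

end Pool.Agent.Helper83.GR
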