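import Pool.Agent.Helper83.GR.SFin
import Pool.Agent.Helper83.GR.FGram

/-! Bounded walks see the exact hull: independent lazy walks from one point. -/

namespace Pool.Agent.Helper83.GR

open Finset Filter Topology Matrix Pool.Agent.Helper69.RK Pool.Agent.Helper31.EC Pool.Agent.Helper40.EL Pool.Agent.Helper89.LX
open Pool.Agent.Helper95.LF (PdM)

noncomputable section

variable {ι : Type} [Fintype ι] [DecidableEq ι]

open Classical in
/-- a bounding form, replaced by the identity off the support -/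
def gs (F : FSp) (g₀ : F.Ω → Matrix ι ι ℝ) (ω : F.Ω) : Matrix ι ι ℝ := if F.μ ω ≠ 0 then g₀ ω else 1

theorem gs_eq (F : FSp) (g₀ : F.Ω → Matrix ι ι ℝ) {ω : F.Ω} (h : F.μ ω ≠ 0) : gs F g₀ ω = g₀ ω := by
  unfold gs
  rw [if_pos h]

variable {S : Sp} {κ : Type} [Fintype κ] [Nonempty κ]

/-- the data of a walk -/
theorem wd_of {Φ : Gau S ι} {A : κ → ∀ k, Setoid (S.F k).Ω} {σ e₀ : ℝ} {g₀ V : ∀ k, (S.F k).Ω → Matrix ι ι ℝ}
    (hD : GDf Φ A σ e₀ g₀ V) {C : ℝ} (hC : 0 ≤ C) (hΦC : Φ.C ≤ C) (k : ℕ)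
    (kcpd : ∀ ω, (S.F k).μ ω ≠ 0 → Cpd (Φ.cp k) (g₀ k ω)) :
    WD (S.F k).μ (lzf (S.F k) (fun i => A i k)) (Φ.φ k) (gs (S.F k) (g₀ k)) (V k) (2 ^ ((C + 1) * (S.F k).n)) := by
  classical
  have hn := (S.F k).pos
  set F : FSp := S.F k with hF
  have hcp1 : Φ.cp k ≤ 2 ^ ((C + 1) * F.n) := by
    unfold Gau.cp
    apply Real.rpow_le_rpow_of_exponent_le (by norm_num)
    exact mul_le_mul_of_nonneg_right (by linarith) hn.le
  have hc01 : (1 : ℝ) ≤ 2 ^ ((C + 1) * F.n) := Real.one_le_rpow (by norm_num) (by positivity)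
  refine ⟨sj_lzf F _, FSp.sum_one F, gp_of Φ k, fun ω => ?_, hc01, fun ω ω' hJ => ?_, hD.isV k⟩
  · unfold gs
    split_ifs with h
    · have h1 := kcpd ω h
      exact ⟨h1.1, h1.2.1, fun x => (h1.2.2 x).trans (mul_le_mul_of_nonneg_right hcp1 (dot_self_nonneg x))⟩
    · exact Cpd_one hc01
  · obtain ⟨s1, s2⟩ := (sj_lzf F (fun i => A i k)).supp hJ
    rw [gs_eq F _ s1, gs_eq F _ s2]
    apply hD.base k ω ω' s1 s2
    have h1 : ∃ i, jf F.μ (Quotient.mk (A i k ⊓ F.Z)) ω ω' ≠ 0 := by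
      by_contra hcon
      push Not at hcon
      apply hJ
      unfold lzf favg
      rw [Finset.sum_eq_zero (fun i _ => hcon i), zero_div]
    obtain ⟨i, h1⟩ := h1
    exact (Quotient.exact (amw_supp _ _ _ _ (ω, ω') h1).1).2

omit [DecidableEq ι] in
theorem not_uni_of_bad {Ω : Type} {g₀ V : Ω → Matrix ι ι ℝ} {τ₀ t : ℝ} (h : τ₀ < t) {n : ℕ} {p : Pt Ω n}
    (hb : bad g₀ V τ₀ n p) : ¬ Uni t (g₀ (lst n p)) (gm V n p) := by
  intro hu
  obtain ⟨x, h1, h2⟩ := hb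
  have h3 := hu (g₀ (lst n p) *ᵥ x) x
  have h4 : (g₀ (lst n p) *ᵥ x) ⬝ᵥ x = 1 := by
    rw [dotProduct_comm]
    exact h1
  rw [h4, h1] at h3
  linarith

open Classical in
/-- STAR: independent lazy walks from one point -/
theorem star_lazyf (ι : Type) [Fintype ι] [DecidableEq ι] (κ : Type) [Fintype κ] [Nonempty κ] (C e η : ℝ) (hC : 0 ≤ C)
    (he : 0 < e) (hη : 0 < η) :
    ∃ (N a : ℕ) (e₀ : ℝ), 1 ≤ N ∧ 0 < e₀ ∧ ∀ (S : Sp) (Φ : Gau S ι), Φ.C ≤ C → ∀ (A : κ → ∀ k, Setoid (S.F k).Ω) (σ : ℝ)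
      (g₀ V : ∀ k, (S.F k).Ω → Matrix ι ι ℝ), GDf Φ A σ e₀ g₀ V → ∀ i₀ : κ,
      (∀ k ω ω', (A i₀ k ⊓ (S.F k).Z) ω ω' → V k ω = V k ω') →
      ∀ᶠ k in UF, ∑ p, tm (spar N) (S.F k).μ (fun _ => lzf (S.F k) (fun i => A i k)) (N * a) p *
        e1_ind (¬ Uni (2 ^ (-e * (S.F k).n)) (g₀ k (gpt (N * a) 0 p)) (sg (V k) N a p)) ≤ η := by
  obtain ⟨N₁, e₀, he₀, hG⟩ := gram_lazyf ι κ C (e / 4) (η / 4) hC (by linarith) (by linarith)
  set N : ℕ := N₁ + 1 with hN
  have hN1 : 1 ≤ N := by omega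
  set M : ℝ := (Fintype.card ι : ℝ) with hM
  have hM0 : 0 ≤ M := Nat.cast_nonneg _
  have hκ := card_pos' κ
  have hκ1 : (1 : ℝ) ≤ Fintype.card κ := by
    have : 1 ≤ Fintype.card κ := Fintype.card_pos
    exact_mod_cast this
  set q : ℝ := (Fintype.card κ : ℝ)⁻¹ with hq
  have hq0 : 0 < q := by positivity
  have hq1 : q ≤ 1 := inv_le_one_of_one_le₀ hκ1
  have hqN : 0 < q ^ N := pow_pos hq0 N
  -- the number of walks
  obtain ⟨a, ha⟩ := exists_nat_ge (M * (2 + e) / (q ^ N * (e / 8)) / (η / 4) + 1)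
  have ha1 : (1 : ℝ) ≤ a := by
    have : 0 ≤ M * (2 + e) / (q ^ N * (e / 8)) / (η / 4) := by positivity
    linarith
  have ha0 : (0 : ℝ) < a := by linarith
  set Y : ℝ := ((N * a : ℕ) + 1) * (M * (C + 3 + e)) / (a * (q ^ N * (e / 8))) with hY
  have hY0 : 0 ≤ Y := by positivity
  set η' : ℝ := min 1 (η / 4 / (Y + 1)) with hη'
  have hη'0 : 0 < η' := lt_min one_pos (by positivity)
  have hη'1 : η' ≤ 1 := min_le_left _ _
  have hη'2 : Y * η' ≤ η / 4 := by
    have h1 : η' ≤ η / 4 / (Y + 1) := min_le_right _ _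
    have h2 := mul_le_mul_of_nonneg_left h1 hY0
    refine h2.trans ?_
    rw [mul_div_assoc', div_le_iff₀ (by linarith)]
    nlinarith
  refine ⟨N, a, e₀, hN1, he₀, fun S Φ hΦC A σ g₀ V hD i₀ hinv => ?_⟩
  obtain ⟨K₁, hK₁, hone⟩ := Φ.one
  have hn1 : ∀ᶠ k in UF, 16 / e ≤ (S.F k).n := S.lim.eventually (eventually_ge_atTop _)
  have hn2 : ∀ᶠ k in UF, ((a : ℝ) + 1) ≤ 2 ^ (S.F k).n := S.eventually_le_two_pow _
  have hn3 : ∀ᶠ k in UF, Real.logb 2 ((N : ℝ) + 1) / (e / 4) ≤ (S.F k).n := S.lim.eventually (eventually_ge_atTop _)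
  have hK1' := hK₁.eventually_le one_pos
  filter_upwards [hG S Φ hΦC A σ g₀ V hD, hD.cpd, hD.sml η' hη'0, hone, hK1', hn1, hn2, hn3] with
    k kG kcpd ksml kone kK n1 n2 n3
  have hn := (S.F k).pos
  have w := wd_of hD hC hΦC k kcpd
  set n : ℝ := (S.F k).n with hnd
  set F : FSp := S.F k with hF
  rw [div_le_iff₀ he] at n1
  rw [div_le_iff₀ (by linarith)] at n3
  -- parameters
  set τ : ℝ := 2 ^ (-e * n) with hτ
  set β : ℝ := 2 ^ (-(3 * e / 4) * n) with hβ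
  set τ₀ : ℝ := 2 ^ (-(e / 2) * n) with hτ₀
  have hτ0 : 0 < τ := by positivity
  have lβ : Real.logb 2 β = -(3 * e / 4) * n := by rw [hβ, Real.logb_rpow (by norm_num) (by norm_num)]
  have lτ : Real.logb 2 τ = -e * n := by rw [hτ, Real.logb_rpow (by norm_num) (by norm_num)]
  have hgain : Real.logb 2 β - Real.logb 2 τ - 2 = e / 4 * n - 2 := by rw [lβ, lτ]; ring
  have hgain' : e / 8 * n ≤ Real.logb 2 β - Real.logb 2 τ - 2 := by rw [hgain]; linarith
  have hen : 16 ≤ e * n := by linarith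
  have h2β : 2 * τ ≤ β := by
    have e1 : β = 2 ^ (e / 4 * n) * τ := by
      rw [hβ, hτ, ← Real.rpow_add (by norm_num)]
      congr 1; ring
    have e2 : (2 : ℝ) ≤ 2 ^ (e / 4 * n) := by
      calc (2 : ℝ) = 2 ^ (1 : ℝ) := (Real.rpow_one 2).symm
        _ ≤ 2 ^ (e / 4 * n) := Real.rpow_le_rpow_of_exponent_le (by norm_num) (by linarith)
    rw [e1]
    exact mul_le_mul_of_nonneg_right e2 hτ0.le
  have hβτ : ((N : ℝ) + 1) * β ≤ τ₀ := by
    have e1 : τ₀ = 2 ^ (e / 4 * n) * β := by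
      rw [hβ, hτ₀, ← Real.rpow_add (by norm_num)]
      congr 1; ring
    rw [e1]
    apply mul_le_mul_of_nonneg_right _ (by positivity)
    have e2 : (0 : ℝ) < (N : ℝ) + 1 := by positivity
    rw [← Real.logb_le_iff_le_rpow (by norm_num) e2]
    linarith
  have hτt : τ₀ < 2 ^ (-(e / 4) * n) := by
    apply Real.rpow_lt_rpow_of_exponent_lt (by norm_num)
    linarith
  -- bad paths are rare
  have hPb : w.Pb τ₀ N ≤ η / 4 := by
    have h1 : w.Pb τ₀ N ≤ w.Pb τ₀ N₁ := w.Pb_anti τ₀ N₁ 1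
    refine h1.trans (le_trans ?_ kG)
    unfold WD.Pb lpbf
    apply Finset.sum_le_sum
    intro p _
    by_cases h0 : pm F.μ (fun _ => lzf F (fun i => A i k)) N₁ p = 0
    · rw [h0, zero_mul, zero_mul]
    apply mul_le_mul_of_nonneg_left _ (pm_nonneg (fun _ => w.sj) N₁ p)
    apply ind_mono
    intro hb
    have h2 := not_uni_of_bad hτt hb
    rw [gs_eq F _ (pm_supp (fun _ => w.sj) N₁ p h0)] at h2
    exact h2
  -- the exceptional points
  have hp0 : w.p0 (2 ^ n) ≤ η' := by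
    refine le_trans ?_ ksml
    rw [pb_eq_ind]
    unfold WD.p0
    apply Finset.sum_le_sum
    intro ω _
    by_cases h0 : F.μ ω = 0
    · rw [h0, zero_mul, zero_mul]
    apply mul_le_mul_of_nonneg_left _ (F.nn ω)
    apply ind_mono
    intro h1 h2
    apply h1
    rw [gs_eq F _ h0]
    refine h2.trans ?_
    apply Real.rpow_le_rpow_of_exponent_le (by norm_num)
    nlinarith
  have hs1 : ∀ ω, F.μ ω ≠ 0 → Φ.φ k ω (gs F (g₀ k) ω) ≤ 2 ^ ((C + 2) * n) := by
    intro ω hω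
    have h1 := (w.gp ω).mono' (w.cpd ω).1 (Cpd_one (ι := ι) (le_refl (1 : ℝ))).psd (c := 2 ^ ((C + 1) * n)) (by positivity)
      (fun x => by
        have h2 := (w.cpd ω).2.2 x
        have h3 : qf (1 : Matrix ι ι ℝ) x = x ⬝ᵥ x := by unfold qf; rw [Matrix.one_mulVec]
        rw [h3]
        exact h2)
    have h2 := kone ω hω
    have h3 : K₁ k ≤ 2 ^ (1 * n) := by linarith
    have h4 : (2 : ℝ) ^ ((C + 1) * n) * 2 ^ (1 * n) = 2 ^ ((C + 2) * n) := by
      rw [← Real.rpow_add (by norm_num)]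
      congr 1; ring
    have h5 := mul_le_mul_of_nonneg_left (h2.trans h3) (show (0 : ℝ) ≤ 2 ^ ((C + 1) * n) by positivity)
    linarith
  have hle : ∀ ω ω', q * jf F.μ (Quotient.mk (A i₀ k ⊓ F.Z)) ω ω' ≤ lzf F (fun i => A i k) ω ω' := by
    intro ω ω'
    have h1 := le_favg (J := fun i => jf F.μ (Quotient.mk (A i k ⊓ F.Z))) (fun i => (sj_jf F.nn _).nn) i₀ ω ω'
    have h2 := mul_le_mul_of_nonneg_left h1 hq0.le
    refine h2.trans (le_of_eq ?_)
    rw [hq, ← mul_assoc, inv_mul_cancel₀ hκ.ne', one_mul]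
    rfl
  have hinv' : ∀ ω ω', jf F.μ (Quotient.mk (A i₀ k ⊓ F.Z)) ω ω' ≠ 0 → V k ω = V k ω' := fun ω ω' h =>
    hinv k ω ω' (Quotient.exact (amw_supp _ _ _ _ (ω, ω') h).1)
  have hCn : (2 : ℝ) ^ n ≤ 2 ^ ((C + 2) * n) := by
    apply Real.rpow_le_rpow_of_exponent_le (by norm_num)
    nlinarith
  have hfin := w.star_fin hN1 (sj_jf F.nn (Quotient.mk (A i₀ k ⊓ F.Z))) hq0 hq1 hle hinv' hτ0 h2β hβτ hPb
    (by rw [hgain]; linarith) (s := 2 ^ n) (s₁ := 2 ^ ((C + 2) * n)) (by positivity) hCn hs1 a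
  -- the logarithms
  have hτ1 : τ ≤ 1 := by
    rw [hτ]
    apply Real.rpow_le_one_of_one_le_of_nonpos (by norm_num)
    linarith
  have l1 : Real.logb 2 (a * 2 ^ n + τ) - Real.logb 2 τ ≤ (2 + e) * n := by
    have e1 : (a : ℝ) * 2 ^ n + τ ≤ 2 ^ (2 * n) := by
      have e2 : (2 : ℝ) ^ (2 * n) = 2 ^ n * 2 ^ n := by
        rw [← Real.rpow_add (by norm_num)]
        congr 1; ring
      have e3 : (1 : ℝ) ≤ 2 ^ n := Real.one_le_rpow (by norm_num) hn.le
      rw [e2]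
      nlinarith
    have e2 := Real.logb_le_logb_of_le (b := 2) (by norm_num) (by positivity) e1
    rw [Real.logb_rpow (by norm_num) (by norm_num)] at e2
    rw [lτ]
    linarith
  have l2 : Real.logb 2 (a * 2 ^ ((C + 2) * n) + τ) - Real.logb 2 τ ≤ (C + 3 + e) * n := by
    have e1 : (a : ℝ) * 2 ^ ((C + 2) * n) + τ ≤ 2 ^ ((C + 3) * n) := by
      have e2 : (2 : ℝ) ^ ((C + 3) * n) = 2 ^ ((C + 2) * n) * 2 ^ n := by
        rw [← Real.rpow_add (by norm_num)]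
        congr 1; ring
      have e3 : (1 : ℝ) ≤ 2 ^ ((C + 2) * n) := Real.one_le_rpow (by norm_num) (by positivity)
      rw [e2]
      nlinarith
    have e2 := Real.logb_le_logb_of_le (b := 2) (by norm_num) (by positivity) e1
    rw [Real.logb_rpow (by norm_num) (by norm_num)] at e2
    rw [lτ]
    linarith
  -- the estimate
  have hSb : w.Sb N τ a ≤ η := by
    by_cases hneg : w.Sb N τ a - η / 4 ≤ 0
    · linarith
    push Not at hneg
    have h1 : a * (e / 8 * n * (q ^ N * (w.Sb N τ a - η / 4))) ≤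
        M * ((2 + e) * n) + ((N * a : ℕ) + 1) * η' * (M * ((C + 3 + e) * n)) := by
      have e1 : a * (e / 8 * n * (q ^ N * (w.Sb N τ a - η / 4))) ≤
          a * ((Real.logb 2 β - Real.logb 2 τ - 2) * (q ^ N * (w.Sb N τ a - η / 4))) := by
        apply mul_le_mul_of_nonneg_left _ ha0.le
        exact mul_le_mul_of_nonneg_right hgain' (by positivity)
      have e2 := mul_le_mul_of_nonneg_left l1 hM0
      have e3 : ((N * a : ℕ) + 1 : ℝ) * w.p0 (2 ^ n) * (M * (Real.logb 2 (a * 2 ^ ((C + 2) * n) + τ) - Real.logb 2 τ)) ≤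
          ((N * a : ℕ) + 1) * η' * (M * ((C + 3 + e) * n)) := by
        apply mul_le_mul (mul_le_mul_of_nonneg_left hp0 (by positivity)) (mul_le_mul_of_nonneg_left l2 hM0)
        · apply mul_nonneg hM0
          have : Real.logb 2 τ ≤ Real.logb 2 (a * 2 ^ ((C + 2) * n) + τ) :=
            Real.logb_le_logb_of_le (by norm_num) hτ0 (by
              have : (0 : ℝ) ≤ a * 2 ^ ((C + 2) * n) := by positivity
              linarith)
          linarith
        · positivity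
      linarith
    have h2 : w.Sb N τ a - η / 4 ≤ M * (2 + e) / (a * (q ^ N * (e / 8))) + Y * η' := by
      have e1 : 0 < a * (q ^ N * (e / 8)) * n := by positivity
      have e2 : a * (q ^ N * (e / 8)) * n * (w.Sb N τ a - η / 4) ≤
          a * (q ^ N * (e / 8)) * n * (M * (2 + e) / (a * (q ^ N * (e / 8))) + Y * η') := by
        have e3 : a * (q ^ N * (e / 8)) * n * (M * (2 + e) / (a * (q ^ N * (e / 8))) + Y * η') =
            M * ((2 + e) * n) + ((N * a : ℕ) + 1) * η' * (M * ((C + 3 + e) * n)) := by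
          rw [hY]
          field_simp
        rw [e3]
        linarith
      exact le_of_mul_le_mul_left e2 e1
    have h3 : M * (2 + e) / (a * (q ^ N * (e / 8))) ≤ η / 4 := by
      have e1 : M * (2 + e) / (a * (q ^ N * (e / 8))) = M * (2 + e) / (q ^ N * (e / 8)) / a := by
        field_simp
      rw [e1, div_le_iff₀ ha0]
      have e2 : M * (2 + e) / (q ^ N * (e / 8)) / (η / 4) ≤ a := by linarith
      rw [div_le_iff₀ (by linarith)] at e2
      linarith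
    linarith
  refine le_trans ?_ hSb
  unfold WD.Sb
  apply Finset.sum_le_sum
  intro p _
  by_cases h0 : tm (spar N) F.μ (fun _ => lzf F (fun i => A i k)) (N * a) p = 0
  · rw [h0, zero_mul, zero_mul]
  apply mul_le_mul_of_nonneg_left _ (tm_nonneg (fun _ => w.sj) _ p)
  apply ind_mono
  intro h1
  by_contra h2
  apply h1
  have h3 := tm_supp (fun _ => w.sj) (N * a) p h0 0
  rw [← gs_eq F (g₀ k) h3]
  apply uni_of (w.cpd _).pdM (sg_psd w.psdV a p)
  intro x hx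
  by_contra h4
  push Not at h4
  exact h2 ⟨x, hx, h4⟩

end

end Pool.Agent.Helper83.GR
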