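import Pool.Agent.Helper89.LX.Can

/-! Bounded walks see the exact hull (ns_notes_33c, sect. 1), part 1: reversible steps on a finite space, the
probability that a form is small along `K` steps, the penalised score and the inequality between two levels. -/

namespace Pool.Agent.Helper83.GR

open Finset Matrix Pool.Agent.Helper69.RK Pool.Agent.Helper31.EC Pool.Agent.Helper89.LX

noncomputable section

/-- a symmetric joint law with marginal `μ` -/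
structure SJ {Ω : Type} [Fintype Ω] (μ : Ω → ℝ) (J : Ω → Ω → ℝ) : Prop where
  nn : ∀ ω ω', 0 ≤ J ω ω'
  sym : ∀ ω ω', J ω ω' = J ω' ω
  row : ∀ ω, ∑ ω', J ω ω' = μ ω

/-- the transition operator -/
def tr {Ω : Type} [Fintype Ω] (μ : Ω → ℝ) (J : Ω → Ω → ℝ) (f : Ω → ℝ) (ω : Ω) : ℝ := (∑ ω', J ω ω' * f ω') / μ ω

section
variable {Ω : Type} [Fintype Ω] {μ : Ω → ℝ} {J : Ω → Ω → ℝ}

namespace SJ

variable (h : SJ μ J)
include h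

theorem mu_nonneg (ω : Ω) : 0 ≤ μ ω := by
  rw [← h.row]
  exact Finset.sum_nonneg fun ω' _ => h.nn ω ω'

theorem zero {ω : Ω} (h0 : μ ω = 0) (ω' : Ω) : J ω ω' = 0 := by
  have h1 := h.row ω
  rw [h0, Finset.sum_eq_zero_iff_of_nonneg (fun ω' _ => h.nn ω ω')] at h1
  exact h1 ω' (Finset.mem_univ _)

theorem supp {ω ω' : Ω} (hJ : J ω ω' ≠ 0) : μ ω ≠ 0 ∧ μ ω' ≠ 0 :=
  ⟨fun h0 => hJ (h.zero h0 ω'), fun h0 => hJ ((h.sym ω ω').trans (h.zero h0 ω))⟩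

theorem col (ω' : Ω) : ∑ ω, J ω ω' = μ ω' := by
  rw [← h.row]
  exact Finset.sum_congr rfl fun ω _ => h.sym ω ω'

theorem mu_tr (f : Ω → ℝ) (ω : Ω) : μ ω * tr μ J f ω = ∑ ω', J ω ω' * f ω' := by
  unfold tr
  by_cases h0 : μ ω = 0
  · rw [h0, zero_mul]
    symm
    apply Finset.sum_eq_zero
    intro ω' _
    rw [h.zero h0, zero_mul]
  · rw [mul_div_cancel₀ _ h0]

theorem tr_mono {f g : Ω → ℝ} (hfg : ∀ ω, f ω ≤ g ω) (ω : Ω) : tr μ J f ω ≤ tr μ J g ω := by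
  unfold tr
  apply div_le_div_of_nonneg_right _ (h.mu_nonneg ω)
  exact Finset.sum_le_sum fun ω' _ => mul_le_mul_of_nonneg_left (hfg ω') (h.nn ω ω')

theorem tr_nonneg {f : Ω → ℝ} (hf : ∀ ω, 0 ≤ f ω) (ω : Ω) : 0 ≤ tr μ J f ω :=
  div_nonneg (Finset.sum_nonneg fun ω' _ => mul_nonneg (h.nn ω ω') (hf ω')) (h.mu_nonneg ω)

theorem tr_const (c : ℝ) {ω : Ω} (h0 : μ ω ≠ 0) : tr μ J (fun _ => c) ω = c := by
  unfold tr
  rw [← Finset.sum_mul, h.row, mul_div_assoc, mul_comm, div_mul_cancel₀ _ h0]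

theorem tr_le_one {f : Ω → ℝ} (hf : ∀ ω, f ω ≤ 1) (ω : Ω) : tr μ J f ω ≤ 1 := by
  by_cases h0 : μ ω = 0
  · unfold tr
    rw [h0, div_zero]
    exact zero_le_one
  · rw [← h.tr_const 1 h0]
    exact h.tr_mono hf ω

end SJ

/-- success along `K` steps -/
def wk (μ : Ω → ℝ) (J : Ω → Ω → ℝ) (ok : Ω → ℝ) : ℕ → Ω → ℝ
  | 0 => ok
  | K + 1 => fun ω => ok ω * tr μ J (wk μ J ok K) ω

theorem wk_succ (ok : Ω → ℝ) (K : ℕ) (ω : Ω) : wk μ J ok (K + 1) ω = ok ω * tr μ J (wk μ J ok K) ω := rfl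

theorem wk_bd (h : SJ μ J) {ok : Ω → ℝ} (h0 : ∀ ω, 0 ≤ ok ω) (h1 : ∀ ω, ok ω ≤ 1) (K : ℕ) :
    ∀ ω, 0 ≤ wk μ J ok K ω ∧ wk μ J ok K ω ≤ 1 := by
  induction K with
  | zero => exact fun ω => ⟨h0 ω, h1 ω⟩
  | succ K ih =>
    intro ω
    rw [wk_succ]
    have a := h.tr_nonneg (fun ω => (ih ω).1) ω
    have b := h.tr_le_one (fun ω => (ih ω).2) ω
    exact ⟨mul_nonneg (h0 ω) a, mul_le_one₀ (h1 ω) a b⟩

theorem wk_anti (h : SJ μ J) {ok : Ω → ℝ} (h0 : ∀ ω, 0 ≤ ok ω) (h1 : ∀ ω, ok ω ≤ 1) (K : ℕ) :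
    ∀ ω, wk μ J ok (K + 1) ω ≤ wk μ J ok K ω := by
  induction K with
  | zero =>
    intro ω
    rw [wk_succ]
    have b := h.tr_le_one h1 ω
    exact mul_le_of_le_one_right (h0 ω) b
  | succ K ih =>
    intro ω
    rw [wk_succ, wk_succ]
    exact mul_le_mul_of_nonneg_left (h.tr_mono ih ω) (h0 ω)

theorem wk_anti_le (h : SJ μ J) {ok : Ω → ℝ} (h0 : ∀ ω, 0 ≤ ok ω) (h1 : ∀ ω, ok ω ≤ 1) {K L : ℕ} (hKL : K ≤ L) (ω : Ω) :
    wk μ J ok L ω ≤ wk μ J ok K ω := by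
  induction L, hKL using Nat.le_induction with
  | base => exact le_rfl
  | succ L _ ih => exact (wk_anti h h0 h1 L ω).trans ih

theorem wk_mono (h : SJ μ J) {ok ok' : Ω → ℝ} (h0 : ∀ ω, 0 ≤ ok ω) (h1 : ∀ ω, ok ω ≤ ok' ω) (h2 : ∀ ω, ok' ω ≤ 1)
    (K : ℕ) : ∀ ω, wk μ J ok K ω ≤ wk μ J ok' K ω := by
  induction K with
  | zero => exact h1
  | succ K ih =>
    intro ω
    rw [wk_succ, wk_succ]
    exact mul_le_mul (h1 ω) (h.tr_mono ih ω)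
      (h.tr_nonneg (fun ω => (wk_bd h h0 (fun ω => (h1 ω).trans (h2 ω)) K ω).1) ω) ((h0 ω).trans (h1 ω))

/-- failure probabilities add -/
theorem wk_union (h : SJ μ J) {o1 o2 o3 : Ω → ℝ} (a1 : ∀ ω, 0 ≤ o1 ω) (b1 : ∀ ω, o1 ω ≤ 1) (a2 : ∀ ω, 0 ≤ o2 ω)
    (b2 : ∀ ω, o2 ω ≤ 1) (a3 : ∀ ω, 0 ≤ o3 ω) (b3 : ∀ ω, o3 ω ≤ 1) (h3 : ∀ ω, o1 ω + o2 ω - 1 ≤ o3 ω) (K : ℕ) :
    ∀ ω, wk μ J o1 K ω + wk μ J o2 K ω - 1 ≤ wk μ J o3 K ω := by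
  induction K with
  | zero => exact h3
  | succ K ih =>
    intro ω
    rw [wk_succ, wk_succ, wk_succ]
    have t1 := h.tr_nonneg (fun ω => (wk_bd h a1 b1 K ω).1) ω
    have u1 := h.tr_le_one (fun ω => (wk_bd h a1 b1 K ω).2) ω
    have t2 := h.tr_nonneg (fun ω => (wk_bd h a2 b2 K ω).1) ω
    have u2 := h.tr_le_one (fun ω => (wk_bd h a2 b2 K ω).2) ω
    have t3 := h.tr_nonneg (fun ω => (wk_bd h a3 b3 K ω).1) ω
    have key : tr μ J (wk μ J o1 K) ω + tr μ J (wk μ J o2 K) ω - 1 ≤ tr μ J (wk μ J o3 K) ω := by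
      have e1 : tr μ J (fun ω => wk μ J o1 K ω + wk μ J o2 K ω - 1) ω ≤ tr μ J (wk μ J o3 K) ω := h.tr_mono ih ω
      have e2 : tr μ J (fun ω => wk μ J o1 K ω + wk μ J o2 K ω - 1) ω =
          tr μ J (wk μ J o1 K) ω + tr μ J (wk μ J o2 K) ω - tr μ J (fun _ => 1) ω := by
        unfold tr
        rw [← add_div, ← sub_div, ← Finset.sum_add_distrib, ← Finset.sum_sub_distrib]
        congr 1
        exact Finset.sum_congr rfl fun ω' _ => by ring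
      have e3 := h.tr_le_one (f := fun _ => 1) (fun _ => le_rfl) ω
      linarith
    set x := tr μ J (wk μ J o1 K) ω
    set y := tr μ J (wk μ J o2 K) ω
    set z := tr μ J (wk μ J o3 K) ω
    by_cases c1 : x + y - 1 ≤ 0
    · have e1 := mul_le_mul_of_nonneg_right (b1 ω) t1
      have e2 := mul_le_mul_of_nonneg_right (b2 ω) t2
      have e3 := mul_nonneg (a3 ω) t3
      linarith
    by_cases c2 : o1 ω + o2 ω - 1 ≤ 0
    · have e1 := mul_le_mul_of_nonneg_left u1 (a1 ω)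
      have e2 := mul_le_mul_of_nonneg_left u2 (a2 ω)
      have e3 := mul_nonneg (a3 ω) t3
      linarith
    push Not at c1 c2
    have e1 : (o1 ω + o2 ω - 1) * (x + y - 1) ≤ o3 ω * z := mul_le_mul (h3 ω) key c1.le (a3 ω)
    have e2 : 0 ≤ (1 - y) * (1 - o1 ω) := mul_nonneg (by linarith) (by linarith [b1 ω])
    have e3 : 0 ≤ (1 - x) * (1 - o2 ω) := mul_nonneg (by linarith) (by linarith [b2 ω])
    nlinarith

end

section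
variable {Ω : Type} [Fintype Ω] {μ : Ω → ℝ} {J : Ω → Ω → ℝ} {ι : Type} [Fintype ι] [DecidableEq ι]

/-- the form is small at the point -/
def okf (φ : Ω → Matrix ι ι ℝ → ℝ) (A : Matrix ι ι ℝ) (θ : ℝ) (ω : Ω) : ℝ := e1_ind (φ ω A ≤ θ)

theorem ind_le_one (p : Prop) : e1_ind p ≤ 1 := by
  by_cases hp : p
  · rw [e1_ind_pos hp]
  · rw [e1_ind_neg hp]; exact zero_le_one

theorem ind_mono {p q : Prop} (h : p → q) : e1_ind p ≤ e1_ind q := by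
  by_cases hp : p
  · rw [e1_ind_pos hp, e1_ind_pos (h hp)]
  · rw [e1_ind_neg hp]; exact ind_nonneg q

omit [Fintype Ω] [Fintype ι] [DecidableEq ι] in
theorem okf_nonneg (φ : Ω → Matrix ι ι ℝ → ℝ) (A : Matrix ι ι ℝ) (θ : ℝ) (ω : Ω) : 0 ≤ okf φ A θ ω := ind_nonneg _

omit [Fintype Ω] [Fintype ι] [DecidableEq ι] in
theorem okf_le_one (φ : Ω → Matrix ι ι ℝ → ℝ) (A : Matrix ι ι ℝ) (θ : ℝ) (ω : Ω) : okf φ A θ ω ≤ 1 := ind_le_one _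

/-- the penalised score of a form at a point -/
def jj (μ : Ω → ℝ) (J : Ω → Ω → ℝ) (φ : Ω → Matrix ι ι ℝ → ℝ) (K : ℕ) (Λ θ : ℝ) (ω : Ω) (A : Matrix ι ι ℝ) : ℝ :=
  Real.logb 2 A.det - Λ * (1 - wk μ J (okf φ A θ) K ω)

/-- the supremum over the forms below the cap -/
def js (μ : Ω → ℝ) (J : Ω → Ω → ℝ) (φ : Ω → Matrix ι ι ℝ → ℝ) (c : ℝ) (K : ℕ) (Λ θ : ℝ) (ω : Ω) : ℝ :=
  sSup {r | ∃ A : Matrix ι ι ℝ, Cpd c A ∧ r = jj μ J φ K Λ θ ω A}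

/-- the expected supremum -/
def Js (μ : Ω → ℝ) (J : Ω → Ω → ℝ) (φ : Ω → Matrix ι ι ℝ → ℝ) (c : ℝ) (K : ℕ) (Λ θ : ℝ) : ℝ :=
  ∑ ω, μ ω * js μ J φ c K Λ θ ω

variable {φ : Ω → Matrix ι ι ℝ → ℝ}

theorem jj_le (h : SJ μ J) {c : ℝ} (hc : 1 ≤ c) (K : ℕ) {Λ : ℝ} (hΛ : 0 ≤ Λ) (θ : ℝ) (ω : Ω) {A : Matrix ι ι ℝ}
    (hA : Cpd c A) : jj μ J φ K Λ θ ω A ≤ Fintype.card ι * Real.logb 2 c := by
  have h1 := logdet_le hc hA
  have h2 := (wk_bd h (okf_nonneg φ A θ) (okf_le_one φ A θ) K ω).2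
  unfold jj
  have h3 : 0 ≤ Λ * (1 - wk μ J (okf φ A θ) K ω) := mul_nonneg hΛ (by linarith)
  linarith

theorem js_bdd (h : SJ μ J) {c : ℝ} (hc : 1 ≤ c) (K : ℕ) {Λ : ℝ} (hΛ : 0 ≤ Λ) (θ : ℝ) (ω : Ω) :
    BddAbove {r | ∃ A : Matrix ι ι ℝ, Cpd c A ∧ r = jj μ J φ K Λ θ ω A} := by
  refine ⟨Fintype.card ι * Real.logb 2 c, ?_⟩
  rintro r ⟨A, hA, rfl⟩
  exact jj_le h hc K hΛ θ ω hA

theorem jj_le_js (h : SJ μ J) {c : ℝ} (hc : 1 ≤ c) (K : ℕ) {Λ : ℝ} (hΛ : 0 ≤ Λ) (θ : ℝ) (ω : Ω) {A : Matrix ι ι ℝ}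
    (hA : Cpd c A) : jj μ J φ K Λ θ ω A ≤ js μ J φ c K Λ θ ω :=
  le_csSup (js_bdd h hc K hΛ θ ω) ⟨A, hA, rfl⟩

theorem js_le_of {c : ℝ} (hc : 1 ≤ c) {K : ℕ} {Λ θ r : ℝ} {ω : Ω}
    (hr : ∀ A : Matrix ι ι ℝ, Cpd c A → jj μ J φ K Λ θ ω A ≤ r) : js μ J φ c K Λ θ ω ≤ r := by
  unfold js
  have hne : {r | ∃ A : Matrix ι ι ℝ, Cpd c A ∧ r = jj μ J φ K Λ θ ω A}.Nonempty := ⟨_, 1, Cpd_one hc, rfl⟩
  apply csSup_le hne
  rintro r' ⟨A, hA, rfl⟩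
  exact hr A hA

theorem js_le (h : SJ μ J) {c : ℝ} (hc : 1 ≤ c) (K : ℕ) {Λ : ℝ} (hΛ : 0 ≤ Λ) (θ : ℝ) (ω : Ω) :
    js μ J φ c K Λ θ ω ≤ Fintype.card ι * Real.logb 2 c :=
  js_le_of hc fun _ hA => jj_le h hc K hΛ θ ω hA

theorem js_near {c : ℝ} (hc : 1 ≤ c) (K : ℕ) (Λ θ : ℝ) (ω : Ω) {δ : ℝ} (hδ : 0 < δ) :
    ∃ A : Matrix ι ι ℝ, Cpd c A ∧ js μ J φ c K Λ θ ω - δ ≤ jj μ J φ K Λ θ ω A := by
  obtain ⟨r, ⟨A, hA, rfl⟩, hr⟩ := exists_lt_of_lt_csSup (s := {r | ∃ A : Matrix ι ι ℝ, Cpd c A ∧ r = jj μ J φ K Λ θ ω A})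
    ⟨_, 1, Cpd_one hc, rfl⟩ (show js μ J φ c K Λ θ ω - δ < js μ J φ c K Λ θ ω by linarith)
  exact ⟨A, hA, hr.le⟩

/-- the identity form is always small -/
theorem wk_one_of (h : SJ μ J) {ok : Ω → ℝ} (hok : ∀ ω, μ ω ≠ 0 → ok ω = 1) (K : ℕ) :
    ∀ ω, μ ω ≠ 0 → wk μ J ok K ω = 1 := by
  induction K with
  | zero => exact hok
  | succ K ih =>
    intro ω hω
    rw [wk_succ, hok ω hω, one_mul, ← h.tr_const 1 hω]
    unfold tr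
    congr 1
    apply Finset.sum_congr rfl
    intro ω' _
    by_cases h0 : J ω ω' = 0
    · rw [h0, zero_mul, zero_mul]
    · rw [ih ω' (h.supp h0).2]

theorem js_nonneg (h : SJ μ J) {c : ℝ} (hc : 1 ≤ c) (K : ℕ) {Λ : ℝ} (hΛ : 0 ≤ Λ) {θ : ℝ}
    (h1 : ∀ ω, μ ω ≠ 0 → φ ω 1 ≤ θ) (ω : Ω) (hω : μ ω ≠ 0) : 0 ≤ js μ J φ c K Λ θ ω := by
  refine le_trans ?_ (jj_le_js h hc K hΛ θ ω (Cpd_one hc))
  unfold jj
  rw [wk_one_of h (ok := okf φ 1 θ) (fun ω hω => e1_ind_pos (h1 ω hω)) K ω hω, Matrix.det_one, Real.logb_one]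
  simp

theorem Js_nonneg (h : SJ μ J) {c : ℝ} (hc : 1 ≤ c) (K : ℕ) {Λ : ℝ} (hΛ : 0 ≤ Λ) {θ : ℝ}
    (h1 : ∀ ω, μ ω ≠ 0 → φ ω 1 ≤ θ) : 0 ≤ Js μ J φ c K Λ θ := by
  unfold Js
  apply Finset.sum_nonneg
  intro ω _
  by_cases h0 : μ ω = 0
  · rw [h0, zero_mul]
  · exact mul_nonneg (h.mu_nonneg ω) (js_nonneg h hc K hΛ h1 ω h0)

theorem Js_le (h : SJ μ J) (hm : ∑ ω, μ ω = 1) {c : ℝ} (hc : 1 ≤ c) (K : ℕ) {Λ : ℝ} (hΛ : 0 ≤ Λ) (θ : ℝ) :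
    Js μ J φ c K Λ θ ≤ Fintype.card ι * Real.logb 2 c := by
  unfold Js
  calc ∑ ω, μ ω * js μ J φ c K Λ θ ω ≤ ∑ ω, μ ω * (Fintype.card ι * Real.logb 2 c) :=
        Finset.sum_le_sum fun ω _ => mul_le_mul_of_nonneg_left (js_le h hc K hΛ θ ω) (h.mu_nonneg ω)
    _ = _ := by rw [← Finset.sum_mul, hm, one_mul]

/-- longer walks, larger penalties, smaller thresholds and caps -/
theorem Js_mono (h : SJ μ J) {c c' : ℝ} (hc' : 1 ≤ c') (hcc : c' ≤ c) {K K' : ℕ} (hK : K ≤ K') {Λ Λ' : ℝ} (hΛ : 0 ≤ Λ)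
    (hΛΛ : Λ ≤ Λ') {θ θ' : ℝ} (hθ : θ' ≤ θ) : Js μ J φ c' K' Λ' θ' ≤ Js μ J φ c K Λ θ := by
  unfold Js
  apply Finset.sum_le_sum
  intro ω _
  apply mul_le_mul_of_nonneg_left _ (h.mu_nonneg ω)
  apply js_le_of hc'
  intro A hA
  have hA' : Cpd c A := ⟨hA.1, hA.2.1, fun x => (hA.2.2 x).trans
    (mul_le_mul_of_nonneg_right hcc (dot_self_nonneg x))⟩
  refine le_trans ?_ (jj_le_js h (hc'.trans hcc) K hΛ θ ω hA')
  unfold jj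
  have e1 : wk μ J (okf φ A θ') K' ω ≤ wk μ J (okf φ A θ) K ω :=
    (wk_anti_le h (okf_nonneg φ A θ') (okf_le_one φ A θ') hK ω).trans
      (wk_mono h (okf_nonneg φ A θ') (fun ω => ind_mono (fun a => a.trans hθ)) (okf_le_one φ A θ) K ω)
  have e2 := (wk_bd h (okf_nonneg φ A θ') (okf_le_one φ A θ') K' ω).2
  have e3 : Λ * (1 - wk μ J (okf φ A θ) K ω) ≤ Λ' * (1 - wk μ J (okf φ A θ') K' ω) :=
    mul_le_mul hΛΛ (by linarith) (by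
      have := (wk_bd h (okf_nonneg φ A θ) (okf_le_one φ A θ) K ω).2
      linarith) (hΛ.trans hΛΛ)
  linarith

/-- THE INEQUALITY BETWEEN TWO LEVELS: a nearly optimal form changes little along a step -/
theorem step_ineq (h : SJ μ J) (hadd : ∀ ω A B, φ ω (A + B) = φ ω A + φ ω B) {c : ℝ} (hc : 1 ≤ c) (K : ℕ) {Λ : ℝ}
    (hΛ : 0 ≤ Λ) (θ δ : ℝ) (hm : ∑ ω, μ ω = 1) (G : Ω → Matrix ι ι ℝ) (hG : ∀ ω, Cpd c (G ω))
    (hG' : ∀ ω, js μ J φ c (K + 1) (2 * Λ) θ ω - δ ≤ jj μ J φ (K + 1) (2 * Λ) θ ω (G ω)) :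
    ∑ ω, ∑ ω', J ω ω' * (Real.logb 2 (G ω + G ω').det - Real.logb 2 (G ω').det) ≤
      Js μ J φ (2 * c) K Λ (2 * θ) - Js μ J φ c (K + 1) (2 * Λ) θ + δ := by
  -- the sum as a form at the second point
  have h1 : ∑ ω, ∑ ω', J ω ω' * jj μ J φ K Λ (2 * θ) ω' (G ω + G ω') ≤ Js μ J φ (2 * c) K Λ (2 * θ) := by
    rw [Finset.sum_comm]
    unfold Js
    apply Finset.sum_le_sum
    intro ω' _
    rw [← h.col ω', Finset.sum_mul]
    apply Finset.sum_le_sum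
    intro ω _
    apply mul_le_mul_of_nonneg_left _ (h.nn ω ω')
    apply jj_le_js h (by linarith) K hΛ
    refine ⟨(hG ω).1.add (hG ω').1, fun x => ?_, fun x => ?_⟩
    · rw [qf_add]
      have := (hG ω).2.1 x
      have := (hG ω').psd.2 x
      linarith
    · rw [qf_add]
      have := (hG ω).2.2 x
      have := (hG ω').2.2 x
      linarith
  -- failures add
  have h2 : ∀ ω ω', (1 - wk μ J (okf φ (G ω + G ω') (2 * θ)) K ω') ≤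
      (1 - wk μ J (okf φ (G ω) θ) K ω') + (1 - wk μ J (okf φ (G ω') θ) K ω') := by
    intro ω ω'
    have := wk_union h (okf_nonneg φ (G ω) θ) (okf_le_one φ (G ω) θ) (okf_nonneg φ (G ω') θ) (okf_le_one φ (G ω') θ)
      (okf_nonneg φ (G ω + G ω') (2 * θ)) (okf_le_one φ (G ω + G ω') (2 * θ)) (fun x => by
        unfold okf
        by_cases a : φ x (G ω) ≤ θ
        · by_cases b : φ x (G ω') ≤ θ
          · rw [e1_ind_pos a, e1_ind_pos b, e1_ind_pos (by rw [hadd]; linarith)]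
            norm_num
          · rw [e1_ind_pos a, e1_ind_neg b]
            have := ind_nonneg (φ x (G ω + G ω') ≤ 2 * θ)
            linarith
        · rw [e1_ind_neg a]
          have := ind_nonneg (φ x (G ω + G ω') ≤ 2 * θ)
          have := ind_le_one (φ x (G ω') ≤ θ)
          linarith) K ω'
    linarith
  -- the first failure is a failure one step earlier
  have h3 : ∀ ω, ∑ ω', J ω ω' * (1 - wk μ J (okf φ (G ω) θ) K ω') ≤ μ ω * (1 - wk μ J (okf φ (G ω) θ) (K + 1) ω) := by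
    intro ω
    have e1 : ∑ ω', J ω ω' * (1 - wk μ J (okf φ (G ω) θ) K ω') =
        μ ω - μ ω * tr μ J (wk μ J (okf φ (G ω) θ) K) ω := by
      rw [h.mu_tr, ← h.row ω, ← Finset.sum_sub_distrib]
      exact Finset.sum_congr rfl fun ω' _ => by ring
    rw [e1, wk_succ]
    have e2 : okf φ (G ω) θ ω * tr μ J (wk μ J (okf φ (G ω) θ) K) ω ≤ tr μ J (wk μ J (okf φ (G ω) θ) K) ω :=
      mul_le_of_le_one_left (h.tr_nonneg (fun ω' => (wk_bd h (okf_nonneg φ (G ω) θ) (okf_le_one φ (G ω) θ) K ω').1) ω)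
        (okf_le_one φ (G ω) θ ω)
    have e3 := mul_le_mul_of_nonneg_left e2 (h.mu_nonneg ω)
    linarith
  have h4 : ∀ ω', ∑ ω, J ω ω' * (1 - wk μ J (okf φ (G ω') θ) K ω') ≤ μ ω' * (1 - wk μ J (okf φ (G ω') θ) (K + 1) ω') := by
    intro ω'
    rw [← Finset.sum_mul, h.col]
    apply mul_le_mul_of_nonneg_left _ (h.mu_nonneg ω')
    have := wk_anti h (okf_nonneg φ (G ω') θ) (okf_le_one φ (G ω') θ) K ω'
    linarith
  -- summation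
  have h5 : ∑ ω, ∑ ω', J ω ω' * (Real.logb 2 (G ω + G ω').det) - 2 * Λ * ∑ ω, μ ω * (1 - wk μ J (okf φ (G ω) θ) (K + 1) ω) ≤
      ∑ ω, ∑ ω', J ω ω' * jj μ J φ K Λ (2 * θ) ω' (G ω + G ω') := by
    have e1 : ∑ ω, ∑ ω', J ω ω' * jj μ J φ K Λ (2 * θ) ω' (G ω + G ω') =
        ∑ ω, ∑ ω', J ω ω' * (Real.logb 2 (G ω + G ω').det) -
        Λ * ∑ ω, ∑ ω', J ω ω' * (1 - wk μ J (okf φ (G ω + G ω') (2 * θ)) K ω') := by
      rw [Finset.mul_sum, ← Finset.sum_sub_distrib]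
      apply Finset.sum_congr rfl
      intro ω _
      rw [Finset.mul_sum, ← Finset.sum_sub_distrib]
      apply Finset.sum_congr rfl
      intro ω' _
      unfold jj
      ring
    rw [e1]
    have e2 : ∑ ω, ∑ ω', J ω ω' * (1 - wk μ J (okf φ (G ω + G ω') (2 * θ)) K ω') ≤
        ∑ ω, ∑ ω', J ω ω' * (1 - wk μ J (okf φ (G ω) θ) K ω') + ∑ ω, ∑ ω', J ω ω' * (1 - wk μ J (okf φ (G ω') θ) K ω') := by
      rw [← Finset.sum_add_distrib]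
      apply Finset.sum_le_sum
      intro ω _
      rw [← Finset.sum_add_distrib]
      apply Finset.sum_le_sum
      intro ω' _
      rw [← mul_add]
      exact mul_le_mul_of_nonneg_left (h2 ω ω') (h.nn ω ω')
    have e3 : ∑ ω, ∑ ω', J ω ω' * (1 - wk μ J (okf φ (G ω) θ) K ω') ≤
        ∑ ω, μ ω * (1 - wk μ J (okf φ (G ω) θ) (K + 1) ω) := Finset.sum_le_sum fun ω _ => h3 ω
    have e4 : ∑ ω, ∑ ω', J ω ω' * (1 - wk μ J (okf φ (G ω') θ) K ω') ≤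
        ∑ ω, μ ω * (1 - wk μ J (okf φ (G ω) θ) (K + 1) ω) := by
      rw [Finset.sum_comm]
      exact Finset.sum_le_sum fun ω' _ => h4 ω'
    have e5 := mul_le_mul_of_nonneg_left (e2.trans (add_le_add e3 e4)) hΛ
    linarith
  have h6 : Js μ J φ c (K + 1) (2 * Λ) θ - δ ≤
      ∑ ω, μ ω * Real.logb 2 (G ω).det - 2 * Λ * ∑ ω, μ ω * (1 - wk μ J (okf φ (G ω) θ) (K + 1) ω) := by
    have e1 : ∑ ω, μ ω * (js μ J φ c (K + 1) (2 * Λ) θ ω - δ) ≤ ∑ ω, μ ω * jj μ J φ (K + 1) (2 * Λ) θ ω (G ω) :=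
      Finset.sum_le_sum fun ω _ => mul_le_mul_of_nonneg_left (hG' ω) (h.mu_nonneg ω)
    have e2 : ∑ ω, μ ω * (js μ J φ c (K + 1) (2 * Λ) θ ω - δ) = Js μ J φ c (K + 1) (2 * Λ) θ - δ := by
      unfold Js
      simp_rw [mul_sub]
      rw [Finset.sum_sub_distrib, ← Finset.sum_mul, hm, one_mul]
    have e3 : ∑ ω, μ ω * jj μ J φ (K + 1) (2 * Λ) θ ω (G ω) =
        ∑ ω, μ ω * Real.logb 2 (G ω).det - 2 * Λ * ∑ ω, μ ω * (1 - wk μ J (okf φ (G ω) θ) (K + 1) ω) := by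
      rw [Finset.mul_sum, ← Finset.sum_sub_distrib]
      apply Finset.sum_congr rfl
      intro ω _
      unfold jj
      ring
    linarith
  have h7 : ∑ ω, ∑ ω', J ω ω' * (Real.logb 2 (G ω + G ω').det - Real.logb 2 (G ω').det) =
      ∑ ω, ∑ ω', J ω ω' * (Real.logb 2 (G ω + G ω').det) - ∑ ω, μ ω * Real.logb 2 (G ω).det := by
    have e1 : ∑ ω, μ ω * Real.logb 2 (G ω).det = ∑ ω, ∑ ω', J ω ω' * Real.logb 2 (G ω').det := by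
      rw [Finset.sum_comm]
      apply Finset.sum_congr rfl
      intro ω' _
      rw [← Finset.sum_mul, h.col]
    rw [e1, ← Finset.sum_sub_distrib]
    apply Finset.sum_congr rfl
    intro ω _
    rw [← Finset.sum_sub_distrib]
    exact Finset.sum_congr rfl fun ω' _ => by ring
  linarith

end

end

end Pool.Agent.Helper83.GR
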