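import Pool.Agent.Helper83.GR.GFin

/-! Bounded walks see the exact hull: trees of copies, laws of trees, blocks which start at the root. -/

namespace Pool.Agent.Helper83.GR

open Finset Matrix Pool.Agent.Helper69.RK Pool.Agent.Helper31.EC Pool.Agent.Helper40.EL Pool.Agent.Helper89.LX

noncomputable section

/-- the `i`-th point of a path (the last one if `i` is too large) -/
def gpt {Ω : Type} : ∀ n, ℕ → Pt Ω n → Ω
  | 0 => fun _ p => p
  | n + 1 => fun i p => if i ≤ n then gpt n i p.1 else p.2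

theorem gpt_self {Ω : Type} (n : ℕ) (p : Pt Ω n) : gpt n n p = lst n p := by
  cases n with
  | zero => rfl
  | succ n =>
    show (if n + 1 ≤ n then gpt n (n + 1) p.1 else p.2) = p.2
    rw [if_neg (by omega)]

theorem gpt_pre {Ω : Type} (m K i : ℕ) (hi : i ≤ m) : ∀ q : Pt Ω (m + K), gpt (m + K) i q = gpt m i (pre m K q) := by
  induction K with
  | zero => exact fun q => rfl
  | succ K ih =>
    intro q
    show (if i ≤ m + K then gpt (m + K) i q.1 else q.2) = gpt m i (pre m K q.1)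
    rw [if_pos (by omega)]
    exact ih q.1

section
variable {Ω : Type} [Fintype Ω] (par : ℕ → ℕ) (μ : Ω → ℝ) (J : ℕ → Ω → Ω → ℝ)

/-- the law of a tree: the point `n + 1` is a step from the point `par n` -/
def tm : ∀ n, Pt Ω n → ℝ
  | 0 => μ
  | n + 1 => fun p => tm n p.1 * (J n (gpt n (par n) p.1) p.2 / μ (gpt n (par n) p.1))

variable {par μ J}

theorem tm_nonneg (h : ∀ n, SJ μ (J n)) (n : ℕ) : ∀ p, 0 ≤ tm par μ J n p := by
  induction n with
  | zero => exact (h 0).mu_nonneg
  | succ n ih => exact fun p => mul_nonneg (ih p.1) (div_nonneg ((h n).nn _ _) ((h n).mu_nonneg _))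

theorem sum_tm_succ (n : ℕ) (H : Pt Ω (n + 1) → ℝ) : ∑ p, tm par μ J (n + 1) p * H p =
    ∑ p : Pt Ω n, tm par μ J n p * tr μ (J n) (fun ω => H (p, ω)) (gpt n (par n) p) := by
  have h1 : ∑ p, tm par μ J (n + 1) p * H p = ∑ p : Pt Ω n, ∑ ω : Ω, tm par μ J (n + 1) (p, ω) * H (p, ω) :=
    Fintype.sum_prod_type (fun p : Pt Ω n × Ω => tm par μ J (n + 1) p * H p)
  rw [h1]
  apply Finset.sum_congr rfl
  intro p _
  unfold tr
  rw [← mul_div_assoc, Finset.mul_sum, Finset.sum_div]
  apply Finset.sum_congr rfl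
  intro ω _
  show tm par μ J n p * (J n (gpt n (par n) p) ω / μ (gpt n (par n) p)) * H (p, ω) = _
  ring

omit [Fintype Ω] in
theorem tm_pos_pre {n : ℕ} {p : Pt Ω (n + 1)} (hp : tm par μ J (n + 1) p ≠ 0) :
    tm par μ J n p.1 ≠ 0 ∧ J n (gpt n (par n) p.1) p.2 ≠ 0 := by
  constructor
  · intro h0
    apply hp
    show tm par μ J n p.1 * _ = 0
    rw [h0, zero_mul]
  · intro h0
    apply hp
    show tm par μ J n p.1 * (J n (gpt n (par n) p.1) p.2 / _) = 0
    rw [h0, zero_div, mul_zero]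

/-- points of a tree of positive probability -/
theorem tm_supp (h : ∀ n, SJ μ (J n)) (n : ℕ) : ∀ p : Pt Ω n, tm par μ J n p ≠ 0 → ∀ i, μ (gpt n i p) ≠ 0 := by
  induction n with
  | zero => exact fun p hp i => hp
  | succ n ih =>
    intro p hp i
    obtain ⟨h1, h2⟩ := tm_pos_pre hp
    show μ (if i ≤ n then gpt n i p.1 else p.2) ≠ 0
    split_ifs
    · exact ih p.1 h1 i
    · exact ((h n).supp h2).2

/-- every point has the law `μ` -/
theorem sum_tm_gpt (h : ∀ n, SJ μ (J n)) (n : ℕ) : ∀ (i : ℕ) (f : Ω → ℝ),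
    ∑ p, tm par μ J n p * f (gpt n i p) = ∑ ω, μ ω * f ω := by
  induction n with
  | zero => exact fun i f => rfl
  | succ n ih =>
    intro i f
    rw [sum_tm_succ]
    by_cases hi : i ≤ n
    · rw [← ih i f]
      apply Finset.sum_congr rfl
      intro p _
      by_cases h0 : tm par μ J n p = 0
      · rw [h0, zero_mul, zero_mul]
      congr 1
      have h1 : (fun ω => f (gpt (n + 1) i ((p, ω) : Pt Ω (n + 1)))) = fun _ => f (gpt n i p) := by
        funext ω
        show f (if i ≤ n then gpt n i p else ω) = _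
        rw [if_pos hi]
      rw [h1]
      exact (h n).tr_const _ (tm_supp h n p h0 _)
    · have h1 : ∀ p : Pt Ω n, (fun ω => f (gpt (n + 1) i ((p, ω) : Pt Ω (n + 1)))) = f := by
        intro p
        funext ω
        show f (if i ≤ n then gpt n i p else ω) = _
        rw [if_neg hi]
      simp_rw [h1]
      rw [ih (par n) (tr μ (J n) f)]
      have h2 : ∑ ω, μ ω * tr μ (J n) f ω = ∑ ω, ∑ ω', J n ω ω' * f ω' :=
        Finset.sum_congr rfl fun ω _ => (h n).mu_tr f ω
      rw [h2, Finset.sum_comm]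
      apply Finset.sum_congr rfl
      intro ω' _
      rw [← Finset.sum_mul, (h n).col]

theorem sum_tm (h : ∀ n, SJ μ (J n)) (hm : ∑ ω, μ ω = 1) (n : ℕ) : ∑ p, tm par μ J n p = 1 := by
  have h1 := sum_tm_gpt (par := par) h n 0 (fun _ => 1)
  simp only [mul_one] at h1
  rw [h1, hm]

/-- the first part of a tree -/
theorem sum_tm_pre (h : ∀ n, SJ μ (J n)) (m K : ℕ) : ∀ H : Pt Ω m → ℝ,
    ∑ q : Pt Ω (m + K), tm par μ J (m + K) q * H (pre m K q) = ∑ p, tm par μ J m p * H p := by
  induction K with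
  | zero => exact fun H => rfl
  | succ K ih =>
    intro H
    have h1 := sum_tm_succ (par := par) (μ := μ) (J := J) (m + K) (fun q => H (pre m (K + 1) q))
    refine h1.trans ?_
    rw [← ih H]
    apply Finset.sum_congr rfl
    intro q _
    by_cases h0 : tm par μ J (m + K) q = 0
    · rw [h0, zero_mul, zero_mul]
    · have h2 : tr μ (J (m + K)) (fun ω => H (pre m (K + 1) (q, ω))) (gpt (m + K) (par (m + K)) q) = H (pre m K q) :=
        (h (m + K)).tr_const (H (pre m K q)) (tm_supp h _ q h0 _)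
      rw [h2]

theorem tm_pre (m K : ℕ) : ∀ q : Pt Ω (m + K), tm par μ J (m + K) q ≠ 0 → tm par μ J m (pre m K q) ≠ 0 := by
  induction K with
  | zero => exact fun q h => h
  | succ K ih => exact fun q hq => ih q.1 (tm_pos_pre hq).1

/-- a function which is constant along steps is constant along trees -/
theorem tm_const {β : Type} (g : Ω → β) (hg : ∀ n ω ω', J n ω ω' ≠ 0 → g ω = g ω') (n : ℕ) :
    ∀ p : Pt Ω n, tm par μ J n p ≠ 0 → ∀ i, g (gpt n i p) = g (gpt n 0 p) := by
  induction n with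
  | zero => exact fun p _ i => rfl
  | succ n ih =>
    intro p hp i
    obtain ⟨h1, h2⟩ := tm_pos_pre hp
    have h3 : gpt (n + 1) 0 p = gpt n 0 p.1 := by
      show (if 0 ≤ n then gpt n 0 p.1 else p.2) = _
      rw [if_pos (Nat.zero_le n)]
    rw [h3]
    show g (if i ≤ n then gpt n i p.1 else p.2) = _
    split_ifs
    · exact ih p.1 h1 i
    · rw [← ih p.1 h1 (par n)]
      exact (hg n _ _ h2).symm

/-- probability that some point is exceptional -/
theorem sum_tm_ex (h : ∀ n, SJ μ (J n)) (P : Ω → Prop) (n : ℕ) :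
    ∑ p, tm par μ J n p * e1_ind (∃ i, i ≤ n ∧ P (gpt n i p)) ≤ (n + 1) * ∑ ω, μ ω * e1_ind (P ω) := by
  have h1 : ∑ p, tm par μ J n p * e1_ind (∃ i, i ≤ n ∧ P (gpt n i p)) ≤
      ∑ p, ∑ i ∈ Finset.range (n + 1), tm par μ J n p * e1_ind (P (gpt n i p)) := by
    apply Finset.sum_le_sum
    intro p _
    rw [← Finset.mul_sum]
    apply mul_le_mul_of_nonneg_left _ (tm_nonneg h n p)
    have h0 : ∀ i ∈ Finset.range (n + 1), 0 ≤ e1_ind (P (gpt n i p)) := fun i _ => ind_nonneg _
    by_cases hc : ∃ i, i ≤ n ∧ P (gpt n i p)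
    · rw [e1_ind_pos hc]
      obtain ⟨i, h2, h3⟩ := hc
      have h4 := Finset.single_le_sum h0 (Finset.mem_range.mpr (Nat.lt_succ_of_le h2))
      rw [e1_ind_pos h3] at h4
      exact h4
    · rw [e1_ind_neg hc]
      exact Finset.sum_nonneg h0
  refine h1.trans (le_of_eq ?_)
  rw [Finset.sum_comm]
  have h2 : ∀ i ∈ Finset.range (n + 1), ∑ p, tm par μ J n p * e1_ind (P (gpt n i p)) = ∑ ω, μ ω * e1_ind (P ω) :=
    fun i _ => sum_tm_gpt h n i (fun ω => e1_ind (P ω))
  rw [Finset.sum_congr rfl h2, Finset.sum_const, Finset.card_range, nsmul_eq_mul]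
  push_cast
  ring

end

/-! ### blocks which start at the root -/

section
variable {Ω : Type} [Fintype Ω] {par : ℕ → ℕ} {μ : Ω → ℝ} {J : Ω → Ω → ℝ}

/-- the block of the last `K` steps starts at the root -/
def Blk (par : ℕ → ℕ) (m K : ℕ) : Prop := ∀ j, j < K → par (m + j) = if j = 0 then 0 else m + j

/-- the root and the last `K` points as a path -/
def blk {Ω : Type} (m : ℕ) : ∀ K, Pt Ω (m + K) → Pt Ω K
  | 0 => fun p => gpt m 0 p
  | K + 1 => fun q => (blk m K q.1, q.2)

omit [Fintype Ω] in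
theorem blk_lst {m K : ℕ} (hb : Blk par m (K + 1)) (q : Pt Ω (m + K)) :
    gpt (m + K) (par (m + K)) q = lst K (blk m K q) := by
  have h1 := hb K (Nat.lt_succ_self K)
  cases K with
  | zero =>
    rw [if_pos rfl] at h1
    rw [h1]
    rfl
  | succ K =>
    rw [if_neg (by omega)] at h1
    rw [h1]
    exact gpt_self (m + K + 1) q

omit [Fintype Ω] in
theorem blk_root {m : ℕ} (K : ℕ) : ∀ q : Pt Ω (m + K), gpt K 0 (blk m K q) = gpt (m + K) 0 q := by
  induction K with
  | zero => exact fun q => rfl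
  | succ K ih =>
    intro q
    show (if 0 ≤ K then gpt K 0 (blk m K q.1) else q.2) = (if 0 ≤ m + K then gpt (m + K) 0 q.1 else q.2)
    rw [if_pos (Nat.zero_le _), if_pos (Nat.zero_le _)]
    exact ih q.1

theorem Blk.prev {m K : ℕ} (hb : Blk par m (K + 1)) : Blk par m K := fun j hj => hb j (by omega)

/-- the law of the block -/
theorem sum_blk (h : SJ μ J) (m K : ℕ) (hb : Blk par m K) : ∀ H : Pt Ω K → ℝ,
    ∑ q : Pt Ω (m + K), tm par μ (fun _ => J) (m + K) q * H (blk m K q) = ∑ p, pm μ (fun _ => J) K p * H p := by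
  induction K with
  | zero =>
    intro H
    exact sum_tm_gpt (par := par) (fun _ => h) m 0 H
  | succ K ih =>
    intro H
    have h1 := sum_tm_succ (par := par) (μ := μ) (J := fun _ => J) (m + K) (fun q => H (blk m (K + 1) q))
    refine h1.trans ?_
    have h2 := sum_pm_succ (μ := μ) (J := fun _ => J) K H
    rw [h2, ← ih hb.prev]
    apply Finset.sum_congr rfl
    intro q _
    rw [blk_lst hb]
    rfl

/-- success of the root and of the last `K` points -/
def scb (m : ℕ) (okp : Pt Ω m → Ω → ℝ) : ∀ K, Pt Ω (m + K) → ℝ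
  | 0 => fun p => okp p (gpt m 0 p)
  | K + 1 => fun q => scb m okp K q.1 * okp (pre m K q.1) q.2

/-- the end of the block -/
theorem block_end (m K : ℕ) (hb : Blk par m K) : ∀ u : Pt Ω m → Ω → ℝ,
    ∑ q : Pt Ω (m + K), tm par μ (fun _ => J) (m + K) q * u (pre m K q) (lst K (blk m K q)) =
      ∑ p : Pt Ω m, tm par μ (fun _ => J) m p * ((tr μ J)^[K] (u p)) (gpt m 0 p) := by
  induction K with
  | zero => exact fun u => rfl
  | succ K ih =>
    intro u
    have h1 := sum_tm_succ (par := par) (μ := μ) (J := fun _ => J) (m + K)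
      (fun q => u (pre m (K + 1) q) (lst (K + 1) (blk m (K + 1) q)))
    refine h1.trans ?_
    have h2 := ih hb.prev (fun p => tr μ J (u p))
    have h3 : ∀ p, (tr μ J)^[K] (tr μ J (u p)) = (tr μ J)^[K + 1] (u p) := by
      intro p
      rw [Function.iterate_succ_apply]
    simp only [h3] at h2
    rw [← h2]
    apply Finset.sum_congr rfl
    intro q _
    rw [blk_lst hb]
    rfl

theorem block_aux_root (m K : ℕ) (okp : Pt Ω m → Ω → ℝ) (hb : Blk par m K) : ∀ u : Pt Ω m → Ω → ℝ,
    ∑ q : Pt Ω (m + K), tm par μ (fun _ => J) (m + K) q * (scb m okp K q * u (pre m K q) (lst K (blk m K q))) =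
      ∑ p : Pt Ω m, tm par μ (fun _ => J) m p * (okp p (gpt m 0 p) * ((tok μ J (okp p))^[K] (u p)) (gpt m 0 p)) := by
  induction K with
  | zero => exact fun u => rfl
  | succ K ih =>
    intro u
    have h1 := sum_tm_succ (par := par) (μ := μ) (J := fun _ => J) (m + K)
      (fun q => scb m okp (K + 1) q * u (pre m (K + 1) q) (lst (K + 1) (blk m (K + 1) q)))
    refine h1.trans ?_
    have h2 := ih hb.prev (fun p => tok μ J (okp p) (u p))
    have h3 : ∀ p, (tok μ J (okp p))^[K] (tok μ J (okp p) (u p)) = (tok μ J (okp p))^[K + 1] (u p) := by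
      intro p
      rw [Function.iterate_succ_apply]
    simp only [h3] at h2
    rw [← h2]
    apply Finset.sum_congr rfl
    intro q _
    rw [blk_lst hb]
    congr 1
    unfold tok tr
    rw [← mul_div_assoc, Finset.mul_sum]
    congr 1
    apply Finset.sum_congr rfl
    intro ω _
    show J _ ω * (scb m okp K q * okp (pre m K q) ω * u (pre m K q) ω) = _
    ring

/-- the probability that all points of the block are good -/
theorem block_root (m K : ℕ) (okp : Pt Ω m → Ω → ℝ) (F : Pt Ω m → ℝ) (hb : Blk par m K) :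
    ∑ q : Pt Ω (m + K), tm par μ (fun _ => J) (m + K) q * (scb m okp K q * F (pre m K q)) =
      ∑ p : Pt Ω m, tm par μ (fun _ => J) m p * (F p * wk μ J (okp p) K (gpt m 0 p)) := by
  have h1 := block_aux_root (par := par) (μ := μ) (J := J) m K okp hb (fun p _ => F p)
  rw [h1]
  apply Finset.sum_congr rfl
  intro p _
  have h2 : ∀ (K : ℕ) (c : ℝ), (tok μ J (okp p))^[K] (fun _ => c) = fun ω => c * ((tok μ J (okp p))^[K] (fun _ => 1)) ω := by
    intro K
    induction K with
    | zero =>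
      intro c
      funext ω
      show c = c * 1
      rw [mul_one]
    | succ K ih =>
      intro c
      funext ω
      rw [Function.iterate_succ_apply', Function.iterate_succ_apply', ih c]
      unfold tok tr
      rw [← mul_div_assoc, Finset.mul_sum]
      congr 1
      apply Finset.sum_congr rfl
      intro ω' _
      ring
  rw [wk_eq, h2 K (F p)]
  ring

omit [Fintype Ω] in
/-- success of the block comes from its points -/
theorem scb_pos (m : ℕ) (okp : Pt Ω m → Ω → ℝ) (K : ℕ) : ∀ q : Pt Ω (m + K), scb m okp K q ≠ 0 →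
    ∀ ω, ptm ω K (blk m K q) → okp (pre m K q) ω ≠ 0 := by
  induction K with
  | zero =>
    rintro q h ω rfl
    exact h
  | succ K ih =>
    intro q h ω hω
    have h1 : scb m okp K q.1 * okp (pre m K q.1) q.2 ≠ 0 := h
    rcases hω with hω | hω
    · exact ih q.1 (left_ne_zero_of_mul h1) ω hω
    · have h2 := right_ne_zero_of_mul h1
      have h3 : q.2 = ω := hω
      rw [h3] at h2
      exact h2

omit [Fintype Ω] in
theorem scb_bd (m : ℕ) (okp : Pt Ω m → Ω → ℝ) (h0 : ∀ p ω, 0 ≤ okp p ω) (h1 : ∀ p ω, okp p ω ≤ 1) (K : ℕ) :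
    ∀ q, 0 ≤ scb m okp K q ∧ scb m okp K q ≤ 1 := by
  induction K with
  | zero => exact fun q => ⟨h0 _ _, h1 _ _⟩
  | succ K ih =>
    intro q
    exact ⟨mul_nonneg (ih q.1).1 (h0 _ _), mul_le_one₀ (ih q.1).2 (h0 _ _) (h1 _ _)⟩

theorem tr_mono_supp (h : SJ μ J) {f g : Ω → ℝ} (hfg : ∀ ω, μ ω ≠ 0 → f ω ≤ g ω) (ω : Ω) : tr μ J f ω ≤ tr μ J g ω := by
  unfold tr
  apply div_le_div_of_nonneg_right _ (h.mu_nonneg ω)
  apply Finset.sum_le_sum
  intro ω' _
  by_cases h0 : J ω ω' = 0
  · rw [h0, zero_mul, zero_mul]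
  · exact mul_le_mul_of_nonneg_left (hfg ω' (h.supp h0).2) (h.nn ω ω')

theorem tr_smul (c : ℝ) (f : Ω → ℝ) (ω : Ω) : tr μ J (fun ω => c * f ω) ω = c * tr μ J f ω := by
  unfold tr
  rw [← mul_div_assoc, Finset.mul_sum]
  congr 1
  exact Finset.sum_congr rfl fun ω' _ => by ring

/-- laziness: a large value which occurs along the walk occurs at its end with positive probability -/
theorem end_ge (h : SJ μ J) {J₀ : Ω → Ω → ℝ} (h₀ : SJ μ J₀) {q : ℝ} (hq0 : 0 ≤ q) (hq1 : q ≤ 1)
    (hle : ∀ ω ω', q * J₀ ω ω' ≤ J ω ω') (b : Ω → ℝ) (hb : ∀ ω, b ω = 0 ∨ b ω = 1)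
    (hinv : ∀ ω ω', J₀ ω ω' ≠ 0 → b ω = b ω') (N : ℕ) :
    ∀ ω, μ ω ≠ 0 → q ^ N * (1 - wk μ J (fun ω => 1 - b ω) N ω) ≤ ((tr μ J)^[N] b) ω := by
  have hb0 : ∀ ω, 0 ≤ b ω := fun ω => by rcases hb ω with e | e <;> rw [e] <;> norm_num
  have hb1 : ∀ ω, b ω ≤ 1 := fun ω => by rcases hb ω with e | e <;> rw [e] <;> norm_num
  -- one step
  have s1 : ∀ ω, μ ω ≠ 0 → q * b ω ≤ tr μ J b ω := by
    intro ω hω
    have e1 : tr μ J₀ b ω = b ω := by
      rw [← h₀.tr_const (b ω) hω]
      unfold tr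
      congr 1
      apply Finset.sum_congr rfl
      intro ω' _
      by_cases h0 : J₀ ω ω' = 0
      · rw [h0, zero_mul, zero_mul]
      · rw [hinv ω ω' h0]
    rw [← e1]
    unfold tr
    rw [← mul_div_assoc, Finset.mul_sum]
    apply div_le_div_of_nonneg_right _ (h.mu_nonneg ω)
    apply Finset.sum_le_sum
    intro ω' _
    rw [← mul_assoc]
    exact mul_le_mul_of_nonneg_right (hle ω ω') (hb0 ω')
  have s2 : ∀ n ω, μ ω ≠ 0 → q ^ n * b ω ≤ ((tr μ J)^[n] b) ω := by
    intro n
    induction n with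
    | zero =>
      intro ω _
      rw [pow_zero, one_mul]
      exact le_rfl
    | succ n ih =>
      intro ω hω
      rw [Function.iterate_succ_apply']
      refine le_trans ?_ (tr_mono_supp h ih ω)
      rw [tr_smul, pow_succ, mul_assoc]
      exact mul_le_mul_of_nonneg_left (s1 ω hω) (pow_nonneg hq0 n)
  have hok0 : ∀ ω, 0 ≤ 1 - b ω := fun ω => by linarith [hb1 ω]
  have hok1 : ∀ ω, 1 - b ω ≤ 1 := fun ω => by linarith [hb0 ω]
  induction N with
  | zero =>
    intro ω _
    rw [pow_zero, one_mul]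
    show 1 - (1 - b ω) ≤ b ω
    linarith
  | succ N ih =>
    intro ω hω
    rw [wk_succ]
    rcases hb ω with e | e
    · rw [e, sub_zero, one_mul, Function.iterate_succ_apply']
      refine le_trans ?_ (tr_mono_supp h ih ω)
      rw [tr_smul]
      set W : Ω → ℝ := wk μ J (fun ω => 1 - b ω) N with hW
      have e1 : tr μ J (fun ω => 1 - W ω) ω = 1 - tr μ J W ω := by
        have e0 := h.tr_const 1 hω
        have e2 : tr μ J (fun ω => 1 - W ω) ω = tr μ J (fun _ => 1) ω - tr μ J W ω := by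
          unfold tr
          rw [← sub_div, ← Finset.sum_sub_distrib]
          congr 1
          exact Finset.sum_congr rfl fun ω' _ => by ring
        rw [e2, e0]
      rw [e1, pow_succ, mul_assoc]
      apply mul_le_mul_of_nonneg_left _ (pow_nonneg hq0 N)
      have e2 := h.tr_le_one (fun ω => (wk_bd h hok0 hok1 N ω).2) ω
      exact mul_le_of_le_one_left (by linarith) hq1
    · have h1 := s2 (N + 1) ω hω
      rw [e, mul_one] at h1
      rw [e, sub_self, zero_mul, sub_zero, mul_one]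
      exact h1

end

end

end Pool.Agent.Helper83.GR
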